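import Pool.Agent.W_868bb7_h60.AbA

set_option autoImplicit false

/-!
# Ab: the algebraic core

Let `R₁ = Rel ⊓ V`, `p` an equivariant projection onto `R₁` (`exists_proj`), `W = V ⊓ ker p`, a
subrepresentation, `V = R₁ ⊕ W`.
Let `w ∈ W`.  By `hN`, for some `N`, `(b w)^N w ∈ Rel`, and it is in `W`, so it is `0`, and
`0 = b ((b w)^N w) = (b w)^N * b w`: `b w` is nilpotent.  For `a` in the group algebra of `Γ₀`, `a w ∈ W`
and `b (a w) = a * b w`, so all `a * b w` are nilpotent and `b w = 0` (`maschke_nil'`).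
So `b (R γ w) = 0` for all `γ`, `w ∈ Rel` by `hT`, `w ∈ R₁ ⊓ ker p`, `w = 0`.
-/

namespace Pool.Agent.W868h60

/-- the action of the group algebra -/
noncomputable def Ab_act {K : Type*} [Field K] {Γ Γ₀ : Type*} [Group Γ] [Group Γ₀] {D : Type*}
    [AddCommGroup D] [Module K D] (R : Representation K Γ D) (ι : Γ₀ →* Γ) :
    MonoidAlgebra K Γ₀ →ₐ[K] Module.End K D :=
  MonoidAlgebra.lift K (Module.End K D) Γ₀ ((R : Γ →* Module.End K D).comp ι)

theorem Ab_act_of {K : Type*} [Field K] {Γ Γ₀ : Type*} [Group Γ] [Group Γ₀] {D : Type*}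
    [AddCommGroup D] [Module K D] (R : Representation K Γ D) (ι : Γ₀ →* Γ) (τ : Γ₀) (x : D) :
    Ab_act R ι (MonoidAlgebra.of K Γ₀ τ) x = R (ι τ) x := by
  unfold Ab_act
  rw [MonoidAlgebra.lift_of]
  rfl

theorem Ab_mem {K : Type*} [Field K] {Γ Γ₀ : Type*} [Group Γ] [Group Γ₀] {D : Type*}
    [AddCommGroup D] [Module K D] (R : Representation K Γ D) (ι : Γ₀ →* Γ) (W : Submodule K D)
    (hW : ∀ γ : Γ, ∀ x ∈ W, R γ x ∈ W) (a : MonoidAlgebra K Γ₀) (x : D) (hx : x ∈ W) :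
    Ab_act R ι a x ∈ W := by
  induction a using MonoidAlgebra.induction_on with
  | of g =>
    rw [Ab_act_of]
    exact hW _ x hx
  | add f g hf hg =>
    rw [map_add, LinearMap.add_apply]
    exact W.add_mem hf hg
  | smul r f hf =>
    rw [map_smul, LinearMap.smul_apply]
    exact W.smul_mem r hf

theorem Ab_b {K : Type*} [Field K] {Γ Γ₀ : Type*} [Group Γ] [Group Γ₀] {D : Type*}
    [AddCommGroup D] [Module K D] (R : Representation K Γ D) (ι : Γ₀ →* Γ)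
    (b : D →ₗ[K] MonoidAlgebra K Γ₀)
    (hb : ∀ (τ : Γ₀) (x : D), b (R (ι τ) x) = MonoidAlgebra.of K Γ₀ τ * b x)
    (a : MonoidAlgebra K Γ₀) (x : D) : b (Ab_act R ι a x) = a * b x := by
  induction a using MonoidAlgebra.induction_on with
  | of g => rw [Ab_act_of, hb]
  | add f g hf hg => rw [map_add, LinearMap.add_apply, map_add, hf, hg, add_mul]
  | smul r f hf => rw [map_smul, LinearMap.smul_apply, map_smul, hf, smul_mul_assoc]

theorem abstract_key {K : Type*} [Field K] [CharZero K] {Γ Γ₀ : Type*} [Group Γ] [Finite Γ]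
    [Group Γ₀] [Finite Γ₀] {D : Type*} [AddCommGroup D] [Module K D]
    (R : Representation K Γ D) (ι : Γ₀ →* Γ) (b : D →ₗ[K] MonoidAlgebra K Γ₀)
    (hb : ∀ (τ : Γ₀) (x : D), b (R (ι τ) x) = MonoidAlgebra.of K Γ₀ τ * b x)
    (V Rel : Submodule K D) (hV : ∀ γ : Γ, ∀ x ∈ V, R γ x ∈ V)
    (hR : ∀ γ : Γ, ∀ x ∈ Rel, R γ x ∈ Rel)
    (hT : ∀ x : D, (∀ γ : Γ, b (R γ x) = 0) → x ∈ Rel)
    (hN : ∀ x ∈ V, ∃ N : ℕ,
      MonoidAlgebra.lift K (Module.End K D) Γ₀ ((R : Γ →* Module.End K D).comp ι)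
        ((b x) ^ N) x ∈ Rel) :
    V ≤ Rel := by
  obtain ⟨p, hp1, hp2, hp3⟩ := exists_proj R (Rel ⊓ V) (fun γ x hx => ⟨hR γ x hx.1, hV γ x hx.2⟩)
  let W : Submodule K D := V ⊓ LinearMap.ker p
  have hW : ∀ γ : Γ, ∀ x ∈ W, R γ x ∈ W := by
    intro γ x hx
    refine ⟨hV γ x hx.1, LinearMap.mem_ker.2 ?_⟩
    rw [hp3, LinearMap.mem_ker.1 hx.2, map_zero]
  have hzero : ∀ w ∈ W, w ∈ Rel → w = 0 := by
    intro w hw hr
    rw [← hp2 w ⟨hr, hw.1⟩]
    exact LinearMap.mem_ker.1 hw.2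
  have hnil : ∀ w ∈ W, IsNilpotent (b w) := by
    intro w hw
    obtain ⟨n, hn⟩ := hN w hw.1
    have h1 : Ab_act R ι ((b w) ^ n) w = 0 := hzero _ (Ab_mem R ι W hW _ w hw) hn
    have h2 := Ab_b R ι b hb ((b w) ^ n) w
    rw [h1, map_zero] at h2
    exact ⟨n + 1, by rw [pow_succ]; exact h2.symm⟩
  have hbw : ∀ w ∈ W, b w = 0 := by
    intro w hw
    refine maschke_nil' (b w) fun a => ?_
    rw [← Ab_b R ι b hb a w]
    exact hnil _ (Ab_mem R ι W hW a w hw)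
  have hW0 : ∀ w ∈ W, w = 0 := by
    intro w hw
    exact hzero w hw (hT w fun γ => hbw _ (hW γ w hw))
  intro x hx
  have h1 : x - p x ∈ W := by
    refine ⟨V.sub_mem hx (hp1 x).2, LinearMap.mem_ker.2 ?_⟩
    rw [map_sub, hp2 _ (hp1 x), sub_self]
  have h2 := hW0 _ h1
  rw [sub_eq_zero] at h2
  rw [h2]
  exact (hp1 x).1

end Pool.Agent.W868h60
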