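import Mathlib
import Pool.Agent.W_868bb7_h64.Maschke

set_option autoImplicit false

/-!
# AbA: Maschke

`maschke_nil'`: the trace of the multiplication by `a * y` on the group algebra is
zero, and for `a = g⁻¹` it is `|Γ|` times the coefficient of `y` at `g`; or use `maschke_nil` of
`W_868bb7_h64.Maschke` (import it) with `ρ = MonoidAlgebra.of`, `Algebra.adjoin K (Set.range ρ) = ⊤`.
`exists_proj`: average of a linear projection onto `U` over the group.
-/

namespace Pool.Agent.W868h60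

theorem AbA_mem {K : Type*} [Field K] {Γ : Type*} [Group Γ] (y : MonoidAlgebra K Γ) :
    y ∈ Algebra.adjoin K (Set.range (MonoidAlgebra.of K Γ)) := by
  induction y using MonoidAlgebra.induction_on with
  | of g => exact Algebra.subset_adjoin ⟨g, rfl⟩
  | add f g hf hg => exact Subalgebra.add_mem _ hf hg
  | smul r f hf => exact Subalgebra.smul_mem _ hf r

theorem maschke_nil' {K : Type*} [Field K] [CharZero K] {Γ : Type*} [Group Γ] [Finite Γ]
    (y : MonoidAlgebra K Γ) (h : ∀ a : MonoidAlgebra K Γ, IsNilpotent (a * y)) : y = 0 :=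
  Pool.Agent.W_868bb7_h64.maschke_nil (MonoidAlgebra.of K Γ) y (AbA_mem y) fun a _ => h a

/-- an equivariant projection onto a subrepresentation -/
theorem exists_proj {K : Type*} [Field K] [CharZero K] {Γ : Type*} [Group Γ] [Finite Γ]
    {D : Type*} [AddCommGroup D] [Module K D] (R : Representation K Γ D) (U : Submodule K D)
    (hU : ∀ γ : Γ, ∀ x ∈ U, R γ x ∈ U) :
    ∃ p : D →ₗ[K] D, (∀ x, p x ∈ U) ∧ (∀ x ∈ U, p x = x) ∧ ∀ (γ : Γ) (x : D),
      p (R γ x) = R γ (p x) := by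
  classical
  have := Fintype.ofFinite Γ
  obtain ⟨π, hπ⟩ := U.subtype.exists_leftInverse_of_injective (Submodule.ker_subtype U)
  have hπ' : ∀ x (hx : x ∈ U), ((π x : U) : D) = x := by
    intro x hx
    have h := congrArg (fun f : U →ₗ[K] U => ((f ⟨x, hx⟩ : U) : D)) hπ
    exact h
  have h4 : (Fintype.card Γ : K) ≠ 0 := by
    exact_mod_cast Fintype.card_ne_zero
  refine ⟨(Fintype.card Γ : K)⁻¹ • ∑ γ : Γ, (R γ) ∘ₗ (U.subtype ∘ₗ π) ∘ₗ (R γ⁻¹), ?_, ?_, ?_⟩
  · intro x
    rw [LinearMap.smul_apply, LinearMap.sum_apply]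
    refine U.smul_mem _ (U.sum_mem fun γ _ => ?_)
    exact hU γ _ (π (R γ⁻¹ x)).2
  · intro x hx
    rw [LinearMap.smul_apply, LinearMap.sum_apply]
    have h1 : ∀ γ : Γ, ((R γ) ∘ₗ (U.subtype ∘ₗ π) ∘ₗ (R γ⁻¹)) x = x := by
      intro γ
      change R γ ((π (R γ⁻¹ x) : U) : D) = x
      rw [hπ' _ (hU _ x hx)]
      have h2 : (R γ * R γ⁻¹) x = x := by
        rw [← map_mul, mul_inv_cancel, map_one]
        rfl
      exact h2
    rw [Finset.sum_congr rfl fun γ _ => h1 γ, Finset.sum_const, Finset.card_univ,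
      ← Nat.cast_smul_eq_nsmul K, smul_smul, inv_mul_cancel₀ h4, one_smul]
  · intro γ x
    rw [LinearMap.smul_apply, LinearMap.smul_apply, map_smul, LinearMap.sum_apply,
      LinearMap.sum_apply, map_sum]
    congr 1
    refine Fintype.sum_equiv (Equiv.mulLeft γ⁻¹) _ _ fun δ => ?_
    change R δ ((π (R δ⁻¹ (R γ x)) : U) : D) =
      R γ (R (γ⁻¹ * δ) ((π (R (γ⁻¹ * δ)⁻¹ x) : U) : D))
    have h1 : R δ⁻¹ (R γ x) = R (γ⁻¹ * δ)⁻¹ x := by
      have : R (γ⁻¹ * δ)⁻¹ = R δ⁻¹ * R γ := by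
        rw [mul_inv_rev, inv_inv, map_mul]
      rw [this]
      rfl
    have h2 : ∀ z, R γ (R (γ⁻¹ * δ) z) = R δ z := by
      intro z
      have : R δ = R γ * R (γ⁻¹ * δ) := by
        rw [← map_mul, mul_inv_cancel_left]
      rw [this]
      rfl
    rw [h1, h2]

end Pool.Agent.W868h60
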