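import Pool.Agent.W_868bb7_h60.PermE

set_option autoImplicit false

/-!
# ActE: permutations of factors along bijections

`actE X e` for `e : Fin n ≃ Fin m`; as `n = m` (`Fin.equiv_iff_eq`), every statement is proved by
`obtain rfl : n = m := Fin.equiv_iff_eq.1 ⟨e⟩` and `actE_perm` (`eqToHom_refl`, `finCongr` of `rfl` is
the identity), `act_mul`, `act_one`, `act_shift` (library `W_MP_868bb7_ag.PowAct`).
Note `act_mul : act X n (σ * τ) = act X n τ ≫ act X n σ` and `e.trans e' = e' * e` for permutations.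
-/

namespace Pool.Agent.W868h60

open CategoryTheory MonoidalCategory Equiv
open Pool.Agent.W_MP_868bb7_ag Pool.Agent.W_868bb7_h64

universe v u w

section Mon

variable {C : Type u} [Category.{v} C] [MonoidalCategory C] [SymmetricCategory C]

theorem actE_perm (X : C) {n : ℕ} (e : Equiv.Perm (Fin n)) : actE X e = act X n e := by
  unfold actE
  rw [eqToHom_refl, Category.id_comp]
  have h : (finCongr (Fin.equiv_iff_eq.1 ⟨e⟩)).symm.trans e = e :=
    Equiv.ext fun x => rfl
  rw [h]

theorem actE_refl (X : C) (n : ℕ) : actE X (Equiv.refl (Fin n)) = 𝟙 _ := by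
  rw [actE_perm]
  exact act_one X n

theorem actE_trans (X : C) {n m k : ℕ} (e : Fin n ≃ Fin m) (e' : Fin m ≃ Fin k) :
    actE X (e.trans e') = actE X e ≫ actE X e' := by
  obtain rfl : n = m := Fin.equiv_iff_eq.1 ⟨e⟩
  obtain rfl : n = k := Fin.equiv_iff_eq.1 ⟨e'⟩
  rw [actE_perm, actE_perm, actE_perm]
  exact act_mul X n e' e

theorem actE_shE (X : C) {n m : ℕ} (e : Fin n ≃ Fin m) :
    (actE X (shE e) : X ⊗ pow X n ⟶ X ⊗ pow X m) = X ◁ actE X e := by
  obtain rfl : n = m := Fin.equiv_iff_eq.1 ⟨e⟩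
  have h1 : actE X (shE e) = act X (n + 1) (shE e) := actE_perm X (shE e)
  rw [shE_perm] at h1
  have h2 : actE X (shE e) = X ◁ act X n e := by
    rw [shE_perm, actE_perm]
    exact act_shift X n e
  rw [actE_perm X e]
  exact h2

theorem actE_symm (X : C) {n m : ℕ} (e : Fin n ≃ Fin m) : actE X e ≫ actE X e.symm = 𝟙 _ := by
  rw [← actE_trans, Equiv.self_trans_symm, actE_refl]

theorem actE_act (X : C) {n m : ℕ} (σ : Equiv.Perm (Fin n)) (e : Fin n ≃ Fin m) :
    act X n σ ≫ actE X e = actE X (Equiv.trans σ e) := by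
  rw [actE_trans, actE_perm]

theorem actE_act' (X : C) {n m : ℕ} (e : Fin n ≃ Fin m) (σ : Equiv.Perm (Fin m)) :
    actE X e ≫ act X m σ = actE X (e.trans σ) := by
  rw [actE_trans, actE_perm X σ]

end Mon

end Pool.Agent.W868h60
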