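import Pool.Agent.W_868bb7_h60.ActE

set_option autoImplicit false

/-!
# ActP: decorations and permutations

`rho_pm` in `W_868bb7_h64.Strand`; `act_triv`: induction on `n`, `sw T Z = 𝟙` for `β_{T,T} = 𝟙`.
-/

namespace Pool.Agent.W868h60

open CategoryTheory MonoidalCategory Equiv
open Pool.Agent.W_MP_868bb7_ag Pool.Agent.W_868bb7_h64

universe v u w

section Mon

variable {C : Type u} [Category.{v} C] [MonoidalCategory C] [SymmetricCategory C]

/-- decorations are moved along (`rho_pm` in `W_868bb7_h64.Strand`) -/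
theorem pmv_actE (X : C) {n m : ℕ} (e : Fin n ≃ Fin m) (f : Fin n → End X) :
    pmv X n f ≫ actE X e = actE X e ≫ pmv X m (fun i => f (e.symm i)) := by
  obtain rfl : n = m := Fin.equiv_iff_eq.1 ⟨e⟩
  rw [actE_perm]
  exact rho_pm X n e f

theorem pmv_act (X : C) {n : ℕ} (σ : Equiv.Perm (Fin n)) (f : Fin n → End X) :
    pmv X n f ≫ act X n σ = act X n σ ≫ pmv X n (fun i => f (σ.symm i)) := by
  exact rho_pm X n σ f

theorem ActP_sw (T Z : C) (hT : (β_ T T).hom = 𝟙 _) : sw T Z = 𝟙 _ := by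
  unfold sw
  rw [hT, id_whiskerRight, Category.id_comp, Iso.inv_hom_id]

omit [SymmetricCategory C] in
theorem ActP_step {T Z : C} {a b : T ⊗ Z ⟶ T ⊗ Z} (ha : a = 𝟙 _) (hb : b = 𝟙 _) :
    a ≫ b = 𝟙 (T ⊗ Z) := by
  rw [ha, hb, Category.id_comp]

omit [SymmetricCategory C] in
theorem ActP_wh {T Z : C} {a : Z ⟶ Z} (ha : a = 𝟙 _) : T ◁ a = 𝟙 (T ⊗ Z) := by
  rw [ha, whiskerLeft_id]

theorem ActP_mv (T : C) (hT : (β_ T T).hom = 𝟙 _) (n p : ℕ) : mv T n p = 𝟙 _ := by
  induction n generalizing p with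
  | zero => rfl
  | succ n ih =>
    cases p with
    | zero => rfl
    | succ p => exact ActP_step (ActP_sw T (pow T n) hT) (ActP_wh (ih p))

/-- for `β_{T,T} = 𝟙` all permutations act trivially on `T^{⊗ n}`: `mv` is a composition of
exchanges `sw T Z = 𝟙` -/
theorem act_triv (T : C) (hT : (β_ T T).hom = 𝟙 _) (n : ℕ) (σ : Equiv.Perm (Fin n)) :
    act T n σ = 𝟙 _ := by
  induction n with
  | zero => rfl
  | succ n ih =>
    rw [pa_act_succ]
    exact ActP_step (ActP_wh (ih (tail σ))) (ActP_mv T hT n _)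

end Mon

end Pool.Agent.W868h60
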