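import Pool.Agent.W_868bb7_h60.Defs

set_option autoImplicit false

/-!
# Inv: invertible objects

`T ⊗ T` with `T ⊗ T' ≅ 𝟙`: tensoring with `T` (or with `T^{⊗ n}`) is faithful, and `End T = K`.
-/

namespace Pool.Agent.W868h60

open CategoryTheory MonoidalCategory Equiv
open Pool.Agent.W_MP_868bb7_ag Pool.Agent.W_868bb7_h64

universe v u w

section Mon

variable {C : Type u} [Category.{v} C] [MonoidalCategory C] [Preadditive C]

/-- tensoring with `S` on the left is faithful -/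
def Faith (S : C) : Prop := ∀ {A B : C} (f : A ⟶ B), S ◁ f = 0 → f = 0

variable [MonoidalPreadditive C]

/-- apply `T' ◁ _` and use `T' ⊗ T ≅ 𝟙` -/
theorem faith_of_inv {T T' : C} (e : T' ⊗ T ≅ 𝟙_ C) : Faith T := by
  intro A B f hf
  have h1 : (T' ⊗ T) ◁ f = 0 := by
    rw [tensor_whiskerLeft, hf, MonoidalPreadditive.whiskerLeft_zero]
    simp
  have h2 : (𝟙_ C) ◁ f ≫ e.inv ▷ B = 0 := by
    rw [whisker_exchange, h1, Limits.comp_zero]
  have h3 : (𝟙_ C) ◁ f = 0 := by
    rw [← cancel_mono (e.inv ▷ B), h2, Limits.zero_comp]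
  have h4 : (λ_ A).hom ≫ f = 0 := by
    rw [← leftUnitor_naturality, h3, Limits.zero_comp]
  rw [← cancel_epi (λ_ A).hom, h4, Limits.comp_zero]

theorem faith_tensor {S R : C} (hS : Faith S) (hR : Faith R) : Faith (S ⊗ R) := by
  intro A B f hf
  apply hR
  apply hS
  rw [tensor_whiskerLeft] at hf
  have h1 := congrArg (fun g => (α_ S R A).inv ≫ g ≫ (α_ S R B).hom) hf
  simpa using h1

theorem faith_unit : Faith (𝟙_ C) := by
  intro A B f hf
  have h4 : (λ_ A).hom ≫ f = 0 := by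
    rw [← leftUnitor_naturality, hf, Limits.zero_comp]
  rw [← cancel_epi (λ_ A).hom, h4, Limits.comp_zero]

theorem faith_pow {T : C} (hT : Faith T) (n : ℕ) : Faith (pow T n) := by
  induction n with
  | zero => exact faith_unit
  | succ n ih => exact faith_tensor hT ih

/-- `f ▷ S = 0` implies `f = 0` -/
theorem faith_right [SymmetricCategory C] {S : C} (hS : Faith S) {A B : C} (f : A ⟶ B)
    (h : f ▷ S = 0) : f = 0 := by
  apply hS
  have h1 : (β_ S A).hom ≫ f ▷ S = S ◁ f ≫ (β_ S B).hom :=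
    (BraidedCategory.braiding_naturality_right S f).symm
  rw [h, Limits.comp_zero] at h1
  rw [← cancel_mono (β_ S B).hom, ← h1, Limits.zero_comp]

end Mon

section Lin

variable (K : Type w) [Field K] {C : Type u} [Category.{v} C] [MonoidalCategory C]
  [Preadditive C] [Linear K C] [MonoidalPreadditive C] [MonoidalLinear K C]
  [SymmetricCategory C] [UnitK K C]

/-- `End T = K`: `φ ▷ T'` is conjugate (by `e`) to an endomorphism of `𝟙`, a scalar `a`
(`UnitK.bij`), so `(φ - a) ▷ T' = 0`, `(φ - a) ▷ (T' ⊗ T) = 0`, `φ = a`. -/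
theorem end_scalar {T T' : C} (e : T ⊗ T' ≅ 𝟙_ C) (φ : T ⟶ T) : ∃ a : K, φ = a • 𝟙 T := by
  obtain ⟨a, ha⟩ := (UnitK.bij (K := K) (C := C)).2 (e.inv ≫ φ ▷ T' ≫ e.hom)
  refine ⟨a, ?_⟩
  have h1 : φ ▷ T' = a • 𝟙 (T ⊗ T') := by
    have h2 := congrArg (fun g => e.hom ≫ g ≫ e.inv) ha
    simpa using h2.symm
  have h3 : (φ - a • 𝟙 T) ▷ T' = 0 := by
    have h4 : (φ - a • 𝟙 T) ▷ T' = φ ▷ T' - (a • 𝟙 T) ▷ T' := by
      rw [sub_eq_add_neg, MonoidalPreadditive.add_whiskerRight, sub_eq_add_neg]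
      congr 1
      have h5 : (-(a • 𝟙 T)) ▷ T' + (a • 𝟙 T) ▷ T' = 0 := by
        rw [← MonoidalPreadditive.add_whiskerRight, neg_add_cancel,
          MonoidalPreadditive.zero_whiskerRight]
      exact eq_neg_of_add_eq_zero_left h5
    rw [h4, h1, MonoidalLinear.smul_whiskerRight, id_whiskerRight, sub_self]
  exact sub_eq_zero.1 (faith_right (faith_of_inv e) _ h3)

end Lin

end Pool.Agent.W868h60
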