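import Pool.Agent.W_868bb7_h60.ActP

set_option autoImplicit false

/-!
# Sp: the space of the decorated matchings

`G` is a finite group acting on `P` through `ρ`, `q(g x, y) = q(x, g* y)` (`AdjG`).
-/

namespace Pool.Agent.W868h60

open CategoryTheory MonoidalCategory Equiv
open Pool.Agent.W_MP_868bb7_ag Pool.Agent.W_868bb7_h64

universe v u w

section Mon

variable {C : Type u} [Category.{v} C] [MonoidalCategory C] [SymmetricCategory C]

/-- `q(g x, y) = q(x, g* y)` -/
def AdjG {P T : C} (q : P ⊗ P ⟶ T) {G : Type} [Group G] [StarMul G] (ρ : G →* End P) : Prop :=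
  ∀ g : G, ((show P ⟶ P from ρ g) ▷ P) ≫ q = (P ◁ (show P ⟶ P from ρ (star g))) ≫ q

/-- the matching `e` with decorations `g` of the legs -/
def dm {P T : C} (q : P ⊗ P ⟶ T) {G : Type} [Group G] (ρ : G →* End P) (n r : ℕ)
    (e : Fin n ≃ Fin (2 * r)) (g : Fin n → G) : pow P n ⟶ pow T r :=
  pmv P n (fun i => ρ (g i)) ≫ actE P e ≫ qa q r

/-- decorated permutations act on the decorated matchings -/
theorem act_dm {P T : C} (q : P ⊗ P ⟶ T) {G : Type} [Group G] (ρ : G →* End P) (n m r : ℕ)
    (e : Fin m ≃ Fin (2 * r)) (g : Fin m → G) (e' : Fin n ≃ Fin m) :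
    actE P e' ≫ dm q ρ m r e g = dm q ρ n r (e'.trans e) (fun i => g (e' i)) := by
  unfold dm
  have h := pmv_actE P e' (fun i => ρ (g (e' i)))
  simp only [Equiv.apply_symm_apply] at h
  rw [actE_trans, Category.assoc, ← Category.assoc, ← h, Category.assoc]

theorem pmv_dm {P T : C} (q : P ⊗ P ⟶ T) {G : Type} [Group G] (ρ : G →* End P) (n r : ℕ)
    (e : Fin n ≃ Fin (2 * r)) (g g' : Fin n → G) :
    pmv P n (fun i => ρ (g' i)) ≫ dm q ρ n r e g = dm q ρ n r e (g * g') := by
  have h : (fun i => ρ ((g * g') i)) = (fun i => ρ (g i)) * (fun i => ρ (g' i)) := by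
    funext i
    simp
  unfold dm
  rw [h, pmv_mul, Category.assoc]

end Mon

section Lin

variable (K : Type w) [Field K] {C : Type u} [Category.{v} C] [MonoidalCategory C]
  [Preadditive C] [Linear K C] [MonoidalPreadditive C] [MonoidalLinear K C]
  [SymmetricCategory C]

/-- the span of the decorated matchings -/
def LS {P T : C} (q : P ⊗ P ⟶ T) {G : Type} [Group G] (ρ : G →* End P) (n r : ℕ) :
    Submodule K (pow P n ⟶ pow T r) :=
  Submodule.span K {F | ∃ (e : Fin n ≃ Fin (2 * r)) (g : Fin n → G), F = dm q ρ n r e g}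

theorem actE_LS {P T : C} (q : P ⊗ P ⟶ T) {G : Type} [Group G] (ρ : G →* End P) (n m r : ℕ)
    (e' : Fin n ≃ Fin m) (F : pow P m ⟶ pow T r) (hF : F ∈ LS K q ρ m r) :
    actE P e' ≫ F ∈ LS K q ρ n r := by
  unfold LS at hF ⊢
  induction hF using Submodule.span_induction with
  | mem x hx =>
    obtain ⟨e, g, rfl⟩ := hx
    rw [act_dm]
    exact Submodule.subset_span ⟨_, _, rfl⟩
  | zero =>
    rw [Limits.comp_zero]
    exact Submodule.zero_mem _
  | add x y _ _ hx hy =>
    rw [Preadditive.comp_add]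
    exact Submodule.add_mem _ hx hy
  | smul a x _ hx =>
    rw [Linear.comp_smul]
    exact Submodule.smul_mem _ _ hx

end Lin

end Pool.Agent.W868h60
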