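import Pool.Agent.W_868bb7_h60.SDT
import Pool.Agent.W_868bb7_h60.Sp
import Pool.Agent.W_868bb7_h60.Inv

set_option autoImplicit false

/-!
# AdjC: adjoints of decorations, copairing

* `c_adj`: both sides agree after `_ ▷ P ≫ α ≫ P ◁ q` (zigzag `d.zig`, `h`), and this is faithful:
  if `L : T ⟶ P ⊗ P`, `(L ▷ P) ≫ α ≫ (P ◁ q) = 0`, then tensor with `P` on the right and precompose
  with `T ◁ c`: by the zigzag `L ▷ T` (up to braidings) is zero, `Faith T`.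
* `c_adj_pmv`: induction on `n`, naturality of `tensorμ`.
-/

namespace Pool.Agent.W868h60

open CategoryTheory MonoidalCategory Equiv
open Pool.Agent.W_MP_868bb7_ag Pool.Agent.W_868bb7_h64

universe v u w

section Aux

variable {C : Type u} [Category.{v} C] [MonoidalCategory C] [SymmetricCategory C]

theorem AdjC_perm (P : C) :
    (β_ (P ⊗ P) P).hom ≫ (α_ P P P).inv ≫ (β_ (P ⊗ P) P).hom =
      (β_ P P).hom ▷ P ≫ (α_ P P P).hom ≫ P ◁ (β_ P P).hom := by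
  have h1 : (β_ (P ⊗ P) P).hom ≫ (α_ P P P).inv =
      (α_ P P P).hom ≫ P ◁ (β_ P P).hom ≫ (α_ P P P).inv ≫ (β_ P P).hom ▷ P := by
    rw [BraidedCategory.braiding_tensor_left_hom]
    simp only [Category.assoc, Iso.hom_inv_id, Category.comp_id]
  rw [← Category.assoc, h1]
  simp only [Category.assoc]
  rw [BraidedCategory.braiding_naturality_left, BraidedCategory.braiding_tensor_left_hom]
  simp only [Category.assoc, Iso.inv_hom_id_assoc]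
  rw [← MonoidalCategory.whiskerLeft_comp_assoc, SymmetricCategory.symmetry,
    MonoidalCategory.whiskerLeft_id, Category.id_comp, Iso.hom_inv_id_assoc]

/-- the second zigzag -/
theorem AdjC_zag {P T : C} (d : SD P T) :
    P ◁ d.c ≫ (α_ P P P).inv ≫ d.q ▷ P = (β_ P T).hom := by
  have h1 : (β_ T P).hom ≫ (P ◁ d.c ≫ (α_ P P P).inv ≫ d.q ▷ P) ≫ (β_ T P).hom =
      (β_ T P).hom := by
    calc (β_ T P).hom ≫ (P ◁ d.c ≫ (α_ P P P).inv ≫ d.q ▷ P) ≫ (β_ T P).hom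
        = ((β_ T P).hom ≫ P ◁ d.c) ≫ (α_ P P P).inv ≫ (d.q ▷ P ≫ (β_ T P).hom) := by
          simp only [Category.assoc]
      _ = (d.c ▷ P ≫ (β_ (P ⊗ P) P).hom) ≫ (α_ P P P).inv ≫
            ((β_ (P ⊗ P) P).hom ≫ P ◁ d.q) := by
          rw [BraidedCategory.braiding_naturality_left, BraidedCategory.braiding_naturality_left]
      _ = d.c ▷ P ≫ ((β_ (P ⊗ P) P).hom ≫ (α_ P P P).inv ≫ (β_ (P ⊗ P) P).hom) ≫ P ◁ d.q := by
          simp only [Category.assoc]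
      _ = (d.c ≫ (β_ P P).hom) ▷ P ≫ (α_ P P P).hom ≫ P ◁ ((β_ P P).hom ≫ d.q) := by
          rw [AdjC_perm, MonoidalCategory.comp_whiskerRight, MonoidalCategory.whiskerLeft_comp]
          simp only [Category.assoc]
      _ = (β_ T P).hom := by rw [d.cs, d.qs, d.zig]
  have h2 : (P ◁ d.c ≫ (α_ P P P).inv ≫ d.q ▷ P) ≫ (β_ T P).hom = 𝟙 _ := by
    have h3 := congrArg (fun f => (β_ P T).hom ≫ f) h1
    rw [SymmetricCategory.symmetry_assoc, SymmetricCategory.symmetry] at h3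
    exact h3
  calc P ◁ d.c ≫ (α_ P P P).inv ≫ d.q ▷ P
      = ((P ◁ d.c ≫ (α_ P P P).inv ≫ d.q ▷ P) ≫ (β_ T P).hom) ≫ (β_ P T).hom := by
        rw [Category.assoc, SymmetricCategory.symmetry, Category.comp_id]
    _ = (β_ P T).hom := by rw [h2, Category.id_comp]

theorem AdjC_rec {P T : C} (d : SD P T) (L : T ⟶ P ⊗ P) :
    T ◁ d.c ≫ (α_ T P P).inv ≫ (L ▷ P ≫ (α_ P P P).hom ≫ P ◁ d.q) ▷ P =
      L ▷ T ≫ (α_ P P T).hom ≫ P ◁ (β_ P T).hom ≫ (α_ P T P).inv := by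
  rw [← AdjC_zag d]
  have h1 : T ◁ d.c ≫ L ▷ (P ⊗ P) = L ▷ T ≫ (P ⊗ P) ◁ d.c := (whisker_exchange _ _)
  have h2 : (α_ T P P).inv ≫ (L ▷ P) ▷ P = L ▷ (P ⊗ P) ≫ (α_ (P ⊗ P) P P).inv := by
    simp
  calc T ◁ d.c ≫ (α_ T P P).inv ≫ (L ▷ P ≫ (α_ P P P).hom ≫ P ◁ d.q) ▷ P
      = T ◁ d.c ≫ ((α_ T P P).inv ≫ (L ▷ P) ▷ P) ≫ ((α_ P P P).hom ≫ P ◁ d.q) ▷ P := by
        rw [MonoidalCategory.comp_whiskerRight]
        simp only [Category.assoc]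
    _ = (T ◁ d.c ≫ L ▷ (P ⊗ P)) ≫ (α_ (P ⊗ P) P P).inv ≫
          ((α_ P P P).hom ≫ P ◁ d.q) ▷ P := by
        rw [h2]
        simp only [Category.assoc]
    _ = L ▷ T ≫ ((P ⊗ P) ◁ d.c ≫ (α_ (P ⊗ P) P P).inv ≫
          ((α_ P P P).hom ≫ P ◁ d.q) ▷ P) := by
        rw [h1, Category.assoc]
    _ = _ := by
        congr 1
        monoidal

end Aux

section Mon

variable {C : Type u} [Category.{v} C] [MonoidalCategory C] [SymmetricCategory C]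
  [Preadditive C] [MonoidalPreadditive C]

theorem c_adj {P T : C} (d : SD P T) (hF : Faith T) (a a' : P ⟶ P)
    (h : (a ▷ P) ≫ d.q = (P ◁ a') ≫ d.q) : d.c ≫ (P ◁ a) = d.c ≫ (a' ▷ P) := by
  have h1 : (d.c ≫ (P ◁ a)) ▷ P ≫ (α_ P P P).hom ≫ P ◁ d.q = T ◁ a' ≫ (β_ T P).hom := by
    have e1 : (P ◁ a) ▷ P ≫ (α_ P P P).hom = (α_ P P P).hom ≫ P ◁ (a ▷ P) := by simp
    have e2 : (α_ P P P).hom ≫ P ◁ (P ◁ a') = (P ⊗ P) ◁ a' ≫ (α_ P P P).hom := by simp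
    calc (d.c ≫ (P ◁ a)) ▷ P ≫ (α_ P P P).hom ≫ P ◁ d.q
        = d.c ▷ P ≫ ((P ◁ a) ▷ P ≫ (α_ P P P).hom) ≫ P ◁ d.q := by
          rw [MonoidalCategory.comp_whiskerRight]
          simp only [Category.assoc]
      _ = d.c ▷ P ≫ (α_ P P P).hom ≫ P ◁ (a ▷ P ≫ d.q) := by
          rw [e1, MonoidalCategory.whiskerLeft_comp]
          simp only [Category.assoc]
      _ = d.c ▷ P ≫ ((α_ P P P).hom ≫ P ◁ (P ◁ a')) ≫ P ◁ d.q := by
          rw [h, MonoidalCategory.whiskerLeft_comp]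
          simp only [Category.assoc]
      _ = (d.c ▷ P ≫ (P ⊗ P) ◁ a') ≫ (α_ P P P).hom ≫ P ◁ d.q := by
          rw [e2]
          simp only [Category.assoc]
      _ = T ◁ a' ≫ (d.c ▷ P ≫ (α_ P P P).hom ≫ P ◁ d.q) := by
          rw [← whisker_exchange, Category.assoc]
      _ = T ◁ a' ≫ (β_ T P).hom := by rw [d.zig]
  have h2 : (d.c ≫ (a' ▷ P)) ▷ P ≫ (α_ P P P).hom ≫ P ◁ d.q = T ◁ a' ≫ (β_ T P).hom := by
    have e1 : (a' ▷ P) ▷ P ≫ (α_ P P P).hom = (α_ P P P).hom ≫ a' ▷ (P ⊗ P) := by simp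
    calc (d.c ≫ (a' ▷ P)) ▷ P ≫ (α_ P P P).hom ≫ P ◁ d.q
        = d.c ▷ P ≫ ((a' ▷ P) ▷ P ≫ (α_ P P P).hom) ≫ P ◁ d.q := by
          rw [MonoidalCategory.comp_whiskerRight]
          simp only [Category.assoc]
      _ = d.c ▷ P ≫ (α_ P P P).hom ≫ (a' ▷ (P ⊗ P) ≫ P ◁ d.q) := by
          rw [e1]
          simp only [Category.assoc]
      _ = (d.c ▷ P ≫ (α_ P P P).hom ≫ P ◁ d.q) ≫ a' ▷ T := by
          rw [← whisker_exchange]
          simp only [Category.assoc]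
      _ = T ◁ a' ≫ (β_ T P).hom := by
          rw [d.zig, BraidedCategory.braiding_naturality_right]
  have h3 := AdjC_rec d (d.c ≫ (P ◁ a))
  have h4 := AdjC_rec d (d.c ≫ (a' ▷ P))
  rw [h1] at h3
  rw [h2] at h4
  have h5 : (d.c ≫ (P ◁ a)) ▷ T ≫ ((α_ P P T).hom ≫ P ◁ (β_ P T).hom ≫ (α_ P T P).inv) =
      (d.c ≫ (a' ▷ P)) ▷ T ≫ ((α_ P P T).hom ≫ P ◁ (β_ P T).hom ≫ (α_ P T P).inv) :=
    h3.symm.trans h4
  have h6 : (d.c ≫ (P ◁ a)) ▷ T = (d.c ≫ (a' ▷ P)) ▷ T := (cancel_mono _).1 h5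
  have h7 : (d.c ≫ (P ◁ a) - d.c ≫ (a' ▷ P)) ▷ T = 0 := by
    have h8 := (tensorRight T).map_sub (f := d.c ≫ (P ◁ a)) (g := d.c ≫ (a' ▷ P))
    have h9 : (d.c ≫ (P ◁ a) - d.c ≫ (a' ▷ P)) ▷ T =
        (d.c ≫ (P ◁ a)) ▷ T - (d.c ≫ (a' ▷ P)) ▷ T := h8
    rw [h9, h6, sub_self]
  exact sub_eq_zero.1 (faith_right hF _ h7)

theorem c_adj_pmv {P T : C} (d : SD P T) (hF : Faith T) {G : Type} [Group G] [StarMul G]
    (ρ : G →* End P) (hρ : AdjG d.q ρ) (n : ℕ) (g : Fin n → G) :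
    (SDp d n).c ≫ (pow P n ◁ pmv P n (fun i => ρ (g i))) =
      (SDp d n).c ≫ (pmv P n (fun i => ρ (star (g i))) ▷ pow P n) := by
  induction n with
  | zero =>
    exact congrArg (fun f => (SDp d 0).c ≫ f) ((MonoidalCategory.whiskerLeft_id (𝟙_ C) (𝟙_ C)).trans
      (MonoidalCategory.id_whiskerRight (𝟙_ C) (𝟙_ C)).symm)
  | succ n ih =>
    have h0 := c_adj d hF (show P ⟶ P from ρ (g 0)) (show P ⟶ P from ρ (star (g 0))) (hρ (g 0))
    have h1 := ih (fun i => g i.succ)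
    have e1 : ∀ (a : P ⟶ P) (A : pow P n ⟶ pow P n),
        tensorμ P P (pow P n) (pow P n) ≫ ((P ⊗ pow P n) ◁ (a ⊗ₘ A)) =
          ((P ◁ a) ⊗ₘ (pow P n ◁ A)) ≫ tensorμ P P (pow P n) (pow P n) := by
      intro a A
      have e2 := tensorμ_natural (𝟙 P) a (𝟙 (pow P n)) A
      rw [id_tensorHom_id, id_tensorHom, id_tensorHom, id_tensorHom] at e2
      exact e2.symm
    have e3 : ∀ (a : P ⟶ P) (A : pow P n ⟶ pow P n),
        tensorμ P P (pow P n) (pow P n) ≫ ((a ⊗ₘ A) ▷ (P ⊗ pow P n)) =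
          ((a ▷ P) ⊗ₘ (A ▷ pow P n)) ≫ tensorμ P P (pow P n) (pow P n) := by
      intro a A
      have e2 := tensorμ_natural a (𝟙 P) A (𝟙 (pow P n))
      rw [id_tensorHom_id, tensorHom_id, tensorHom_id, tensorHom_id] at e2
      exact e2.symm
    change ((d.c ⊗ₘ (SDp d n).c) ≫ tensorμ P P (pow P n) (pow P n)) ≫
      ((P ⊗ pow P n) ◁ ((show P ⟶ P from ρ (g 0)) ⊗ₘ pmv P n (fun i => ρ (g i.succ)))) =
      ((d.c ⊗ₘ (SDp d n).c) ≫ tensorμ P P (pow P n) (pow P n)) ≫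
      (((show P ⟶ P from ρ (star (g 0))) ⊗ₘ pmv P n (fun i => ρ (star (g i.succ)))) ▷
        (P ⊗ pow P n))
    rw [Category.assoc, Category.assoc, e1, e3, ← Category.assoc, ← Category.assoc,
      tensorHom_comp_tensorHom, tensorHom_comp_tensorHom]
    rw [h0]
    erw [h1]

end Mon

end Pool.Agent.W868h60
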