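import Pool.Agent.W_868bb7_h60.SDT
import Pool.Agent.W_868bb7_h60.ActP

set_option autoImplicit false

/-!
# AdjK: the copairing of powers and permutations

* `SDp_c`: `sh P P (r+1) = (P ⊗ P) ◁ sh P P r ≫ tensorμ ..`, `powMap` (library `Shuffle`), induction.
* `kap_act`: `(SDp d r).c ≫ (act σ ⊗ₘ act σ) = (SDp d r).c` by `SDp_c`, `sh_act`, `powMap_act`,
  `act_triv`; then compose with `act σ⁻¹ ▷ _`.
-/

namespace Pool.Agent.W868h60

open CategoryTheory MonoidalCategory Equiv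
open Pool.Agent.W_MP_868bb7_ag Pool.Agent.W_868bb7_h64

universe v u w

section Mon

variable {C : Type u} [Category.{v} C] [MonoidalCategory C] [SymmetricCategory C]

omit [SymmetricCategory C] in
theorem AdjK_gen {T X S B D E' : C} (f : T ⟶ X) (a : S ⟶ B) (s : B ⟶ D) (m : X ⊗ D ⟶ E') :
    (f ⊗ₘ (a ≫ s)) ≫ m = (f ⊗ₘ a) ≫ X ◁ s ≫ m := by
  rw [← Category.assoc, ← id_tensorHom, tensorHom_comp_tensorHom, Category.comp_id]

omit [SymmetricCategory C] in
theorem AdjK_fin {S A B : C} (c : S ⟶ A ⊗ B) (a a' : A ⟶ A) (b : B ⟶ B)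
    (h : c ≫ (a ⊗ₘ b) = c) (ha : a ≫ a' = 𝟙 _) :
    c ≫ (A ◁ b) = c ≫ (a' ▷ B) := by
  conv_rhs => rw [← h]
  rw [Category.assoc, ← tensorHom_id, tensorHom_comp_tensorHom, ha, Category.comp_id,
    id_tensorHom]

theorem SDp_c {P T : C} (d : SD P T) (r : ℕ) :
    (SDp d r).c = powMap d.c r ≫ sh P P r := by
  induction r with
  | zero => exact (Category.id_comp _).symm
  | succ r ih =>
    change (d.c ⊗ₘ (SDp d r).c) ≫ tensorμ P P (pow P r) (pow P r) =
      (d.c ⊗ₘ powMap d.c r) ≫ (P ⊗ P) ◁ sh P P r ≫ tensorμ P P (pow P r) (pow P r)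
    rw [ih]
    exact AdjK_gen d.c (powMap d.c r) (sh P P r) (tensorμ P P (pow P r) (pow P r))

theorem kap_act {P T : C} (d : SD P T) (hT : (β_ T T).hom = 𝟙 _) (r : ℕ)
    (σ : Equiv.Perm (Fin r)) :
    (SDp d r).c ≫ (pow P r ◁ act P r σ) = (SDp d r).c ≫ (act P r σ⁻¹ ▷ pow P r) := by
  have h : (SDp d r).c ≫ (act P r σ ⊗ₘ act P r σ) = (SDp d r).c := by
    rw [SDp_c, Category.assoc, ← sh_act, ← Category.assoc, powMap_act, act_triv T hT r σ,
      Category.id_comp]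
  have ha : act P r σ ≫ act P r σ⁻¹ = 𝟙 _ := by
    rw [← act_mul, inv_mul_cancel, act_one]
  exact AdjK_fin (SDp d r).c (act P r σ) (act P r σ⁻¹) (act P r σ) h ha

end Mon

end Pool.Agent.W868h60
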