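import Pool.Agent.W_868bb7_h60.PermE

set_option autoImplicit false

/-!
# AdjP: the involution adj

By the definition of `adj` and `Fin.ext`, `omega`; `shift_zero`, `shift_succ` (library `PermTail`).
-/

namespace Pool.Agent.W868h60

open CategoryTheory MonoidalCategory Equiv
open Pool.Agent.W_MP_868bb7_ag Pool.Agent.W_868bb7_h64

universe v u w

section Perm

theorem AdjP_val (r : ℕ) (x : Fin (2 * r)) :
    (adj r x).val = if x.val % 2 = 0 then x.val + 1 else x.val - 1 := by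
  change (if h : x.val % 2 = 0 then (⟨x.val + 1, by omega⟩ : Fin (2 * r))
    else ⟨x.val - 1, by omega⟩).val = _
  split_ifs <;> rfl

theorem AdjP_cases (r : ℕ) (x : Fin (2 * (r + 1))) :
    x = (0 : Fin (2 * r + 2)) ∨ x = (1 : Fin (2 * r + 2)) ∨
      ∃ y : Fin (2 * r), x = (y.succ.succ : Fin (2 * r + 2)) := by
  by_cases h0 : x.val = 0
  · exact Or.inl (Fin.ext h0)
  · by_cases h1 : x.val = 1
    · exact Or.inr (Or.inl (Fin.ext (by rw [h1]; exact (Fin.val_one (2 * r)).symm)))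
    · refine Or.inr (Or.inr ⟨⟨x.val - 2, by omega⟩, Fin.ext ?_⟩)
      change x.val = x.val - 2 + 1 + 1
      omega

theorem adj_adj (r : ℕ) (x : Fin (2 * r)) : adj r (adj r x) = x := by
  exact (adj r).left_inv x

theorem adj_ne (r : ℕ) (x : Fin (2 * r)) : adj r x ≠ x := by
  intro h
  have h1 := congrArg Fin.val h
  rw [AdjP_val] at h1
  split_ifs at h1 with h2
  · omega
  · omega

theorem adj_zero (r : ℕ) : adj (r + 1) (0 : Fin (2 * r + 2)) = (1 : Fin (2 * r + 2)) := by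
  apply Fin.ext
  rw [AdjP_val]
  have h0 : ((0 : Fin (2 * r + 2)) : ℕ) = 0 := rfl
  have h1 : ((1 : Fin (2 * r + 2)) : ℕ) = 1 := Fin.val_one (2 * r)
  change (if ((0 : Fin (2 * r + 2)) : ℕ) % 2 = 0 then ((0 : Fin (2 * r + 2)) : ℕ) + 1
    else ((0 : Fin (2 * r + 2)) : ℕ) - 1) = ((1 : Fin (2 * r + 2)) : ℕ)
  rw [h0, h1]
  rfl

theorem adj_one (r : ℕ) : adj (r + 1) (1 : Fin (2 * r + 2)) = (0 : Fin (2 * r + 2)) := by
  apply Fin.ext
  rw [AdjP_val]
  have h0 : ((0 : Fin (2 * r + 2)) : ℕ) = 0 := rfl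
  have h1 : ((1 : Fin (2 * r + 2)) : ℕ) = 1 := Fin.val_one (2 * r)
  change (if ((1 : Fin (2 * r + 2)) : ℕ) % 2 = 0 then ((1 : Fin (2 * r + 2)) : ℕ) + 1
    else ((1 : Fin (2 * r + 2)) : ℕ) - 1) = ((0 : Fin (2 * r + 2)) : ℕ)
  rw [h0, h1]
  rfl

theorem adj_succ (r : ℕ) (x : Fin (2 * r)) :
    adj (r + 1) (x.succ.succ : Fin (2 * r + 2)) = (adj r x).succ.succ := by
  apply Fin.ext
  have h0 : ((x.succ.succ : Fin (2 * r + 2)) : ℕ) = x.val + 2 := rfl
  have h1 : (((adj r x).succ.succ : Fin (2 * r + 2)) : ℕ) = (adj r x).val + 2 := rfl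
  refine (AdjP_val (r + 1) (x.succ.succ : Fin (2 * r + 2))).trans ?_
  rw [h1, AdjP_val]
  change (if (x.val + 2) % 2 = 0 then (x.val + 2) + 1 else (x.val + 2) - 1) = _
  split_ifs with h2 h3 h3
  · rfl
  · omega
  · omega
  · omega

/-- the double shift commutes with `adj` if the permutation does -/
theorem comm_shift2 (r : ℕ) (h : Equiv.Perm (Fin (2 * r))) (x : Fin (2 * (r + 1)))
    (hh : ∀ x, h (adj r x) = adj r (h x)) :
    (shift (shift h) : Equiv.Perm (Fin (2 * r + 2))) (adj (r + 1) x) =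
      adj (r + 1) ((shift (shift h) : Equiv.Perm (Fin (2 * r + 2))) x) := by
  have e0 : (shift (shift h) : Equiv.Perm (Fin (2 * r + 2))) (0 : Fin (2 * r + 2)) =
      (0 : Fin (2 * r + 2)) := shift_zero _
  have e1 : (shift (shift h) : Equiv.Perm (Fin (2 * r + 2))) (1 : Fin (2 * r + 2)) =
      (1 : Fin (2 * r + 2)) := by
    have h1 := shift_succ (shift h) (0 : Fin (2 * r + 1))
    rw [shift_zero] at h1
    exact h1
  have e2 : ∀ y : Fin (2 * r), (shift (shift h) : Equiv.Perm (Fin (2 * r + 2)))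
      (y.succ.succ : Fin (2 * r + 2)) = ((h y).succ.succ : Fin (2 * r + 2)) := by
    intro y
    rw [shift_succ, shift_succ]
  rcases AdjP_cases r x with rfl | rfl | ⟨y, rfl⟩
  · exact (congrArg _ (adj_zero r)).trans
      (e1.trans ((adj_zero r).symm.trans (congrArg (adj (r + 1)) e0.symm)))
  · exact (congrArg _ (adj_one r)).trans
      (e0.trans ((adj_one r).symm.trans (congrArg (adj (r + 1)) e1.symm)))
  · rw [adj_succ]
    erw [e2, e2, adj_succ]
    rw [hh]

end Perm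

end Pool.Agent.W868h60
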