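import Pool.Agent.W_868bb7_h60.SDT
import Pool.Agent.W_868bb7_h60.Sp

set_option autoImplicit false

/-!
# AdjQ: adjoints of decorations, pairing

Induction on `n`, naturality of `tensorμ`.
-/

namespace Pool.Agent.W868h60

open CategoryTheory MonoidalCategory Equiv
open Pool.Agent.W_MP_868bb7_ag Pool.Agent.W_868bb7_h64

universe v u w

section Mon

variable {C : Type u} [Category.{v} C] [MonoidalCategory C] [SymmetricCategory C]

theorem AdjQ_step {A S B R : C} (d : SD A S) (d' : SD B R) (f f' : A ⟶ A) (h h' : B ⟶ B)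
    (hf : (f ▷ A) ≫ d.q = (A ◁ f') ≫ d.q) (hh : (h ▷ B) ≫ d'.q = (B ◁ h') ≫ d'.q) :
    ((f ⊗ₘ h) ▷ (A ⊗ B)) ≫ (d.tensor d').q = ((A ⊗ B) ◁ (f' ⊗ₘ h')) ≫ (d.tensor d').q := by
  change ((f ⊗ₘ h) ▷ (A ⊗ B)) ≫ tensorμ A B A B ≫ (d.q ⊗ₘ d'.q) =
    ((A ⊗ B) ◁ (f' ⊗ₘ h')) ≫ tensorμ A B A B ≫ (d.q ⊗ₘ d'.q)
  rw [tensorμ_natural_left_assoc, tensorμ_natural_right_assoc, tensorHom_comp_tensorHom,
    tensorHom_comp_tensorHom, hf, hh]

theorem q_adj_pmv {P T : C} (d : SD P T) {G : Type} [Group G] [StarMul G] (ρ : G →* End P)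
    (hρ : AdjG d.q ρ) (n : ℕ) (g : Fin n → G) :
    (pmv P n (fun i => ρ (g i)) ▷ pow P n) ≫ (SDp d n).q =
      (pow P n ◁ pmv P n (fun i => ρ (star (g i)))) ≫ (SDp d n).q := by
  induction n with
  | zero =>
    change ((𝟙 (𝟙_ C)) ▷ (𝟙_ C)) ≫ (SDp d 0).q = ((𝟙_ C) ◁ (𝟙 (𝟙_ C))) ≫ (SDp d 0).q
    rw [id_whiskerRight, whiskerLeft_id]
  | succ n ih =>
    exact AdjQ_step d (SDp d n) (ρ (g 0)) (ρ (star (g 0))) (pmv P n (fun i => ρ (g i.succ)))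
      (pmv P n (fun i => ρ (star (g i.succ)))) (hρ (g 0)) (ih (fun i => g i.succ))

end Mon

end Pool.Agent.W868h60
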