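import Pool.Agent.W_MP_868bb7_h79.Obj

set_option autoImplicit false

/-!
# MP_868bb7_ag: descent of Kimura finite-dimensionality along tensor functors

`K` is a field of characteristic zero, `C` and `D` are `K`-linear rigid symmetric tensor categories
with `End(1) = K` and direct sums, `C` is pseudo-abelian, and `F : C ⥤ D` is an additive symmetric
tensor functor which only kills smash-nilpotent morphisms (for example a faithful one).  A group `Γ`
acts `K`-linearly on all `Hom (F X, F Y)`, compatibly with composition and tensor product, fixing the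
morphisms `F f`, and `End (F M)` is spanned by `F (End M)` and the `γ h - h`.

Then `M` is Kimura finite-dimensional if and only if `F M` is, and every decomposition
`F M ≅ P ⊞ Q` into an even and an odd part comes from such a decomposition of `M`.

Example: all `Hom (F X, F Y)` are `ℤ`-graded, compatibly with composition and tensor product, with
part of degree `0` equal to `F (Hom (X, Y))`; `t` in `K^×` acts by `t ^ i` in degree `i`.  This case is
worked out in `Pool.Agent.W_MP_868bb7_h79.Grad`.
-/

namespace Pool.Agent.W_868bb7_h60.AtticDescent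

open CategoryTheory MonoidalCategory Limits Functor.LaxMonoidal Functor.OplaxMonoidal
open Pool.Agent.W_MP_868bb7_ag

universe v v' u u' w w'

section Plain

variable {C : Type u} [Category.{v} C] {D : Type u'} [Category.{v'} D]

/-- `F` only kills smash-nilpotent morphisms: if `F f = 0` then `f^{⊗ n} = 0` for some `n` -/
def KillsOnlySmash [MonoidalCategory C] [Preadditive C] [Preadditive D] (F : C ⥤ D) : Prop :=
  ∀ (X Y : C) (f : X ⟶ Y), F.map f = 0 → ∃ n : ℕ, powMap f n = 0

/-- the tensor product of `f : F X ⟶ F Y` and `f' : F X' ⟶ F Y'`, as a morphism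
`F (X ⊗ X') ⟶ F (Y ⊗ Y')` -/
def ten [MonoidalCategory C] [MonoidalCategory D] (F : C ⥤ D) [F.Monoidal] {X Y X' Y' : C}
    (f : F.obj X ⟶ F.obj Y) (f' : F.obj X' ⟶ F.obj Y') : F.obj (X ⊗ X') ⟶ F.obj (Y ⊗ Y') :=
  δ F X X' ≫ (f ⊗ₘ f') ≫ μ F Y Y'

variable [Preadditive D]

/-- families of `K`-linear operators on all `Hom (F X, F Y)` -/
abbrev Op (K : Type w) [Field K] [Linear K D] (F : C ⥤ D) :=
  ∀ X Y : C, (F.obj X ⟶ F.obj Y) →ₗ[K] (F.obj X ⟶ F.obj Y)

variable {K : Type w} [Field K] [Linear K D] {F : C ⥤ D}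

/-- apply the family `t` to `f` -/
def Op.ap (t : Op K F) {X Y : C} (f : F.obj X ⟶ F.obj Y) : F.obj X ⟶ F.obj Y := t X Y f

/-- compatibility with composition -/
def Op.Comp (t : Op K F) : Prop :=
  ∀ (X Y Z : C) (f : F.obj X ⟶ F.obj Y) (f' : F.obj Y ⟶ F.obj Z),
    t.ap (f ≫ f') = t.ap f ≫ t.ap f'

/-- compatibility with the tensor product -/
def Op.Tensor [MonoidalCategory C] [MonoidalCategory D] [F.Monoidal] (t : Op K F) : Prop :=
  ∀ (X Y X' Y' : C) (f : F.obj X ⟶ F.obj Y) (f' : F.obj X' ⟶ F.obj Y'),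
    t.ap (ten F f f') = ten F (t.ap f) (t.ap f')

/-- the morphisms `F f` are fixed -/
def Op.Fixes (t : Op K F) : Prop := ∀ (X Y : C) (f : X ⟶ Y), t.ap (F.map f) = F.map f

variable {Γ : Type w'} [Group Γ]

/-- `a` is an action of the group `Γ` -/
def IsAction (a : Γ → Op K F) : Prop :=
  (∀ (X Y : C) (f : F.obj X ⟶ F.obj Y), (a 1).ap f = f) ∧
  ∀ (g h : Γ) (X Y : C) (f : F.obj X ⟶ F.obj Y), (a (g * h)).ap f = (a g).ap ((a h).ap f)

/-- the span of all `γ h - h`, `h` in `End (F M)` -/
def coinv (a : Γ → Op K F) (M : C) : Submodule K (F.obj M ⟶ F.obj M) :=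
  Submodule.span K {x | ∃ (g : Γ) (h : F.obj M ⟶ F.obj M), x = (a g).ap h - h}

/-- `End (F M)` is spanned by `F (End M)` and all `γ h - h`.  (If the action on `End (F M)` is a
direct sum of finite-dimensional semisimple representations, this says that all invariants come from
`End M`.) -/
def Spans (a : Γ → Op K F) (M : C) : Prop :=
  ∀ f : F.obj M ⟶ F.obj M, ∃ f' : M ⟶ M, f - F.map f' ∈ coinv a M

end Plain

/-- Every decomposition of `F M` into an evenly and an oddly finite-dimensional object comes from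
such a decomposition of `M`. -/
def ParityDescends (K : Type w) [Field K]
    {C : Type u} [Category.{v} C] [MonoidalCategory C] [SymmetricCategory C] [Preadditive C]
    [Linear K C] [HasBinaryBiproducts C]
    {D : Type u'} [Category.{v'} D] [MonoidalCategory D] [SymmetricCategory D] [Preadditive D]
    [Linear K D] [HasBinaryBiproducts D] (F : C ⥤ D) (M : C) : Prop :=
  ∀ P Q : D, EvenFD K P → OddFD K Q → Nonempty (F.obj M ≅ P ⊞ Q) →
    ∃ P' Q' : C, EvenFD K P' ∧ OddFD K Q' ∧ Nonempty (M ≅ P' ⊞ Q') ∧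
      Nonempty (F.obj P' ≅ P) ∧ Nonempty (F.obj Q' ≅ Q)

theorem result (K : Type w) [Field K] [CharZero K]
    {C : Type u} [Category.{v} C] [MonoidalCategory C] [Preadditive C] [Linear K C]
    [MonoidalPreadditive C] [MonoidalLinear K C] [SymmetricCategory C] [RightRigidCategory C]
    [HasBinaryBiproducts C] [IsIdempotentComplete C]
    {D : Type u'} [Category.{v'} D] [MonoidalCategory D] [Preadditive D] [Linear K D]
    [MonoidalPreadditive D] [MonoidalLinear K D] [SymmetricCategory D] [RightRigidCategory D]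
    [HasBinaryBiproducts D]
    [UnitK K C] [UnitK K D] (F : C ⥤ D) [F.Braided] [F.Additive] (hF : KillsOnlySmash F)
    {Γ : Type w'} [Group Γ] (a : Γ → Op K F) (ha : IsAction a)
    (hcomp : ∀ g, (a g).Comp) (htensor : ∀ g, (a g).Tensor) (hfix : ∀ g, (a g).Fixes)
    (M : C) (hM : Spans a M) :
    (KimuraFD K M ↔ KimuraFD K (F.obj M)) ∧ ParityDescends K F M := by
  let T : Γ → W_MP_868bb7_h79.Tw K F := fun g =>
    { t := fun {X Y} => a g X Y
      comp := fun f f' => hcomp g _ _ _ f f'
      fix := fun f => hfix g _ _ f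
      tens := fun f f' => htensor g _ _ _ _ f f' }
  have hinv : ∀ (g : Γ) {X : C} (f : F.obj X ⟶ F.obj X), (T g⁻¹).t ((T g).t f) = f := by
    intro g X f
    change (a g⁻¹).ap ((a g).ap f) = f
    rw [← ha.2, inv_mul_cancel, ha.1]
  have hF' : W_MP_868bb7_h79.KerSmash F := fun f h => hF _ _ f h
  refine ⟨W_MP_868bb7_h79.descent_kimura K hF' T hinv hM, fun P Q hP hQ hφ => ?_⟩
  obtain ⟨φ⟩ := hφ
  exact W_MP_868bb7_h79.descent_obj K hF' T hinv hM P Q hP hQ φ

end Pool.Agent.W_868bb7_h60.AtticDescent
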