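import Pool.Agent.W_868bb7_h60.Defs

set_option autoImplicit false

/-!
# ZigA: contraction of the first two legs

`cupF d.c B ≫ F` is the contraction of `F : P ⊗ (P ⊗ B) ⟶ S` (with an additional factor `T`).
-/

namespace Pool.Agent.W868h60

open CategoryTheory MonoidalCategory Equiv
open Pool.Agent.W_MP_868bb7_ag Pool.Agent.W_868bb7_h64

universe v u w

section Mon

variable {C : Type u} [Category.{v} C] [MonoidalCategory C] [SymmetricCategory C]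

theorem ZigA_key {P T : C} (d : SD P T) :
    d.c ▷ P ≫ (α_ P P P).hom ≫ (β_ P (P ⊗ P)).hom ≫ d.q ▷ P = 𝟙 (T ⊗ P) := by
  rw [← BraidedCategory.braiding_naturality_right P d.q]
  have h := d.zig
  calc d.c ▷ P ≫ (α_ P P P).hom ≫ P ◁ d.q ≫ (β_ P T).hom
      = (d.c ▷ P ≫ (α_ P P P).hom ≫ P ◁ d.q) ≫ (β_ P T).hom := by simp only [Category.assoc]
    _ = 𝟙 (T ⊗ P) := by rw [h, SymmetricCategory.symmetry]

/-- the cup is symmetric -/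
theorem ZigA_cup {P T : C} (d : SD P T) (B : C) : cupF d.c B ≫ sw P B = cupF d.c B := by
  simp only [cupF, sw, Category.assoc, Iso.hom_inv_id_assoc]
  rw [← comp_whiskerRight_assoc, d.cs]

/-- the cap is symmetric -/
theorem ZigA_cap {P T : C} (d : SD P T) (B : C) :
    sw P B ≫ (α_ P P B).inv ≫ d.q ▷ B = (α_ P P B).inv ≫ d.q ▷ B := by
  simp only [sw, Category.assoc, Iso.hom_inv_id_assoc]
  rw [← comp_whiskerRight, d.qs]

/-- `0 ↔ 2`: `c` on the legs `0, 1`, then exchange the legs `0` and `2`, then `q` on `0, 1` and `F` on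
the rest `P ⊗ B`: `∑ q(x, c₂) F(c₁, b) = t F(x, b)`.  `act (swap 0 2) = sw ≫ P ◁ sw ≫ sw`.
Zigzag `d.zig`, symmetry `d.qs`. -/
theorem con_swap02 {P T B S : C} (d : SD P T) (F : P ⊗ B ⟶ S) :
    cupF d.c (P ⊗ B) ≫ sw P (P ⊗ B) ≫ P ◁ sw P B ≫ sw P (P ⊗ B) ≫
      (α_ P P (P ⊗ B)).inv ≫ (d.q ⊗ₘ F) = T ◁ F := by
  have h1 : cupF d.c (P ⊗ B) ≫ sw P (P ⊗ B) ≫ P ◁ sw P B ≫
      (α_ P P (P ⊗ B)).inv ≫ d.q ▷ (P ⊗ B) = 𝟙 (T ⊗ (P ⊗ B)) := by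
    have h2 : cupF d.c (P ⊗ B) ≫ sw P (P ⊗ B) ≫ P ◁ sw P B ≫
        (α_ P P (P ⊗ B)).inv ≫ d.q ▷ (P ⊗ B) =
        (α_ T P B).inv ≫ (d.c ▷ P ≫ (α_ P P P).hom ≫ (β_ P (P ⊗ P)).hom ≫ d.q ▷ P) ▷ B ≫
          (α_ T P B).hom := by
      rw [BraidedCategory.braiding_tensor_right_hom]
      simp only [cupF, sw]
      monoidal
    rw [h2, ZigA_key]
    simp
  rw [MonoidalCategory.tensorHom_def]
  calc cupF d.c (P ⊗ B) ≫ sw P (P ⊗ B) ≫ P ◁ sw P B ≫ sw P (P ⊗ B) ≫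
      (α_ P P (P ⊗ B)).inv ≫ d.q ▷ (P ⊗ B) ≫ T ◁ F
      = cupF d.c (P ⊗ B) ≫ sw P (P ⊗ B) ≫ P ◁ sw P B ≫ (sw P (P ⊗ B) ≫
      (α_ P P (P ⊗ B)).inv ≫ d.q ▷ (P ⊗ B)) ≫ T ◁ F := by simp only [Category.assoc]
    _ = (cupF d.c (P ⊗ B) ≫ sw P (P ⊗ B) ≫ P ◁ sw P B ≫
      (α_ P P (P ⊗ B)).inv ≫ d.q ▷ (P ⊗ B)) ≫ T ◁ F := by
        rw [ZigA_cap]; simp only [Category.assoc]
    _ = T ◁ F := by rw [h1, Category.id_comp]

/-- contraction of a matching containing the chord of the two legs -/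
theorem con_loop {P T S B : C} (d : SD P T) (F : B ⟶ S) :
    cupF d.c B ≫ (α_ P P B).inv ≫ (d.q ⊗ₘ F) = ((d.c ≫ d.q) ⊗ₘ F) := by
  simp only [cupF, Category.assoc, Iso.hom_inv_id_assoc, MonoidalCategory.tensorHom_def, comp_whiskerRight]

end Mon

end Pool.Agent.W868h60
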