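import Pool.Agent.W_868bb7_h60.Defs
import Pool.Agent.W_868bb7_h60.ZigA

set_option autoImplicit false

/-!
# ZigB: contraction with decorations

As `con_swap02` of `ZigA` (which may be used: import it if you like), with decorations.
-/

namespace Pool.Agent.W868h60

open CategoryTheory MonoidalCategory Equiv
open Pool.Agent.W_MP_868bb7_ag Pool.Agent.W_868bb7_h64

universe v u w

section Mon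

variable {C : Type u} [Category.{v} C] [MonoidalCategory C] [SymmetricCategory C]

theorem ZigB_sw {X Z Z' : C} (f g : X ⟶ X) (k : Z ⟶ Z') :
    (f ⊗ₘ (g ⊗ₘ k)) ≫ sw X Z' = sw X Z ≫ (g ⊗ₘ (f ⊗ₘ k)) := by
  have h1 : ((f ⊗ₘ g) ⊗ₘ k) ≫ (β_ X X).hom ▷ Z' = (β_ X X).hom ▷ Z ≫ ((g ⊗ₘ f) ⊗ₘ k) := by
    rw [← tensorHom_id, ← tensorHom_id, tensorHom_comp_tensorHom, tensorHom_comp_tensorHom,
      Category.comp_id, Category.id_comp, BraidedCategory.braiding_naturality]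
  simp only [sw, Category.assoc]
  rw [associator_inv_naturality_assoc, reassoc_of% h1, associator_naturality]

theorem ZigB_perm {P B B' : C} (f g h : P ⟶ P) (k : B ⟶ B') :
    (f ⊗ₘ (g ⊗ₘ (h ⊗ₘ k))) ≫ sw P (P ⊗ B') ≫ P ◁ sw P B' ≫ sw P (P ⊗ B') =
      sw P (P ⊗ B) ≫ P ◁ sw P B ≫ sw P (P ⊗ B) ≫ (h ⊗ₘ (g ⊗ₘ (f ⊗ₘ k))) := by
  have h2 : (g ⊗ₘ (f ⊗ₘ (h ⊗ₘ k))) ≫ P ◁ sw P B' = P ◁ sw P B ≫ (g ⊗ₘ (h ⊗ₘ (f ⊗ₘ k))) := by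
    rw [← id_tensorHom, ← id_tensorHom, tensorHom_comp_tensorHom, tensorHom_comp_tensorHom,
      Category.comp_id, Category.id_comp, ZigB_sw]
  rw [← Category.assoc, ZigB_sw, Category.assoc, reassoc_of% h2, ZigB_sw]

/-- the same with a decoration of the copairing: `∑ q(x, b c₂) F(a c₁) = t F(a b* x)`;
`b*` is the adjoint of `b`. -/
theorem con_swap02' {P T B S : C} (d : SD P T) (a b b' : P ⟶ P)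
    (hb : (b ▷ P) ≫ d.q = (P ◁ b') ≫ d.q) (F : P ⊗ B ⟶ S) :
    (d.c ≫ (a ⊗ₘ b)) ▷ (P ⊗ B) ≫ (α_ P P (P ⊗ B)).hom ≫
      sw P (P ⊗ B) ≫ P ◁ sw P B ≫ sw P (P ⊗ B) ≫
      (α_ P P (P ⊗ B)).inv ≫ (d.q ⊗ₘ F) = T ◁ (((b' ≫ a) ▷ B) ≫ F) := by
  -- the adjoint on the other side
  have hb2 : (𝟙 P ⊗ₘ b) ≫ d.q = (b' ⊗ₘ 𝟙 P) ≫ d.q := by
    rw [id_tensorHom, tensorHom_id]
    calc P ◁ b ≫ d.q = P ◁ b ≫ (β_ P P).hom ≫ d.q := by rw [d.qs]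
      _ = (β_ P P).hom ≫ b ▷ P ≫ d.q := by
          rw [BraidedCategory.braiding_naturality_right_assoc]
      _ = (β_ P P).hom ≫ P ◁ b' ≫ d.q := by rw [hb]
      _ = b' ▷ P ≫ (β_ P P).hom ≫ d.q := by
          rw [BraidedCategory.braiding_naturality_left_assoc]
      _ = b' ▷ P ≫ d.q := by rw [d.qs]
  have h1 : (a ⊗ₘ b) ▷ (P ⊗ B) ≫ (α_ P P (P ⊗ B)).hom =
      (α_ P P (P ⊗ B)).hom ≫ (a ⊗ₘ (b ⊗ₘ (𝟙 P ⊗ₘ 𝟙 B))) := by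
    rw [← associator_naturality, id_tensorHom_id, tensorHom_id]
  have h3 : (𝟙 P ⊗ₘ (b ⊗ₘ (a ⊗ₘ 𝟙 B))) ≫ (α_ P P (P ⊗ B)).inv ≫ (d.q ⊗ₘ F) =
      (b' ⊗ₘ (𝟙 P ⊗ₘ (𝟙 P ⊗ₘ 𝟙 B))) ≫ (α_ P P (P ⊗ B)).inv ≫
        (d.q ⊗ₘ ((a ▷ B) ≫ F)) := by
    rw [associator_inv_naturality_assoc, associator_inv_naturality_assoc,
      tensorHom_comp_tensorHom, tensorHom_comp_tensorHom, hb2, id_tensorHom_id,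
      Category.id_comp, tensorHom_id a B]
  have h4 : d.c ▷ (P ⊗ B) ≫ (α_ P P (P ⊗ B)).hom ≫ (𝟙 P ⊗ₘ (𝟙 P ⊗ₘ (b' ⊗ₘ 𝟙 B))) =
      T ◁ (b' ▷ B) ≫ d.c ▷ (P ⊗ B) ≫ (α_ P P (P ⊗ B)).hom := by
    rw [← associator_naturality, id_tensorHom_id, id_tensorHom, tensorHom_id,
      whisker_exchange_assoc]
  have h5 := con_swap02 d ((a ▷ B) ≫ F)
  unfold cupF at h5
  rw [Category.assoc] at h5
  have h6 := ZigB_perm (B := B) a b (𝟙 P) (𝟙 B)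
  have h7 := ZigB_perm (B := B) (𝟙 P) (𝟙 P) b' (𝟙 B)
  calc (d.c ≫ (a ⊗ₘ b)) ▷ (P ⊗ B) ≫ (α_ P P (P ⊗ B)).hom ≫
      sw P (P ⊗ B) ≫ P ◁ sw P B ≫ sw P (P ⊗ B) ≫
      (α_ P P (P ⊗ B)).inv ≫ (d.q ⊗ₘ F)
      = d.c ▷ (P ⊗ B) ≫ (α_ P P (P ⊗ B)).hom ≫ ((a ⊗ₘ (b ⊗ₘ (𝟙 P ⊗ₘ 𝟙 B))) ≫
        sw P (P ⊗ B) ≫ P ◁ sw P B ≫ sw P (P ⊗ B)) ≫
        (α_ P P (P ⊗ B)).inv ≫ (d.q ⊗ₘ F) := by
          rw [comp_whiskerRight, Category.assoc, reassoc_of% h1]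
          simp only [Category.assoc]
    _ = d.c ▷ (P ⊗ B) ≫ (α_ P P (P ⊗ B)).hom ≫
        sw P (P ⊗ B) ≫ P ◁ sw P B ≫ sw P (P ⊗ B) ≫ (𝟙 P ⊗ₘ (b ⊗ₘ (a ⊗ₘ 𝟙 B))) ≫
        (α_ P P (P ⊗ B)).inv ≫ (d.q ⊗ₘ F) := by
          rw [h6]
          simp only [Category.assoc]
    _ = d.c ▷ (P ⊗ B) ≫ (α_ P P (P ⊗ B)).hom ≫
        (sw P (P ⊗ B) ≫ P ◁ sw P B ≫ sw P (P ⊗ B) ≫ (b' ⊗ₘ (𝟙 P ⊗ₘ (𝟙 P ⊗ₘ 𝟙 B)))) ≫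
        (α_ P P (P ⊗ B)).inv ≫ (d.q ⊗ₘ ((a ▷ B) ≫ F)) := by
          rw [h3]
          simp only [Category.assoc]
    _ = (d.c ▷ (P ⊗ B) ≫ (α_ P P (P ⊗ B)).hom ≫ (𝟙 P ⊗ₘ (𝟙 P ⊗ₘ (b' ⊗ₘ 𝟙 B)))) ≫
        sw P (P ⊗ B) ≫ P ◁ sw P B ≫ sw P (P ⊗ B) ≫
        (α_ P P (P ⊗ B)).inv ≫ (d.q ⊗ₘ ((a ▷ B) ≫ F)) := by
          rw [← h7]
          simp only [Category.assoc]
    _ = T ◁ (b' ▷ B) ≫ T ◁ ((a ▷ B) ≫ F) := by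
          rw [h4]
          simp only [Category.assoc]
          rw [h5]
    _ = T ◁ (((b' ≫ a) ▷ B) ≫ F) := by
          rw [← MonoidalCategory.whiskerLeft_comp, comp_whiskerRight, Category.assoc]

end Mon

end Pool.Agent.W868h60
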