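import Pool.Agent.W_868bb7_h60.ZigA
import Pool.Agent.W_868bb7_h60.ZigB
import Pool.Agent.W_868bb7_h60.ActE

set_option autoImplicit false

/-!
# ConS: contraction: a chord between general legs

Conjugate with `shift (shift (swap 0 x'))`, `x = x' + 2`, to reduce to `x = 2`, where
`act (swap 0 2) = sw ≫ P ◁ sw ≫ sw` (`act_mul`, `act_shift`, `act_swap`).
-/

namespace Pool.Agent.W868h60

open CategoryTheory MonoidalCategory Equiv
open Pool.Agent.W_MP_868bb7_ag Pool.Agent.W_868bb7_h64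

universe v u w

section Mon

variable {C : Type u} [Category.{v} C] [MonoidalCategory C] [SymmetricCategory C]

theorem ConS_conj {P T S B : C} (c : T ⟶ P ⊗ P) (q : P ⊗ P ⟶ T) (g : B ⟶ B) (F : B ⟶ S)
    (m A : P ⊗ (P ⊗ B) ⟶ P ⊗ (P ⊗ B)) (hA : A = P ◁ (P ◁ g) ≫ m ≫ P ◁ (P ◁ g)) :
    c ▷ B ≫ (α_ P P B).hom ≫ A ≫ (α_ P P B).inv ≫ (q ⊗ₘ F) =
      T ◁ g ≫ (c ▷ B ≫ (α_ P P B).hom ≫ m ≫ (α_ P P B).inv ≫ (q ⊗ₘ (g ≫ F))) := by
  have h1 : P ◁ (P ◁ g) ≫ (α_ P P B).inv ≫ (q ⊗ₘ F) = (α_ P P B).inv ≫ (q ⊗ₘ (g ≫ F)) := by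
    rw [associator_inv_naturality_right_assoc]
    congr 1
    rw [← id_tensorHom, tensorHom_comp_tensorHom, Category.id_comp]
  have h2 : c ▷ B ≫ (α_ P P B).hom ≫ P ◁ (P ◁ g) = T ◁ g ≫ c ▷ B ≫ (α_ P P B).hom := by
    rw [← associator_naturality_right, ← whisker_exchange_assoc]
  rw [hA, Category.assoc, Category.assoc, h1]
  rw [← Category.assoc, ← Category.assoc, ← Category.assoc (c ▷ B) (α_ P P B).hom,
    Category.assoc (c ▷ B) (α_ P P B).hom, h2]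
  simp only [Category.assoc]

theorem ConS_conj3 {P T S B : C} (c : T ⟶ P ⊗ P) (q : P ⊗ P ⟶ T) (g : B ⟶ B) (F : B ⟶ S)
    (m1 m2 m3 A : P ⊗ (P ⊗ B) ⟶ P ⊗ (P ⊗ B))
    (hA : A = P ◁ (P ◁ g) ≫ (m1 ≫ m2 ≫ m3) ≫ P ◁ (P ◁ g)) {f f' : B ⟶ S}
    (hR : c ▷ B ≫ (α_ P P B).hom ≫ m1 ≫ m2 ≫ m3 ≫ (α_ P P B).inv ≫ (q ⊗ₘ (g ≫ F)) = T ◁ f)
    (hf : g ≫ f = f') :
    c ▷ B ≫ (α_ P P B).hom ≫ A ≫ (α_ P P B).inv ≫ (q ⊗ₘ F) = T ◁ f' := by
  rw [ConS_conj c q g F _ A hA, ← hf, MonoidalCategory.whiskerLeft_comp, ← hR]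
  simp only [Category.assoc]

theorem ConS_shift_sq {k : ℕ} (τ : Equiv.Perm (Fin k)) (h : τ * τ = 1) :
    shift τ * shift τ = 1 := by
  refine Equiv.ext fun y => ?_
  rw [Equiv.Perm.mul_apply]
  refine Fin.cases ?_ (fun i => ?_) y
  · rw [shift_zero, shift_zero]
    rfl
  · rw [shift_succ, shift_succ, ← Equiv.Perm.mul_apply, h]
    rfl

theorem ConS_perm {k : ℕ} (x : Fin (k + 1)) : (Equiv.swap 0 x.succ.succ : Equiv.Perm (Fin (k + 3))) =
    shift (shift (Equiv.swap 0 x)) * Equiv.swap 0 2 * shift (shift (Equiv.swap 0 x)) := by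
  set σ : Equiv.Perm (Fin (k + 3)) := shift (shift (Equiv.swap 0 x)) with hσ
  have h0 : σ 0 = 0 := shift_zero _
  have h2 : σ 2 = x.succ.succ := by
    have h3 : (2 : Fin (k + 3)) = (0 : Fin (k + 1)).succ.succ := rfl
    rw [h3, hσ, shift_succ, shift_succ, Equiv.swap_apply_left]
  have hinv : σ⁻¹ = σ := inv_eq_of_mul_eq_one_right
    (ConS_shift_sq _ (ConS_shift_sq _ (Equiv.swap_mul_self _ _)))
  have h4 := Equiv.swap_apply_apply σ 0 2
  rw [h0, h2, hinv] at h4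
  exact h4

theorem ConS_perm02 (k : ℕ) : (Equiv.swap 0 2 : Equiv.Perm (Fin (k + 3))) =
    Equiv.swap 0 1 * shift (Equiv.swap 0 1) * Equiv.swap 0 1 := by
  refine Equiv.ext fun y => ?_
  rw [Equiv.Perm.mul_apply, Equiv.Perm.mul_apply]
  have v0 : ((0 : Fin (k + 3)) : ℕ) = 0 := rfl
  have v1 : ((1 : Fin (k + 3)) : ℕ) = 1 := by
    change 1 % (k + 3) = 1
    exact Nat.mod_eq_of_lt (by omega)
  have v2 : ((2 : Fin (k + 3)) : ℕ) = 2 := by
    change 2 % (k + 3) = 2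
    exact Nat.mod_eq_of_lt (by omega)
  have h01 : (0 : Fin (k + 3)) ≠ 1 := fun h => by
    have := congrArg Fin.val h
    omega
  have h02 : (0 : Fin (k + 3)) ≠ 2 := fun h => by
    have := congrArg Fin.val h
    omega
  have h12 : (1 : Fin (k + 3)) ≠ 2 := fun h => by
    have := congrArg Fin.val h
    omega
  have e1 : (1 : Fin (k + 3)) = (0 : Fin (k + 2)).succ := rfl
  have e2 : (2 : Fin (k + 3)) = (1 : Fin (k + 2)).succ := rfl
  have s0 : (shift (Equiv.swap 0 1) : Equiv.Perm (Fin (k + 3))) 0 = 0 := shift_zero _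
  have s1 : (shift (Equiv.swap 0 1) : Equiv.Perm (Fin (k + 3))) 1 = 2 := by
    rw [e1, shift_succ, Equiv.swap_apply_left, e2]
  have s2 : (shift (Equiv.swap 0 1) : Equiv.Perm (Fin (k + 3))) 2 = 1 := by
    rw [e2, shift_succ, Equiv.swap_apply_right, e1]
  by_cases hy0 : y = 0
  · subst hy0
    rw [Equiv.swap_apply_left, Equiv.swap_apply_left, s1,
      Equiv.swap_apply_of_ne_of_ne h02.symm h12.symm]
  by_cases hy1 : y = 1
  · subst hy1
    rw [Equiv.swap_apply_right, s0, Equiv.swap_apply_left,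
      Equiv.swap_apply_of_ne_of_ne h01.symm h12]
  by_cases hy2 : y = 2
  · subst hy2
    rw [Equiv.swap_apply_right, Equiv.swap_apply_of_ne_of_ne h02.symm h12.symm, s2,
      Equiv.swap_apply_right]
  · have s3 : (shift (Equiv.swap 0 1) : Equiv.Perm (Fin (k + 3))) y = y := by
      obtain ⟨z, rfl⟩ := Fin.exists_succ_eq_of_ne_zero hy0
      rw [shift_succ, Equiv.swap_apply_of_ne_of_ne]
      · rintro rfl
        exact hy1 rfl
      · rintro rfl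
        exact hy2 rfl
    rw [Equiv.swap_apply_of_ne_of_ne hy0 hy2, Equiv.swap_apply_of_ne_of_ne hy0 hy1, s3,
      Equiv.swap_apply_of_ne_of_ne hy0 hy1]

theorem ConS_act (P : C) {k : ℕ} (x : Fin (k + 1)) :
    (act P (k + 3) (Equiv.swap 0 x.succ.succ) :
      P ⊗ (P ⊗ pow P (k + 1)) ⟶ P ⊗ (P ⊗ pow P (k + 1))) =
    P ◁ (P ◁ act P (k + 1) (Equiv.swap 0 x)) ≫
      (sw P (P ⊗ pow P k) ≫ P ◁ sw P (pow P k) ≫ sw P (P ⊗ pow P k)) ≫
      P ◁ (P ◁ act P (k + 1) (Equiv.swap 0 x)) := by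
  have h1 : (act P (k + 3) (shift (shift (Equiv.swap 0 x))) :
      P ⊗ (P ⊗ pow P (k + 1)) ⟶ P ⊗ (P ⊗ pow P (k + 1))) =
      P ◁ (P ◁ act P (k + 1) (Equiv.swap 0 x)) := by
    have h2 : (act P (k + 2) (shift (Equiv.swap 0 x)) : P ⊗ pow P (k + 1) ⟶ P ⊗ pow P (k + 1)) =
        P ◁ act P (k + 1) (Equiv.swap 0 x) := act_shift P (k + 1) (Equiv.swap 0 x)
    exact (act_shift P (k + 2) (shift (Equiv.swap 0 x))).trans (congrArg (fun t => P ◁ t) h2)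
  have h3 : (act P (k + 3) (Equiv.swap 0 1) :
      P ⊗ (P ⊗ pow P (k + 1)) ⟶ P ⊗ (P ⊗ pow P (k + 1))) = sw P (P ⊗ pow P k) :=
    act_swap P (k + 1)
  have h4 : (act P (k + 3) (shift (Equiv.swap 0 1)) :
      P ⊗ (P ⊗ pow P (k + 1)) ⟶ P ⊗ (P ⊗ pow P (k + 1))) = P ◁ sw P (pow P k) := by
    have h5 : (act P (k + 2) (Equiv.swap 0 1) : P ⊗ pow P (k + 1) ⟶ P ⊗ pow P (k + 1)) =
        sw P (pow P k) := act_swap P k
    exact (act_shift P (k + 2) (Equiv.swap 0 1)).trans (congrArg (fun t => P ◁ t) h5)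
  have h6 : (act P (k + 3) (Equiv.swap 0 2) :
      P ⊗ (P ⊗ pow P (k + 1)) ⟶ P ⊗ (P ⊗ pow P (k + 1))) =
      sw P (P ⊗ pow P k) ≫ P ◁ sw P (pow P k) ≫ sw P (P ⊗ pow P k) := by
    rw [ConS_perm02, act_mul, act_mul]
    exact congrArg₂ (fun s t => s ≫ t ≫ s) h3 h4
  rw [ConS_perm x, act_mul, act_mul]
  exact congrArg₂ (fun s t => s ≫ t ≫ s) h1 h6

theorem ConS_sq (P : C) {k : ℕ} (x : Fin (k + 1)) :
    act P (k + 1) (Equiv.swap 0 x) ≫ act P (k + 1) (Equiv.swap 0 x) = 𝟙 _ := by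
  rw [← act_mul, Equiv.swap_mul_self, act_one]

/-- contraction of a matching with a chord between two general legs: for `x ≥ 2` exchange the
legs `0` and `x`, then `q` on the legs `0, 1`, `F` on the rest.  Conjugate with
`shift (shift (swap 0 x'))`, `x = x' + 2`, to reduce to `con_swap02`
(`act (swap 0 2) = sw ≫ P ◁ sw ≫ sw`). -/
theorem con_swap {P T S : C} (d : SD P T) (n : ℕ) (F : pow P n ⟶ S) (x : Fin n) :
    (cupF d.c (pow P n) ≫ act P (n + 2) (Equiv.swap 0 x.succ.succ) ≫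
      (α_ P P (pow P n)).inv ≫ (d.q ⊗ₘ F) : T ⊗ pow P n ⟶ T ⊗ S) = T ◁ F := by
  obtain ⟨k, rfl⟩ : ∃ k, n = k + 1 := ⟨n - 1, by have := x.isLt; omega⟩
  have h2 := con_swap02 d (B := pow P k) (act P (k + 1) (Equiv.swap 0 x) ≫ F)
  unfold cupF at h2 ⊢
  rw [Category.assoc] at h2 ⊢
  have h3 : act P (k + 1) (Equiv.swap 0 x) ≫ (act P (k + 1) (Equiv.swap 0 x) ≫ F) = F := by
    rw [← Category.assoc, ConS_sq, Category.id_comp]
  exact ConS_conj3 d.c d.q (act P (k + 1) (Equiv.swap 0 x)) F _ _ _ _ (ConS_act P x) h2 h3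

theorem ConS_assoc {A B D E S : C} (f : A ⟶ B) (g : B ⟶ D) (h : D ⟶ E) (k : E ⟶ S) :
    (f ≫ g ≫ h) ≫ k = f ≫ g ≫ h ≫ k := by
  simp only [Category.assoc]

theorem ConS_st {P : C} {k : ℕ} (f : End P) (x : Fin (k + 1)) :
    act P (k + 1) (Equiv.swap 0 x) ≫
      ((show P ⟶ P from f) ▷ pow P k : P ⊗ pow P k ⟶ P ⊗ pow P k) ≫
      act P (k + 1) (Equiv.swap 0 x) = (show pow P (k + 1) ⟶ pow P (k + 1) from st f x) := by
  have h1 := rho_st (X := P) (Equiv.swap 0 x) f (0 : Fin (k + 1))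
  rw [Equiv.swap_apply_left] at h1
  have h2 : ((show P ⟶ P from f) ▷ pow P k : P ⊗ pow P k ⟶ P ⊗ pow P k) ≫
      act P (k + 1) (Equiv.swap 0 x) =
      act P (k + 1) (Equiv.swap 0 x) ≫ (show pow P (k + 1) ⟶ pow P (k + 1) from st f x) := by
    have h3 := st_zero (n := k) f
    exact (congrArg (fun t => t ≫ act P (k + 1) (Equiv.swap 0 x)) h3.symm).trans h1
  refine Eq.trans (congrArg (fun t => act P (k + 1) (Equiv.swap 0 x) ≫ t) h2) ?_
  rw [← Category.assoc, ConS_sq, Category.id_comp]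

/-- the same with decorations (`st f x`: `f` on the leg `x`) -/
theorem con_swap' {P T S : C} (d : SD P T) (n : ℕ) (a b b' : P ⟶ P)
    (hb : (b ▷ P) ≫ d.q = (P ◁ b') ≫ d.q) (F : pow P n ⟶ S) (x : Fin n) :
    ((d.c ≫ (a ⊗ₘ b)) ▷ pow P n ≫ (α_ P P (pow P n)).hom ≫
      act P (n + 2) (Equiv.swap 0 x.succ.succ) ≫
      (α_ P P (pow P n)).inv ≫ (d.q ⊗ₘ F) : T ⊗ pow P n ⟶ T ⊗ S) =
      T ◁ ((show pow P n ⟶ pow P n from st (show End P from (b' ≫ a)) x) ≫ F) := by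
  obtain ⟨k, rfl⟩ : ∃ k, n = k + 1 := ⟨n - 1, by have := x.isLt; omega⟩
  have h2 := con_swap02' d (B := pow P k) a b b' hb (act P (k + 1) (Equiv.swap 0 x) ≫ F)
  have h3 : act P (k + 1) (Equiv.swap 0 x) ≫
      (((b' ≫ a) ▷ pow P k : P ⊗ pow P k ⟶ P ⊗ pow P k) ≫ act P (k + 1) (Equiv.swap 0 x) ≫ F) =
      (show pow P (k + 1) ⟶ pow P (k + 1) from st (show End P from (b' ≫ a)) x) ≫ F := by
    have h4 := ConS_st (show End P from (b' ≫ a)) x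
    refine Eq.trans ?_ (congrArg (fun t => t ≫ F) h4)
    exact (ConS_assoc _ _ _ _).symm
  exact ConS_conj3 (d.c ≫ (a ⊗ₘ b)) d.q (act P (k + 1) (Equiv.swap 0 x)) F _ _ _ _
    (ConS_act P x) h2 h3

end Mon

end Pool.Agent.W868h60
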