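import Pool.Agent.W_868bb7_h60.Inv

set_option autoImplicit false

/-!
# Cs: symmetry of the copairing

See the docstring.
-/

namespace Pool.Agent.W868h60

open CategoryTheory MonoidalCategory Equiv
open Pool.Agent.W_MP_868bb7_ag Pool.Agent.W_868bb7_h64

universe v u w

section Cs

theorem Cs_mu_mu {C : Type u} [Category.{v} C] [MonoidalCategory C] [SymmetricCategory C]
    (P : C) : tensorμ P P P P ≫ tensorμ P P P P = 𝟙 _ := by
  simp only [tensorμ, Category.assoc]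
  rw [Iso.inv_hom_id_assoc]
  simp only [← MonoidalCategory.whiskerLeft_comp_assoc, ← MonoidalCategory.whiskerLeft_comp,
    Category.assoc]
  rw [Iso.hom_inv_id_assoc]
  simp only [← comp_whiskerRight_assoc, SymmetricCategory.symmetry]
  simp

theorem Cs_mu {C : Type u} [Category.{v} C] [MonoidalCategory C] [SymmetricCategory C]
    (P : C) : (β_ (P ⊗ P) (P ⊗ P)).hom ≫ tensorμ P P P P =
      tensorμ P P P P ≫ ((β_ P P).hom ⊗ₘ (β_ P P).hom) := by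
  have h := SymmetricCategory.tensorμ_braid_swap P P
  have h2 := congrArg (fun f => tensorμ P P P P ≫ f ≫ tensorμ P P P P) h
  simp only [Category.assoc, Cs_mu_mu, Category.comp_id] at h2
  rw [← Category.assoc (tensorμ P P P P) (tensorμ P P P P), Cs_mu_mu, Category.id_comp] at h2
  exact h2

theorem Cs_zero {C : Type u} [Category.{v} C] [MonoidalCategory C] [SymmetricCategory C]
    {P T : C} (q : P ⊗ P ⟶ T) (c : T ⟶ P ⊗ P)
    (hz : c ▷ P ≫ (α_ P P P).hom ≫ P ◁ q = (β_ T P).hom) :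
    c ▷ (P ⊗ P) ≫ tensorμ P P P P ≫ ((β_ P P).hom ⊗ₘ q) = (β_ T (P ⊗ P)).hom := by
  have h3 : (β_ T P).hom ≫ P ◁ c = c ▷ P ≫ (α_ P P P).hom ≫ P ◁ (β_ P P).hom ≫
      (α_ P P P).inv ≫ (β_ P P).hom ▷ P ≫ (α_ P P P).hom := by
    rw [← BraidedCategory.braiding_naturality_left, BraidedCategory.braiding_tensor_left_hom]
  calc c ▷ (P ⊗ P) ≫ tensorμ P P P P ≫ ((β_ P P).hom ⊗ₘ q)
      = 𝟙 _ ⊗≫ (c ▷ P ≫ (α_ P P P).hom ≫ P ◁ (β_ P P).hom ≫
          (α_ P P P).inv ≫ (β_ P P).hom ▷ P ≫ (α_ P P P).hom) ▷ P ⊗≫ P ◁ P ◁ q ⊗≫ 𝟙 _ := by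
        simp only [tensorμ, MonoidalCategory.tensorHom_def]
        monoidal
    _ = 𝟙 _ ⊗≫ (β_ T P).hom ▷ P ⊗≫ P ◁ (c ▷ P ≫ (α_ P P P).hom ≫ P ◁ q) ⊗≫ 𝟙 _ := by
        rw [← h3]
        monoidal
    _ = (β_ T (P ⊗ P)).hom := by
        rw [hz, BraidedCategory.braiding_tensor_right_hom]
        monoidal

/-- If `q` is symmetric then the copairing is symmetric:
`c(t') ⊗ t = ∑ c'₁ ⊗ c₁ ⊗ q(c₂, c'₂) = ∑ c'₁ ⊗ c₁ ⊗ q(c'₂, c₂) = c₂ ⊗ c₁ ⊗ t'` by two zigzags. -/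
theorem cs_of_zig {C : Type u} [Category.{v} C] [MonoidalCategory C] [SymmetricCategory C]
    [Preadditive C] [MonoidalPreadditive C] {P T : C} (hF : Faith T)
    (hT : (β_ T T).hom = 𝟙 _) (q : P ⊗ P ⟶ T) (c : T ⟶ P ⊗ P)
    (hq : (β_ P P).hom ≫ q = q)
    (hz : c ▷ P ≫ (α_ P P P).hom ≫ P ◁ q = (β_ T P).hom) : c ≫ (β_ P P).hom = c := by
  have h0 := Cs_zero q c hz
  -- c ▷ T
  have h1 : c ▷ T = (c ⊗ₘ c) ≫ tensorμ P P P P ≫ ((β_ P P).hom ⊗ₘ q) := by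
    have e1 : c ▷ T = (β_ T T).hom ≫ c ▷ T := by rw [hT, Category.id_comp]
    have e2 : (c ⊗ₘ c) = T ◁ c ≫ c ▷ (P ⊗ P) := tensorHom_def' c c
    rw [e1, ← BraidedCategory.braiding_naturality_right, ← h0, e2, Category.assoc]
  have h2 : (c ⊗ₘ c) ≫ tensorμ P P P P ≫ ((β_ P P).hom ⊗ₘ q) =
      (c ⊗ₘ c) ≫ tensorμ P P P P ≫ (P ⊗ P) ◁ q := by
    have e1 : (c ⊗ₘ c) = (β_ T T).hom ≫ (c ⊗ₘ c) := by rw [hT, Category.id_comp]
    conv_lhs => rw [e1]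
    rw [← BraidedCategory.braiding_naturality, Category.assoc, reassoc_of% (Cs_mu P)]
    rw [tensorHom_comp_tensorHom, SymmetricCategory.symmetry, hq, id_tensorHom]
  have h3 : (c ≫ (β_ P P).hom) ▷ T = (c ⊗ₘ c) ≫ tensorμ P P P P ≫ (P ⊗ P) ◁ q := by
    rw [comp_whiskerRight, h1, Category.assoc, Category.assoc]
    congr 2
    rw [← tensorHom_id, tensorHom_comp_tensorHom, SymmetricCategory.symmetry, Category.comp_id,
      id_tensorHom]
  have h4 : (c ≫ (β_ P P).hom - c) ▷ T = 0 := by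
    have e1 : (c ≫ (β_ P P).hom - c) ▷ T = (c ≫ (β_ P P).hom) ▷ T - c ▷ T :=
      (tensorRight T).map_sub
    rw [e1, h3, h1, h2, sub_self]
  exact sub_eq_zero.1 (faith_right hF _ h4)

end Cs

end Pool.Agent.W868h60
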