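import Mathlib

set_option autoImplicit false

/-!
# Dec0: the bijective part, definitions

`f : Γ → M` with `f (γ τ) = A τ (f γ)`.  `H = {h | f h = f 1}` is a subgroup and `f (h γ) = f γ` for
`h ∈ H`.  For `x : Γ → K`, `bp x` is the element of the group algebra of `Γ₀` with coefficient
`(1/k) ∑_{h ∈ H} x (h (ι τ)⁻¹)` at `τ`, `k` the number of the `τ` with `ι τ ∈ H`.

* `bp_equiv`: `(regR (ι σ) x) γ = x (γ ι σ)`.
* `bp_trans`: the coefficient of `bp (regR γ x)` at `1` is `(1/k) ∑_h x (h γ)`; if these vanish then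
  `|H| ∑ x(γ) f(γ) = ∑_h ∑_γ x (h γ) f (h γ) = ∑_γ (∑_h x (h γ)) f γ = 0`.
* `bp_dec`: `{γ | ∃ τ, f γ = f (ι τ)} = H ι(Γ₀)`, and every such `γ` is `h ι τ` for exactly `k` pairs.
-/

namespace Pool.Agent.W868h60

open Finset

variable {K : Type*} [Field K] {Γ Γ₀ : Type*} [Group Γ] [Fintype Γ] [Group Γ₀] [Fintype Γ₀]

/-- right translation: `(regR K Γ τ x) γ = x (γ * τ)` -/
def regR (K : Type*) [Field K] (Γ : Type*) [Group Γ] : Representation K Γ (Γ → K) where
  toFun τ :=
    { toFun := fun x γ => x (γ * τ)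
      map_add' := fun _ _ => rfl
      map_smul' := fun _ _ => rfl }
  map_one' := by
    ext x γ
    simp
  map_mul' σ τ := by
    ext x γ
    simp [mul_assoc]

theorem regR_apply (τ : Γ) (x : Γ → K) (γ : Γ) : regR K Γ τ x γ = x (γ * τ) := rfl

variable {M : Type*} [AddCommGroup M] [Module K M]

open Classical in
/-- the bijective part -/
noncomputable def bp (ι : Γ₀ →* Γ) (f : Γ → M) : (Γ → K) →ₗ[K] MonoidAlgebra K Γ₀ where
  toFun x := ∑ τ : Γ₀, MonoidAlgebra.single τ
    (((univ.filter (fun σ : Γ₀ => f (ι σ) = f 1)).card : K)⁻¹ *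
      ∑ h ∈ univ.filter (fun h : Γ => f h = f 1), x (h * (ι τ)⁻¹))
  map_add' x y := by
    rw [← sum_add_distrib]
    refine sum_congr rfl (fun τ _ => ?_)
    rw [← MonoidAlgebra.single_add, ← mul_add, ← sum_add_distrib]
    rfl
  map_smul' a x := by
    rw [RingHom.id_apply, smul_sum]
    refine sum_congr rfl (fun τ _ => ?_)
    rw [MonoidAlgebra.smul_single]
    congr 1
    simp only [Pi.smul_apply, smul_eq_mul, ← mul_sum]
    ring

end Pool.Agent.W868h60
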