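import Pool.Agent.W_868bb7_h60.Dec0

set_option autoImplicit false

/-!
# DecA: equivariance

See `Dec0`.
-/

namespace Pool.Agent.W868h60

open Finset

variable {K : Type*} [Field K] {Γ Γ₀ : Type*} [Group Γ] [Fintype Γ] [Group Γ₀] [Fintype Γ₀]
variable {M : Type*} [AddCommGroup M] [Module K M]

theorem bp_equiv (ι : Γ₀ →* Γ) (f : Γ → M) (σ : Γ₀) (x : Γ → K) :
    bp ι f (regR K Γ (ι σ) x) = MonoidAlgebra.of K Γ₀ σ * bp ι f x := by
  classical
  simp only [bp, LinearMap.coe_mk, AddHom.coe_mk, regR_apply]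
  rw [Finset.mul_sum]
  refine (Fintype.sum_equiv (Equiv.mulLeft σ) _ _ fun τ => ?_).symm
  rw [MonoidAlgebra.of_apply, MonoidAlgebra.single_mul_single, one_mul, Equiv.coe_mulLeft]
  congr 2
  refine Finset.sum_congr rfl fun h _ => ?_
  congr 1
  rw [map_mul, mul_inv_rev, mul_assoc, mul_assoc, inv_mul_cancel, mul_one]

end Pool.Agent.W868h60
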