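import Pool.Agent.W_868bb7_h60.Dec0

set_option autoImplicit false

/-!
# DecD: decomposition

See `Dec0`.
-/

namespace Pool.Agent.W868h60

open Finset

variable {K : Type*} [Field K] [CharZero K] {Γ Γ₀ : Type*} [Group Γ] [Fintype Γ] [Group Γ₀] [Fintype Γ₀]
variable {M : Type*} [AddCommGroup M] [Module K M]

open Classical in
theorem bp_dec (ι : Γ₀ →* Γ) (f : Γ → M) (A : Γ → (M →ₗ[K] M))
    (hA : ∀ γ τ, f (γ * τ) = A τ (f γ)) (x : Γ → K) :
    ∑ γ, x γ • f γ = ∑ τ : Γ₀, (bp ι f x).coeff τ • f (ι τ)⁻¹ +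
      ∑ γ ∈ univ.filter (fun γ : Γ => ¬ ∃ τ : Γ₀, f γ = f (ι τ)), x γ • f γ := by
  have hAi : ∀ γ δ τ, f γ = f δ → f (γ * τ) = f (δ * τ) := by
    intro γ δ τ h
    rw [hA, hA, h]
  have hAe : ∀ γ δ τ, f (γ * τ) = f (δ * τ) ↔ f γ = f δ := by
    intro γ δ τ
    constructor
    · intro h
      have := hAi _ _ τ⁻¹ h
      simpa using this
    · exact hAi γ δ τ
  set k : ℕ := (univ.filter (fun σ : Γ₀ => f (ι σ) = f 1)).card with hk
  have hk0 : (k : K) ≠ 0 := by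
    have : 0 < k := by
      rw [hk, card_pos]
      exact ⟨1, by simp⟩
    exact_mod_cast this.ne'
  -- the coefficients
  have hco : ∀ τ : Γ₀, (bp ι f x).coeff τ = (k : K)⁻¹ *
      ∑ h ∈ univ.filter (fun h : Γ => f h = f 1), x (h * (ι τ)⁻¹) := by
    intro τ
    unfold bp
    simp [MonoidAlgebra.coeff_sum, MonoidAlgebra.coeff_single, Finsupp.single_apply, hk]
  have hterm : ∀ τ : Γ₀, (bp ι f x).coeff τ • f (ι τ)⁻¹ =
      (k : K)⁻¹ • ∑ γ : Γ, if f γ = f (ι τ)⁻¹ then x γ • f γ else 0 := by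
    intro τ
    rw [hco, mul_smul, sum_smul, sum_filter]
    congr 1
    refine Fintype.sum_equiv (Equiv.mulRight (ι τ)⁻¹) _ _ fun h => ?_
    rw [Equiv.coe_mulRight]
    have e1 : f (h * (ι τ)⁻¹) = f (ι τ)⁻¹ ↔ f h = f 1 := by
      have := hAe h 1 (ι τ)⁻¹
      rwa [one_mul] at this
    by_cases hh : f h = f 1
    · rw [if_pos hh, if_pos (e1.2 hh), e1.2 hh]
    · rw [if_neg hh, if_neg (fun h' => hh (e1.1 h'))]
  have hcard : ∀ γ : Γ, (univ.filter (fun τ : Γ₀ => f γ = f (ι τ)⁻¹)).card =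
      if ∃ τ : Γ₀, f γ = f (ι τ) then k else 0 := by
    intro γ
    split_ifs with h
    · obtain ⟨τ₀, h0⟩ := h
      rw [hk]
      refine card_bij' (fun τ _ => τ⁻¹ * τ₀⁻¹) (fun σ _ => (σ * τ₀)⁻¹) ?_ ?_ ?_ ?_
      · intro τ hτ
        rw [mem_filter] at hτ ⊢
        refine ⟨mem_univ _, ?_⟩
        rw [← hAe _ _ (ι τ₀), ← map_mul, inv_mul_cancel_right, one_mul, map_inv, ← hτ.2, h0]
      · intro σ hσ
        rw [mem_filter] at hσ ⊢
        refine ⟨mem_univ _, ?_⟩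
        rw [map_inv, inv_inv, map_mul, hAi _ _ (ι τ₀) hσ.2, one_mul, h0]
      · intro τ _
        simp
      · intro σ _
        simp
    · rw [card_eq_zero, filter_eq_empty_iff]
      intro τ _ h'
      exact h ⟨τ⁻¹, by rw [h', map_inv]⟩
  have hsum : ∑ τ : Γ₀, (bp ι f x).coeff τ • f (ι τ)⁻¹ =
      ∑ γ ∈ univ.filter (fun γ : Γ => ∃ τ : Γ₀, f γ = f (ι τ)), x γ • f γ := by
    simp only [hterm]
    rw [← smul_sum, sum_comm, sum_filter, smul_sum]
    refine sum_congr rfl fun γ _ => ?_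
    rw [← sum_filter, sum_const, hcard]
    split_ifs with h
    · rw [← Nat.cast_smul_eq_nsmul K, smul_smul, inv_mul_cancel₀ hk0, one_smul]
    · rw [zero_smul, smul_zero]
  rw [hsum, sum_filter_add_sum_filter_not]

end Pool.Agent.W868h60
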