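import Pool.Agent.W_868bb7_h60.Dec0

set_option autoImplicit false

/-!
# DecT: transitivity

See `Dec0`.
-/

namespace Pool.Agent.W868h60

open Finset

variable {K : Type*} [Field K] [CharZero K] {Γ Γ₀ : Type*} [Group Γ] [Fintype Γ] [Group Γ₀] [Fintype Γ₀]
variable {M : Type*} [AddCommGroup M] [Module K M]

theorem bp_trans (ι : Γ₀ →* Γ) (f : Γ → M) (A : Γ → (M →ₗ[K] M))
    (hA : ∀ γ τ, f (γ * τ) = A τ (f γ)) (x : Γ → K)
    (hx : ∀ γ : Γ, bp ι f (regR K Γ γ x) = 0) : ∑ γ, x γ • f γ = 0 := by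
  classical
  -- the coefficient at `1`
  have hcoef : ∀ γ : Γ, ∑ h ∈ univ.filter (fun h : Γ => f h = f 1), x (h * γ) = 0 := by
    intro γ
    have h0 := hx γ
    have h1 : (bp ι f (regR K Γ γ x)).coeff (1 : Γ₀) = 0 := by
      rw [h0]; rfl
    have h2 : (bp ι f (regR K Γ γ x)).coeff (1 : Γ₀) =
        (((univ.filter (fun σ : Γ₀ => f (ι σ) = f 1)).card : K)⁻¹ *
          ∑ h ∈ univ.filter (fun h : Γ => f h = f 1), x (h * γ)) := by
      unfold bp
      simp only [LinearMap.coe_mk, AddHom.coe_mk]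
      rw [MonoidAlgebra.coeff_sum, Finsupp.finsetSum_apply]
      rw [Finset.sum_eq_single (1 : Γ₀)]
      · rw [MonoidAlgebra.coeff_single, Finsupp.single_eq_same]
        refine congrArg₂ (· * ·) rfl ?_
        refine Finset.sum_congr rfl (fun h _ => ?_)
        rw [regR_apply, map_one, inv_one, mul_one]
      · intro τ _ hτ
        rw [MonoidAlgebra.coeff_single, Finsupp.single_apply, if_neg hτ]
      · intro h
        exact absurd (mem_univ _) h
    rw [h2] at h1
    rcases mul_eq_zero.mp h1 with h3 | h3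
    · exfalso
      have h4 : ((univ.filter (fun σ : Γ₀ => f (ι σ) = f 1)).card : K) = 0 := inv_eq_zero.mp h3
      have h5 : (univ.filter (fun σ : Γ₀ => f (ι σ) = f 1)).card = 0 := by exact_mod_cast h4
      have h6 : (1 : Γ₀) ∈ univ.filter (fun σ : Γ₀ => f (ι σ) = f 1) := by
        rw [mem_filter]; exact ⟨mem_univ _, by rw [map_one]⟩
      rw [Finset.card_eq_zero] at h5
      rw [h5] at h6
      simp at h6
    · exact h3
  have hf : ∀ h ∈ univ.filter (fun h : Γ => f h = f 1), ∀ γ : Γ, f (h * γ) = f γ := by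
    intro h hh γ
    rw [mem_filter] at hh
    rw [hA h γ, hh.2, ← hA 1 γ, one_mul]
  have hsum : ((univ.filter (fun h : Γ => f h = f 1)).card : K) • ∑ γ, x γ • f γ = 0 := by
    calc ((univ.filter (fun h : Γ => f h = f 1)).card : K) • ∑ γ, x γ • f γ
        = ∑ h ∈ univ.filter (fun h : Γ => f h = f 1), ∑ γ, x γ • f γ := by
          rw [Finset.sum_const, Nat.cast_smul_eq_nsmul]
      _ = ∑ h ∈ univ.filter (fun h : Γ => f h = f 1), ∑ γ, x (h * γ) • f γ := by
          refine Finset.sum_congr rfl (fun h hh => ?_)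
          rw [← Equiv.sum_comp (Equiv.mulLeft h) (fun γ => x γ • f γ)]
          refine Finset.sum_congr rfl (fun γ _ => ?_)
          show x (h * γ) • f (h * γ) = _
          rw [hf h hh γ]
      _ = ∑ γ, (∑ h ∈ univ.filter (fun h : Γ => f h = f 1), x (h * γ)) • f γ := by
          rw [Finset.sum_comm]
          refine Finset.sum_congr rfl (fun γ _ => ?_)
          rw [Finset.sum_smul]
      _ = 0 := by
          refine Finset.sum_eq_zero (fun γ _ => ?_)
          rw [hcoef γ, zero_smul]
  rcases smul_eq_zero.mp hsum with h3 | h3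
  · exfalso
    have h5 : (univ.filter (fun h : Γ => f h = f 1)).card = 0 := by exact_mod_cast h3
    have h6 : (1 : Γ) ∈ univ.filter (fun h : Γ => f h = f 1) := by
      rw [mem_filter]; exact ⟨mem_univ _, rfl⟩
    rw [Finset.card_eq_zero] at h5
    rw [h5] at h6
    simp at h6
  · exact h3

end Pool.Agent.W868h60
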