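import Pool.Agent.W_868bb7_h64.JoinAct
import Pool.Agent.W_MP_868bb7_h79.Smash

set_option autoImplicit false

/-!
# Definitions: self-dual objects, decorated matchings (T7, MP_868bb7_ag, category half)

`C` is a `K`-linear symmetric monoidal category, `P` an object with a symmetric perfect pairing
`q : P ⊗ P ⟶ T` and copairing `c : T ⟶ P ⊗ P` (structure `SD P T`).  `qa q r` is the standard
matching `0-1, 2-3, ...` of `P^{⊗ 2r}`.
-/

namespace Pool.Agent.W868h60

open CategoryTheory MonoidalCategory Equiv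
open Pool.Agent.W_MP_868bb7_ag Pool.Agent.W_868bb7_h64

universe v u w

section Perm

/-- `0 ↦ 0`, `i + 1 ↦ e i + 1` -/
def shE {n m : ℕ} (e : Fin n ≃ Fin m) : Fin (n + 1) ≃ Fin (m + 1) :=
  (finSuccEquiv n).trans (e.optionCongr.trans (finSuccEquiv m).symm)

/-- `a ↦ 0`, `x ↦ x + 1` for `x < a`, `x ↦ x` for `x > a` -/
def thE : (a m : ℕ) → (Fin (m + 1 + a) ≃ Fin (m + a + 1))
  | 0, m => Equiv.refl (Fin (m + 1))
  | a + 1, m => (shE (thE a m)).trans (Equiv.swap 0 1)

/-- `i ↦ 2 i`, `r + i ↦ 2 i + 1` for `i < r` -/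
def piE : (r : ℕ) → (Fin (r + r) ≃ Fin (2 * r))
  | 0 => Equiv.refl (Fin 0)
  | r + 1 => shE ((thE r r).trans (shE (piE r)))

/-- the involution `2 i ↔ 2 i + 1` -/
def adj (r : ℕ) : Equiv.Perm (Fin (2 * r)) where
  toFun x := if h : x.val % 2 = 0 then ⟨x.val + 1, by omega⟩ else ⟨x.val - 1, by omega⟩
  invFun x := if h : x.val % 2 = 0 then ⟨x.val + 1, by omega⟩ else ⟨x.val - 1, by omega⟩
  left_inv x := by
    apply Fin.ext
    by_cases h : x.val % 2 = 0
    · have : (x.val + 1) % 2 ≠ 0 := by omega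
      simp [h, this]
    · have : (x.val - 1) % 2 = 0 := by omega
      simp [h, this]
      omega
  right_inv x := by
    apply Fin.ext
    by_cases h : x.val % 2 = 0
    · have : (x.val + 1) % 2 ≠ 0 := by omega
      simp [h, this]
    · have : (x.val - 1) % 2 = 0 := by omega
      simp [h, this]
      omega

/-- the involution `i ↔ i + r` of `Fin (r + r)` -/
def blk (r : ℕ) : Equiv.Perm (Fin (r + r)) where
  toFun x := if h : x.val < r then ⟨x.val + r, by omega⟩ else ⟨x.val - r, by omega⟩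
  invFun x := if h : x.val < r then ⟨x.val + r, by omega⟩ else ⟨x.val - r, by omega⟩
  left_inv x := by
    apply Fin.ext
    by_cases h : x.val < r
    · have : ¬ (x.val + r < r) := by omega
      simp [h]
    · have : x.val - r < r := by omega
      simp [h, this]
      omega
  right_inv x := by
    apply Fin.ext
    by_cases h : x.val < r
    · have : ¬ (x.val + r < r) := by omega
      simp [h]
    · have : x.val - r < r := by omega
      simp [h, this]
      omega

end Perm

section Mon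

variable {C : Type u} [Category.{v} C] [MonoidalCategory C] [SymmetricCategory C]

/-- `A` is self-dual with values in `S`: a symmetric pairing `q` with a copairing `c` -/
structure SD (A S : C) where
  /-- the pairing -/
  q : A ⊗ A ⟶ S
  /-- the copairing -/
  c : S ⟶ A ⊗ A
  qs : (β_ A A).hom ≫ q = q
  cs : c ≫ (β_ A A).hom = c
  zig : c ▷ A ≫ (α_ A A A).hom ≫ A ◁ q = (β_ S A).hom

/-- the standard matching `0-1, 2-3, ...` -/
def qa {P T : C} (q : P ⊗ P ⟶ T) : (r : ℕ) → (pow P (2 * r) ⟶ pow T r)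
  | 0 => 𝟙 (𝟙_ C)
  | r + 1 => (α_ P P (pow P (2 * r))).inv ≫ (q ⊗ₘ qa q r)

/-- permutation of factors, along a bijection -/
def actE (X : C) {n m : ℕ} (e : Fin n ≃ Fin m) : pow X n ⟶ pow X m :=
  eqToHom (congrArg (pow X) (Fin.equiv_iff_eq.1 ⟨e⟩)) ≫
    act X m ((finCongr (Fin.equiv_iff_eq.1 ⟨e⟩)).symm.trans e)

/-- the standard matching `i - (r + i)` -/
def qb {P T : C} (q : P ⊗ P ⟶ T) (r : ℕ) : pow P (r + r) ⟶ pow T r :=
  actE P (piE r) ≫ qa q r

/-- the cap on the first two factors -/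
def capF {P T : C} (q : P ⊗ P ⟶ T) (B : C) : P ⊗ (P ⊗ B) ⟶ T ⊗ B :=
  (α_ P P B).inv ≫ q ▷ B

/-- the cup on the first two factors -/
def cupF {P T : C} (c : T ⟶ P ⊗ P) (B : C) : T ⊗ B ⟶ P ⊗ (P ⊗ B) :=
  c ▷ B ≫ (α_ P P B).hom

/-- the endomorphism belonging to a form -/
def sharp {X S : C} (d : SD X S) {Z : C} (F : X ⊗ Z ⟶ S) : S ⊗ Z ⟶ S ⊗ X :=
  d.c ▷ Z ≫ (α_ X X Z).hom ≫ X ◁ F ≫ (β_ X S).hom

end Mon

section Wr

variable (G : Type) [Group G]

/-- the wreath product of `G` and the symmetric group -/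
abbrev WG (n : ℕ) : Type :=
  (Fin n → G) ⋊[mulAutArrow (G := Equiv.Perm (Fin n)) (A := Fin n) (M := G)] Equiv.Perm (Fin n)

noncomputable instance [Finite G] (n : ℕ) : Fintype (WG G n) := by
  classical
  haveI : Fintype G := Fintype.ofFinite G
  exact Fintype.ofEquiv _ SemidirectProduct.equivProd.symm

variable {G} {C : Type u} [Category.{v} C] [MonoidalCategory C] [SymmetricCategory C]

/-- the decorated permutations as endomorphisms of `P^{⊗ n}` -/
def dact {P : C} (ρ : G →* End P) (n : ℕ) : WG G n →* End (pow P n) where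
  toFun γ := pm P n (fun i => ρ (γ.left i)) * rho P n γ.right
  map_one' := by
    have h : (fun i : Fin n => ρ ((1 : WG G n).left i)) = 1 := by
      funext i
      simp
    rw [h]
    simp
  map_mul' γ δ := by
    have h1 : (γ * δ).left = γ.left * fun i => δ.left (γ.right⁻¹ i) := rfl
    have h2 : (γ * δ).right = γ.right * δ.right := rfl
    have h3 : (fun i : Fin n => ρ ((γ.left * fun i => δ.left (γ.right⁻¹ i)) i)) =
        (fun i => ρ (γ.left i)) * fun i => ρ (δ.left (γ.right⁻¹ i)) := by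
      funext i
      simp
    have h4 := rho_pm P n γ.right (fun i => ρ (δ.left i))
    have h5 : ((fun i => ρ (δ.left i)) ∘ γ.right.symm) = fun i => ρ (δ.left (γ.right⁻¹ i)) := rfl
    rw [h5] at h4
    rw [h1, h2, h3, map_mul, map_mul, mul_assoc, mul_assoc, ← mul_assoc (pm P n _) (rho P n γ.right),
      ← h4]
    simp only [mul_assoc]

end Wr

end Pool.Agent.W868h60
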