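import Pool.Agent.W_868bb7_h60.Main
import Pool.Agent.W_868bb7_h60.Cs

set_option autoImplicit false

/-!
# Final: the theorem
-/

namespace Pool.Agent.W868h60

open CategoryTheory MonoidalCategory
open Pool.Agent.W_MP_868bb7_ag Pool.Agent.W_868bb7_h64

universe v u w

/-- Proof: `cs_of_zig`, `main_all` with `n = 2 * r`. -/
theorem final {K : Type w} [Field K] [CharZero K] {C : Type u} [Category.{v} C]
    [MonoidalCategory C] [Preadditive C] [Linear K C] [MonoidalPreadditive C]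
    [MonoidalLinear K C] [SymmetricCategory C] [RightRigidCategory C] [UnitK K C]
    {P T T' : C} (e : T ⊗ T' ≅ 𝟙_ C) (hT : (β_ T T).hom = 𝟙 (T ⊗ T))
    (q : P ⊗ P ⟶ T) (c : T ⟶ P ⊗ P) (hq : (β_ P P).hom ≫ q = q)
    (hz : c ▷ P ≫ (α_ P P P).hom ≫ P ◁ q = (β_ T P).hom)
    {G : Type} [Group G] [Finite G] [StarMul G] (ρ : G →* End P)
    (hρ : ∀ g : G, ((show P ⟶ P from ρ g) ▷ P) ≫ q = (P ◁ (show P ⟶ P from ρ (star g))) ≫ q)
    (r : ℕ) (F : pow P (2 * r) ⟶ pow T r)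
    (hF : F ∈ Submodule.span K {F | ∃ (g : Fin (2 * r) → G) (σ : Equiv.Perm (Fin (2 * r))),
      F = pmv P (2 * r) (fun i => ρ (g i)) ≫ act P (2 * r) σ ≫ qa q r})
    (N : ℕ) (hN : powMap F N = 0) : F = 0 := by
  have hFT : Faith T := faith_of_inv ((β_ T' T) ≪≫ e)
  let d : SD P T :=
    { q := q
      c := c
      qs := hq
      cs := cs_of_zig hFT hT q c hq hz
      zig := hz }
  refine main_all K e hT d ρ hρ r (2 * r) F ?_ ⟨N, hN⟩
  rw [LS]
  refine Submodule.span_mono ?_ hF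
  rintro x ⟨g, σ, rfl⟩
  refine ⟨σ, g, ?_⟩
  rw [dm, actE_perm]

end Pool.Agent.W868h60
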