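import Pool.Agent.W_868bb7_h60.HInv

set_option autoImplicit false

/-!
# Form: normal form of a matching with respect to the first two legs

See the docstrings.
-/

namespace Pool.Agent.W868h60

open CategoryTheory MonoidalCategory Equiv
open Pool.Agent.W_MP_868bb7_ag Pool.Agent.W_868bb7_h64

universe v u w

section Form

theorem Form_aux {C : Type u} [Category.{v} C] [MonoidalCategory C] {P T A B D : C}
    (q : P ⊗ P ⟶ T) (f : A ⟶ B) (g : B ⟶ D) :
    P ◁ (P ◁ f) ≫ (α_ P P B).inv ≫ (q ⊗ₘ g) = (α_ P P A).inv ≫ (q ⊗ₘ (f ≫ g)) := by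
  rw [← Category.assoc, associator_inv_naturality_right, Category.assoc]
  congr 1
  rw [← id_tensorHom, tensorHom_comp_tensorHom, Category.id_comp]

/-- the case of a chord `0-1` (`qa_move`, `exists_shE2`) -/
theorem exists_form' {C : Type u} [Category.{v} C] [MonoidalCategory C] [SymmetricCategory C]
    {P T : C} (q : P ⊗ P ⟶ T) (hq : (β_ P P).hom ≫ q = q) (hT : (β_ T T).hom = 𝟙 _)
    (n r : ℕ) (e : Fin (n + 2) ≃ Fin (2 * (r + 1))) (h : e 1 = adj (r + 1) (e 0)) :
    ∃ (e' : Fin n ≃ Fin (2 * r)),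
      (actE P e ≫ qa q (r + 1) : pow P (n + 2) ⟶ T ⊗ pow T r) =
          (α_ P P (pow P n)).inv ≫ (q ⊗ₘ (actE P e' ≫ qa q r)) := by
  obtain ⟨k, hk0, hk1, hk2⟩ := qa_move q hq hT r (e 0)
  have h0 : (e.trans k) 0 = (0 : Fin (2 * r + 2)) := by
    rw [Equiv.trans_apply]
    exact hk0
  have h1 : (e.trans k) 1 = (1 : Fin (2 * r + 2)) := by
    rw [Equiv.trans_apply, h, hk1, hk0]
    exact adj_zero r
  obtain ⟨e', he'⟩ := exists_shE2 (n := n) (m := 2 * r) (e.trans k) h0 h1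
  refine ⟨e', ?_⟩
  have e1 : actE P e ≫ qa q (r + 1) = actE P (e.trans k) ≫ qa q (r + 1) := by
    rw [← actE_act' P e k, Category.assoc, hk2]
  have e2 : (actE P (e.trans k) : pow P (n + 2) ⟶ pow P (2 * (r + 1))) =
      (P ◁ (P ◁ actE P e') : P ⊗ (P ⊗ pow P n) ⟶ P ⊗ (P ⊗ pow P (2 * r))) := by
    have e3 : (actE P (e.trans k) : pow P (n + 2) ⟶ pow P (2 * r + 2)) =
        actE P (shE (shE e')) := congrArg (fun z => actE P z) he'
    refine e3.trans ?_
    rw [← actE_shE]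
    exact actE_shE P (shE e')
  refine e1.trans ?_
  rw [e2]
  exact Form_aux q (actE P e') (qa q r)

/-- the matching `e` (`e l`, `e l'` adjacent for the two legs of a chord): if `0`, `1` do not form a
chord, then up to the invariance of `qa` it is the matching with the legs `0` and `x`
exchanged in a matching containing the chord `0-1`, `x` = the partner of `1`.
For the proof: `p = e 1`; `x` with `e x = adj (e 1)`, `x ≠ 0`.  `e₁ = (swap 0 x).trans e` has
`e₁ 0 = e x = adj (e₁ 1)`, where `e₁ 1 = e 1`.  By `qa_move` choose `h` with `h (e₁ 0) = 0`, then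
`h (e₁ 1) = h (adj (e₁ 0)) = 1`, and `e₁.trans h = shE (shE e')` (`exists_shE2`). -/
theorem exists_form {C : Type u} [Category.{v} C] [MonoidalCategory C] [SymmetricCategory C]
    {P T : C} (q : P ⊗ P ⟶ T) (hq : (β_ P P).hom ≫ q = q) (hT : (β_ T T).hom = 𝟙 _)
    (n r : ℕ) (e : Fin (n + 2) ≃ Fin (2 * (r + 1))) (h : e 1 ≠ adj (r + 1) (e 0)) :
    ∃ (x : Fin n) (e' : Fin n ≃ Fin (2 * r)),
      e x.succ.succ = adj (r + 1) (e 1) ∧
      (actE P e ≫ qa q (r + 1) : pow P (n + 2) ⟶ T ⊗ pow T r) =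
        act P (n + 2) (Equiv.swap 0 x.succ.succ) ≫
          (α_ P P (pow P n)).inv ≫ (q ⊗ₘ (actE P e' ≫ qa q r)) := by
  have hx0 : e.symm (adj (r + 1) (e 1)) ≠ 0 := by
    intro h1
    rw [Equiv.symm_apply_eq] at h1
    apply h
    rw [← h1, adj_adj]
  have hx1 : e.symm (adj (r + 1) (e 1)) ≠ 1 := by
    intro h1
    rw [Equiv.symm_apply_eq] at h1
    exact adj_ne (r + 1) (e 1) h1
  obtain ⟨x, hx⟩ : ∃ x : Fin n, x.succ.succ = e.symm (adj (r + 1) (e 1)) := by
    obtain ⟨y, hy⟩ := Fin.exists_succ_eq.2 hx0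
    have hy0 : y ≠ 0 := by
      rintro rfl
      apply hx1
      rw [← hy]
      rfl
    obtain ⟨z, hz⟩ := Fin.exists_succ_eq.2 hy0
    exact ⟨z, by rw [hz, hy]⟩
  have hex : e x.succ.succ = adj (r + 1) (e 1) := by
    rw [hx, Equiv.apply_symm_apply]
  set s : Equiv.Perm (Fin (n + 2)) := Equiv.swap 0 x.succ.succ with hs
  have h10 : (1 : Fin (n + 2)) ≠ 0 := by
    intro h1
    exact absurd (congrArg Fin.val h1) (by simp)
  have h1x : (1 : Fin (n + 2)) ≠ x.succ.succ := by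
    intro h1
    apply hx1
    rw [← hx, ← h1]
  have hs0 : (Equiv.trans s e) 0 = adj (r + 1) (e 1) := by
    rw [Equiv.trans_apply, hs, Equiv.swap_apply_left, hex]
  have hs1 : (Equiv.trans s e) 1 = e 1 := by
    rw [Equiv.trans_apply, hs, Equiv.swap_apply_of_ne_of_ne h10 h1x]
  have hc : (Equiv.trans s e) 1 = adj (r + 1) ((Equiv.trans s e) 0) := by
    rw [hs0, hs1, adj_adj]
  obtain ⟨e', he'⟩ := exists_form' q hq hT n r (Equiv.trans s e) hc
  refine ⟨x, e', hex, ?_⟩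
  have e1 : act P (n + 2) s ≫ actE P (Equiv.trans s e) = actE P e := by
    rw [actE_act]
    congr 1
    ext y
    simp [hs]
  have e3 : actE P e ≫ qa q (r + 1) =
      act P (n + 2) s ≫ (actE P (Equiv.trans s e) ≫ qa q (r + 1)) := by
    rw [← Category.assoc, e1]
  exact Eq.trans e3 (congrArg (fun z : pow P (n + 2) ⟶ T ⊗ pow T r =>
    (act P (n + 2) s ≫ z : pow P (n + 2) ⟶ T ⊗ pow T r)) he')

end Form

end Pool.Agent.W868h60
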