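import Pool.Agent.W_868bb7_h60.PairQ
import Pool.Agent.W_868bb7_h60.AdjP
import Pool.Agent.W_868bb7_h60.ActE

set_option autoImplicit false

/-!
# HInv: invariance of the standard matching

`qa q r` is invariant under the permutations commuting with `adj r`.
* `qa_swap01`: `act_swap : act X (n + 2) (swap 0 1) = sw X (pow X n)`, `sw_q`.
* `qa_pairs`: `swap 0 2 * swap 1 3 = s t u s` with `s = swap 1 2`, `t = swap 0 1`, `u = swap 2 3`,
  `act s = P ◁ sw`, `act t = sw`, `act u = P ◁ (P ◁ sw)` (`act_mul`, `act_shift`, `act_swap`), `pairs_q`.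
* `qa_shift2`: `act_shift` and naturality of the associator.
* `qa_move`: induction on `r`.  `p = 0`: `1`.  `p = 1`: `swap 0 1`.  `p = p' + 2` (so `r = r' + 1`):
  take `h'` for `p'`, then `shift (shift h')` sends `p` to `2`, and `swap 0 2 * swap 1 3` sends `2` to
  `0`.
* `qa_inv`: induction on `r`: by `qa_move` (for `p = h 0`) one may assume `h 0 = 0`, then
  `h 1 = h (adj 0) = adj (h 0) = 1`, so `h = shift (shift h')` (`exists_shE2`, `shE_perm`), `h'`
  commutes with `adj r`.
-/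

namespace Pool.Agent.W868h60

open CategoryTheory MonoidalCategory Equiv
open Pool.Agent.W_MP_868bb7_ag Pool.Agent.W_868bb7_h64

universe v u w

section Mon

variable {C : Type u} [Category.{v} C] [MonoidalCategory C] [SymmetricCategory C]

theorem HInv_shift_swap {n : ℕ} (a b : Fin n) :
    shift (Equiv.swap a b) = Equiv.swap a.succ b.succ := by
  refine Equiv.ext fun x => ?_
  refine Fin.cases ?_ (fun i => ?_) x
  · rw [shift_zero, Equiv.swap_apply_of_ne_of_ne (Fin.succ_ne_zero a).symm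
      (Fin.succ_ne_zero b).symm]
  · rw [shift_succ]
    exact (Fin.succ_injective n).map_swap a b i

/-- a transposition of natural numbers -/
def HInv_swN (a b x : ℕ) : ℕ := if x = a then b else if x = b then a else x
/-- the involution `2 i ↔ 2 i + 1` -/
def HInv_aN (y : ℕ) : ℕ := if y % 2 = 0 then y + 1 else y - 1
/-- `0 ↔ 2`, `1 ↔ 3` -/
def HInv_gN (y : ℕ) : ℕ := if y = 0 then 2 else if y = 1 then 3 else if y = 2 then 0 else if y = 3 then 1 else y

theorem HInv_swN_big {a b x : ℕ} (h1 : x ≠ a) (h2 : x ≠ b) : HInv_swN a b x = x := by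
  unfold HInv_swN
  rw [if_neg h1, if_neg h2]

theorem HInv_swN_four (x : ℕ) : HInv_swN 0 2 (HInv_swN 1 3 x) = HInv_swN 1 2 (HInv_swN 2 3 (HInv_swN 0 1 (HInv_swN 1 2 x))) := by
  rcases Nat.lt_or_ge x 4 with h | h
  · interval_cases x <;> rfl
  · rw [HInv_swN_big (a := 1) (b := 3) (x := x) (by omega) (by omega),
      HInv_swN_big (a := 0) (b := 2) (x := x) (by omega) (by omega),
      HInv_swN_big (a := 1) (b := 2) (x := x) (by omega) (by omega),
      HInv_swN_big (a := 0) (b := 1) (x := x) (by omega) (by omega),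
      HInv_swN_big (a := 2) (b := 3) (x := x) (by omega) (by omega),
      HInv_swN_big (a := 1) (b := 2) (x := x) (by omega) (by omega)]

theorem HInv_aN_ge {y : ℕ} (h : 2 ≤ y) : 2 ≤ HInv_aN y := by
  unfold HInv_aN
  split_ifs <;> omega

theorem HInv_aN_ge4 {y : ℕ} (h : 4 ≤ y) : 4 ≤ HInv_aN y := by
  unfold HInv_aN
  split_ifs <;> omega

theorem HInv_sw_aN (y : ℕ) : HInv_swN 0 1 (HInv_aN y) = HInv_aN (HInv_swN 0 1 y) := by
  rcases Nat.lt_or_ge y 2 with h | h
  · interval_cases y <;> rfl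
  · have := HInv_aN_ge h
    rw [HInv_swN_big (by omega) (by omega), HInv_swN_big (by omega) (by omega)]

theorem HInv_gN_eq (x : ℕ) : HInv_swN 0 2 (HInv_swN 1 3 x) = HInv_gN x := by
  rcases Nat.lt_or_ge x 4 with h | h
  · interval_cases x <;> rfl
  · rw [HInv_swN_big (a := 1) (b := 3) (x := x) (by omega) (by omega),
      HInv_swN_big (a := 0) (b := 2) (x := x) (by omega) (by omega)]
    unfold HInv_gN
    rw [if_neg (by omega), if_neg (by omega), if_neg (by omega), if_neg (by omega)]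

theorem HInv_gN_big {x : ℕ} (h : 4 ≤ x) : HInv_gN x = x := by
  unfold HInv_gN
  rw [if_neg (by omega), if_neg (by omega), if_neg (by omega), if_neg (by omega)]

theorem HInv_g_aN (y : ℕ) : HInv_gN (HInv_aN y) = HInv_aN (HInv_gN y) := by
  rcases Nat.lt_or_ge y 4 with h | h
  · interval_cases y <;> rfl
  · have := HInv_aN_ge4 h
    rw [HInv_gN_big this, HInv_gN_big h]

theorem HInv_swap_val {n : ℕ} (a b x : Fin n) :
    (Equiv.swap a b x).val = HInv_swN a.val b.val x.val := by
  rw [Equiv.swap_apply_def]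
  unfold HInv_swN
  simp only [Fin.ext_iff]
  split_ifs <;> rfl

theorem HInv_adj_val (r : ℕ) (x : Fin (2 * r)) : (adj r x).val = HInv_aN x.val := by
  change (if h : x.val % 2 = 0 then (⟨x.val + 1, by omega⟩ : Fin (2 * r)) else
    ⟨x.val - 1, by omega⟩).val = _
  unfold HInv_aN
  split_ifs <;> rfl

theorem HInv_swap01_val (n : ℕ) (x : Fin (n + 2)) :
    ((Equiv.swap 0 1 : Equiv.Perm (Fin (n + 2))) x).val = HInv_swN 0 1 x.val :=
  HInv_swap_val 0 1 x

theorem HInv_g_val (n : ℕ) (x : Fin (n + 4)) :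
    ((Equiv.swap 0 2 * Equiv.swap 1 3 : Equiv.Perm (Fin (n + 4))) x).val = HInv_gN x.val := by
  rw [← HInv_gN_eq]
  have e1 : (Equiv.swap 0 2 * Equiv.swap 1 3 : Equiv.Perm (Fin (n + 4))) x =
    Equiv.swap 0 2 (Equiv.swap 1 3 x) := rfl
  rw [e1, HInv_swap_val, HInv_swap_val]
  rfl

theorem HInv_perm4 (n : ℕ) :
    (Equiv.swap 0 2 * Equiv.swap 1 3 : Equiv.Perm (Fin (n + 4))) =
      shift (Equiv.swap (0 : Fin (n + 3)) 1) *
        (shift (shift (Equiv.swap (0 : Fin (n + 2)) 1)) *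
          (Equiv.swap 0 1 * shift (Equiv.swap (0 : Fin (n + 3)) 1))) := by
  rw [HInv_shift_swap, HInv_shift_swap, HInv_shift_swap]
  refine Equiv.ext fun x => Fin.ext ?_
  simp only [Equiv.Perm.mul_apply, HInv_swap_val]
  exact HInv_swN_four x.val

theorem HInv_assoc4 {C : Type u} [Category.{v} C] {V W X Y Z U : C} {a : V ⟶ W} {b : W ⟶ X}
    {c : X ⟶ Y} {d : Y ⟶ Z} {e : Z ⟶ U} {f : V ⟶ U} (h : a ≫ b ≫ c ≫ d ≫ e = f) :
    (((a ≫ b) ≫ c) ≫ d) ≫ e = f := by
  rw [← h]
  simp only [Category.assoc]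

omit [SymmetricCategory C] in
theorem HInv_nat {P T B S : C} (q : P ⊗ P ⟶ T) (a : B ⟶ B) (f : B ⟶ S) :
    P ◁ (P ◁ a) ≫ (α_ P P B).inv ≫ (q ⊗ₘ f) = (α_ P P B).inv ≫ (q ⊗ₘ (a ≫ f)) := by
  rw [associator_inv_naturality_right_assoc, ← id_tensorHom, tensorHom_comp_tensorHom,
    Category.id_comp]

theorem qa_succ {P T : C} (q : P ⊗ P ⟶ T) (r : ℕ) :
    (qa q (r + 1) : P ⊗ (P ⊗ pow P (2 * r)) ⟶ T ⊗ pow T r) =
      (α_ P P (pow P (2 * r))).inv ≫ (q ⊗ₘ qa q r) := rfl

theorem qa_swap01 {P T : C} (q : P ⊗ P ⟶ T) (hq : (β_ P P).hom ≫ q = q) (r : ℕ) :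
    (act P (2 * r + 2) (Equiv.swap 0 1) : pow P (2 * (r + 1)) ⟶ pow P (2 * (r + 1))) ≫
      qa q (r + 1) = qa q (r + 1) := by
  rw [act_swap, qa_succ]
  exact sw_q q hq (qa q r)

theorem qa_pairs {P T : C} (q : P ⊗ P ⟶ T) (hT : (β_ T T).hom = 𝟙 _) (r : ℕ) :
    (act P (2 * r + 4) (Equiv.swap 0 2 * Equiv.swap 1 3) :
      pow P (2 * (r + 2)) ⟶ pow P (2 * (r + 2))) ≫ qa q (r + 2) = qa q (r + 2) := by
  have h1 : (act P (2 * r + 4) (Equiv.swap 0 2 * Equiv.swap 1 3)) =
      ((P ◁ sw P (P ⊗ pow P (2 * r)) ≫ sw P (P ⊗ (P ⊗ pow P (2 * r)))) ≫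
        P ◁ (P ◁ sw P (pow P (2 * r)))) ≫ P ◁ sw P (P ⊗ pow P (2 * r)) := by
    rw [HInv_perm4, act_mul, act_mul, act_mul, act_shift, act_shift, act_shift, act_swap,
      act_swap, act_swap]
    rfl
  have h2 := pairs_q (B := pow P (2 * r)) q hT (qa q r)
  rw [h1]
  exact HInv_assoc4 h2

theorem qa_shift2 {P T : C} (q : P ⊗ P ⟶ T) (r : ℕ) (h : Equiv.Perm (Fin (2 * r))) :
    (act P (2 * r + 2) (shift (shift h)) : pow P (2 * (r + 1)) ⟶ pow P (2 * (r + 1))) ≫
      qa q (r + 1) = (α_ P P (pow P (2 * r))).inv ≫ (q ⊗ₘ (act P (2 * r) h ≫ qa q r)) := by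
  rw [act_shift, act_shift, qa_succ]
  exact HInv_nat q _ _

theorem qa_move {P T : C} (q : P ⊗ P ⟶ T) (hq : (β_ P P).hom ≫ q = q)
    (hT : (β_ T T).hom = 𝟙 _) (r : ℕ) (p : Fin (2 * (r + 1))) :
    ∃ h : Equiv.Perm (Fin (2 * (r + 1))), h p = (0 : Fin (2 * r + 2)) ∧
      (∀ x, h (adj (r + 1) x) = adj (r + 1) (h x)) ∧
      act P (2 * (r + 1)) h ≫ qa q (r + 1) = qa q (r + 1) := by
  induction r with
  | zero =>
    rcases Nat.lt_or_ge p.val 1 with h0 | h0
    · refine ⟨1, ?_, fun x => rfl, ?_⟩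
      · apply Fin.ext
        have : p.val = 0 := by omega
        exact this
      · rw [act_one, Category.id_comp]
    · refine ⟨(Equiv.swap 0 1 : Equiv.Perm (Fin (2 * 0 + 2))), ?_, fun x => ?_, qa_swap01 q hq 0⟩
      · have h1 : p = (1 : Fin (2 * 0 + 2)) := by
          apply Fin.ext
          have := p.isLt
          change p.val = 1
          omega
        rw [h1]
        exact Equiv.swap_apply_right _ _
      · apply Fin.ext
        have h2 := HInv_adj_val (0 + 1) x
        have h3 := HInv_adj_val (0 + 1) ((Equiv.swap 0 1 : Equiv.Perm (Fin (2 * 0 + 2))) x)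
        have h4 := HInv_swap01_val (2 * 0) x
        have h5 := HInv_swap01_val (2 * 0) (adj (0 + 1) x)
        refine h5.trans (Eq.trans ?_ h3.symm)
        rw [h4]
        exact (congrArg (HInv_swN 0 1) h2).trans (HInv_sw_aN x.val)
  | succ r ih =>
    rcases Nat.lt_or_ge p.val 1 with h0 | h0
    · refine ⟨1, ?_, fun x => rfl, ?_⟩
      · apply Fin.ext
        have : p.val = 0 := by omega
        exact this
      · rw [act_one, Category.id_comp]
    rcases Nat.lt_or_ge p.val 2 with h1 | h1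
    · refine ⟨(Equiv.swap 0 1 : Equiv.Perm (Fin (2 * (r + 1) + 2))), ?_, fun x => ?_,
        qa_swap01 q hq (r + 1)⟩
      · have h1 : p = (1 : Fin (2 * (r + 1) + 2)) := by
          apply Fin.ext
          change p.val = 1
          omega
        rw [h1]
        exact Equiv.swap_apply_right _ _
      · apply Fin.ext
        have h2 := HInv_adj_val (r + 1 + 1) x
        have h3 := HInv_adj_val (r + 1 + 1)
          ((Equiv.swap 0 1 : Equiv.Perm (Fin (2 * (r + 1) + 2))) x)
        have h4 := HInv_swap01_val (2 * (r + 1)) x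
        have h5 := HInv_swap01_val (2 * (r + 1)) (adj (r + 1 + 1) x)
        refine h5.trans (Eq.trans ?_ h3.symm)
        rw [h4]
        exact (congrArg (HInv_swN 0 1) h2).trans (HInv_sw_aN x.val)
    · obtain ⟨p', hp'⟩ : ∃ p' : Fin (2 * (r + 1)), p = (p'.succ.succ : Fin (2 * (r + 1) + 2)) := by
        have := p.isLt
        refine ⟨⟨p.val - 2, by omega⟩, Fin.ext ?_⟩
        simp only [Fin.val_succ]
        omega
      obtain ⟨h', ha, hb, hc⟩ := ih p'
      let g : Equiv.Perm (Fin (2 * r + 4)) := Equiv.swap 0 2 * Equiv.swap 1 3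
      let k : Equiv.Perm (Fin (2 * (r + 1) + 2)) := shift (shift h')
      have hg : ∀ x : Fin (2 * r + 4), (g x).val = HInv_gN x.val := fun x =>
        HInv_g_val (2 * r) x
      refine ⟨g * k, ?_, fun x => ?_, ?_⟩
      · have e1 : k p = (((h' p').succ).succ : Fin (2 * (r + 1) + 2)) := by
          rw [hp']
          change shift (shift h') p'.succ.succ = _
          rw [shift_succ, shift_succ]
        apply Fin.ext
        have e2 := hg (k p)
        have e3 : (k p).val = 2 := by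
          rw [e1, Fin.val_succ, Fin.val_succ, ha]
          rfl
        rw [e3] at e2
        exact e2
      · have e1 : k (adj (r + 1 + 1) x) = adj (r + 1 + 1) (k x) := comm_shift2 (r + 1) h' x hb
        have e2 : ∀ y : Fin (2 * (r + 1 + 1)), g (adj (r + 1 + 1) y) = adj (r + 1 + 1) (g y) := by
          intro y
          apply Fin.ext
          have f1 := hg (adj (r + 1 + 1) y)
          have f2 := HInv_adj_val (r + 1 + 1) y
          have f3 := HInv_adj_val (r + 1 + 1) (g y)
          have f4 := hg y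
          rw [f2] at f1
          rw [f4] at f3
          exact f1.trans ((HInv_g_aN y.val).trans f3.symm)
        change g (k (adj (r + 1 + 1) x)) = adj (r + 1 + 1) (g (k x))
        rw [e1, e2]
      · have e1 : act P (2 * (r + 1 + 1)) (g * k) = act P (2 * (r + 1 + 1)) k ≫
            act P (2 * (r + 1 + 1)) g := act_mul P _ g k
        have e2 : act P (2 * (r + 1 + 1)) g ≫ qa q (r + 1 + 1) = qa q (r + 1 + 1) :=
          qa_pairs q hT r
        have e3 : act P (2 * (r + 1 + 1)) k ≫ qa q (r + 1 + 1) =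
            (α_ P P (pow P (2 * (r + 1)))).inv ≫
              (q ⊗ₘ (act P (2 * (r + 1)) h' ≫ qa q (r + 1))) := qa_shift2 q (r + 1) h'
        rw [e1, Category.assoc, e2, e3, hc]
        rfl

theorem qa_inv {P T : C} (q : P ⊗ P ⟶ T) (hq : (β_ P P).hom ≫ q = q)
    (hT : (β_ T T).hom = 𝟙 _) (r : ℕ) (h : Equiv.Perm (Fin (2 * r)))
    (hh : ∀ x, h (adj r x) = adj r (h x)) : act P (2 * r) h ≫ qa q r = qa q r := by
  induction r with
  | zero => exact Category.id_comp _
  | succ r ih =>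
    obtain ⟨g, ga, gb, gc⟩ := qa_move q hq hT r (h (0 : Fin (2 * r + 2)))
    have k0 : (g * h) (0 : Fin (2 * r + 2)) = (0 : Fin (2 * r + 2)) := ga
    have kc : ∀ x, (g * h) (adj (r + 1) x) = adj (r + 1) ((g * h) x) := by
      intro x
      change g (h (adj (r + 1) x)) = adj (r + 1) (g (h x))
      rw [hh, gb]
    have k1 : (g * h) (1 : Fin (2 * r + 2)) = (1 : Fin (2 * r + 2)) := by
      have e1 := kc (0 : Fin (2 * r + 2))
      rw [adj_zero, k0, adj_zero] at e1
      exact e1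
    obtain ⟨h', hk⟩ := exists_shE2 (n := 2 * r) (m := 2 * r) (g * h) k0 k1
    rw [shE_perm, shE_perm] at hk
    have hc' : ∀ x, h' (adj r x) = adj r (h' x) := by
      intro x
      have e1 := kc (x.succ.succ : Fin (2 * r + 2))
      rw [adj_succ, hk] at e1
      have e2 : ∀ y : Fin (2 * r), (shift (shift h') : Equiv.Perm (Fin (2 * r + 2))) y.succ.succ =
          (h' y).succ.succ := by
        intro y
        rw [shift_succ, shift_succ]
      rw [e2, e2, adj_succ] at e1
      exact Fin.succ_injective _ (Fin.succ_injective _ e1)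
    have e3 : act P (2 * (r + 1)) (g * h) = act P (2 * (r + 1)) h ≫ act P (2 * (r + 1)) g :=
      act_mul P _ g h
    have e4 : act P (2 * (r + 1)) (g * h) ≫ qa q (r + 1) = (α_ P P (pow P (2 * r))).inv ≫
        (q ⊗ₘ (act P (2 * r) h' ≫ qa q r)) := by
      rw [hk]
      exact qa_shift2 q r h'
    rw [e3, Category.assoc, gc, ih h' hc'] at e4
    exact e4

end Mon

end Pool.Agent.W868h60
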