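import Pool.Agent.W_868bb7_h60.AdjP

set_option autoImplicit false

/-!
# KdA: values of the interleaving

By induction, `shE_zero`, `shE_succ`.
-/

namespace Pool.Agent.W868h60

open CategoryTheory MonoidalCategory Equiv
open Pool.Agent.W_MP_868bb7_ag Pool.Agent.W_868bb7_h64

universe v u w

section Perm

theorem KdA_swap {n : ℕ} (x : Fin (n + 2)) : (swap (0 : Fin (n + 2)) 1 x).val =
    if x.val = 0 then 1 else if x.val = 1 then 0 else x.val := by
  by_cases h0 : x = 0
  · subst h0; rw [swap_apply_left]; simp
  · by_cases h1 : x = 1
    · subst h1; rw [swap_apply_right]; simp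
    · rw [swap_apply_of_ne_of_ne h0 h1]
      have h0' : x.val ≠ 0 := fun h => h0 (Fin.ext h)
      have h1' : x.val ≠ 1 := fun h => h1 (Fin.ext h)
      simp [h0', h1']

theorem thE_val (a m : ℕ) (x : Fin (m + 1 + a)) :
    (thE a m x).val = if x.val < a then x.val + 1 else if x.val = a then 0 else x.val := by
  induction a with
  | zero =>
    change x.val = _
    by_cases h : x.val = 0
    · simp [h]
    · simp [h]
  | succ a ih =>
    change (swap (0 : Fin (m + a + 2)) 1 (shE (thE a m) x)).val = _
    rw [KdA_swap]
    revert x
    change ∀ x : Fin (m + 1 + a + 1), _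
    intro x
    refine Fin.cases ?_ (fun y => ?_) x
    · rw [shE_zero]; simp
    · rw [shE_succ]
      simp only [Fin.val_succ]
      rw [ih y]
      by_cases h1 : y.val < a
      · simp [h1]
      · by_cases h2 : y.val = a
        · simp [h2]
        · have h3 : ¬ (y.val + 1 < a + 1) := by omega
          have h4 : ¬ (y.val + 1 = a + 1) := by omega
          have h5 : y.val ≠ 0 := by omega
          simp [h1, h2, h5]

theorem piE_val (r : ℕ) (x : Fin (r + r)) :
    (piE r x).val = if x.val < r then 2 * x.val else 2 * (x.val - r) + 1 := by
  induction r with
  | zero => exact x.elim0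
  | succ r ih =>
    revert x
    change ∀ x : Fin (r + 1 + r + 1), _
    intro x
    change (shE ((thE r r).trans (shE (piE r))) x).val = _
    refine Fin.cases ?_ (fun y => ?_) x
    · rw [shE_zero]; simp
    · rw [shE_succ, Equiv.trans_apply]
      simp only [Fin.val_succ]
      obtain ⟨z, hz⟩ : ∃ z, z = thE r r y := ⟨_, rfl⟩
      have hz1 := thE_val r r y
      rw [← hz] at hz1 ⊢
      revert hz hz1
      change _ → _ → _
      have key : ∀ z : Fin (r + r + 1), (z.val = if y.val < r then y.val + 1 else
          if y.val = r then 0 else y.val) → (shE (piE r) z).val + 1 =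
            if y.val + 1 < r + 1 then 2 * (y.val + 1) else 2 * (y.val + 1 - (r + 1)) + 1 := by
        intro z
        refine Fin.cases ?_ (fun w => ?_) z
        · intro hz
          rw [shE_zero]
          by_cases h1 : y.val < r
          · simp [h1] at hz
          · by_cases h2 : y.val = r
            · simp [h2]
            · simp [h1, h2] at hz
              omega
        · intro hz
          rw [shE_succ]
          simp only [Fin.val_succ] at hz ⊢
          rw [ih w]
          by_cases h1 : y.val < r
          · simp only [h1, if_true] at hz
            have hw : w.val = y.val := by omega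
            have h2 : y.val + 1 < r + 1 := by omega
            rw [hw, if_pos h1, if_pos h2]
            omega
          · by_cases h2 : y.val = r
            · simp [h2] at hz
            · simp only [h1, h2, if_false] at hz
              have h3 : ¬ (y.val + 1 < r + 1) := by omega
              have h4 : ¬ (w.val < r) := by omega
              rw [if_neg h3, if_neg h4]
              omega
      intro _ hz1
      exact key z hz1

theorem piE_blk (r : ℕ) (x : Fin (r + r)) : piE r (blk r x) = adj r (piE r x) := by
  apply Fin.ext
  have h1 := piE_val r x
  have h2 := piE_val r (blk r x)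
  rw [h2]
  unfold adj blk
  simp only [Equiv.coe_fn_mk]
  by_cases h : x.val < r
  · rw [if_pos h] at h1
    have h3 : (piE r x).val % 2 = 0 := by omega
    simp only [h, dite_true, h3]
    have h4 : ¬ (x.val + r < r) := by omega
    simp only [h4, if_false]
    omega
  · rw [if_neg h] at h1
    have h3 : ¬ ((piE r x).val % 2 = 0) := by omega
    simp only [h, dite_false, h3]
    have h4 : x.val - r < r := by omega
    simp only [h4, if_true]
    omega

end Perm

end Pool.Agent.W868h60
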