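import Pool.Agent.W_868bb7_h60.KdA

set_option autoImplicit false

/-!
# KdT: matchings between two blocks

The legs are `Fin (r + r)`, the first block is `{x | x < r}`; the partner of `x` is
`m x = e.symm (adj r (e x))`.  If no chord is inside the first block, then `m` maps the first block to the
second one (injectively), `i ↦ m i - r` is a permutation of `Fin r`; let `τ` be its inverse; then
`m = (jn 1 τ)⁻¹ blk (jn 1 τ)` (check on the first block; both are involutions).  `jn_lt`, `jn_ge`.
-/

namespace Pool.Agent.W868h60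

open CategoryTheory MonoidalCategory Equiv
open Pool.Agent.W_MP_868bb7_ag Pool.Agent.W_868bb7_h64

universe v u w

section Perm

theorem exists_tau (r : ℕ) (e : Fin (r + r) ≃ Fin (2 * r))
    (h : ∀ i j : Fin (r + r), i.val < r → j.val < r → e j ≠ adj r (e i)) :
    ∃ τ : Equiv.Perm (Fin r), ∀ x : Fin (r + r),
      jn r r (1, τ) (e.symm (adj r (e x))) = blk r (jn r r (1, τ) x) := by
  classical
  have hadj : ∀ x, adj r (adj r x) = x := fun x => (adj r).left_inv x
  set m : Fin (r + r) → Fin (r + r) := fun x => e.symm (adj r (e x)) with hm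
  have hmm : ∀ x, m (m x) = x := by
    intro x
    simp only [hm, Equiv.apply_symm_apply, hadj, Equiv.symm_apply_apply]
  have hge : ∀ x : Fin (r + r), x.val < r → r ≤ (m x).val := by
    intro x hx
    by_contra hcon
    push Not at hcon
    exact h x (m x) hx hcon (by simp only [hm, Equiv.apply_symm_apply])
  let g : Fin r → Fin r := fun i => ⟨(m ⟨i.val, by omega⟩).val - r, by
    have := (m ⟨i.val, by omega⟩).isLt
    have := hge ⟨i.val, by omega⟩ i.isLt
    omega⟩
  have hg : Function.Injective g := by
    intro i j hij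
    have h1 : (m ⟨i.val, by omega⟩).val - r = (m ⟨j.val, by omega⟩).val - r :=
      congrArg Fin.val hij
    have h2 := hge ⟨i.val, by omega⟩ i.isLt
    have h3 := hge ⟨j.val, by omega⟩ j.isLt
    have h4 : m ⟨i.val, by omega⟩ = m ⟨j.val, by omega⟩ := Fin.ext (by omega)
    have h5 := congrArg m h4
    rw [hmm, hmm] at h5
    have h6 : i.val = j.val := congrArg (fun z : Fin (r + r) => z.val) h5
    exact Fin.ext h6
  have hb : Function.Bijective g := Finite.injective_iff_bijective.1 hg
  refine ⟨(Equiv.ofBijective g hb).symm, ?_⟩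
  set τ := (Equiv.ofBijective g hb).symm with hτ
  have hτg : ∀ i, τ (g i) = i := fun i => (Equiv.ofBijective g hb).symm_apply_apply i
  have hgτ : ∀ i, g (τ i) = i := fun i => (Equiv.ofBijective g hb).apply_symm_apply i
  intro x
  change jn r r (1, τ) (m x) = blk r (jn r r (1, τ) x)
  apply Fin.ext
  by_cases hx : x.val < r
  · have h1 : (jn r r (1, τ) x).val = x.val := by
      rw [jn_lt r r 1 τ x hx]
      rfl
    have h2 : (blk r (jn r r (1, τ) x)).val = x.val + r := by
      simp only [blk, Equiv.coe_fn_mk]
      rw [dif_pos (by omega)]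
      simp [h1]
    rw [h2, jn_ge r r 1 τ (m x) (hge x hx)]
    have h3 : (⟨(m x).val - r, by have := (m x).isLt; have := hge x hx; omega⟩ : Fin r) =
        g ⟨x.val, hx⟩ := rfl
    rw [h3, hτg]
  · push Not at hx
    have h1 : (jn r r (1, τ) x).val = (τ ⟨x.val - r, by omega⟩).val + r :=
      jn_ge r r 1 τ x hx
    set i := τ ⟨x.val - r, by omega⟩ with hi
    have h2 : g i = ⟨x.val - r, by omega⟩ := hgτ _
    have h3 : (m ⟨i.val, by omega⟩).val - r = x.val - r := congrArg Fin.val h2
    have h4 := hge ⟨i.val, by omega⟩ i.isLt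
    have h5 : m ⟨i.val, by omega⟩ = x := Fin.ext (by omega)
    have h6 : m x = ⟨i.val, by omega⟩ := (congrArg m h5).symm.trans (hmm _)
    have h7 : (m x).val < r := by rw [h6]; exact i.isLt
    have h8 : (blk r (jn r r (1, τ) x)).val = i.val := by
      simp only [blk, Equiv.coe_fn_mk]
      rw [dif_neg (by omega)]
      simp [h1]
    rw [h8, jn_lt r r 1 τ (m x) h7]
    change (m x).val = i.val
    rw [h6]

end Perm

end Pool.Agent.W868h60
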