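import Pool.Agent.W_868bb7_h60.Defs

set_option autoImplicit false

/-!
# MJa: exchange of the first two factors

`mid X A B : A ⊗ (X ⊗ B) ⟶ X ⊗ (A ⊗ B)`.
* `mid_step`: hexagon (`BraidedCategory.braiding_tensor_left_hom`), definition of `sw`.
* `tensorμ_mid`: definition of `tensorμ`, pentagon.
-/

namespace Pool.Agent.W868h60

open CategoryTheory MonoidalCategory Equiv
open Pool.Agent.W_MP_868bb7_ag Pool.Agent.W_868bb7_h64

universe v u w

section Mon

variable {C : Type u} [Category.{v} C] [MonoidalCategory C] [SymmetricCategory C]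

/-- exchange of the first two factors -/
def mid (X A B : C) : A ⊗ (X ⊗ B) ⟶ X ⊗ (A ⊗ B) :=
  (α_ A X B).inv ≫ (β_ A X).hom ▷ B ≫ (α_ X A B).hom

theorem mid_step (X A B : C) :
    (mid X (X ⊗ A) B : (X ⊗ A) ⊗ (X ⊗ B) ⟶ X ⊗ ((X ⊗ A) ⊗ B)) ≫ X ◁ (α_ X A B).hom =
      (α_ X A (X ⊗ B)).hom ≫ X ◁ mid X A B ≫ sw X (A ⊗ B) := by
  simp only [mid, sw, BraidedCategory.braiding_tensor_left_hom]
  monoidal

theorem tensorμ_mid (X A B Y : C) :
    tensorμ X A Y B ≫ (α_ X Y (A ⊗ B)).hom = (α_ X A (Y ⊗ B)).hom ≫ X ◁ mid Y A B := by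
  simp only [mid, tensorμ]
  monoidal

end Mon

end Pool.Agent.W868h60
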