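import Pool.Agent.W_868bb7_h60.SDT
import Pool.Agent.W_868bb7_h60.ActE
import Pool.Agent.W_868bb7_h60.MJa

set_option autoImplicit false

/-!
# MJ: the block form of the standard matching

* `mid_J`: induction on `a`.  `a = 0`: unitors.  Step: `J X (a+1) (m+1) = α ≫ X ◁ J X a (m+1)`,
  `mid_step`, naturality of `sw` (`sw_nat`), `actE_shE`, and `act (swap 0 1) = sw` (`act_swap`),
  `thE (a+1) m = (shE (thE a m)).trans (swap 0 1)`.
* `qb_J`: induction on `r` with `mid_J` (`a = m = r`), `tensorμ_mid`,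
  `piE (r+1) = shE ((thE r r).trans (shE (piE r)))`.
-/

namespace Pool.Agent.W868h60

open CategoryTheory MonoidalCategory Equiv
open Pool.Agent.W_MP_868bb7_ag Pool.Agent.W_868bb7_h64

universe v u w

section Mon

variable {C : Type u} [Category.{v} C] [MonoidalCategory C] [SymmetricCategory C]

theorem MJ_zero (X B : C) : mid X (𝟙_ C) B ≫ X ◁ (λ_ B).hom = (λ_ (X ⊗ B)).hom := by
  unfold mid
  rw [braiding_tensorUnit_left]
  monoidal

theorem MJ_step (X A B Q Q' : C) (j : A ⊗ B ⟶ Q) (k : A ⊗ (X ⊗ B) ⟶ Q') (t : Q' ⟶ X ⊗ Q)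
    (h : mid X A B ≫ X ◁ j = k ≫ t) :
    mid X (X ⊗ A) B ≫ X ◁ ((α_ X A B).hom ≫ X ◁ j) =
      ((α_ X A (X ⊗ B)).hom ≫ X ◁ k) ≫ X ◁ t ≫ sw X Q := by
  rw [MonoidalCategory.whiskerLeft_comp, ← Category.assoc, mid_step]
  simp only [Category.assoc]
  rw [sw_nat, ← MonoidalCategory.whiskerLeft_comp_assoc, ← MonoidalCategory.whiskerLeft_comp_assoc,
    h]

theorem mid_J (X : C) (a m : ℕ) :
    (mid X (pow X a) (pow X m) ≫ X ◁ (J X a m).hom :
      pow X a ⊗ pow X (m + 1) ⟶ pow X (m + a + 1)) =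
      (J X a (m + 1)).hom ≫ actE X (thE a m) := by
  induction a with
  | zero =>
    have h1 : actE X (thE 0 m) = 𝟙 (pow X (m + 1)) := actE_refl X (m + 1)
    refine (MJ_zero X (pow X m)).trans ?_
    refine Eq.trans ?_ (congrArg (fun z => (λ_ (pow X (m + 1))).hom ≫ z) h1.symm)
    exact (Category.comp_id _).symm
  | succ a ih =>
    have h1 : (actE X (thE (a + 1) m) : X ⊗ pow X (m + 1 + a) ⟶ X ⊗ (X ⊗ pow X (m + a))) =
        X ◁ actE X (thE a m) ≫ sw X (pow X (m + a)) := by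
      have h2 : actE X (thE (a + 1) m) =
          actE X (shE (thE a m)) ≫ actE X (Equiv.swap (0 : Fin (m + a + 1 + 1)) 1) :=
        actE_trans X _ _
      refine h2.trans ?_
      rw [actE_perm]
      have h3 := act_swap X (m + a)
      have h4 := actE_shE X (thE a m)
      exact congrArg₂ (fun (f : X ⊗ pow X (m + 1 + a) ⟶ X ⊗ (X ⊗ pow X (m + a)))
        (g : X ⊗ (X ⊗ pow X (m + a)) ⟶ X ⊗ (X ⊗ pow X (m + a))) => f ≫ g) h4 h3
    refine (MJ_step X (pow X a) (pow X m) (pow X (m + a)) (pow X (m + 1 + a)) (J X a m).hom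
      (J X a (m + 1)).hom (actE X (thE a m)) ih).trans ?_
    exact (congrArg (fun z => ((α_ X (pow X a) (X ⊗ pow X m)).hom ≫ X ◁ (J X a (m + 1)).hom) ≫ z)
      h1.symm)

theorem MJ_qb {P T A W1 W2 W3 S : C} (q : P ⊗ P ⟶ T) (j : A ⊗ A ⟶ W1) (k : A ⊗ (P ⊗ A) ⟶ W2)
    (t : W2 ⟶ P ⊗ W1) (h : mid P A A ≫ P ◁ j = k ≫ t) (s : W1 ⟶ W3) (f : W3 ⟶ S) :
    ((α_ P A (P ⊗ A)).hom ≫ P ◁ k) ≫ (P ◁ (t ≫ P ◁ s)) ≫ (α_ P P W3).inv ≫ (q ⊗ₘ f) =
      tensorμ P A P A ≫ (q ⊗ₘ (j ≫ s ≫ f)) := by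
  rw [MonoidalCategory.whiskerLeft_comp]
  simp only [Category.assoc]
  rw [← MonoidalCategory.whiskerLeft_comp_assoc, ← h, MonoidalCategory.whiskerLeft_comp]
  simp only [Category.assoc]
  rw [← reassoc_of% (tensorμ_mid P A A P)]
  rw [associator_inv_naturality_right_assoc, associator_inv_naturality_right_assoc,
    Iso.hom_inv_id_assoc]
  rw [tensorHom_def' q f, tensorHom_def' q (j ≫ s ≫ f), MonoidalCategory.whiskerLeft_comp,
    MonoidalCategory.whiskerLeft_comp]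
  simp only [Category.assoc]

/-- the pairing of `P^{⊗ r}` with itself is the block form of the standard matching -/
theorem qb_J {P T : C} (d : SD P T) (r : ℕ) :
    (J P r r).hom ≫ qb d.q r = (SDp d r).q := by
  induction r with
  | zero =>
    unfold qb
    have h1 : actE P (piE 0) = 𝟙 (pow P 0) := actE_refl P 0
    refine (congrArg (fun z => (λ_ (𝟙_ C)).hom ≫ z ≫ 𝟙 (𝟙_ C)) h1).trans ?_
    refine (congrArg (fun z => (λ_ (𝟙_ C)).hom ≫ z) (Category.comp_id (𝟙 (𝟙_ C)))).trans ?_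
    exact Category.comp_id _
  | succ r ih =>
    have h1 : (actE P (piE (r + 1)) : P ⊗ pow P (r + 1 + r) ⟶ P ⊗ (P ⊗ pow P (2 * r))) =
        P ◁ (actE P (thE r r) ≫ P ◁ actE P (piE r)) := by
      have h2 : actE P ((thE r r).trans (shE (piE r))) =
          actE P (thE r r) ≫ actE P (shE (piE r)) := actE_trans P _ _
      have h3 := actE_shE P (piE r)
      have h4 := actE_shE P ((thE r r).trans (shE (piE r)))
      refine h4.trans ?_
      refine (congrArg (fun z => P ◁ z) h2).trans ?_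
      exact congrArg (fun z : P ⊗ pow P (r + r) ⟶ P ⊗ pow P (2 * r) =>
        P ◁ (actE P (thE r r) ≫ z)) h3
    have h5 := MJ_qb d.q (J P r r).hom (J P r (r + 1)).hom (actE P (thE r r)) (mid_J P r r)
      (actE P (piE r)) (qa d.q r)
    have h6 : (J P r r).hom ≫ actE P (piE r) ≫ qa d.q r = (SDp d r).q := ih
    rw [h6] at h5
    refine Eq.trans ?_ h5
    exact congrArg (fun z : P ⊗ pow P (r + 1 + r) ⟶ P ⊗ (P ⊗ pow P (2 * r)) =>
      ((α_ P (pow P r) (P ⊗ pow P r)).hom ≫ P ◁ (J P r (r + 1)).hom) ≫ z ≫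
        (α_ P P (pow P (2 * r))).inv ≫ (d.q ⊗ₘ qa d.q r)) h1

end Mon

end Pool.Agent.W868h60
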