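import Pool.Agent.W_868bb7_h60.HInv
import Pool.Agent.W_868bb7_h60.MJ
import Pool.Agent.W_868bb7_h60.KdT

set_option autoImplicit false

/-!
# KdB: bijective matchings

`h = piE⁻¹, then (jn 1 τ)⁻¹, then e` (a permutation of `Fin (2 * r)`) commutes with `adj r`
(`exists_tau`, `piE_blk`), so `qa_inv` applies:
`actE e ≫ qa = act (jn 1 τ) ≫ actE piE ≫ qa = act (jn 1 τ) ≫ qb`; `act_J`, `qb_J`.
-/

namespace Pool.Agent.W868h60

open CategoryTheory MonoidalCategory Equiv
open Pool.Agent.W_MP_868bb7_ag Pool.Agent.W_868bb7_h64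

universe v u w

section Mon

variable {C : Type u} [Category.{v} C] [MonoidalCategory C] [SymmetricCategory C]

theorem kd_bij {P T : C} (d : SD P T) (hT : (β_ T T).hom = 𝟙 _) (r : ℕ)
    (e : Fin (r + r) ≃ Fin (2 * r))
    (h : ∀ i j : Fin (r + r), i.val < r → j.val < r → e j ≠ adj r (e i)) :
    ∃ τ : Equiv.Perm (Fin r),
      (J P r r).hom ≫ actE P e ≫ qa d.q r = (pow P r ◁ act P r τ) ≫ (SDp d r).q := by
  obtain ⟨τ, hτ⟩ := exists_tau r e h
  refine ⟨τ, ?_⟩
  set κ : Equiv.Perm (Fin (r + r)) := jn r r (1, τ) with hκ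
  let h' : Equiv.Perm (Fin (2 * r)) := (piE r).symm.trans (κ.symm.trans e)
  have hcomm : ∀ x, h' (adj r x) = adj r (h' x) := by
    intro y
    obtain ⟨x, rfl⟩ := (piE r).surjective y
    obtain ⟨w, rfl⟩ := κ.surjective x
    have h1 : h' (piE r (κ w)) = e w := by
      simp only [h', Equiv.trans_apply, Equiv.symm_apply_apply]
    rw [h1, ← piE_blk, ← hτ w]
    simp only [h', Equiv.trans_apply, Equiv.symm_apply_apply, Equiv.apply_symm_apply]
  have he : e = Equiv.trans κ ((piE r).trans h') := by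
    apply Equiv.ext
    intro x
    simp only [h', Equiv.trans_apply, Equiv.symm_apply_apply]
  have h2 := qa_inv d.q d.qs hT r h' hcomm
  have h3 : actE P e = act P (r + r) κ ≫ actE P (piE r) ≫ act P (2 * r) h' := by
    rw [actE_act', actE_act, ← he]
  have h4 := act_J P r r (1 : Equiv.Perm (Fin r)) τ
  rw [act_one, MonoidalCategory.id_tensorHom] at h4
  rw [h3, Category.assoc, Category.assoc, h2]
  have h5 : actE P (piE r) ≫ qa d.q r = qb d.q r := rfl
  rw [h5, ← Category.assoc, ← h4, Category.assoc, qb_J]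

end Mon

end Pool.Agent.W868h60
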