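import Pool.Agent.W_868bb7_h60.Form
import Pool.Agent.W_868bb7_h60.ActP

set_option autoImplicit false

/-!
# KdC: matchings with a cap

* `J_cap`: `J P (k+2) m = α ≫ P ◁ (α ≫ P ◁ J P k m)`, coherence.
* `kd_cap`: choose a permutation `ε` with `ε i = 0`, `ε j = 1` (`i ≠ j` by `adj_ne`);
  `e = (jn ε 1).trans e'`, `e' 1 = adj (e' 0)`; `exists_form'`, `J_cap`, `act_J`.
-/

namespace Pool.Agent.W868h60

open CategoryTheory MonoidalCategory Equiv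
open Pool.Agent.W_MP_868bb7_ag Pool.Agent.W_868bb7_h64

universe v u w

section Mon

variable {C : Type u} [Category.{v} C] [MonoidalCategory C] [SymmetricCategory C]

omit [SymmetricCategory C] in
theorem KdC_aux {P T A M Q B : C} (q : P ⊗ P ⟶ T) (j : A ⊗ M ⟶ Q) (F : Q ⟶ B) :
    ((α_ P (P ⊗ A) M).hom ≫ P ◁ ((α_ P A M).hom ≫ P ◁ j)) ≫ (α_ P P Q).inv ≫ (q ⊗ₘ F) =
      (((α_ P P A).inv ≫ q ▷ A) ▷ M) ≫ (α_ T A M).hom ≫ T ◁ (j ≫ F) := by
  rw [MonoidalCategory.tensorHom_def, MonoidalCategory.whiskerLeft_comp,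
    MonoidalCategory.whiskerLeft_comp]
  simp only [Category.assoc]
  rw [associator_inv_naturality_right_assoc, whisker_exchange_assoc]
  monoidal

omit [SymmetricCategory C] in
theorem J_cap {P T B : C} (q : P ⊗ P ⟶ T) (k m : ℕ) (F : pow P (m + k) ⟶ B) :
    (J P (k + 2) m).hom ≫ (α_ P P (pow P (m + k))).inv ≫ (q ⊗ₘ F) =
      (capF q (pow P k) ▷ pow P m) ≫ (α_ T (pow P k) (pow P m)).hom ≫
        T ◁ ((J P k m).hom ≫ F) := by
  exact KdC_aux q (J P k m).hom F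

omit [SymmetricCategory C] in
theorem KdC_comp {A A' B D M : C} (j : A ⊗ M ⟶ B) (a : B ⟶ B) (x x' : B ⟶ D) (s : A ⟶ A)
    (c : A ⟶ A') (G : A' ⊗ M ⟶ D) (hx : x' = x) (h6 : (s ▷ M) ≫ j = j ≫ a)
    (h5 : j ≫ x = (c ▷ M) ≫ G) : j ≫ a ≫ x' = ((s ≫ c) ▷ M) ≫ G := by
  rw [hx, ← Category.assoc, ← h6, Category.assoc, h5, comp_whiskerRight, Category.assoc]

/-- a permutation with two prescribed values -/
theorem KdC_perm (n : ℕ) (i j : Fin (n + 2)) (h : i ≠ j) :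
    ∃ ε : Equiv.Perm (Fin (n + 2)), ε i = 0 ∧ ε j = 1 := by
  refine ⟨Equiv.swap (Equiv.swap i 0 j) 1 * Equiv.swap i 0, ?_, ?_⟩
  · rw [Equiv.Perm.mul_apply, Equiv.swap_apply_left]
    apply Equiv.swap_apply_of_ne_of_ne
    · intro h1
      apply h
      have h2 := congrArg (Equiv.swap i 0) h1
      rw [Equiv.swap_apply_right, Equiv.swap_apply_self] at h2
      exact h2
    · exact Fin.zero_ne_one
  · rw [Equiv.Perm.mul_apply, Equiv.swap_apply_left]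

theorem kd_cap {P T : C} (d : SD P T) (hT : (β_ T T).hom = 𝟙 _) (k : ℕ)
    (e : Fin ((k + 2) + (k + 2)) ≃ Fin (2 * (k + 2))) (i j : Fin ((k + 2) + (k + 2)))
    (hi : i.val < k + 2) (hj : j.val < k + 2) (h : e j = adj (k + 2) (e i)) :
    ∃ (ε : Equiv.Perm (Fin (k + 2)))
      (G' : (T ⊗ pow P k) ⊗ pow P (k + 2) ⟶ pow T (k + 2)),
      (J P (k + 2) (k + 2)).hom ≫ actE P e ≫ qa d.q (k + 2) =
        ((act P (k + 2) ε ≫ capF d.q (pow P k)) ▷ pow P (k + 2)) ≫ G' := by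
  have hij : (⟨i.val, hi⟩ : Fin (k + 2)) ≠ ⟨j.val, hj⟩ := by
    intro h1
    have h2 : i = j := Fin.ext (congrArg (fun z : Fin (k + 2) => z.val) h1)
    subst h2
    exact adj_ne (k + 2) (e i) h.symm
  obtain ⟨ε, h0, h1⟩ := KdC_perm k _ _ hij
  have hi' : (jn (k + 2) (k + 2) (ε, 1)).symm (0 : Fin (k + 2 + k + 2)) = i := by
    rw [Equiv.symm_apply_eq]
    apply Fin.ext
    rw [jn_lt (k + 2) (k + 2) ε 1 i hi, h0]
    rfl
  have hj' : (jn (k + 2) (k + 2) (ε, 1)).symm (1 : Fin (k + 2 + k + 2)) = j := by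
    rw [Equiv.symm_apply_eq]
    apply Fin.ext
    rw [jn_lt (k + 2) (k + 2) ε 1 j hj, h1]
    rfl
  let e₁ : Fin ((k + 2 + k) + 2) ≃ Fin (2 * (k + 1 + 1)) :=
    (jn (k + 2) (k + 2) (ε, 1)).symm.trans e
  have h2 : e₁ 1 = adj (k + 1 + 1) (e₁ 0) := by
    change e ((jn (k + 2) (k + 2) (ε, 1)).symm (1 : Fin (k + 2 + k + 2))) =
      adj (k + 2) (e ((jn (k + 2) (k + 2) (ε, 1)).symm (0 : Fin (k + 2 + k + 2))))
    rw [hi', hj', h]
  obtain ⟨e', h3⟩ := exists_form' d.q d.qs hT (k + 2 + k) (k + 1) e₁ h2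
  have h4 : actE P e = act P ((k + 2) + (k + 2)) (jn (k + 2) (k + 2) (ε, 1)) ≫ actE P e₁ := by
    rw [actE_act]
    congr 1
    ext x
    change (e x).val =
      (e ((jn (k + 2) (k + 2) (ε, 1)).symm (jn (k + 2) (k + 2) (ε, 1) x))).val
    rw [Equiv.symm_apply_apply]
  refine ⟨ε, (α_ T (pow P k) (pow P (k + 2))).hom ≫
    T ◁ ((J P k (k + 2)).hom ≫ (actE P e' ≫ qa d.q (k + 1))), ?_⟩
  have h5 := J_cap d.q k (k + 2) (actE P e' ≫ qa d.q (k + 1))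
  have h6 := act_J P (k + 2) (k + 2) ε 1
  rw [act_one, tensorHom_id] at h6
  rw [h4, Category.assoc]
  exact KdC_comp (A := pow P (k + 2)) (A' := T ⊗ pow P k) (M := pow P (k + 2))
    (B := pow P ((k + 2) + (k + 2)))
    (D := T ⊗ pow T (k + 1)) (J P (k + 2) (k + 2)).hom
    (act P ((k + 2) + (k + 2)) (jn (k + 2) (k + 2) (ε, 1)))
    ((α_ P P (pow P (k + 2 + k))).inv ≫ (d.q ⊗ₘ (actE P e' ≫ qa d.q (k + 1))))
    (actE P e₁ ≫ qa d.q (k + 1 + 1)) (act P (k + 2) ε) (capF d.q (pow P k)) _ h3 h6 h5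

end Mon

end Pool.Agent.W868h60
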