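import Pool.Agent.W_868bb7_h60.Defs

set_option autoImplicit false

/-!
# LcapA: a cap behind two copairings

By the zigzag for the second copy of `c` and the symmetry of `q`.
-/

namespace Pool.Agent.W868h60

open CategoryTheory MonoidalCategory Equiv
open Pool.Agent.W_MP_868bb7_ag Pool.Agent.W_868bb7_h64

universe v u w

section Mon

variable {C : Type u} [Category.{v} C] [MonoidalCategory C] [SymmetricCategory C]

theorem LcapA_inner {P T : C} (d : SD P T) :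
    P ◁ d.c ≫ (α_ P P P).inv ≫ (β_ P P).hom ▷ P ≫ (α_ P P P).hom ≫ P ◁ d.q = 𝟙 (P ⊗ T) := by
  have h1 : (α_ P P P).inv ≫ (β_ P P).hom ▷ P ≫ (α_ P P P).hom =
      (β_ P (P ⊗ P)).hom ≫ (α_ P P P).hom ≫ P ◁ (β_ P P).hom := by
    rw [BraidedCategory.braiding_tensor_right_hom]
    simp only [Category.assoc, Iso.inv_hom_id_assoc]
    rw [← MonoidalCategory.whiskerLeft_comp, SymmetricCategory.symmetry, whiskerLeft_id,
      Category.comp_id]
  calc P ◁ d.c ≫ (α_ P P P).inv ≫ (β_ P P).hom ▷ P ≫ (α_ P P P).hom ≫ P ◁ d.q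
      = P ◁ d.c ≫ ((α_ P P P).inv ≫ (β_ P P).hom ▷ P ≫ (α_ P P P).hom) ≫ P ◁ d.q := by
        simp only [Category.assoc]
    _ = (P ◁ d.c ≫ (β_ P (P ⊗ P)).hom) ≫ (α_ P P P).hom ≫ P ◁ ((β_ P P).hom ≫ d.q) := by
        rw [h1, MonoidalCategory.whiskerLeft_comp]; simp only [Category.assoc]
    _ = (β_ P T).hom ≫ (d.c ▷ P ≫ (α_ P P P).hom ≫ P ◁ d.q) := by
        rw [BraidedCategory.braiding_naturality_right, d.qs]; simp only [Category.assoc]
    _ = 𝟙 (P ⊗ T) := by rw [d.zig, SymmetricCategory.symmetry]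

theorem cap_core {P T : C} (d : SD P T) :
    (d.c ⊗ₘ d.c) ≫ tensorμ P P P P ≫ (P ⊗ P) ◁ d.q = d.c ▷ T := by
  have h1 : (P ⊗ P) ◁ d.c ≫ tensorμ P P P P ≫ (P ⊗ P) ◁ d.q = 𝟙 ((P ⊗ P) ⊗ T) := by
    have h2 : (P ⊗ P) ◁ d.c ≫ tensorμ P P P P ≫ (P ⊗ P) ◁ d.q = (α_ P P T).hom ≫
        P ◁ (P ◁ d.c ≫ (α_ P P P).inv ≫ (β_ P P).hom ▷ P ≫ (α_ P P P).hom ≫ P ◁ d.q) ≫
          (α_ P P T).inv := by
      simp only [tensorμ]
      monoidal
    rw [h2, LcapA_inner]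
    simp
  rw [MonoidalCategory.tensorHom_def, Category.assoc, h1, Category.comp_id]

end Mon

end Pool.Agent.W868h60
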