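import Pool.Agent.W_868bb7_h60.SDT
import Pool.Agent.W_868bb7_h60.LcapA

set_option autoImplicit false

/-!
# Lcap: a cap behind the copairing is a cup

Put `X = P ⊗ (P ⊗ X₀)`; by associativity of `tensorμ` (`tensor_associativity`) the
copairing of `X` is, up to the associator `P ⊗ (P ⊗ X₀) ≅ (P ⊗ P) ⊗ X₀` in both factors,
`((c ⊗ c) ≫ tensorμ P P P P) ⊗ c₀` followed by `tensorμ (P ⊗ P) (P ⊗ P) X₀ X₀`; naturality of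
`tensorμ` and `cap_core` give `(c ▷ T ⊗ c₀) ≫ tensorμ (P ⊗ P) T X₀ X₀`
`= (.. ⊗ c₀) ≫ tensorμ T T X₀ X₀ ≫ ((c ▷ X₀) ▷ _)`.
-/

namespace Pool.Agent.W868h60

open CategoryTheory MonoidalCategory Equiv
open Pool.Agent.W_MP_868bb7_ag Pool.Agent.W_868bb7_h64

universe v u w

section Mon

variable {C : Type u} [Category.{v} C] [MonoidalCategory C] [SymmetricCategory C]

theorem cap_cup {P T X₀ S₀ : C} (d : SD P T) (d₀ : SD X₀ S₀) :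
    ∃ g : T ⊗ (T ⊗ S₀) ⟶ (T ⊗ X₀) ⊗ (T ⊗ X₀),
      (d.tensor (d.tensor d₀)).c ≫ (P ⊗ (P ⊗ X₀)) ◁ capF d.q X₀ =
        g ≫ cupF d.c X₀ ▷ (T ⊗ X₀) := by
  refine ⟨(α_ T T S₀).inv ≫ (T ⊗ T) ◁ d₀.c ≫ tensorμ T T X₀ X₀, ?_⟩
  have hc : (d.tensor (d.tensor d₀)).c = (d.c ⊗ₘ ((d.c ⊗ₘ d₀.c) ≫ tensorμ P P X₀ X₀)) ≫
      tensorμ P P (P ⊗ X₀) (P ⊗ X₀) := rfl
  -- associativity
  have ha := tensor_associativity P P P P X₀ X₀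
  have ha' : (P ⊗ P) ◁ tensorμ P P X₀ X₀ ≫ tensorμ P P (P ⊗ X₀) (P ⊗ X₀) =
      (α_ (P ⊗ P) (P ⊗ P) (X₀ ⊗ X₀)).inv ≫ tensorμ P P P P ▷ (X₀ ⊗ X₀) ≫
        tensorμ (P ⊗ P) (P ⊗ P) X₀ X₀ ≫ ((α_ P P X₀).hom ⊗ₘ (α_ P P X₀).hom) := by
    rw [ha, Iso.inv_hom_id_assoc]
  have h1 : (d.c ⊗ₘ ((d.c ⊗ₘ d₀.c) ≫ tensorμ P P X₀ X₀)) =
      (d.c ⊗ₘ (d.c ⊗ₘ d₀.c)) ≫ (P ⊗ P) ◁ tensorμ P P X₀ X₀ := by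
    rw [← id_tensorHom, tensorHom_comp_tensorHom, Category.comp_id]
  have h2 : (d.c ⊗ₘ (d.c ⊗ₘ d₀.c)) ≫ (α_ (P ⊗ P) (P ⊗ P) (X₀ ⊗ X₀)).inv =
      (α_ T T S₀).inv ≫ ((d.c ⊗ₘ d.c) ⊗ₘ d₀.c) := by
    rw [associator_inv_naturality]
  have h3 : ((α_ P P X₀).hom ⊗ₘ (α_ P P X₀).hom) ≫ (P ⊗ (P ⊗ X₀)) ◁ capF d.q X₀ =
      (((P ⊗ P) ⊗ X₀) ◁ (d.q ▷ X₀)) ≫ (α_ P P X₀).hom ▷ (T ⊗ X₀) := by
    unfold capF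
    rw [MonoidalCategory.tensorHom_def, Category.assoc, ← whiskerLeft_comp, Iso.hom_inv_id_assoc,
      ← whisker_exchange]
  have h4 : tensorμ (P ⊗ P) (P ⊗ P) X₀ X₀ ≫ (((P ⊗ P) ⊗ X₀) ◁ (d.q ▷ X₀)) =
      ((P ⊗ P) ◁ d.q) ▷ (X₀ ⊗ X₀) ≫ tensorμ (P ⊗ P) T X₀ X₀ := by
    have := tensorμ_natural_left (𝟙 (P ⊗ P)) d.q X₀ X₀
    simpa using this.symm
  have h5 : (d.c ▷ T) ▷ (X₀ ⊗ X₀) ≫ tensorμ (P ⊗ P) T X₀ X₀ =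
      tensorμ T T X₀ X₀ ≫ (d.c ▷ X₀) ▷ (T ⊗ X₀) := by
    have := tensorμ_natural_left d.c (𝟙 T) X₀ X₀
    simpa using this
  have h6 : ((d.c ⊗ₘ d.c) ⊗ₘ d₀.c) ≫ tensorμ P P P P ▷ (X₀ ⊗ X₀) ≫
      ((P ⊗ P) ◁ d.q) ▷ (X₀ ⊗ X₀) = (T ⊗ T) ◁ d₀.c ≫ (d.c ▷ T) ▷ (X₀ ⊗ X₀) := by
    rw [← comp_whiskerRight, MonoidalCategory.tensorHom_def', Category.assoc, ← comp_whiskerRight,
      cap_core]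
  rw [hc, h1, Category.assoc, Category.assoc, reassoc_of% ha', reassoc_of% h2, h3,
    reassoc_of% h4]
  unfold cupF
  rw [comp_whiskerRight]
  simp only [Category.assoc]
  rw [← reassoc_of% h5, ← reassoc_of% h6]

end Mon

end Pool.Agent.W868h60
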