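import Pool.Agent.W_868bb7_h60.ActE

set_option autoImplicit false

/-!
# Slide: moving a cup to the front

Induction on `a`.  `a = 0`: `J X 0 m = λ`, `ρ = refl`, `θ = λ`.  Step: `J X (a+1) _ = α ≫ X ◁ J X a _`;
by induction `X ◁ (..) = X ◁ (θ ≫ cupF c B)`, and the permutation `(shE ρ).trans cyc`,
`cyc : 0 ↦ 2, 1 ↦ 0, 2 ↦ 1` (`sw X (X ⊗ B) ≫ X ◁ sw X B`), moves the first factor behind the cup:
`slide_core`, naturality of the braiding.
-/

namespace Pool.Agent.W868h60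

open CategoryTheory MonoidalCategory Equiv
open Pool.Agent.W_MP_868bb7_ag Pool.Agent.W_868bb7_h64

universe v u w

section Mon

variable {C : Type u} [Category.{v} C] [MonoidalCategory C] [SymmetricCategory C]

theorem Slide_sw2 (P B : C) :
    sw P (P ⊗ B) ≫ P ◁ sw P B =
      P ◁ (α_ P P B).inv ≫ (α_ P (P ⊗ P) B).inv ≫ (β_ P (P ⊗ P)).hom ▷ B ≫
        (α_ (P ⊗ P) P B).hom ≫ (α_ P P (P ⊗ B)).hom := by
  simp only [sw, BraidedCategory.braiding_tensor_right_hom]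
  monoidal

/-- moving a factor over a cup -/
theorem slide_core {P T : C} (c : T ⟶ P ⊗ P) (B : C) :
    P ◁ cupF c B ≫ sw P (P ⊗ B) ≫ P ◁ sw P B =
      (α_ P T B).inv ≫ (β_ P T).hom ▷ B ≫ (α_ T P B).hom ≫ cupF c (P ⊗ B) := by
  rw [Slide_sw2]
  simp only [cupF]
  have h1 : P ◁ (c ▷ B ≫ (α_ P P B).hom) ≫ P ◁ (α_ P P B).inv = P ◁ (c ▷ B) := by
    rw [← MonoidalCategory.whiskerLeft_comp, Category.assoc, Iso.hom_inv_id, Category.comp_id]
  rw [← Category.assoc, h1, ← Category.assoc, associator_inv_naturality_middle, Category.assoc,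
    ← comp_whiskerRight_assoc, BraidedCategory.braiding_naturality_right, comp_whiskerRight]
  simp only [Category.assoc]
  rw [associator_naturality_left_assoc]

theorem Slide_step {P T A D B E : C} (c : T ⟶ P ⊗ P) (cu : D ⟶ E) {E' : C} (j : A ⊗ E ⟶ E')
    (e : E' ⟶ P ⊗ (P ⊗ B)) (θ : A ⊗ D ⟶ T ⊗ B)
    (h : A ◁ cu ≫ j ≫ e = θ ≫ cupF c B) :
    (P ⊗ A) ◁ cu ≫ ((α_ P A E).hom ≫ P ◁ j) ≫ P ◁ e ≫ sw P (P ⊗ B) ≫ P ◁ sw P B =
      ((α_ P A D).hom ≫ P ◁ θ ≫ (α_ P T B).inv ≫ (β_ P T).hom ▷ B ≫ (α_ T P B).hom) ≫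
        cupF c (P ⊗ B) := by
  simp only [Category.assoc]
  rw [← slide_core, associator_naturality_right_assoc]
  simp only [← Category.assoc, ← MonoidalCategory.whiskerLeft_comp]
  simp only [Category.assoc] at h ⊢
  rw [h]

theorem slide {P T : C} (c : T ⟶ P ⊗ P) (a m : ℕ) :
    ∃ (ρ : Fin (m + 2 + a) ≃ Fin (m + a + 2))
      (θ : pow P a ⊗ (T ⊗ pow P m) ⟶ T ⊗ pow P (m + a)),
      (pow P a ◁ cupF c (pow P m) ≫ (J P a (m + 2)).hom ≫ actE P ρ :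
        pow P a ⊗ (T ⊗ pow P m) ⟶ P ⊗ (P ⊗ pow P (m + a))) = θ ≫ cupF c (pow P (m + a)) := by
  induction a with
  | zero =>
    refine ⟨Equiv.refl (Fin (m + 2)), (λ_ (T ⊗ pow P m)).hom, ?_⟩
    have h1 : actE P (Equiv.refl (Fin (m + 2))) = 𝟙 _ := actE_refl P (m + 2)
    have h2 : (𝟙_ C ◁ cupF c (pow P m) ≫ (λ_ (P ⊗ (P ⊗ pow P m))).hom ≫ 𝟙 _ :
        𝟙_ C ⊗ (T ⊗ pow P m) ⟶ P ⊗ (P ⊗ pow P m)) = (λ_ (T ⊗ pow P m)).hom ≫ cupF c (pow P m) := by
      rw [Category.comp_id, leftUnitor_naturality]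
    refine Eq.trans ?_ h2
    exact congrArg (fun z => 𝟙_ C ◁ cupF c (pow P m) ≫ (λ_ (P ⊗ (P ⊗ pow P m))).hom ≫ z) h1
  | succ a ih =>
    obtain ⟨ρ, θ, h⟩ := ih
    have hc : actE P ((shE ρ).trans (Equiv.trans (Equiv.swap (0 : Fin (m + a + 3)) 1)
        (shift (Equiv.swap (0 : Fin (m + a + 2)) 1)))) =
        (P ◁ actE P ρ ≫ sw P (P ⊗ pow P (m + a)) ≫ P ◁ sw P (pow P (m + a)) :
          P ⊗ pow P (m + 2 + a) ⟶ P ⊗ (P ⊗ (P ⊗ pow P (m + a)))) := by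
      rw [actE_trans, actE_trans, actE_perm, actE_perm]
      have h1 := act_shift P (m + a + 2) (Equiv.swap 0 1)
      have h2 := act_swap P (m + a)
      have h3 := act_swap P (m + a + 1)
      rw [h2] at h1
      have h4 := actE_shE P ρ
      have h5 : actE P (shE ρ) ≫ act P (m + a + 3) (Equiv.swap 0 1) ≫
          act P (m + a + 3) (shift (Equiv.swap (0 : Fin (m + a + 2)) 1)) =
          actE P (shE ρ) ≫ sw P (pow P (m + a + 1)) ≫ P ◁ sw P (pow P (m + a)) := by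
        exact congrArg (fun z => actE P (shE ρ) ≫ z) (by rw [h3]; exact congrArg _ h1)
      refine h5.trans ?_
      exact congrArg (fun z => z ≫ sw P (pow P (m + a + 1)) ≫ P ◁ sw P (pow P (m + a))) h4
    refine ⟨(shE ρ).trans (Equiv.trans (Equiv.swap (0 : Fin (m + a + 3)) 1)
        (shift (Equiv.swap (0 : Fin (m + a + 2)) 1))),
      (α_ P (pow P a) (T ⊗ pow P m)).hom ≫ P ◁ θ ≫ (α_ P T (pow P (m + a))).inv ≫
        (β_ P T).hom ▷ pow P (m + a) ≫ (α_ T P (pow P (m + a))).hom, ?_⟩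
    · have h6 := Slide_step (B := pow P (m + a)) c (cupF c (pow P m)) (J P a (m + 2)).hom
        (actE P ρ) θ h
      refine Eq.trans ?_ h6
      exact congrArg (fun z => (P ⊗ pow P a) ◁ cupF c (pow P m) ≫ (J P (a + 1) (m + 2)).hom ≫ z) hc

end Mon

end Pool.Agent.W868h60
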