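import Pool.Agent.W_868bb7_h60.Inv

set_option autoImplicit false

/-!
# SmA: smash-nilpotent morphisms

`powMap_comp`, `sh_powMap` for `𝟙 X ⊗ₘ F`, `sh_shInv`, `shInv_sh` (library `Shuffle`), `faith_pow`.
-/

namespace Pool.Agent.W868h60

open CategoryTheory MonoidalCategory Equiv
open Pool.Agent.W_MP_868bb7_ag Pool.Agent.W_868bb7_h64

universe v u w

section Pre

variable {C : Type u} [Category.{v} C] [MonoidalCategory C] [SymmetricCategory C]
  [Preadditive C] [MonoidalPreadditive C]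

/-- smash-nilpotent morphisms -/
def Sm {C : Type u} [Category.{v} C] [MonoidalCategory C] [Preadditive C] {A B : C}
    (F : A ⟶ B) : Prop := ∃ N : ℕ, powMap F N = 0

omit [SymmetricCategory C] [MonoidalPreadditive C] in
theorem sm_comp {A B A' B' : C} (a : A' ⟶ A) (F : A ⟶ B) (b : B ⟶ B') (h : Sm F) :
    Sm (a ≫ F ≫ b) := by
  obtain ⟨N, hN⟩ := h
  exact ⟨N, by rw [powMap_comp, powMap_comp, hN]; simp⟩

omit [Preadditive C] [MonoidalPreadditive C] in
theorem sh_whisker (X : C) {A B : C} (F : A ⟶ B) (n : ℕ) :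
    powMap (X ◁ F) n ≫ sh X B n = sh X A n ≫ (pow X n ◁ powMap F n) := by
  have h := sh_powMap (𝟙 X) F n
  rw [powMap_id, id_tensorHom, id_tensorHom] at h
  exact h

/-- `sh_powMap` for `𝟙 X ⊗ₘ F`, `sh_shInv` -/
theorem sm_whisker (X : C) {A B : C} (F : A ⟶ B) (h : Sm F) : Sm (X ◁ F) := by
  obtain ⟨N, hN⟩ := h
  refine ⟨N, ?_⟩
  have h1 := sh_whisker X F N
  rw [hN] at h1
  have h2 : powMap (X ◁ F) N = (powMap (X ◁ F) N ≫ sh X B N) ≫ shInv X B N := by
    rw [Category.assoc, sh_shInv, Category.comp_id]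
  rw [h2, h1]
  simp

/-- `powMap (T ◁ F) N` is, up to `sh`, `pow T N ◁ powMap F N`; `faith_pow` -/
theorem sm_of_whisker {T : C} (hT : Faith T) {A B : C} (F : A ⟶ B) (h : Sm (T ◁ F)) : Sm F := by
  obtain ⟨N, hN⟩ := h
  refine ⟨N, faith_pow hT N _ ?_⟩
  have h1 := sh_whisker T F N
  rw [hN] at h1
  have h2 : pow T N ◁ powMap F N = shInv T A N ≫ (sh T A N ≫ (pow T N ◁ powMap F N)) := by
    rw [← Category.assoc, shInv_sh, Category.id_comp]
  rw [h2, ← h1]
  simp

end Pre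

end Pool.Agent.W868h60
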