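import Pool.Agent.W_868bb7_h60.SpC
import Pool.Agent.W_868bb7_h60.Slide
import Pool.Agent.W_868bb7_h60.SmA

set_option autoImplicit false

/-!
# MainK: contractions vanish

See the docstring.
-/

namespace Pool.Agent.W868h60

open CategoryTheory MonoidalCategory Equiv
open Pool.Agent.W_MP_868bb7_ag Pool.Agent.W_868bb7_h64

universe v u w

section Lin

variable (K : Type w) [Field K] {C : Type u} [Category.{v} C] [MonoidalCategory C]
  [Preadditive C] [Linear K C] [MonoidalPreadditive C] [MonoidalLinear K C]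
  [SymmetricCategory C]

/-- the contraction (at the first two legs of the second block) of a smash-nilpotent combination
of decorated matchings is zero: `slide` with `a = r = k + 2`, `m = k`, `contr_LS`, `sm_of_whisker`, and the
induction hypothesis for `r' = k + 1`. -/
theorem kill {P T T' : C} [UnitK K C] (e₀ : T ⊗ T' ≅ 𝟙_ C) (hF : Faith T)
    (hT : (β_ T T).hom = 𝟙 _) (d : SD P T)
    {G : Type} [Group G] [Finite G] [StarMul G] (ρ : G →* End P) (hρ : AdjG d.q ρ) (k : ℕ)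
    (IH : ∀ (n : ℕ) (F : pow P n ⟶ pow T (k + 1)), F ∈ LS K d.q ρ n (k + 1) → Sm F → F = 0)
    (F : pow P ((k + 2) + (k + 2)) ⟶ pow T (k + 2))
    (hFL : F ∈ LS K d.q ρ ((k + 2) + (k + 2)) (k + 2)) (hs : Sm F) :
    pow P (k + 2) ◁ cupF d.c (pow P k) ≫ (J P (k + 2) (k + 2)).hom ≫ F = 0 := by
  obtain ⟨ρ', θ, hθ⟩ := slide d.c (k + 2) k
  have h1 : actE P ρ' ≫ actE P ρ'.symm = 𝟙 _ := actE_symm P ρ'
  have hF1L : actE P ρ'.symm ≫ F ∈ LS K d.q ρ (k + (k + 2) + 2) (k + 1 + 1) :=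
    actE_LS K d.q ρ _ _ _ ρ'.symm F hFL
  obtain ⟨F', hF', hc⟩ := contr_LS K e₀ hT d ρ hρ (k + (k + 2)) (k + 1)
    (actE P ρ'.symm ≫ F) hF1L
  have hS : Sm (T ◁ F') := by
    rw [← hc]
    have h2 := sm_comp (cupF d.c (pow P (k + (k + 2))) ≫
      (show P ⊗ (P ⊗ pow P (k + (k + 2))) ⟶ pow P (k + 2 + (k + 2)) from actE P ρ'.symm)) F
      (𝟙 _) hs
    rw [Category.comp_id, Category.assoc] at h2
    exact h2
  have hz : F' = 0 := IH _ F' hF' (sm_of_whisker hF F' hS)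
  have h3 : F = actE P ρ' ≫ actE P ρ'.symm ≫ F := by
    rw [← Category.assoc, h1, Category.id_comp]
  have h4 : pow P (k + 2) ◁ cupF d.c (pow P k) ≫ (J P (k + 2) (k + 2)).hom ≫ F =
      (pow P (k + 2) ◁ cupF d.c (pow P k) ≫ (J P (k + 2) (k + 2)).hom ≫ actE P ρ') ≫
        actE P ρ'.symm ≫ F := by
    rw [Category.assoc, Category.assoc, ← h3]
  rw [h4]
  have h5 : (pow P (k + 2) ◁ cupF d.c (pow P k) ≫ (J P (k + 2) (k + 2)).hom ≫ actE P ρ' :
      pow P (k + 2) ⊗ (T ⊗ pow P k) ⟶ P ⊗ (P ⊗ pow P (k + (k + 2)))) =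
      θ ≫ cupF d.c (pow P (k + (k + 2))) := hθ
  have h6 : (θ ≫ cupF d.c (pow P (k + (k + 2)))) ≫
      (show P ⊗ (P ⊗ pow P (k + (k + 2))) ⟶ T ⊗ pow T (k + 1) from
        actE P ρ'.symm ≫ F) = 0 := by
    rw [Category.assoc]
    have h7 : cupF d.c (pow P (k + (k + 2))) ≫
        (show P ⊗ (P ⊗ pow P (k + (k + 2))) ⟶ T ⊗ pow T (k + 1) from
          actE P ρ'.symm ≫ F) = T ◁ F' := hc
    rw [h7, hz, MonoidalPreadditive.whiskerLeft_zero, Limits.comp_zero]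
  erw [h5]
  exact h6

end Lin

end Pool.Agent.W868h60
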