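import Pool.Agent.W_868bb7_h60.SmA

set_option autoImplicit false

/-!
# Mul: smash-nilpotence is preserved on the span of an orbit

`tens N F = F 0 ⊗ (F 1 ⊗ ...)` is multilinear in `F`.
* `tens_span`: induction on `N`: for fixed `F (i+1)` the map `f ↦ f ⊗ₘ (tens N ..)` is linear
  (`Submodule.span_induction`); more precisely show by induction on `N`, for all `A' ⟶ B'` valued factors
  `g`, that `tens N F ⊗ₘ g = 0`, or use `MultilinearMap`.
* `sm_span`: for `F = ∑ a_i (t_i ≫ F₀)`, `powMap F N = tens N (fun _ => F)`, and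
  `tens N (fun i => t_i ≫ F₀) = tens N t ≫ powMap F₀ N`.
-/

namespace Pool.Agent.W868h60

open CategoryTheory MonoidalCategory
open Pool.Agent.W_MP_868bb7_ag Pool.Agent.W_868bb7_h64

universe v u w

variable {C : Type u} [Category.{v} C] [MonoidalCategory C]

/-- tensor product of morphisms -/
def tens {A B : C} : (N : ℕ) → (Fin N → (A ⟶ B)) → (pow A N ⟶ pow B N)
  | 0, _ => 𝟙 _
  | N + 1, F => F 0 ⊗ₘ tens N (fun i => F i.succ)

theorem tens_const {A B : C} (F : A ⟶ B) (N : ℕ) : tens N (fun _ => F) = powMap F N := by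
  induction N with
  | zero => rfl
  | succ N ih =>
    change F ⊗ₘ tens N (fun _ => F) = F ⊗ₘ powMap F N
    rw [ih]

theorem tens_comp {A A' B : C} (N : ℕ) (t : Fin N → (A' ⟶ A)) (F : Fin N → (A ⟶ B)) :
    tens N (fun i => t i ≫ F i) = tens N t ≫ tens N F := by
  induction N with
  | zero => exact (Category.id_comp _).symm
  | succ N ih =>
    change (t 0 ≫ F 0) ⊗ₘ tens N (fun i => t i.succ ≫ F i.succ) =
      (t 0 ⊗ₘ tens N (fun i => t i.succ)) ≫ (F 0 ⊗ₘ tens N (fun i => F i.succ))
    rw [ih (fun i => t i.succ) (fun i => F i.succ), tensorHom_comp_tensorHom]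

variable (K : Type w) [Field K] [Preadditive C] [Linear K C] [MonoidalPreadditive C]
  [MonoidalLinear K C]

theorem ten_add_left {A B A' B' : C} (f g : A ⟶ B) (h : A' ⟶ B') :
    (f + g) ⊗ₘ h = f ⊗ₘ h + g ⊗ₘ h := by
  simp [MonoidalCategory.tensorHom_def]

theorem ten_smul_left {A B A' B' : C} (a : K) (f : A ⟶ B) (h : A' ⟶ B') :
    (a • f) ⊗ₘ h = a • (f ⊗ₘ h) := by
  simp [MonoidalCategory.tensorHom_def]

theorem ten_add_right {A B A' B' : C} (f : A ⟶ B) (g h : A' ⟶ B') :
    f ⊗ₘ (g + h) = f ⊗ₘ g + f ⊗ₘ h := by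
  simp [MonoidalCategory.tensorHom_def]

theorem ten_smul_right {A B A' B' : C} (a : K) (f : A ⟶ B) (h : A' ⟶ B') :
    f ⊗ₘ (a • h) = a • (f ⊗ₘ h) := by
  simp [MonoidalCategory.tensorHom_def]

/-- tens with the factors in the span lies in the span of the tens with factors in `S` -/
theorem tens_mem {A B : C} (S : Set (A ⟶ B)) (N : ℕ) (F : Fin N → (A ⟶ B))
    (hF : ∀ i, F i ∈ Submodule.span K S) :
    tens N F ∈ Submodule.span K {x | ∃ G : Fin N → (A ⟶ B), (∀ i, G i ∈ S) ∧ x = tens N G} := by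
  induction N with
  | zero =>
    exact Submodule.subset_span ⟨F, fun i => i.elim0, rfl⟩
  | succ N ih =>
    have h1 := ih (fun i => F i.succ) (fun i => hF i.succ)
    change F 0 ⊗ₘ tens N (fun i => F i.succ) ∈ _
    generalize tens N (fun i => F i.succ) = x at h1
    generalize hf : F 0 = f
    have h0 : f ∈ Submodule.span K S := hf ▸ hF 0
    clear hf ih hF F
    induction h1 using Submodule.span_induction with
    | mem x hx =>
      obtain ⟨G, hG, rfl⟩ := hx
      induction h0 using Submodule.span_induction with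
      | mem f hf =>
        refine Submodule.subset_span ⟨Fin.cons f G, ?_, rfl⟩
        intro i
        refine Fin.cases ?_ ?_ i
        · exact hf
        · intro j
          exact hG j
      | zero =>
        have : (0 : A ⟶ B) ⊗ₘ tens N G = 0 := by simp [MonoidalCategory.tensorHom_def]
        rw [this]
        exact Submodule.zero_mem _
      | add f g _ _ h1 h2 =>
        rw [ten_add_left]
        exact Submodule.add_mem _ h1 h2
      | smul a f _ h1 =>
        rw [ten_smul_left]
        exact Submodule.smul_mem _ _ h1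
    | zero =>
      have : f ⊗ₘ (0 : pow A N ⟶ pow B N) = 0 := by simp [MonoidalCategory.tensorHom_def]
      rw [this]
      exact Submodule.zero_mem _
    | add f g _ _ h1 h2 =>
      rw [ten_add_right]
      exact Submodule.add_mem _ h1 h2
    | smul a f _ h1 =>
      rw [ten_smul_right]
      exact Submodule.smul_mem _ _ h1

theorem tens_span {A B : C} (S : Set (A ⟶ B)) (N : ℕ)
    (h : ∀ F : Fin N → (A ⟶ B), (∀ i, F i ∈ S) → tens N F = 0) (F : Fin N → (A ⟶ B))
    (hF : ∀ i, F i ∈ Submodule.span K S) : tens N F = 0 := by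
  have h1 := tens_mem K S N F hF
  have h2 : {x | ∃ G : Fin N → (A ⟶ B), (∀ i, G i ∈ S) ∧ x = tens N G} ⊆
      ((⊥ : Submodule K (pow A N ⟶ pow B N)) : Set (pow A N ⟶ pow B N)) := by
    rintro x ⟨G, hG, rfl⟩
    simpa using h G hG
  have h3 := Submodule.span_le.2 h2 h1
  simpa using h3

theorem sm_span {A A' B : C} (F₀ : A ⟶ B) (h : Sm F₀) (F : A' ⟶ B)
    (hF : F ∈ Submodule.span K (Set.range fun t : A' ⟶ A => t ≫ F₀)) : Sm F := by
  obtain ⟨N, hN⟩ := h
  refine ⟨N, ?_⟩
  rw [← tens_const]
  refine tens_span K _ N ?_ _ (fun _ => hF)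
  intro G hG
  choose t ht using hG
  have h1 : G = fun i => t i ≫ (fun _ => F₀) i := by
    funext i
    exact (ht i).symm
  rw [h1, tens_comp, tens_const, hN]
  simp

end Pool.Agent.W868h60
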