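import Pool.Agent.W_868bb7_h60.SharpA
import Pool.Agent.W_868bb7_h60.SmA

set_option autoImplicit false

/-!
# SharpB: linearity, faithfulness, caps

* `sharp_inj`: with `zig2`, `S ◁ F` is (up to braidings) the composition of `X ◁ (c ▷ Z ≫ α ≫ X ◁ F)`
  with other morphisms; `Faith S`.
* `sharp_cap`: `c ≫ X ◁ (a ≫ u) = c ≫ (a' ▷ X) ≫ X ◁ u = g ≫ ((v ≫ a') ▷ Y)`, so
  `sharp d (..) = .. ≫ S ◁ (v ≫ a')`, and `sharp_pre`.
* `sharp_sm`: `sm_comp`, `sm_whisker`.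
-/

namespace Pool.Agent.W868h60

open CategoryTheory MonoidalCategory Equiv
open Pool.Agent.W_MP_868bb7_ag Pool.Agent.W_868bb7_h64

universe v u w

section Pre

variable {C : Type u} [Category.{v} C] [MonoidalCategory C] [SymmetricCategory C]
  [Preadditive C] [MonoidalPreadditive C]

theorem sharp_zero {X S : C} (d : SD X S) {Z : C} : sharp d (0 : X ⊗ Z ⟶ S) = 0 := by
  unfold sharp
  rw [MonoidalPreadditive.whiskerLeft_zero]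
  simp only [Limits.zero_comp, Limits.comp_zero]

theorem sharp_add {X S : C} (d : SD X S) {Z : C} (F F' : X ⊗ Z ⟶ S) :
    sharp d (F + F') = sharp d F + sharp d F' := by
  unfold sharp
  rw [MonoidalPreadditive.whiskerLeft_add]
  simp only [Preadditive.add_comp, Preadditive.comp_add]

theorem sharp_sum {X S : C} (d : SD X S) {Z : C} {ι : Type*} (s : Finset ι)
    (F : ι → (X ⊗ Z ⟶ S)) : sharp d (∑ i ∈ s, F i) = ∑ i ∈ s, sharp d (F i) := by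
  classical
  induction s using Finset.induction_on with
  | empty => simp only [Finset.sum_empty, sharp_zero]
  | insert i s hi ih => rw [Finset.sum_insert hi, Finset.sum_insert hi, sharp_add, ih]

theorem sharp_inj {X S : C} (d : SD X S) (hS : Faith S) {Z : C} (F : X ⊗ Z ⟶ S)
    (h : sharp d F = 0) : F = 0 := by
  have h1 : d.c ▷ Z ≫ (α_ X X Z).hom ≫ X ◁ F = 0 := by
    have h2 : (d.c ▷ Z ≫ (α_ X X Z).hom ≫ X ◁ F) ≫ (β_ X S).hom = 0 := by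
      have h3 := h
      unfold sharp at h3
      simpa only [Category.assoc] using h3
    have h4 := congrArg (fun t => t ≫ (β_ X S).inv) h2
    simpa only [Category.assoc, Iso.hom_inv_id, Category.comp_id, Limits.zero_comp] using h4
  have h5 : X ◁ (d.c ▷ Z ≫ (α_ X X Z).hom ≫ X ◁ F) ≫ (α_ X X S).inv ≫ d.q ▷ S = 0 := by
    rw [h1, MonoidalPreadditive.whiskerLeft_zero, Limits.zero_comp]
  have h6 : X ◁ (d.c ▷ Z ≫ (α_ X X Z).hom ≫ X ◁ F) ≫ (α_ X X S).inv ≫ d.q ▷ S =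
      (α_ X S Z).inv ≫ (X ◁ d.c ≫ (α_ X X X).inv ≫ d.q ▷ X) ▷ Z ≫ (α_ S X Z).hom ≫ S ◁ F := by
    have h7 : (α_ X X (X ⊗ Z)).inv ≫ (X ⊗ X) ◁ F ≫ d.q ▷ S =
        (α_ X X (X ⊗ Z)).inv ≫ d.q ▷ (X ⊗ Z) ≫ S ◁ F := by
      rw [whisker_exchange]
    calc X ◁ (d.c ▷ Z ≫ (α_ X X Z).hom ≫ X ◁ F) ≫ (α_ X X S).inv ≫ d.q ▷ S
        = X ◁ (d.c ▷ Z) ≫ X ◁ (α_ X X Z).hom ≫ (α_ X X (X ⊗ Z)).inv ≫ (X ⊗ X) ◁ F ≫ d.q ▷ S := by
          monoidal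
      _ = X ◁ (d.c ▷ Z) ≫ X ◁ (α_ X X Z).hom ≫ (α_ X X (X ⊗ Z)).inv ≫
            d.q ▷ (X ⊗ Z) ≫ S ◁ F := by rw [h7]
      _ = (α_ X S Z).inv ≫ (X ◁ d.c ≫ (α_ X X X).inv ≫ d.q ▷ X) ▷ Z ≫
            (α_ S X Z).hom ≫ S ◁ F := by
          monoidal
  rw [h6, zig2] at h5
  have h8 := congrArg (fun t => (α_ S X Z).inv ≫ (β_ X S).inv ▷ Z ≫ (α_ X S Z).hom ≫ t) h5
  have h9 : S ◁ F = 0 := by
    have h10 : (α_ S X Z).inv ≫ (β_ X S).inv ▷ Z ≫ (α_ X S Z).hom ≫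
        ((α_ X S Z).inv ≫ (β_ X S).hom ▷ Z ≫ (α_ S X Z).hom ≫ S ◁ F) = S ◁ F := by
      simp only [Iso.hom_inv_id_assoc]
      rw [← comp_whiskerRight_assoc, Iso.inv_hom_id, id_whiskerRight, Category.id_comp,
        Iso.inv_hom_id_assoc]
    rw [← h10]
    simpa only [Limits.comp_zero] using h8
  exact hS F h9

theorem sharp_cap {X S Y Z₀ Z : C} (d : SD X S) (u : X ⟶ Y) (v : Z₀ ⟶ X)
    (g : S ⟶ Z₀ ⊗ Y) (hg : d.c ≫ X ◁ u = g ≫ v ▷ Y) (a a' : X ⟶ X)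
    (ha : d.c ≫ X ◁ a = d.c ≫ a' ▷ X) (G' : Y ⊗ Z ⟶ S) (F' : X ⊗ X ⟶ S)
    (h : X ◁ (v ≫ a') ≫ F' = 0) :
    sharp d ((a ≫ u) ▷ Z ≫ G') ≫ sharp d F' = 0 := by
  have h1 : d.c ≫ X ◁ (a ≫ u) = g ≫ (v ≫ a') ▷ Y := by
    rw [MonoidalCategory.whiskerLeft_comp, reassoc_of% ha, ← whisker_exchange, reassoc_of% hg,
      comp_whiskerRight]
  have h2 : sharp d ((a ≫ u) ▷ Z ≫ G') =
      (g ▷ Z ≫ (α_ Z₀ Y Z).hom ≫ Z₀ ◁ G' ≫ (β_ Z₀ S).hom) ≫ S ◁ (v ≫ a') := by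
    unfold sharp
    calc d.c ▷ Z ≫ (α_ X X Z).hom ≫ X ◁ ((a ≫ u) ▷ Z ≫ G') ≫ (β_ X S).hom
        = (d.c ≫ X ◁ (a ≫ u)) ▷ Z ≫ (α_ X Y Z).hom ≫ X ◁ G' ≫ (β_ X S).hom := by
          monoidal
      _ = (g ≫ (v ≫ a') ▷ Y) ▷ Z ≫ (α_ X Y Z).hom ≫ X ◁ G' ≫ (β_ X S).hom := by rw [h1]
      _ = g ▷ Z ≫ (α_ Z₀ Y Z).hom ≫ ((v ≫ a') ▷ (Y ⊗ Z) ≫ X ◁ G') ≫ (β_ X S).hom := by
          monoidal
      _ = g ▷ Z ≫ (α_ Z₀ Y Z).hom ≫ (Z₀ ◁ G' ≫ (v ≫ a') ▷ S) ≫ (β_ X S).hom := by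
          rw [whisker_exchange]
      _ = (g ▷ Z ≫ (α_ Z₀ Y Z).hom ≫ Z₀ ◁ G' ≫ (β_ Z₀ S).hom) ≫ S ◁ (v ≫ a') := by
          simp only [Category.assoc]
          rw [BraidedCategory.braiding_naturality_left]
  rw [h2, Category.assoc, ← sharp_pre, h, sharp_zero, Limits.comp_zero]

theorem sharp_sm {X S : C} (d : SD X S) {Z : C} (F : X ⊗ Z ⟶ S) (h : Sm F) :
    Sm (sharp d F) := by
  have h1 : sharp d F = (d.c ▷ Z ≫ (α_ X X Z).hom) ≫ X ◁ F ≫ (β_ X S).hom := by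
    unfold sharp
    simp only [Category.assoc]
  rw [h1]
  exact sm_comp _ _ _ (sm_whisker X F h)

end Pre

section Lin

variable (K : Type w) [Field K] {C : Type u} [Category.{v} C] [MonoidalCategory C]
  [Preadditive C] [Linear K C] [MonoidalPreadditive C] [MonoidalLinear K C]
  [SymmetricCategory C]

theorem sharp_smul {X S : C} (d : SD X S) {Z : C} (a : K) (F : X ⊗ Z ⟶ S) :
    sharp d (a • F) = a • sharp d F := by
  unfold sharp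
  rw [MonoidalLinear.whiskerLeft_smul]
  simp only [Linear.smul_comp, Linear.comp_smul]

end Lin

end Pool.Agent.W868h60
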