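import Pool.Agent.W_868bb7_h60.Star0
import Pool.Agent.W_868bb7_h60.KdB
import Pool.Agent.W_868bb7_h60.KdC
import Pool.Agent.W_868bb7_h60.AdjK
import Pool.Agent.W_868bb7_h60.AdjQ
import Pool.Agent.W_868bb7_h60.AdjC
import Pool.Agent.W_868bb7_h60.SharpB
import Pool.Agent.W_868bb7_h60.Lcap

set_option autoImplicit false

/-!
# StarC: matchings with a cap

See the docstring.
-/

namespace Pool.Agent.W868h60

open CategoryTheory MonoidalCategory Equiv
open Pool.Agent.W_MP_868bb7_ag Pool.Agent.W_868bb7_h64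

universe v u w

section Mon

variable {C : Type u} [Category.{v} C] [MonoidalCategory C] [SymmetricCategory C]

theorem StarC_inl {P : C} {G : Type} [Group G] (ρ : G →* End P) (n : ℕ) (g : Fin n → G) :
    dact ρ n (SemidirectProduct.inl g) = pm P n (fun i => ρ (g i)) := by
  change pm P n (fun i => ρ (g i)) * rho P n 1 = _
  rw [map_one, mul_one]

theorem StarC_inr {P : C} {G : Type} [Group G] (ρ : G →* End P) (n : ℕ)
    (σ : Equiv.Perm (Fin n)) : dact ρ n (SemidirectProduct.inr σ) = rho P n σ := by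
  have h : (fun i : Fin n => ρ ((1 : Fin n → G) i)) = 1 := by
    funext i
    exact map_one ρ
  change pm P n (fun i => ρ ((1 : Fin n → G) i)) * rho P n σ = _
  rw [h, map_one, one_mul]

/-- a decorated permutation, written in the other order -/
theorem StarC_d1 {P : C} {G : Type} [Group G] (ρ : G →* End P) (n : ℕ) (γ : WG G n) :
    (show pow P n ⟶ pow P n from dact ρ n γ) =
      pmv P n (fun i => ρ (γ.left (γ.right i))) ≫ act P n γ.right := by
  rw [pmv_act]
  have h : (fun i => ρ (γ.left (γ.right (γ.right.symm i)))) = fun i => ρ (γ.left i) := by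
    funext i
    rw [Equiv.apply_symm_apply]
  rw [h]
  rfl

theorem StarC_d2 {P : C} {G : Type} [Group G] (ρ : G →* End P) (n : ℕ) (g g' : Fin n → G)
    (σ : Equiv.Perm (Fin n)) :
    (show pow P n ⟶ pow P n from
      dact ρ n (SemidirectProduct.inl g' * SemidirectProduct.inr σ * SemidirectProduct.inl g)) =
      pmv P n (fun i => ρ (g i)) ≫ act P n σ ≫ pmv P n (fun i => ρ (g' i)) := by
  have h : dact ρ n (SemidirectProduct.inl g' * SemidirectProduct.inr σ *
      SemidirectProduct.inl g) = pm P n (fun i => ρ (g' i)) * rho P n σ *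
        pm P n (fun i => ρ (g i)) := by
    rw [map_mul, map_mul, StarC_inl, StarC_inl, StarC_inr]
  exact h

theorem StarC_d3 {P : C} {G : Type} [Group G] (ρ : G →* End P) (n : ℕ) (g' : Fin n → G)
    (σ : Equiv.Perm (Fin n)) :
    (show pow P n ⟶ pow P n from
      dact ρ n (SemidirectProduct.inl g' * SemidirectProduct.inr σ)) =
      act P n σ ≫ pmv P n (fun i => ρ (g' i)) := by
  have h : dact ρ n (SemidirectProduct.inl g' * SemidirectProduct.inr σ) =
      pm P n (fun i => ρ (g' i)) * rho P n σ := by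
    rw [map_mul, StarC_inl, StarC_inr]
  exact h

/-- the matching of `γ` -/
theorem StarC_fst {P T : C} (q : P ⊗ P ⟶ T) {G : Type} [Group G] (ρ : G →* End P) (r : ℕ)
    (γ : WG G (r + r)) :
    (J P r r).hom ≫ fst q ρ r γ =
      (pmv P r (fun i => ρ (γ.left (γ.right (sumE r r (Sum.inl i))))) ⊗ₘ
        pmv P r (fun i => ρ (γ.left (γ.right (sumE r r (Sum.inr i)))))) ≫
      (J P r r).hom ≫ actE P (Equiv.trans γ.right (piE r)) ≫ qa q r := by
  rw [← Category.assoc, pmv_J, Category.assoc]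
  have h1 : (fun x => Sum.elim (fun i => ρ (γ.left (γ.right (sumE r r (Sum.inl i)))))
      (fun i => ρ (γ.left (γ.right (sumE r r (Sum.inr i))))) ((sumE r r).symm x)) =
      fun x => ρ (γ.left (γ.right x)) := by
    funext x
    obtain ⟨y, rfl⟩ := (sumE r r).surjective x
    rw [Equiv.symm_apply_apply]
    cases y <;> rfl
  rw [h1, fst, StarC_d1, qb, ← actE_act]
  simp only [Category.assoc]

/-- no chord in the first block -/
theorem StarC_bij {P T : C} (d : SD P T) (hT : (β_ T T).hom = 𝟙 _)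
    {G : Type} [Group G] [StarMul G] (ρ : G →* End P) (hρ : AdjG d.q ρ) (r : ℕ)
    (γ : WG G (r + r))
    (h : ∀ i j : Fin (r + r), i.val < r → j.val < r →
      (Equiv.trans γ.right (piE r)) j ≠ adj r ((Equiv.trans γ.right (piE r)) i)) :
    ∃ τ : WG G r, fst d.q ρ r γ = fst d.q ρ r (io G r τ) := by
  obtain ⟨τ, hτ⟩ := kd_bij d hT r _ h
  refine ⟨SemidirectProduct.inl (fun i => star (γ.left (γ.right (sumE r r (Sum.inl i))))) *
    SemidirectProduct.inr τ *
    SemidirectProduct.inl (fun i => γ.left (γ.right (sumE r r (Sum.inr i)))), ?_⟩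
  rw [← cancel_epi (J P r r).hom, fst_io, StarC_fst, hτ, StarC_d2, tensorHom_def']
  simp only [MonoidalCategory.whiskerLeft_comp, Category.assoc]
  congr 1
  rw [← q_adj_pmv d ρ hρ r (fun i => γ.left (γ.right (sumE r r (Sum.inl i)))),
    ← whisker_exchange_assoc]

/-- a chord in the first block -/
theorem StarC_cap {P T : C} (d : SD P T) (hT : (β_ T T).hom = 𝟙 _)
    {G : Type} [Group G] (ρ : G →* End P) (k : ℕ)
    (γ : WG G ((k + 2) + (k + 2)))
    (i j : Fin ((k + 2) + (k + 2))) (hi : i.val < k + 2) (hj : j.val < k + 2)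
    (h : (Equiv.trans γ.right (piE (k + 2))) j =
      adj (k + 2) ((Equiv.trans γ.right (piE (k + 2))) i)) :
    ∃ (g : Fin (k + 2) → G) (ε : Equiv.Perm (Fin (k + 2)))
      (G' : (T ⊗ pow P k) ⊗ pow P (k + 2) ⟶ pow T (k + 2)),
      (J P (k + 2) (k + 2)).hom ≫ fst d.q ρ (k + 2) γ =
        (((pmv P (k + 2) (fun i => ρ (g i)) ≫ act P (k + 2) ε) ≫
          (show pow P (k + 2) ⟶ T ⊗ pow P k from capF d.q (pow P k))) ▷ pow P (k + 2)) ≫ G' := by
  obtain ⟨ε, G', h1⟩ := kd_cap d hT k _ i j hi hj h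
  refine ⟨fun i => γ.left (γ.right (sumE (k + 2) (k + 2) (Sum.inl i))), ε,
    (T ⊗ pow P k) ◁ pmv P (k + 2)
      (fun i => ρ (γ.left (γ.right (sumE (k + 2) (k + 2) (Sum.inr i))))) ≫ G', ?_⟩
  rw [StarC_fst, h1, MonoidalCategory.tensorHom_def]
  simp only [comp_whiskerRight, Category.assoc]
  congr 1
  rw [whisker_exchange_assoc, whisker_exchange_assoc]

end Mon

section Pre

variable {C : Type u} [Category.{v} C] [MonoidalCategory C] [SymmetricCategory C]
  [Preadditive C] [MonoidalPreadditive C]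

theorem StarC_adj {P T : C} (d : SD P T) (hF : Faith T) (hT : (β_ T T).hom = 𝟙 _)
    {G : Type} [Group G] [StarMul G] (ρ : G →* End P) (hρ : AdjG d.q ρ) (r : ℕ)
    (g : Fin r → G) (ε : Equiv.Perm (Fin r)) :
    (SDp d r).c ≫ (pow P r ◁ (pmv P r (fun i => ρ (g i)) ≫ act P r ε)) =
      (SDp d r).c ≫ ((act P r ε⁻¹ ≫ pmv P r (fun i => ρ (star (g i)))) ▷ pow P r) := by
  rw [MonoidalCategory.whiskerLeft_comp, ← Category.assoc, c_adj_pmv d hF ρ hρ, Category.assoc,
    ← whisker_exchange, ← Category.assoc, kap_act d hT, Category.assoc, comp_whiskerRight]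

end Pre

section Lin

variable (K : Type w) [Field K] {C : Type u} [Category.{v} C] [MonoidalCategory C]
  [Preadditive C] [Linear K C] [MonoidalPreadditive C] [MonoidalLinear K C]
  [SymmetricCategory C]

/-- A decorated matching which is not (up to equality of morphisms) a decorated bijection of the
blocks has a chord inside the first block (`kd_bij`; decorations: `q_adj_pmv` for the first block);
by `kd_cap` (with the decorations of the first block in `a`) it is
`((a ≫ capF) ▷ _) ≫ G'`, `a = pmv .. ≫ act ε`; `a'` from `kap_act`, `c_adj_pmv`; `cap_cup`; and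
`X ◁ (cupF ≫ a') ≫ (J ≫ F) = 0` by `hk` for the translate of `F` by `a'` (`J_io` with
`a' = dact ..`).  For `r ≤ 1` the first case holds by `adj_ne`. -/
theorem star_cap {P T : C} (d : SD P T) (hF : Faith T) (hT : (β_ T T).hom = 𝟙 _)
    {G : Type} [Group G] [Finite G] [StarMul G] (ρ : G →* End P) (hρ : AdjG d.q ρ) (r : ℕ)
    (V : Submodule K (pow P (r + r) ⟶ pow T r))
    (hV : ∀ F ∈ V, ∀ τ : WG G (r + r),
      (show pow P (r + r) ⟶ pow P (r + r) from dact ρ (r + r) τ) ≫ F ∈ V)
    (hk : ∀ (k : ℕ) (h : r = k + 2) (F : pow P (r + r) ⟶ pow T r), F ∈ V →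
      ∀ v : T ⊗ pow P k ⟶ pow P r, v = cupF d.c (pow P k) ≫ eqToHom (by rw [h]; rfl) →
      pow P r ◁ v ≫ (J P r r).hom ≫ F = 0)
    (γ : WG G (r + r)) (hγ : ¬ ∃ τ : WG G r, fst d.q ρ r γ = fst d.q ρ r (io G r τ))
    (F : pow P (r + r) ⟶ pow T r) (hFV : F ∈ V) :
    sharp (SDp d r) ((J P r r).hom ≫ fst d.q ρ r γ) ≫
      sharp (SDp d r) ((J P r r).hom ≫ F) = 0 := by
  by_cases h : ∀ i j : Fin (r + r), i.val < r → j.val < r →
      (Equiv.trans γ.right (piE r)) j ≠ adj r ((Equiv.trans γ.right (piE r)) i)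
  · exact absurd (StarC_bij d hT ρ hρ r γ h) hγ
  · push Not at h
    obtain ⟨i, j, hi, hj, hij⟩ := h
    have h1 : i ≠ j := by
      rintro rfl
      exact adj_ne r _ hij.symm
    have h2 : i.val ≠ j.val := fun h => h1 (Fin.ext h)
    obtain ⟨k, rfl⟩ : ∃ k, r = k + 2 := ⟨r - 2, by omega⟩
    obtain ⟨g, ε, G', h3⟩ := StarC_cap d hT ρ k γ i j hi hj hij
    obtain ⟨g₀, h4⟩ := cap_cup d (SDp d k)
    rw [h3]
    refine sharp_cap (SDp d (k + 2)) (show pow P (k + 2) ⟶ T ⊗ pow P k from capF d.q (pow P k))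
      (show T ⊗ pow P k ⟶ pow P (k + 2) from cupF d.c (pow P k)) g₀ h4 _ _
      (StarC_adj d hF hT ρ hρ (k + 2) g ε) G' _ ?_
    have h5 := J_io ρ (k + 2) (SemidirectProduct.inl (fun i => star (g i)) *
      SemidirectProduct.inr ε⁻¹)
    rw [StarC_d3] at h5
    rw [MonoidalCategory.whiskerLeft_comp, Category.assoc, ← Category.assoc _ _ F, ← h5,
      Category.assoc]
    exact hk k rfl _ (hV F hFV _) _ (Category.comp_id (cupF d.c (pow P k))).symm

end Lin

end Pool.Agent.W868h60
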