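import Pool.Agent.W_868bb7_h60.Star0

set_option autoImplicit false

/-!
# StarL: the span of the decorated matchings of two blocks

`e = σ.trans (piE r)`, `pmv_act`; `Submodule.mem_span_range_iff_exists_fun` or span induction.
-/

namespace Pool.Agent.W868h60

open CategoryTheory MonoidalCategory Equiv
open Pool.Agent.W_MP_868bb7_ag Pool.Agent.W_868bb7_h64

universe v u w

section Mon

variable {C : Type u} [Category.{v} C] [MonoidalCategory C] [SymmetricCategory C]

/-- `fst γ` is a decorated matching -/
theorem StarL_fst {P T : C} (q : P ⊗ P ⟶ T) {G : Type} [Group G] (ρ : G →* End P) (r : ℕ)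
    (γ : WG G (r + r)) : fst q ρ r γ =
      dm q ρ (r + r) r (Equiv.trans γ.right (piE r)) (fun i => γ.left (γ.right i)) := by
  have h0 : fst q ρ r γ = actE P γ.right ≫ dm q ρ (r + r) r (piE r) γ.left := by
    rw [actE_perm]
    unfold fst dm qb
    change (act P (r + r) γ.right ≫ pmv P (r + r) (fun i => ρ (γ.left i))) ≫
      actE P (piE r) ≫ qa q r = _
    rw [Category.assoc]
  rw [h0, act_dm]

end Mon

section Lin

variable (K : Type w) [Field K] {C : Type u} [Category.{v} C] [MonoidalCategory C]
  [Preadditive C] [Linear K C] [MonoidalPreadditive C] [MonoidalLinear K C]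
  [SymmetricCategory C]

/-- every decorated matching is some `fst γ` -/
theorem LS_fst {P T : C} (q : P ⊗ P ⟶ T) {G : Type} [Group G] [Finite G] (ρ : G →* End P)
    (r : ℕ) (F : pow P (r + r) ⟶ pow T r) :
    F ∈ LS K q ρ (r + r) r ↔ ∃ x : WG G (r + r) → K, F = ∑ γ, x γ • fst q ρ r γ := by
  have hset : {F : pow P (r + r) ⟶ pow T r | ∃ (e : Fin (r + r) ≃ Fin (2 * r))
      (g : Fin (r + r) → G), F = dm q ρ (r + r) r e g} =
      Set.range (fun γ : WG G (r + r) => fst q ρ r γ) := by
    ext F
    constructor
    · rintro ⟨e, g, rfl⟩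
      refine ⟨⟨fun i => g ((e.trans (piE r).symm).symm i), e.trans (piE r).symm⟩, ?_⟩
      change fst q ρ r _ = _
      rw [StarL_fst]
      have he : Equiv.trans (e.trans (piE r).symm) (piE r) = e := by
        ext i
        simp
      have hg : (fun i => g ((e.trans (piE r).symm).symm ((e.trans (piE r).symm) i))) = g := by
        funext i
        simp
      change dm q ρ (r + r) r (Equiv.trans (e.trans (piE r).symm) (piE r))
        (fun i => g ((e.trans (piE r).symm).symm ((e.trans (piE r).symm) i))) = _
      rw [he, hg]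
    · rintro ⟨γ, rfl⟩
      exact ⟨_, _, StarL_fst q ρ r γ⟩
  unfold LS
  rw [hset, Submodule.mem_span_range_iff_exists_fun]
  constructor
  · rintro ⟨x, hx⟩
    exact ⟨x, hx.symm⟩
  · rintro ⟨x, hx⟩
    exact ⟨x, hx.symm⟩

end Lin

end Pool.Agent.W868h60
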