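import Pool.Agent.W_868bb7_h60.MainB
import Pool.Agent.W_868bb7_h60.MainK
import Pool.Agent.W_868bb7_h60.StarC
import Pool.Agent.W_868bb7_h60.StarL
import Pool.Agent.W_868bb7_h60.Mul
import Pool.Agent.W_868bb7_h60.Ab
import Pool.Agent.W_868bb7_h60.DecA
import Pool.Agent.W_868bb7_h60.DecT

set_option autoImplicit false

/-!
# Main: smash-nilpotent combinations of decorated matchings vanish

See the docstrings.
-/

namespace Pool.Agent.W868h60

open CategoryTheory MonoidalCategory Equiv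
open Pool.Agent.W_MP_868bb7_ag Pool.Agent.W_868bb7_h64 Pool.Agent.W_MP_868bb7_h79

universe v u w

section Lin

variable (K : Type w) [Field K] [CharZero K] {C : Type u} [Category.{v} C] [MonoidalCategory C]
  [Preadditive C] [Linear K C] [MonoidalPreadditive C] [MonoidalLinear K C]
  [SymmetricCategory C]
  [RightRigidCategory C] [UnitK K C]

omit [CharZero K] [RightRigidCategory C] [UnitK K C] in
/-- `EE` as a linear map -/
noncomputable def Main_E {P T : C} (q : P ⊗ P ⟶ T) {G : Type} [Group G] [Finite G]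
    (ρ : G →* End P) (r : ℕ) : (WG G (r + r) → K) →ₗ[K] (pow P (r + r) ⟶ pow T r) where
  toFun x := EE K q ρ r x
  map_add' x y := by
    simp only [EE, Pi.add_apply, add_smul, Finset.sum_add_distrib]
  map_smul' a x := by
    simp only [EE, Pi.smul_apply, smul_eq_mul, mul_smul, Finset.smul_sum, RingHom.id_apply]

omit [CharZero K] [RightRigidCategory C] [UnitK K C] in
theorem Main_smash {P T : C} {G : Type} [Group G] [Finite G] (ρ : G →* End P) (r : ℕ)
    (F₀ : pow P (r + r) ⟶ pow T r) (hs : Sm F₀) (F : pow P (r + r) ⟶ pow T r)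
    (hF : F ∈ Submodule.span K (Set.range fun τ : WG G (r + r) =>
      (show pow P (r + r) ⟶ pow P (r + r) from dact ρ (r + r) τ) ≫ F₀)) : Sm F := by
  refine sm_span K F₀ hs F (Submodule.span_mono ?_ hF)
  rintro _ ⟨τ, rfl⟩
  exact ⟨_, rfl⟩

omit [CharZero K] [RightRigidCategory C] [UnitK K C] in
theorem Main_stab {P T : C} {G : Type} [Group G] [Finite G] (ρ : G →* End P) (r : ℕ)
    (F₀ : pow P (r + r) ⟶ pow T r) (F : pow P (r + r) ⟶ pow T r)
    (hF : F ∈ Submodule.span K (Set.range fun τ : WG G (r + r) =>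
      (show pow P (r + r) ⟶ pow P (r + r) from dact ρ (r + r) τ) ≫ F₀)) (τ : WG G (r + r)) :
    (show pow P (r + r) ⟶ pow P (r + r) from dact ρ (r + r) τ) ≫ F ∈
      Submodule.span K (Set.range fun τ : WG G (r + r) =>
        (show pow P (r + r) ⟶ pow P (r + r) from dact ρ (r + r) τ) ≫ F₀) := by
  induction hF using Submodule.span_induction with
  | mem x hx =>
    obtain ⟨γ, rfl⟩ := hx
    refine Submodule.subset_span ⟨γ * τ, ?_⟩
    have h : dact ρ (r + r) (γ * τ) = dact ρ (r + r) γ * dact ρ (r + r) τ := map_mul _ _ _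
    change (dact ρ (r + r) (γ * τ)) ≫ F₀ = (dact ρ (r + r) τ) ≫ (dact ρ (r + r) γ) ≫ F₀
    rw [h]
    exact Category.assoc _ _ _
  | zero =>
    rw [Limits.comp_zero]
    exact Submodule.zero_mem _
  | add x y _ _ hx hy =>
    rw [Preadditive.comp_add]
    exact Submodule.add_mem _ hx hy
  | smul a x _ hx =>
    rw [Linear.comp_smul]
    exact Submodule.smul_mem _ _ hx

/-- Let `F₀` be given, `V = span {dact τ ≫ F₀}`; all its elements are smash-nilpotent (`sm_span`) and in `LS`.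
`hcap` from `star_cap` and `kill`.  `abstract_key` for the representation `regR`, `io`,
`bp (io G r) (fst d.q ρ r)`, the submodules `{x | EE x ∈ V}` and `{x | EE x = 0}`:
`bp_equiv`, `bp_trans`, and `hN`: `sharp (J ≫ EE x)` is smash-nilpotent (`sharp_sm`), hence nilpotent
(`nilp_of_smash`), `star_pow`, `sharp_inj` (`faith_pow`), `J` is an isomorphism. -/
theorem main_step {P T T' : C} (e₀ : T ⊗ T' ≅ 𝟙_ C) (hT : (β_ T T).hom = 𝟙 _) (d : SD P T)
    {G : Type} [Group G] [Finite G] [StarMul G] (ρ : G →* End P) (hρ : AdjG d.q ρ) (r : ℕ)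
    (IH : ∀ r' : ℕ, r' < r → ∀ (n : ℕ) (F : pow P n ⟶ pow T r'), F ∈ LS K d.q ρ n r' →
      Sm F → F = 0)
    (F : pow P (r + r) ⟶ pow T r) (hF : F ∈ LS K d.q ρ (r + r) r) (hs : Sm F) : F = 0 := by
  classical
  have hFT : Faith T := faith_of_inv ((β_ T' T) ≪≫ e₀)
  set V : Submodule K (pow P (r + r) ⟶ pow T r) :=
    Submodule.span K (Set.range fun τ : WG G (r + r) =>
      (show pow P (r + r) ⟶ pow P (r + r) from dact ρ (r + r) τ) ≫ F) with hVdef
  have hVs : ∀ F' ∈ V, Sm F' := fun F' h => Main_smash K ρ r F hs F' h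
  have hVd : ∀ F' ∈ V, ∀ τ : WG G (r + r),
      (show pow P (r + r) ⟶ pow P (r + r) from dact ρ (r + r) τ) ≫ F' ∈ V :=
    fun F' h τ => Main_stab K ρ r F F' h τ
  have hLd : ∀ F' ∈ LS K d.q ρ (r + r) r, ∀ τ : WG G (r + r),
      (show pow P (r + r) ⟶ pow P (r + r) from dact ρ (r + r) τ) ≫ F' ∈
        LS K d.q ρ (r + r) r := by
    intro F' h τ
    obtain ⟨x, rfl⟩ := (LS_fst K d.q ρ r F').1 h
    refine (LS_fst K d.q ρ r _).2 ⟨regR K _ τ⁻¹ x, ?_⟩
    have h1 := EE_regR K d.q ρ r τ⁻¹ x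
    rw [inv_inv] at h1
    exact h1.symm
  have hVL : V ≤ LS K d.q ρ (r + r) r := by
    rw [hVdef, Submodule.span_le]
    rintro _ ⟨τ, rfl⟩
    exact hLd F hF τ
  have hFV : F ∈ V := by
    refine Submodule.subset_span ⟨1, ?_⟩
    change (dact ρ (r + r) 1) ≫ F = F
    rw [map_one]
    exact Category.id_comp F
  have hcap : ∀ γ : WG G (r + r),
      (¬ ∃ τ : WG G r, fst d.q ρ r γ = fst d.q ρ r (io G r τ)) → ∀ F' ∈ V,
      sharp (SDp d r) ((J P r r).hom ≫ fst d.q ρ r γ) ≫
        sharp (SDp d r) ((J P r r).hom ≫ F') = 0 := by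
    intro γ hγ F' hF'
    refine star_cap K d hFT hT ρ hρ r V hVd ?_ γ hγ F' hF'
    intro k hk F₁ hF₁ v hv
    have hs1 := hVs _ hF₁
    have hL1 := hVL hF₁
    clear_value V
    subst hk
    subst hv
    exact (congrArg (fun w : T ⊗ pow P k ⟶ pow P (k + 2) =>
      pow P (k + 2) ◁ w ≫ (J P (k + 2) (k + 2)).hom ≫ F₁)
      (Category.comp_id (cupF d.c (pow P k)))).trans
      (kill K e₀ hFT hT d ρ hρ k (fun n F₂ h2 hs2 => IH (k + 1) (by omega) n F₂ h2 hs2) F₁
        hL1 hs1)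
  have key := abstract_key (regR K (WG G (r + r))) (io G r) (bp (io G r) (fst d.q ρ r))
    (fun τ x => bp_equiv (io G r) (fst d.q ρ r) τ x)
    (V.comap (Main_E K d.q ρ r)) (LinearMap.ker (Main_E K d.q ρ r)) ?_ ?_ ?_ ?_
  · obtain ⟨x, hx⟩ := (LS_fst K d.q ρ r F).1 hF
    have h1 : x ∈ V.comap (Main_E K d.q ρ r) := by
      rw [Submodule.mem_comap]
      change EE K d.q ρ r x ∈ V
      have : EE K d.q ρ r x = F := hx.symm
      rw [this]
      exact hFV
    have h2 : EE K d.q ρ r x = 0 := key h1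
    rw [hx]
    exact h2
  · intro γ x hx
    rw [Submodule.mem_comap] at hx ⊢
    change EE K d.q ρ r (regR K _ γ x) ∈ V
    rw [EE_regR]
    exact hVd _ hx _
  · intro γ x hx
    rw [LinearMap.mem_ker] at hx ⊢
    change EE K d.q ρ r (regR K _ γ x) = 0
    have hx' : EE K d.q ρ r x = 0 := hx
    rw [EE_regR, hx', Limits.comp_zero]
  · intro x hx
    rw [LinearMap.mem_ker]
    exact bp_trans (io G r) (fst d.q ρ r) (MainB_A K T ρ r)
      (fun γ τ => fst_mul d.q ρ r γ τ) x hx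
  · intro x hx
    have hx' : EE K d.q ρ r x ∈ V := hx
    have h1 : Sm (EE K d.q ρ r x) := hVs _ hx'
    have h2 : Sm ((J P r r).hom ≫ EE K d.q ρ r x) := by
      have := sm_comp (J P r r).hom (EE K d.q ρ r x) (𝟙 _) h1
      rwa [Category.comp_id] at this
    obtain ⟨N, hN⟩ := sharp_sm (SDp d r) _ h2
    have h3 := smash_pos _ N hN
    have h4 := nilp_of_smash K _ (N + 1) (by omega) h3
    rw [star_pow K d ρ r V hVd hcap x hx' N] at h4
    have h5 := sharp_inj (SDp d r) (faith_pow hFT r) _ h4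
    refine ⟨N, ?_⟩
    rw [LinearMap.mem_ker]
    change EE K d.q ρ r (lft K G r ((bp (io G r) (fst d.q ρ r) x) ^ N) x) = 0
    rw [← cancel_epi (J P r r).hom, h5, Limits.comp_zero]

/-- strong induction on `r`; `n = r + r` if `LS` is not zero (`Fin.equiv_iff_eq`) -/
theorem main_all {P T T' : C} (e₀ : T ⊗ T' ≅ 𝟙_ C) (hT : (β_ T T).hom = 𝟙 _) (d : SD P T)
    {G : Type} [Group G] [Finite G] [StarMul G] (ρ : G →* End P) (hρ : AdjG d.q ρ) (r n : ℕ)
    (F : pow P n ⟶ pow T r) (hF : F ∈ LS K d.q ρ n r) (hs : Sm F) : F = 0 := by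
  induction r using Nat.strong_induction_on generalizing n with
  | _ r ih =>
    by_cases hn : n = r + r
    · subst hn
      exact main_step K e₀ hT d ρ hρ r (fun r' hr' n F hF hs => ih r' hr' n F hF hs) F hF hs
    · have h0 : LS K d.q ρ n r = ⊥ := by
        rw [LS, Submodule.span_eq_bot]
        rintro x ⟨e, g, rfl⟩
        exact absurd (Fin.equiv_iff_eq.1 ⟨e⟩) (by omega)
      rw [h0, Submodule.mem_bot] at hF
      exact hF

end Lin

end Pool.Agent.W868h60
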