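import Pool.Agent.W_868bb7_h60.Star0
import Pool.Agent.W_868bb7_h60.Dec0

set_option autoImplicit false

/-!
# MainA: combinations of decorated matchings

See the docstrings.
-/

namespace Pool.Agent.W868h60

open CategoryTheory MonoidalCategory Equiv
open Pool.Agent.W_MP_868bb7_ag Pool.Agent.W_868bb7_h64

universe v u w

section Lin

variable (K : Type w) [Field K] {C : Type u} [Category.{v} C] [MonoidalCategory C]
  [Preadditive C] [Linear K C] [MonoidalPreadditive C] [MonoidalLinear K C]
  [SymmetricCategory C]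

/-- the combination of decorated matchings with coefficients `x` -/
noncomputable def EE {P T : C} (q : P ⊗ P ⟶ T) {G : Type} [Group G] [Finite G] (ρ : G →* End P)
    (r : ℕ) (x : WG G (r + r) → K) : pow P (r + r) ⟶ pow T r :=
  ∑ γ, x γ • fst q ρ r γ

/-- `regR τ` translates the coefficients, `fst_mul` -/
theorem EE_regR {P T : C} (q : P ⊗ P ⟶ T) {G : Type} [Group G] [Finite G] (ρ : G →* End P)
    (r : ℕ) (τ : WG G (r + r)) (x : WG G (r + r) → K) :
    EE K q ρ r (regR K _ τ x) =
      (show pow P (r + r) ⟶ pow P (r + r) from dact ρ (r + r) τ⁻¹) ≫ EE K q ρ r x := by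
  unfold EE
  rw [Preadditive.comp_sum]
  refine Fintype.sum_equiv (Equiv.mulRight τ) _ _ fun γ => ?_
  rw [Equiv.coe_mulRight, regR_apply, Linear.comp_smul]
  congr 1
  rw [← fst_mul, mul_inv_cancel_right]

theorem MainA_add {P T : C} (q : P ⊗ P ⟶ T) {G : Type} [Group G] [Finite G] (ρ : G →* End P)
    (r : ℕ) (x y : WG G (r + r) → K) : EE K q ρ r (x + y) = EE K q ρ r x + EE K q ρ r y := by
  unfold EE
  rw [← Finset.sum_add_distrib]
  refine Finset.sum_congr rfl fun γ _ => ?_
  rw [Pi.add_apply, add_smul]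

theorem MainA_smul {P T : C} (q : P ⊗ P ⟶ T) {G : Type} [Group G] [Finite G] (ρ : G →* End P)
    (r : ℕ) (a : K) (x : WG G (r + r) → K) : EE K q ρ r (a • x) = a • EE K q ρ r x := by
  unfold EE
  rw [Finset.smul_sum]
  refine Finset.sum_congr rfl fun γ _ => ?_
  rw [Pi.smul_apply, smul_eq_mul, mul_smul]

/-- `EE` as a linear map -/
noncomputable def MainA_lin {P T : C} (q : P ⊗ P ⟶ T) {G : Type} [Group G] [Finite G]
    (ρ : G →* End P) (r : ℕ) : (WG G (r + r) → K) →ₗ[K] (pow P (r + r) ⟶ pow T r) where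
  toFun x := EE K q ρ r x
  map_add' x y := MainA_add K q ρ r x y
  map_smul' a x := MainA_smul K q ρ r a x

/-- the group algebra of `WG G r` acting on the second block -/
noncomputable def lft (G : Type) [Group G] (r : ℕ) (a : MonoidAlgebra K (WG G r)) :
    Module.End K (WG G (r + r) → K) :=
  MonoidAlgebra.lift K (Module.End K (WG G (r + r) → K)) (WG G r)
    ((regR K (WG G (r + r)) : WG G (r + r) →* Module.End K (WG G (r + r) → K)).comp (io G r)) a

theorem EE_lft {P T : C} (q : P ⊗ P ⟶ T) {G : Type} [Group G] [Finite G] (ρ : G →* End P)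
    (r : ℕ) (a : MonoidAlgebra K (WG G r)) (x : WG G (r + r) → K) :
    EE K q ρ r (lft K G r a x) = ∑ τ : WG G r, a.coeff τ •
      ((show pow P (r + r) ⟶ pow P (r + r) from dact ρ (r + r) (io G r τ)⁻¹) ≫
        EE K q ρ r x) := by
  have h1 : lft K G r a x = ∑ τ : WG G r, a.coeff τ • regR K (WG G (r + r)) (io G r τ) x := by
    unfold lft
    rw [MonoidAlgebra.lift_apply, Finsupp.sum_fintype, LinearMap.sum_apply]
    · rfl
    · intro τ
      exact zero_smul K _
  change MainA_lin K q ρ r (lft K G r a x) = _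
  rw [h1, map_sum]
  refine Finset.sum_congr rfl fun τ _ => ?_
  rw [map_smul]
  congr 1
  exact EE_regR K q ρ r (io G r τ) x

end Lin

end Pool.Agent.W868h60
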