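import Pool.Agent.W_868bb7_h60.MainA
import Pool.Agent.W_868bb7_h60.DecD
import Pool.Agent.W_868bb7_h60.SharpB

set_option autoImplicit false

/-!
# MainB: products of the endomorphisms

See the docstrings.
-/

namespace Pool.Agent.W868h60

open CategoryTheory MonoidalCategory Equiv
open Pool.Agent.W_MP_868bb7_ag Pool.Agent.W_868bb7_h64

universe v u w

section Lin

variable (K : Type w) [Field K] [CharZero K] {C : Type u} [Category.{v} C] [MonoidalCategory C]
  [Preadditive C] [Linear K C] [MonoidalPreadditive C] [MonoidalLinear K C]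
  [SymmetricCategory C]

omit [CharZero K] in
/-- the right translation as a linear map -/
noncomputable def MainB_A {P : C} (T : C) {G : Type} [Group G] (ρ : G →* End P)
    (r : ℕ) (τ : WG G (r + r)) : (pow P (r + r) ⟶ pow T r) →ₗ[K] (pow P (r + r) ⟶ pow T r) where
  toFun F := (show pow P (r + r) ⟶ pow P (r + r) from dact ρ (r + r) τ) ≫ F
  map_add' F F' := Preadditive.comp_add _ _ _ _ F F'
  map_smul' a F := Linear.comp_smul _ _ _ _ a F

omit [CharZero K] in
theorem MainB_sum {P T : C} (d : SD P T) (r : ℕ) {ι : Type*} (s : Finset ι) (a : ι → K)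
    (F : ι → (pow P (r + r) ⟶ pow T r)) :
    sharp (SDp d r) ((J P r r).hom ≫ ∑ i ∈ s, a i • F i) =
      ∑ i ∈ s, a i • sharp (SDp d r) ((J P r r).hom ≫ F i) := by
  rw [Preadditive.comp_sum, sharp_sum]
  refine Finset.sum_congr rfl (fun i _ => ?_)
  rw [Linear.comp_smul, sharp_smul]

omit [CharZero K] in
theorem MainB_bij {P T : C} (d : SD P T) {G : Type} [Group G] [Finite G]
    (ρ : G →* End P) (r : ℕ) (τ : WG G r) (F : pow P (r + r) ⟶ pow T r) :
    sharp (SDp d r) ((J P r r).hom ≫ fst d.q ρ r (io G r τ)⁻¹) ≫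
      sharp (SDp d r) ((J P r r).hom ≫ F) =
    sharp (SDp d r) ((J P r r).hom ≫
      (show pow P (r + r) ⟶ pow P (r + r) from dact ρ (r + r) (io G r τ)⁻¹) ≫ F) := by
  rw [← map_inv (io G r) τ, fst_io, sharp_q, ← sharp_pre, ← Category.assoc _ _ F, ← J_io,
    Category.assoc]

/-- `bp_dec` splits `EE x` in the bijective part and a rest; the rest is killed by `hcap`
(`star_cap`); for the bijective part `fst_io`, `sharp_q`, `sharp_pre`, `J_io`, `EE_lft`. -/
theorem star_id {P T : C} (d : SD P T) {G : Type} [Group G] [Finite G]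
    (ρ : G →* End P) (r : ℕ) (x y : WG G (r + r) → K)
    (hcap : ∀ γ : WG G (r + r),
      (¬ ∃ τ : WG G r, fst d.q ρ r γ = fst d.q ρ r (io G r τ)) →
      sharp (SDp d r) ((J P r r).hom ≫ fst d.q ρ r γ) ≫
        sharp (SDp d r) ((J P r r).hom ≫ EE K d.q ρ r y) = 0) :
    sharp (SDp d r) ((J P r r).hom ≫ EE K d.q ρ r x) ≫
      sharp (SDp d r) ((J P r r).hom ≫ EE K d.q ρ r y) =
    sharp (SDp d r) ((J P r r).hom ≫
      EE K d.q ρ r (lft K G r (bp (io G r) (fst d.q ρ r) x) y)) := by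
  classical
  have h1 : EE K d.q ρ r x = _ := bp_dec (io G r) (fst d.q ρ r) (MainB_A K T ρ r)
    (fun γ τ => fst_mul d.q ρ r γ τ) x
  rw [EE_lft, h1, Preadditive.comp_add, sharp_add, Preadditive.add_comp, MainB_sum, MainB_sum,
    MainB_sum, Preadditive.sum_comp, Preadditive.sum_comp]
  have h2 : ∑ γ ∈ Finset.univ.filter (fun γ : WG G (r + r) =>
      ¬ ∃ τ : WG G r, fst d.q ρ r γ = fst d.q ρ r (io G r τ)),
      (x γ • sharp (SDp d r) ((J P r r).hom ≫ fst d.q ρ r γ)) ≫
        sharp (SDp d r) ((J P r r).hom ≫ EE K d.q ρ r y) = 0 := by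
    refine Finset.sum_eq_zero (fun γ hγ => ?_)
    rw [Linear.smul_comp, hcap γ (Finset.mem_filter.1 hγ).2, smul_zero]
  rw [h2, add_zero]
  refine Finset.sum_congr rfl (fun τ _ => ?_)
  rw [Linear.smul_comp, MainB_bij]

/-- induction on `N`, `star_id` for `x` and `y = lft ((bp x)^N) x` -/
theorem star_pow {P T : C} (d : SD P T) {G : Type} [Group G] [Finite G]
    (ρ : G →* End P) (r : ℕ) (V : Submodule K (pow P (r + r) ⟶ pow T r))
    (hV : ∀ F ∈ V, ∀ τ : WG G (r + r),
      (show pow P (r + r) ⟶ pow P (r + r) from dact ρ (r + r) τ) ≫ F ∈ V)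
    (hcap : ∀ γ : WG G (r + r),
      (¬ ∃ τ : WG G r, fst d.q ρ r γ = fst d.q ρ r (io G r τ)) → ∀ F ∈ V,
      sharp (SDp d r) ((J P r r).hom ≫ fst d.q ρ r γ) ≫
        sharp (SDp d r) ((J P r r).hom ≫ F) = 0)
    (x : WG G (r + r) → K) (hx : EE K d.q ρ r x ∈ V) (N : ℕ) :
    it (sharp (SDp d r) ((J P r r).hom ≫ EE K d.q ρ r x)) (N + 1) =
    sharp (SDp d r) ((J P r r).hom ≫
      EE K d.q ρ r (lft K G r ((bp (io G r) (fst d.q ρ r) x) ^ N) x)) := by
  have hl : ∀ (a : MonoidAlgebra K (WG G r)) (y : WG G (r + r) → K), EE K d.q ρ r y ∈ V →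
      EE K d.q ρ r (lft K G r a y) ∈ V := by
    intro a y hy
    rw [EE_lft]
    exact V.sum_mem (fun τ _ => V.smul_mem _ (hV _ hy _))
  induction N with
  | zero =>
    rw [pow_zero]
    have h0 : lft K G r (1 : MonoidAlgebra K (WG G r)) = 1 := map_one _
    rw [h0]
    change _ = sharp (SDp d r) ((J P r r).hom ≫ EE K d.q ρ r x)
    exact Category.comp_id _
  | succ N ih =>
    have h1 : it (sharp (SDp d r) ((J P r r).hom ≫ EE K d.q ρ r x)) (N + 1 + 1) =
        sharp (SDp d r) ((J P r r).hom ≫ EE K d.q ρ r x) ≫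
          it (sharp (SDp d r) ((J P r r).hom ≫ EE K d.q ρ r x)) (N + 1) := rfl
    rw [h1, ih, star_id K d ρ r x _ (fun γ hγ => hcap γ hγ _ (hl _ _ hx))]
    have h2 : lft K G r (bp (io G r) (fst d.q ρ r) x ^ (N + 1)) x =
        lft K G r (bp (io G r) (fst d.q ρ r) x)
          (lft K G r (bp (io G r) (fst d.q ρ r) x ^ N) x) := by
      have h3 : lft K G r (bp (io G r) (fst d.q ρ r) x ^ (N + 1)) =
          lft K G r (bp (io G r) (fst d.q ρ r) x) *
            lft K G r (bp (io G r) (fst d.q ρ r) x ^ N) := by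
        rw [pow_succ']
        exact map_mul _ _ _
      rw [h3]
      rfl
    rw [h2]

end Lin

end Pool.Agent.W868h60
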