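import Pool.Agent.W_868bb7_h60.Defs

set_option autoImplicit false

/-!
# PairQ: symmetries of q ⊗ q

* `sw_q`: `sw P B = α⁻¹ ≫ β ▷ B ≫ α`.
* `pairs_q`: the four exchanges are (with associators) the exchange `β_{P ⊗ P, P ⊗ P}` of the first two
  pairs (hexagons); naturality of the braiding for `q ⊗ q`, `β_{T,T} = 𝟙`.
-/

namespace Pool.Agent.W868h60

open CategoryTheory MonoidalCategory Equiv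
open Pool.Agent.W_MP_868bb7_ag Pool.Agent.W_868bb7_h64

universe v u w

section Mon

variable {C : Type u} [Category.{v} C] [MonoidalCategory C] [SymmetricCategory C]

theorem sw_q {P T B S : C} (q : P ⊗ P ⟶ T) (hq : (β_ P P).hom ≫ q = q) (f : B ⟶ S) :
    sw P B ≫ (α_ P P B).inv ≫ (q ⊗ₘ f) = (α_ P P B).inv ≫ (q ⊗ₘ f) := by
  have h1 : (β_ P P).hom ▷ B ≫ (q ⊗ₘ f) = q ⊗ₘ f := by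
    rw [MonoidalCategory.tensorHom_def, ← comp_whiskerRight_assoc, hq]
  simp only [sw, Category.assoc, Iso.hom_inv_id_assoc]
  rw [h1]

theorem PairQ_four (P B : C) :
    P ◁ sw P (P ⊗ B) ≫ sw P (P ⊗ (P ⊗ B)) ≫ P ◁ (P ◁ sw P B) ≫ P ◁ sw P (P ⊗ B) =
      𝟙 (P ⊗ P ⊗ P ⊗ P ⊗ B) ⊗≫ (β_ (P ⊗ P) (P ⊗ P)).hom ▷ B ⊗≫ 𝟙 (P ⊗ P ⊗ P ⊗ P ⊗ B) := by
  have h0 : sw P (P ⊗ (P ⊗ B)) ≫ P ◁ (P ◁ sw P B) =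
      P ◁ (P ◁ sw P B) ≫ sw P (P ⊗ (P ⊗ B)) := sw_nat P (sw P B)
  rw [reassoc_of% h0, BraidedCategory.braiding_tensor_left_hom,
    BraidedCategory.braiding_tensor_right_hom]
  simp only [sw]
  monoidal

theorem PairQ_two {P T B S : C} (q : P ⊗ P ⟶ T) (f : B ⟶ S) :
    (α_ P P (P ⊗ (P ⊗ B))).inv ≫ (q ⊗ₘ ((α_ P P B).inv ≫ (q ⊗ₘ f))) =
      𝟙 (P ⊗ P ⊗ P ⊗ P ⊗ B) ⊗≫ (q ⊗ₘ q) ▷ B ⊗≫ T ◁ (T ◁ f) := by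
  simp only [MonoidalCategory.tensorHom_def]
  monoidal

/-- exchange of the first two pairs -/
theorem pairs_q {P T B S : C} (q : P ⊗ P ⟶ T) (hT : (β_ T T).hom = 𝟙 _) (f : B ⟶ S) :
    P ◁ sw P (P ⊗ B) ≫ sw P (P ⊗ (P ⊗ B)) ≫ P ◁ (P ◁ sw P B) ≫ P ◁ sw P (P ⊗ B) ≫
      (α_ P P (P ⊗ (P ⊗ B))).inv ≫ (q ⊗ₘ ((α_ P P B).inv ≫ (q ⊗ₘ f))) =
    (α_ P P (P ⊗ (P ⊗ B))).inv ≫ (q ⊗ₘ ((α_ P P B).inv ≫ (q ⊗ₘ f))) := by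
  have h1 := PairQ_four P B
  have h2 := PairQ_two q f
  have h3 : (β_ (P ⊗ P) (P ⊗ P)).hom ≫ (q ⊗ₘ q) = q ⊗ₘ q := by
    rw [← BraidedCategory.braiding_naturality, hT, Category.comp_id]
  have h4 : P ◁ sw P (P ⊗ B) ≫ sw P (P ⊗ (P ⊗ B)) ≫ P ◁ (P ◁ sw P B) ≫ P ◁ sw P (P ⊗ B) ≫
      (α_ P P (P ⊗ (P ⊗ B))).inv ≫ (q ⊗ₘ ((α_ P P B).inv ≫ (q ⊗ₘ f))) =
      (P ◁ sw P (P ⊗ B) ≫ sw P (P ⊗ (P ⊗ B)) ≫ P ◁ (P ◁ sw P B) ≫ P ◁ sw P (P ⊗ B)) ≫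
      (α_ P P (P ⊗ (P ⊗ B))).inv ≫ (q ⊗ₘ ((α_ P P B).inv ≫ (q ⊗ₘ f))) := by
    simp only [Category.assoc]
  rw [h4, h1, h2]
  calc _ = 𝟙 (P ⊗ P ⊗ P ⊗ P ⊗ B) ⊗≫ ((β_ (P ⊗ P) (P ⊗ P)).hom ≫ (q ⊗ₘ q)) ▷ B ⊗≫
      T ◁ (T ◁ f) := by monoidal
    _ = _ := by rw [h3]

end Mon

end Pool.Agent.W868h60
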