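import Pool.Agent.W_868bb7_h60.Defs

set_option autoImplicit false

/-!
# PermE: shifts of bijections

Definitions in `Defs`; `Equiv.ext`, `Fin.cases`, `finSuccEquiv_zero`, `finSuccEquiv_succ`, `shift_zero`, `shift_succ`.
-/

namespace Pool.Agent.W868h60

open CategoryTheory MonoidalCategory Equiv
open Pool.Agent.W_MP_868bb7_ag Pool.Agent.W_868bb7_h64

universe v u w

section Perm

theorem shE_zero {n m : ℕ} (e : Fin n ≃ Fin m) : shE e 0 = 0 := by
  simp [shE]

theorem shE_succ {n m : ℕ} (e : Fin n ≃ Fin m) (i : Fin n) : shE e i.succ = (e i).succ := by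
  simp [shE]

theorem shE_perm {n : ℕ} (e : Equiv.Perm (Fin n)) : shE e = shift e := by
  refine Equiv.ext fun x => ?_
  refine Fin.cases ?_ (fun i => ?_) x
  · rw [shE_zero, shift_zero]
  · rw [shE_succ, shift_succ]

theorem shE_refl (n : ℕ) : shE (Equiv.refl (Fin n)) = Equiv.refl (Fin (n + 1)) := by
  refine Equiv.ext fun x => ?_
  refine Fin.cases ?_ (fun i => ?_) x
  · rw [shE_zero, Equiv.refl_apply]
  · rw [shE_succ, Equiv.refl_apply, Equiv.refl_apply]

theorem shE_trans {n m k : ℕ} (e : Fin n ≃ Fin m) (e' : Fin m ≃ Fin k) :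
    shE (e.trans e') = (shE e).trans (shE e') := by
  refine Equiv.ext fun x => ?_
  refine Fin.cases ?_ (fun i => ?_) x
  · rw [shE_zero, Equiv.trans_apply, shE_zero, shE_zero]
  · rw [shE_succ, Equiv.trans_apply, Equiv.trans_apply, shE_succ, shE_succ]

/-- a bijection fixing `0` is a shift -/
theorem exists_shE {n m : ℕ} (e : Fin (n + 1) ≃ Fin (m + 1)) (h : e 0 = 0) :
    ∃ e' : Fin n ≃ Fin m, e = shE e' := by
  have key : ∀ {n m : ℕ} (e : Fin (n + 1) ≃ Fin (m + 1)), e 0 = 0 → ∀ i : Fin n,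
      ∃ j : Fin m, j.succ = e i.succ := by
    intro n m e h i
    refine Fin.exists_succ_eq_of_ne_zero fun hh => ?_
    rw [← h] at hh
    exact Fin.succ_ne_zero i (e.injective hh)
  have h' : e.symm 0 = 0 := (Equiv.symm_apply_eq _).2 h.symm
  choose f hf using key e h
  choose f' hf' using key e.symm h'
  refine ⟨⟨f, f', fun i => ?_, fun i => ?_⟩, Equiv.ext fun x => ?_⟩
  · apply Fin.succ_injective _
    rw [hf', hf, e.symm_apply_apply]
  · apply Fin.succ_injective _
    rw [hf, hf', e.apply_symm_apply]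
  · refine Fin.cases ?_ (fun i => ?_) x
    · rw [h, shE_zero]
    · rw [shE_succ, ← hf]
      rfl

/-- a bijection fixing `0` and `1` is a double shift -/
theorem exists_shE2 {n m : ℕ} (e : Fin (n + 2) ≃ Fin (m + 2)) (h : e 0 = 0) (h1 : e 1 = 1) :
    ∃ e' : Fin n ≃ Fin m, e = shE (shE e') := by
  obtain ⟨e1, he1⟩ := exists_shE e h
  have h2 : e1 0 = 0 := by
    apply Fin.succ_injective _
    rw [← shE_succ, ← he1]
    exact h1
  obtain ⟨e2, he2⟩ := exists_shE e1 h2
  exact ⟨e2, by rw [he1, he2]⟩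

end Perm

end Pool.Agent.W868h60
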