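import Pool.Agent.W_868bb7_h60.Defs

set_option autoImplicit false

/-!
# SDTz: zigzag for tensor products of self-dual objects

`⊗ : C × C ⥤ C` is a braided monoidal functor, and `SD` data are preserved by such
functors.  Concretely: precompose with the isomorphism `tensorμ S A R B : (S ⊗ A) ⊗ (R ⊗ B) ≅
(S ⊗ R) ⊗ (A ⊗ B)`; `tensorμ_natural` moves `c ⊗ c'`, `tensor_associativity` moves the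
associator, and `tensorμ_natural` moves `q ⊗ q'`; the zigzags of `d` and `d'` give
`((β_ S A).hom ⊗ₘ (β_ R B).hom) ≫ tensorμ A S B R`, which is `tensorμ S A R B ≫ β`
(`SymmetricCategory.tensorμ_braid_swap`).
-/

namespace Pool.Agent.W868h60

open CategoryTheory MonoidalCategory Equiv
open Pool.Agent.W_MP_868bb7_ag Pool.Agent.W_868bb7_h64

universe v u w

section Mon

variable {C : Type u} [Category.{v} C] [MonoidalCategory C] [SymmetricCategory C]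

theorem SDTz_mm (X₁ X₂ Y₁ Y₂ : C) :
    tensorμ X₁ X₂ Y₁ Y₂ ≫ tensorμ X₁ Y₁ X₂ Y₂ = 𝟙 _ := by
  simp [tensorμ, SymmetricCategory.braiding_swap_eq_inv_braiding Y₁ X₂]

theorem SDTz_assoc (X₁ X₂ Y₁ Y₂ Z₁ Z₂ : C) :
    tensorμ (X₁ ⊗ Y₁) Z₁ (X₂ ⊗ Y₂) Z₂ ≫ tensorμ X₁ Y₁ X₂ Y₂ ▷ (Z₁ ⊗ Z₂) ≫
        (α_ (X₁ ⊗ X₂) (Y₁ ⊗ Y₂) (Z₁ ⊗ Z₂)).hom =
      ((α_ X₁ Y₁ Z₁).hom ⊗ₘ (α_ X₂ Y₂ Z₂).hom) ≫ tensorμ X₁ (Y₁ ⊗ Z₁) X₂ (Y₂ ⊗ Z₂) ≫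
        (X₁ ⊗ X₂) ◁ tensorμ Y₁ Z₁ Y₂ Z₂ := by
  have H := tensor_associativity X₁ X₂ Y₁ Y₂ Z₁ Z₂
  have h1 : (X₁ ⊗ X₂) ◁ tensorμ Y₁ Y₂ Z₁ Z₂ ≫ (X₁ ⊗ X₂) ◁ tensorμ Y₁ Z₁ Y₂ Z₂ = 𝟙 _ := by
    rw [← MonoidalCategory.whiskerLeft_comp, SDTz_mm, MonoidalCategory.whiskerLeft_id]
  have h2 : tensorμ X₁ Y₁ X₂ Y₂ ▷ (Z₁ ⊗ Z₂) ≫ tensorμ X₁ X₂ Y₁ Y₂ ▷ (Z₁ ⊗ Z₂) = 𝟙 _ := by
    rw [← MonoidalCategory.comp_whiskerRight, SDTz_mm, MonoidalCategory.id_whiskerRight]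
  calc tensorμ (X₁ ⊗ Y₁) Z₁ (X₂ ⊗ Y₂) Z₂ ≫ tensorμ X₁ Y₁ X₂ Y₂ ▷ (Z₁ ⊗ Z₂) ≫
        (α_ (X₁ ⊗ X₂) (Y₁ ⊗ Y₂) (Z₁ ⊗ Z₂)).hom
      = tensorμ (X₁ ⊗ Y₁) Z₁ (X₂ ⊗ Y₂) Z₂ ≫ tensorμ X₁ Y₁ X₂ Y₂ ▷ (Z₁ ⊗ Z₂) ≫
        ((α_ (X₁ ⊗ X₂) (Y₁ ⊗ Y₂) (Z₁ ⊗ Z₂)).hom ≫ ((X₁ ⊗ X₂) ◁ tensorμ Y₁ Y₂ Z₁ Z₂) ≫
          tensorμ X₁ X₂ (Y₁ ⊗ Z₁) (Y₂ ⊗ Z₂)) ≫ tensorμ X₁ (Y₁ ⊗ Z₁) X₂ (Y₂ ⊗ Z₂) ≫
          (X₁ ⊗ X₂) ◁ tensorμ Y₁ Z₁ Y₂ Z₂ := by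
        simp only [Category.assoc]
        rw [reassoc_of% (SDTz_mm X₁ X₂ (Y₁ ⊗ Z₁) (Y₂ ⊗ Z₂)), h1, Category.comp_id]
    _ = _ := by
        rw [← H]
        simp only [Category.assoc]
        rw [reassoc_of% h2, reassoc_of% (SDTz_mm (X₁ ⊗ Y₁) Z₁ (X₂ ⊗ Y₂) Z₂)]

theorem SDTz_braid (S A R B : C) :
    tensorμ S A R B ≫ (β_ (S ⊗ R) (A ⊗ B)).hom =
      ((β_ S A).hom ⊗ₘ (β_ R B).hom) ≫ tensorμ A S B R := by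
  simp [tensorμ, SymmetricCategory.braiding_swap_eq_inv_braiding R A, MonoidalCategory.tensorHom_def]

theorem SDT_zig {A S B R : C} (d : SD A S) (d' : SD B R) :
    ((d.c ⊗ₘ d'.c) ≫ tensorμ A A B B) ▷ (A ⊗ B) ≫ (α_ (A ⊗ B) (A ⊗ B) (A ⊗ B)).hom ≫
      (A ⊗ B) ◁ (tensorμ A B A B ≫ (d.q ⊗ₘ d'.q)) = (β_ (S ⊗ R) (A ⊗ B)).hom := by
  have h0 : tensorμ S R A B ≫ tensorμ S A R B = 𝟙 _ := SDTz_mm S R A B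
  have h1 : tensorμ S A R B ≫ (d.c ⊗ₘ d'.c) ▷ (A ⊗ B) =
      (d.c ▷ A ⊗ₘ d'.c ▷ B) ≫ tensorμ (A ⊗ A) A (B ⊗ B) B := by
    have h := tensorμ_natural d.c (𝟙 A) d'.c (𝟙 B)
    simp only [tensorHom_id, id_tensorHom, MonoidalCategory.id_whiskerRight] at h
    exact h.symm
  have h2 : tensorμ A (A ⊗ A) B (B ⊗ B) ≫ (A ⊗ B) ◁ (d.q ⊗ₘ d'.q) =
      (A ◁ d.q ⊗ₘ B ◁ d'.q) ≫ tensorμ A S B R := by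
    have h := tensorμ_natural (𝟙 A) d.q (𝟙 B) d'.q
    simp only [tensorHom_id, id_tensorHom, MonoidalCategory.id_whiskerRight] at h
    exact h.symm
  have h3 : (A ⊗ B) ◁ tensorμ A A B B ≫ (A ⊗ B) ◁ tensorμ A B A B = 𝟙 _ := by
    rw [← MonoidalCategory.whiskerLeft_comp, SDTz_mm, MonoidalCategory.whiskerLeft_id]
  have key : tensorμ S A R B ≫ (((d.c ⊗ₘ d'.c) ≫ tensorμ A A B B) ▷ (A ⊗ B) ≫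
      (α_ (A ⊗ B) (A ⊗ B) (A ⊗ B)).hom ≫ (A ⊗ B) ◁ (tensorμ A B A B ≫ (d.q ⊗ₘ d'.q))) =
      tensorμ S A R B ≫ (β_ (S ⊗ R) (A ⊗ B)).hom := by
    rw [SDTz_braid, MonoidalCategory.comp_whiskerRight, MonoidalCategory.whiskerLeft_comp]
    simp only [Category.assoc]
    rw [reassoc_of% h1, reassoc_of% (SDTz_assoc A B A B A B), reassoc_of% h3, h2]
    simp only [← Category.assoc]
    congr 1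
    rw [tensorHom_comp_tensorHom, tensorHom_comp_tensorHom, Category.assoc, Category.assoc, d.zig,
      d'.zig]
  calc _ = tensorμ S R A B ≫ tensorμ S A R B ≫ (((d.c ⊗ₘ d'.c) ≫ tensorμ A A B B) ▷ (A ⊗ B) ≫
      (α_ (A ⊗ B) (A ⊗ B) (A ⊗ B)).hom ≫ (A ⊗ B) ◁ (tensorμ A B A B ≫ (d.q ⊗ₘ d'.q))) := by
        rw [reassoc_of% h0]
    _ = _ := by
        rw [key, reassoc_of% h0]

end Mon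

end Pool.Agent.W868h60
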