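import Pool.Agent.W_868bb7_h60.SDTa
import Pool.Agent.W_868bb7_h60.SDTz

set_option autoImplicit false

/-!
# SDT: tensor products and powers of self-dual objects

`SD.unit`: coherence (`braiding_leftUnitor`, `unitors_equal`, `BraidedCategory` lemmas, `monoidal`).
-/

namespace Pool.Agent.W868h60

open CategoryTheory MonoidalCategory Equiv
open Pool.Agent.W_MP_868bb7_ag Pool.Agent.W_868bb7_h64

universe v u w

section Mon

variable {C : Type u} [Category.{v} C] [MonoidalCategory C] [SymmetricCategory C]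

lemma SDT_unit : (β_ (𝟙_ C) (𝟙_ C)).hom = 𝟙 (𝟙_ C ⊗ 𝟙_ C) := by
  have h : (β_ (𝟙_ C) (𝟙_ C)).hom ≫ (λ_ (𝟙_ C)).hom = (λ_ (𝟙_ C)).hom := by
    rw [braiding_leftUnitor, unitors_equal]
  rw [← cancel_mono (λ_ (𝟙_ C)).hom, Category.id_comp]
  exact h

/-- the unit -/
def SD.unit : SD (𝟙_ C) (𝟙_ C) where
  q := (λ_ (𝟙_ C)).hom
  c := (λ_ (𝟙_ C)).inv
  qs := by
    rw [SDT_unit, Category.id_comp]
  cs := by
    rw [SDT_unit, Category.comp_id]
  zig := by
    rw [SDT_unit]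
    monoidal

/-- tensor product of self-dual objects -/
def SD.tensor {A S B R : C} (d : SD A S) (d' : SD B R) : SD (A ⊗ B) (S ⊗ R) where
  q := tensorμ A B A B ≫ (d.q ⊗ₘ d'.q)
  c := (d.c ⊗ₘ d'.c) ≫ tensorμ A A B B
  qs := SDT_qs d d'
  cs := SDT_cs d d'
  zig := SDT_zig d d'

/-- tensor powers of a self-dual object -/
def SDp {P T : C} (d : SD P T) : (r : ℕ) → SD (pow P r) (pow T r)
  | 0 => SD.unit
  | r + 1 => d.tensor (SDp d r)

end Mon

end Pool.Agent.W868h60
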