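import Pool.Agent.W_868bb7_h60.Defs
import Pool.Agent.W_MP_868bb7_ag.SwShuf

set_option autoImplicit false

/-!
# SDTa: symmetry of tensor products of self-dual objects

`braid_tensorμ`, `tensorδ_eq_tensorμ` (`W_MP_868bb7_ag.SwShuf`),
`SymmetricCategory.tensorμ_braid_swap`, `SD.qs`, `SD.cs`.
-/

namespace Pool.Agent.W868h60

open CategoryTheory MonoidalCategory Equiv
open Pool.Agent.W_MP_868bb7_ag Pool.Agent.W_868bb7_h64

universe v u w

section Mon

variable {C : Type u} [Category.{v} C] [MonoidalCategory C] [SymmetricCategory C]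

theorem SDT_qs {A S B R : C} (d : SD A S) (d' : SD B R) :
    (β_ (A ⊗ B) (A ⊗ B)).hom ≫ tensorμ A B A B ≫ (d.q ⊗ₘ d'.q) =
      tensorμ A B A B ≫ (d.q ⊗ₘ d'.q) := by
  rw [← Category.assoc, braid_tensorμ, Category.assoc, tensorHom_comp_tensorHom, d.qs, d'.qs]

theorem SDT_cs {A S B R : C} (d : SD A S) (d' : SD B R) :
    ((d.c ⊗ₘ d'.c) ≫ tensorμ A A B B) ≫ (β_ (A ⊗ B) (A ⊗ B)).hom =
      (d.c ⊗ₘ d'.c) ≫ tensorμ A A B B := by
  rw [Category.assoc, SymmetricCategory.tensorμ_braid_swap, ← Category.assoc,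
    tensorHom_comp_tensorHom, d.cs, d'.cs]

end Mon

end Pool.Agent.W868h60
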