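import Pool.Agent.W_868bb7_h60.Defs

set_option autoImplicit false

/-!
# SharpA: the morphism belonging to a form

`sharp d F = c ▷ Z ≫ α ≫ X ◁ F ≫ β`.
* `zig2`: from `d.zig`, `d.qs`, `d.cs` by naturality of the braiding.
* `sharp_pre`: interchange.  `sharp_q`: `sharp_pre`, the zigzag `d.zig` and `β_{S,X} ≫ β_{X,S} = 𝟙`.
-/

namespace Pool.Agent.W868h60

open CategoryTheory MonoidalCategory Equiv
open Pool.Agent.W_MP_868bb7_ag Pool.Agent.W_868bb7_h64

universe v u w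

section Mon

variable {C : Type u} [Category.{v} C] [MonoidalCategory C] [SymmetricCategory C]

theorem zig2 {X S : C} (d : SD X S) :
    X ◁ d.c ≫ (α_ X X X).inv ≫ d.q ▷ X = (β_ X S).hom := by
  have h1 : X ◁ d.c = (β_ X S).hom ≫ d.c ▷ X ≫ (β_ (X ⊗ X) X).hom := by
    rw [← BraidedCategory.braiding_naturality_right_assoc, SymmetricCategory.symmetry,
      Category.comp_id]
  have h2 : (β_ X X).hom ▷ X ≫ (β_ (X ⊗ X) X).hom ≫ (α_ X X X).inv =
      (α_ X X X).hom ≫ (β_ X (X ⊗ X)).hom ≫ (β_ X X).hom ▷ X := by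
    rw [BraidedCategory.braiding_tensor_left_hom, BraidedCategory.braiding_tensor_right_hom]
    simp only [Category.assoc, Iso.hom_inv_id, Category.comp_id, Iso.hom_inv_id_assoc]
  have h3 : d.c ▷ X ≫ (β_ (X ⊗ X) X).hom ≫ (α_ X X X).inv ≫ d.q ▷ X = 𝟙 _ := by
    calc d.c ▷ X ≫ (β_ (X ⊗ X) X).hom ≫ (α_ X X X).inv ≫ d.q ▷ X
        = (d.c ≫ (β_ X X).hom) ▷ X ≫ (β_ (X ⊗ X) X).hom ≫ (α_ X X X).inv ≫ d.q ▷ X := by
          rw [d.cs]
      _ = d.c ▷ X ≫ ((β_ X X).hom ▷ X ≫ (β_ (X ⊗ X) X).hom ≫ (α_ X X X).inv) ≫ d.q ▷ X := by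
          simp only [comp_whiskerRight, Category.assoc]
      _ = d.c ▷ X ≫ (α_ X X X).hom ≫ (β_ X (X ⊗ X)).hom ≫ ((β_ X X).hom ≫ d.q) ▷ X := by
          rw [h2]
          simp only [comp_whiskerRight, Category.assoc]
      _ = d.c ▷ X ≫ (α_ X X X).hom ≫ X ◁ d.q ≫ (β_ X S).hom := by
          rw [d.qs, BraidedCategory.braiding_naturality_right]
      _ = (β_ S X).hom ≫ (β_ X S).hom := by
          rw [← d.zig]
          simp only [Category.assoc]
      _ = 𝟙 _ := SymmetricCategory.symmetry _ _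
  rw [h1]
  simp only [Category.assoc]
  rw [h3, Category.comp_id]

theorem sharp_pre {X S : C} (d : SD X S) {Z Z' : C} (a : Z' ⟶ Z) (F : X ⊗ Z ⟶ S) :
    sharp d (X ◁ a ≫ F) = S ◁ a ≫ sharp d F := by
  unfold sharp
  rw [whisker_exchange_assoc, associator_naturality_right_assoc, MonoidalCategory.whiskerLeft_comp,
    Category.assoc]

theorem sharp_q {X S : C} (d : SD X S) {Z : C} (a : Z ⟶ X) :
    sharp d (X ◁ a ≫ d.q) = S ◁ a := by
  have h : sharp d d.q = 𝟙 (S ⊗ X) := by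
    have h0 : sharp d d.q = (d.c ▷ X ≫ (α_ X X X).hom ≫ X ◁ d.q) ≫ (β_ X S).hom := by
      unfold sharp
      simp only [Category.assoc]
    rw [h0, d.zig]
    exact SymmetricCategory.symmetry _ _
  rw [sharp_pre, h, Category.comp_id]

end Mon

end Pool.Agent.W868h60
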