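import Pool.Agent.W_868bb7_h60.Sp
import Pool.Agent.W_868bb7_h60.ConS
import Pool.Agent.W_868bb7_h60.Form
import Pool.Agent.W_868bb7_h60.Inv

set_option autoImplicit false

/-!
# SpC: contraction of decorated matchings

See the docstring.
-/

namespace Pool.Agent.W868h60

open CategoryTheory MonoidalCategory Equiv
open Pool.Agent.W_MP_868bb7_ag Pool.Agent.W_868bb7_h64

universe v u w

section Mon

variable {C : Type u} [Category.{v} C] [MonoidalCategory C]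

theorem SpC_move {P T Z : C} (c : T ⟶ P ⊗ P) (a b : P ⟶ P) (D : Z ⟶ Z) :
    (c ▷ Z ≫ (α_ P P Z).hom) ≫ (a ⊗ₘ (b ⊗ₘ D)) =
      T ◁ D ≫ (c ≫ (a ⊗ₘ b)) ▷ Z ≫ (α_ P P Z).hom := by
  have h1 : (T ◁ D) ≫ (c ≫ (a ⊗ₘ b)) ▷ Z = c ▷ Z ≫ ((a ⊗ₘ b) ⊗ₘ D) := by
    rw [← id_tensorHom, ← tensorHom_id, ← tensorHom_id, tensorHom_comp_tensorHom,
      tensorHom_comp_tensorHom, Category.id_comp, Category.id_comp, Category.comp_id]
  rw [← Category.assoc (T ◁ D), h1, Category.assoc, Category.assoc, associator_naturality]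

theorem SpC_chord {P T Z S : C} (c : T ⟶ P ⊗ P) (a b : P ⟶ P) (D : Z ⟶ Z) (q : P ⊗ P ⟶ T)
    (F : Z ⟶ S) :
    (c ▷ Z ≫ (α_ P P Z).hom) ≫ (a ⊗ₘ (b ⊗ₘ D)) ≫ (α_ P P Z).inv ≫ (q ⊗ₘ F) =
      (c ≫ (a ⊗ₘ b) ≫ q) ⊗ₘ (D ≫ F) := by
  have h0 : (a ⊗ₘ (b ⊗ₘ D)) ≫ (α_ P P Z).inv = (α_ P P Z).inv ≫ ((a ⊗ₘ b) ⊗ₘ D) :=
    associator_inv_naturality a b D
  rw [← Category.assoc (a ⊗ₘ (b ⊗ₘ D)), h0]
  simp only [Category.assoc, Iso.hom_inv_id_assoc]
  rw [← tensorHom_id, tensorHom_comp_tensorHom, tensorHom_comp_tensorHom, Category.id_comp]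

omit [MonoidalCategory C] in
theorem SpC_single {P : C} {G : Type} [Group G] (ρ : G →* End P) {n : ℕ} (x : Fin n) (h : G) :
    (Pi.mulSingle x (ρ h) : Fin n → End P) =
      fun i => ρ ((Pi.mulSingle x h : Fin n → G) i) := by
  funext i
  by_cases hi : i = x
  · subst hi
    rw [Pi.mulSingle_eq_same, Pi.mulSingle_eq_same]
  · rw [Pi.mulSingle_eq_of_ne hi, Pi.mulSingle_eq_of_ne hi, map_one]

end Mon

section Lin

variable (K : Type w) [Field K] {C : Type u} [Category.{v} C] [MonoidalCategory C]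
  [Preadditive C] [Linear K C] [MonoidalPreadditive C] [MonoidalLinear K C]
  [SymmetricCategory C]

theorem SpC_one [UnitK K C] {P T T' : C} (e₀ : T ⊗ T' ≅ 𝟙_ C) (hT : (β_ T T).hom = 𝟙 _)
    (d : SD P T) {G : Type} [Group G] [StarMul G] (ρ : G →* End P) (hρ : AdjG d.q ρ)
    (n r : ℕ) (e : Fin (n + 2) ≃ Fin (2 * (r + 1))) (g : Fin (n + 2) → G) :
    ∃ F' ∈ LS K d.q ρ n r, (cupF d.c (pow P n) ≫ dm d.q ρ (n + 2) (r + 1) e g :
      T ⊗ pow P n ⟶ T ⊗ pow T r) = T ◁ F' := by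
  set D : pow P n ⟶ pow P n := pmv P n (fun i => ρ (g i.succ.succ)) with hD
  have h0 : (dm d.q ρ (n + 2) (r + 1) e g : P ⊗ (P ⊗ pow P n) ⟶ T ⊗ pow T r) =
      ((show P ⟶ P from ρ (g 0)) ⊗ₘ ((show P ⟶ P from ρ (g 1)) ⊗ₘ D)) ≫
        (actE P e ≫ qa d.q (r + 1) : pow P (n + 2) ⟶ T ⊗ pow T r) := rfl
  by_cases h : e 1 = adj (r + 1) (e 0)
  · obtain ⟨e', he'⟩ := exists_form' d.q d.qs hT n r e h
    obtain ⟨s, hs⟩ := end_scalar K e₀
      (d.c ≫ ((show P ⟶ P from ρ (g 0)) ⊗ₘ (show P ⟶ P from ρ (g 1))) ≫ d.q)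
    refine ⟨s • dm d.q ρ n r e' (fun i => g i.succ.succ),
      Submodule.smul_mem _ _ (Submodule.subset_span ⟨e', _, rfl⟩), ?_⟩
    rw [h0, he']
    unfold cupF
    rw [SpC_chord, hs, MonoidalLinear.whiskerLeft_smul]
    have h2 : (s • 𝟙 T) ⊗ₘ (D ≫ actE P e' ≫ qa d.q r) =
        s • (T ◁ (D ≫ actE P e' ≫ qa d.q r)) := by
      rw [tensorHom_def', MonoidalLinear.smul_whiskerRight, id_whiskerRight,
        Linear.comp_smul, Category.comp_id]
    exact h2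
  · obtain ⟨x, e', hx, he'⟩ := exists_form d.q d.qs hT n r e h
    refine ⟨dm d.q ρ n r e' (Pi.mulSingle x (g 0 * star (g 1)) * (fun i => g i.succ.succ)),
      Submodule.subset_span ⟨e', _, rfl⟩, ?_⟩
    rw [h0, he']
    unfold cupF
    rw [← Category.assoc, SpC_move]
    have h1 := con_swap' d n (show P ⟶ P from ρ (g 0)) (show P ⟶ P from ρ (g 1))
      (show P ⟶ P from ρ (star (g 1))) (hρ (g 1)) (actE P e' ≫ qa d.q r) x
    simp only [Category.assoc] at h1 ⊢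
    refine (congrArg (fun z => T ◁ D ≫ z) h1).trans ?_
    rw [← whiskerLeft_comp]
    apply congrArg (fun z => T ◁ z)
    have h2 := pmv_dm d.q ρ n r e' (Pi.mulSingle x (g 0 * star (g 1)))
      (fun i => g i.succ.succ)
    rw [← h2]
    have h3 : (ρ (g 0) * ρ (star (g 1)) : End P) = ρ (g 0 * star (g 1)) := (map_mul ρ _ _).symm
    have h4 : (show pow P n ⟶ pow P n from st (show End P from
        ((show P ⟶ P from ρ (star (g 1))) ≫ (show P ⟶ P from ρ (g 0)))) x) =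
        pmv P n (fun i => ρ ((Pi.mulSingle x (g 0 * star (g 1)) : Fin n → G) i)) := by
      change pmv P n (Pi.mulSingle x (ρ (g 0) * ρ (star (g 1)) : End P)) = _
      rw [h3, SpC_single]
    change D ≫ (show pow P n ⟶ pow P n from st (show End P from
        ((show P ⟶ P from ρ (star (g 1))) ≫ (show P ⟶ P from ρ (g 0)))) x) ≫
        actE P e' ≫ qa d.q r = _
    rw [h4]
    rfl

theorem contr_LS [UnitK K C] {P T T' : C} (e₀ : T ⊗ T' ≅ 𝟙_ C) (hT : (β_ T T).hom = 𝟙 _)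
    (d : SD P T) {G : Type} [Group G] [StarMul G] (ρ : G →* End P) (hρ : AdjG d.q ρ)
    (n r : ℕ) (F : pow P (n + 2) ⟶ pow T (r + 1)) (hF : F ∈ LS K d.q ρ (n + 2) (r + 1)) :
    ∃ F' ∈ LS K d.q ρ n r, (cupF d.c (pow P n) ≫ F : T ⊗ pow P n ⟶ T ⊗ pow T r) = T ◁ F' := by
  induction hF using Submodule.span_induction with
  | mem F hF =>
    obtain ⟨e, g, rfl⟩ := hF
    exact SpC_one K e₀ hT d ρ hρ n r e g
  | zero =>
    exact ⟨0, Submodule.zero_mem _, by rw [MonoidalPreadditive.whiskerLeft_zero]; exact Limits.comp_zero⟩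
  | add F1 F2 _ _ h1 h2 =>
    obtain ⟨F1', hF1, e1⟩ := h1
    obtain ⟨F2', hF2, e2⟩ := h2
    refine ⟨F1' + F2', Submodule.add_mem _ hF1 hF2, ?_⟩
    rw [MonoidalPreadditive.whiskerLeft_add, ← e1, ← e2]
    exact Preadditive.comp_add _ _ _ _ _ _
  | smul a F _ h1 =>
    obtain ⟨F', hF', e1⟩ := h1
    refine ⟨a • F', Submodule.smul_mem _ _ hF', ?_⟩
    rw [MonoidalLinear.whiskerLeft_smul, ← e1]
    exact Linear.comp_smul _ _ _ _ _ _

end Lin

end Pool.Agent.W868h60
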