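import Pool.Agent.W_868bb7_h60.MJ
import Pool.Agent.W_868bb7_h60.Sp

set_option autoImplicit false

/-!
# Star0: the decorated matchings of two blocks

`fst γ = dact ρ γ ≫ qb` for `γ` in the wreath product `WG G (r + r)`, `io τ` = `τ` on the second block.
-/

namespace Pool.Agent.W868h60

open CategoryTheory MonoidalCategory Equiv
open Pool.Agent.W_MP_868bb7_ag Pool.Agent.W_868bb7_h64

universe v u w

section Io

/-- `WG G r` acting on the second block -/
def io (G : Type) [Group G] (r : ℕ) : WG G r →* WG G (r + r) where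
  toFun τ := ⟨fun x => Sum.elim (fun _ => 1) τ.left ((sumE r r).symm x), jn r r (1, τ.right)⟩
  map_one' := by
    apply SemidirectProduct.ext
    · funext x
      change Sum.elim (fun _ => 1) (fun _ => 1) ((sumE r r).symm x) = (1 : G)
      rcases (sumE r r).symm x with y | y
      · rfl
      · rfl
    · exact map_one (jn r r)
  map_mul' σ τ := by
    apply SemidirectProduct.ext
    · funext x
      change Sum.elim (fun _ => 1) (fun i => σ.left i * τ.left (σ.right⁻¹ i))
        ((sumE r r).symm x) = Sum.elim (fun _ => 1) σ.left ((sumE r r).symm x) *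
        Sum.elim (fun _ => 1) τ.left ((sumE r r).symm ((jn r r (1, σ.right))⁻¹ x))
      have h : (sumE r r).symm ((jn r r (1, σ.right))⁻¹ x) =
          Equiv.Perm.sumCongr 1 σ.right⁻¹ ((sumE r r).symm x) := by
        rw [← map_inv]
        change (sumE r r).symm (sumE r r (Equiv.Perm.sumCongr _ _ ((sumE r r).symm x))) = _
        rw [Equiv.symm_apply_apply]
        rfl
      rw [h]
      rcases (sumE r r).symm x with y | y
      · exact (one_mul _).symm
      · rfl
    · change jn r r (1, σ.right * τ.right) = jn r r (1, σ.right) * jn r r (1, τ.right)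
      rw [← map_mul]
      rfl

end Io

section Mon

variable {C : Type u} [Category.{v} C] [MonoidalCategory C] [SymmetricCategory C]

/-- the decorated matchings of `r + r` legs -/
def fst {P T : C} (q : P ⊗ P ⟶ T) {G : Type} [Group G] (ρ : G →* End P) (r : ℕ)
    (γ : WG G (r + r)) : pow P (r + r) ⟶ pow T r :=
  (show pow P (r + r) ⟶ pow P (r + r) from dact ρ (r + r) γ) ≫ qb q r

/-- `dact` is multiplicative, `f * g = g ≫ f` in `End` -/
theorem fst_mul {P T : C} (q : P ⊗ P ⟶ T) {G : Type} [Group G] (ρ : G →* End P) (r : ℕ)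
    (γ τ : WG G (r + r)) : fst q ρ r (γ * τ) =
      (show pow P (r + r) ⟶ pow P (r + r) from dact ρ (r + r) τ) ≫ fst q ρ r γ := by
  unfold fst
  rw [map_mul]
  exact Category.assoc (show pow P (r + r) ⟶ pow P (r + r) from dact ρ (r + r) τ)
    (show pow P (r + r) ⟶ pow P (r + r) from dact ρ (r + r) γ) (qb q r)

/-- `act_J`, `pmv_J` -/
theorem J_io {P : C} {G : Type} [Group G] (ρ : G →* End P) (r : ℕ) (τ : WG G r) :
    (J P r r).hom ≫ (show pow P (r + r) ⟶ pow P (r + r) from dact ρ (r + r) (io G r τ)) =
      (pow P r ◁ (show pow P r ⟶ pow P r from dact ρ r τ)) ≫ (J P r r).hom := by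
  have h1 : (show pow P (r + r) ⟶ pow P (r + r) from dact ρ (r + r) (io G r τ)) =
      act P (r + r) (jn r r (1, τ.right)) ≫ pmv P (r + r)
        (fun x => Sum.elim (1 : Fin r → End P) (fun i => ρ (τ.left i)) ((sumE r r).symm x)) := by
    have h2 : (fun x => Sum.elim (1 : Fin r → End P) (fun i => ρ (τ.left i))
        ((sumE r r).symm x)) = fun x => ρ ((io G r τ).left x) := by
      funext x
      change _ = ρ (Sum.elim (fun _ => 1) τ.left ((sumE r r).symm x))
      rcases (sumE r r).symm x with y | y
      · exact (map_one ρ).symm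
      · rfl
    rw [h2]
    rfl
  have h3 : (show pow P r ⟶ pow P r from dact ρ r τ) =
      act P r τ.right ≫ pmv P r (fun i => ρ (τ.left i)) := rfl
  rw [h1, h3, ← Category.assoc, ← act_J, Category.assoc, ← pmv_J, act_one, pmv_one,
    id_tensorHom, id_tensorHom, MonoidalCategory.whiskerLeft_comp, Category.assoc]

theorem fst_io {P T : C} (d : SD P T) {G : Type} [Group G] (ρ : G →* End P) (r : ℕ)
    (τ : WG G r) : (J P r r).hom ≫ fst d.q ρ r (io G r τ) =
      (pow P r ◁ (show pow P r ⟶ pow P r from dact ρ r τ)) ≫ (SDp d r).q := by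
  unfold fst
  rw [← Category.assoc, J_io, Category.assoc, qb_J]

end Mon

end Pool.Agent.W868h60
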