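import Pool.Agent.W_868bb7_h60.Final

set_option autoImplicit false

/-!
# TaA: tautological forms, definitions

`M` has a symmetric perfect pairing `q : M ⊗ M ⟶ T`, `G` acts on `M` through `ρ`, and `l k : M ⟶ L k` are
linear forms.  `Taut n Y F`: `F : M^{⊗ n} ⟶ Y` is a linear combination of products of pairings
(decorated by elements of `G`) and linear forms `l k` (`Y` is any object isomorphic to the product of
the targets).
-/

namespace Pool.Agent.W868h60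

open CategoryTheory MonoidalCategory Equiv
open Pool.Agent.W_MP_868bb7_ag Pool.Agent.W_868bb7_h64

universe v u w

section Def

variable (K : Type w) [Field K] {C : Type u} [Category.{v} C] [MonoidalCategory C]
  [Preadditive C] [Linear K C] [SymmetricCategory C]

/-- The tautological forms: the smallest family of subspaces of the `Hom(M^{⊗ n}, Y)`
(`n ≥ 0`, `Y` any object) which contains the isomorphisms `𝟙 ≅ Y`, is stable under the permutations of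
the `n` factors and under the group `G` acting on each factor, and contains with `F` also
`θ ∘ (l k ⊗ F)` and `θ ∘ (q ⊗ F)` for all isomorphisms `θ`. -/
inductive Taut {M T : C} (q : M ⊗ M ⟶ T) {G : Type} [Group G] (ρ : G →* End M) {ι : Type}
    {L : ι → C} (l : ∀ k, M ⟶ L k) : (n : ℕ) → (Y : C) → (pow M n ⟶ Y) → Prop
  | one {Y : C} (θ : 𝟙_ C ≅ Y) : Taut q ρ l 0 Y θ.hom
  | cls {n : ℕ} {Y Y' : C} (k : ι) (F : pow M n ⟶ Y) (θ : L k ⊗ Y ≅ Y') :
      Taut q ρ l n Y F → Taut q ρ l (n + 1) Y' ((l k ⊗ₘ F) ≫ θ.hom)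
  | pair {n : ℕ} {Y Y' : C} (F : pow M n ⟶ Y) (θ : T ⊗ Y ≅ Y') :
      Taut q ρ l n Y F →
        Taut q ρ l (n + 2) Y' ((α_ M M (pow M n)).inv ≫ (q ⊗ₘ F) ≫ θ.hom)
  | perm {n : ℕ} {Y : C} (σ : Equiv.Perm (Fin n)) (F : pow M n ⟶ Y) :
      Taut q ρ l n Y F → Taut q ρ l n Y (act M n σ ≫ F)
  | grp {n : ℕ} {Y : C} (g : Fin n → G) (F : pow M n ⟶ Y) :
      Taut q ρ l n Y F → Taut q ρ l n Y (pmv M n (fun i => ρ (g i)) ≫ F)
  | zero (n : ℕ) (Y : C) : Taut q ρ l n Y 0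
  | add {n : ℕ} {Y : C} (F F' : pow M n ⟶ Y) :
      Taut q ρ l n Y F → Taut q ρ l n Y F' → Taut q ρ l n Y (F + F')
  | smul {n : ℕ} {Y : C} (a : K) (F : pow M n ⟶ Y) :
      Taut q ρ l n Y F → Taut q ρ l n Y (a • F)

/-- the conditions on the linear forms `l k` and the classes `w k : L k ⟶ M` -/
structure TD {M T : C} (q : M ⊗ M ⟶ T) {G : Type} [Group G] (ρ : G →* End M) {ι : Type}
    [Fintype ι] {L : ι → C} (l : ∀ k, M ⟶ L k) (w : ∀ k, L k ⟶ M) : Prop where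
  h1 : ∀ k, w k ≫ l k = 𝟙 (L k)
  h2 : ∀ j k, j ≠ k → w j ≫ l k = 0
  hself : (∑ k, l k ≫ w k) ▷ M ≫ q = M ◁ (∑ k, l k ≫ w k) ≫ q
  hcomm : ∀ g, (show M ⟶ M from ρ g) ≫ (∑ k, l k ≫ w k) =
    (∑ k, l k ≫ w k) ≫ (show M ⟶ M from ρ g)
  hL : ∀ j k (f : L j ⟶ L k), f = 0 ∨ IsIso f
  hLT : ∀ j k (f : L j ⊗ L k ⟶ T), f = 0 ∨ IsIso f

end Def

section Lem

variable (K : Type w) [Field K] {C : Type u} [Category.{v} C] [MonoidalCategory C]
  [Preadditive C] [Linear K C] [SymmetricCategory C]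

/-- composition with an isomorphism: induction on `Taut` -/
theorem taut_iso {M T : C} (q : M ⊗ M ⟶ T) {G : Type} [Group G] (ρ : G →* End M) {ι : Type}
    {L : ι → C} (l : ∀ k, M ⟶ L k) {n : ℕ} {Y Y' : C} {F : pow M n ⟶ Y}
    (h : Taut K q ρ l n Y F) (θ : Y ≅ Y') : Taut K q ρ l n Y' (F ≫ θ.hom) := by
  induction h generalizing Y' with
  | one θ' => exact Taut.one (θ'.trans θ)
  | cls k F θ' hF _ =>
    have h1 := Taut.cls (K := K) (q := q) (ρ := ρ) (l := l) k F (θ'.trans θ) hF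
    have h2 : (l k ⊗ₘ F) ≫ (θ'.trans θ).hom = ((l k ⊗ₘ F) ≫ θ'.hom) ≫ θ.hom := by
      simp only [Iso.trans_hom, Category.assoc]
    exact (congrArg (Taut K q ρ l _ Y') h2).mp h1
  | pair F θ' hF _ =>
    have h1 := Taut.pair (K := K) (q := q) (ρ := ρ) (l := l) F (θ'.trans θ) hF
    have h2 : (α_ M M (pow M _)).inv ≫ (q ⊗ₘ F) ≫ (θ'.trans θ).hom =
        ((α_ M M (pow M _)).inv ≫ (q ⊗ₘ F) ≫ θ'.hom) ≫ θ.hom := by
      simp only [Iso.trans_hom, Category.assoc]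
    exact (congrArg (Taut K q ρ l _ Y') h2).mp h1
  | perm σ F _ ih =>
    rw [Category.assoc]
    exact Taut.perm σ _ (ih θ)
  | grp g F _ ih =>
    rw [Category.assoc]
    exact Taut.grp g _ (ih θ)
  | zero n Y =>
    rw [Limits.zero_comp]
    exact Taut.zero n Y'
  | add F F' _ _ ih ih' =>
    rw [Preadditive.add_comp]
    exact Taut.add _ _ (ih θ) (ih' θ)
  | smul a F _ ih =>
    rw [Linear.smul_comp]
    exact Taut.smul a _ (ih θ)

end Lem

section Full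

variable {C : Type u} [Category.{v} C] [MonoidalCategory C] [Preadditive C]
  [MonoidalPreadditive C]

/-- tensoring with an invertible object is full: `f : A ⟶ B` is
`λ⁻¹ ≫ e⁻¹ ▷ A ≫ α ≫ L' ◁ g ≫ α⁻¹ ≫ e ▷ B ≫ λ`; by naturality `L' ◁ (L ◁ f) = L' ◁ g`, and `L'` is faithful
(`faith_of_inv`). -/
theorem full_of_inv {L L' : C} (e : L' ⊗ L ≅ 𝟙_ C) (e' : L ⊗ L' ≅ 𝟙_ C) {A B : C}
    (g : L ⊗ A ⟶ L ⊗ B) : ∃ f : A ⟶ B, L ◁ f = g := by
  let f : A ⟶ B := (λ_ A).inv ≫ e.inv ▷ A ≫ (α_ L' L A).hom ≫ L' ◁ g ≫ (α_ L' L B).inv ≫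
    e.hom ▷ B ≫ (λ_ B).hom
  have h1 : (𝟙_ C) ◁ f = e.inv ▷ A ≫ (α_ L' L A).hom ≫ L' ◁ g ≫ (α_ L' L B).inv ≫
      e.hom ▷ B := by
    rw [← cancel_mono (λ_ B).hom, leftUnitor_naturality]
    simp [f]
  have h2 : (L' ⊗ L) ◁ f = (α_ L' L A).hom ≫ L' ◁ g ≫ (α_ L' L B).inv := by
    rw [← cancel_mono (e.hom ▷ B), whisker_exchange, h1]
    simp only [← Category.assoc]
    rw [← comp_whiskerRight, Iso.hom_inv_id, id_whiskerRight, Category.id_comp]
  have h3 : L' ◁ (L ◁ f) = L' ◁ g := by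
    rw [tensor_whiskerLeft] at h2
    have h4 := congrArg (fun x => (α_ L' L A).inv ≫ x ≫ (α_ L' L B).hom) h2
    simpa using h4
  refine ⟨f, ?_⟩
  have h5 : L' ◁ (L ◁ f - g) = 0 := by
    have h6 : L' ◁ (L ◁ f - g) + L' ◁ g = L' ◁ (L ◁ f) := by
      rw [← MonoidalPreadditive.whiskerLeft_add, sub_add_cancel]
    rw [h3] at h6
    exact add_eq_right.1 h6
  exact sub_eq_zero.1 (faith_of_inv e' _ h5)

theorem full_iso {L L' : C} (e : L' ⊗ L ≅ 𝟙_ C) (e' : L ⊗ L' ≅ 𝟙_ C) {A B : C}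
    (g : L ⊗ A ≅ L ⊗ B) : ∃ f : A ≅ B, L ◁ f.hom = g.hom := by
  obtain ⟨f, hf⟩ := full_of_inv e e' g.hom
  obtain ⟨f', hf'⟩ := full_of_inv e e' g.inv
  have hF : Faith L := faith_of_inv e
  have h0 : ∀ {X Y : C} (a b : X ⟶ Y), L ◁ a = L ◁ b → a = b := by
    intro X Y a b hab
    refine sub_eq_zero.1 (hF _ ?_)
    have h6 : L ◁ (a - b) + L ◁ b = L ◁ a := by
      rw [← MonoidalPreadditive.whiskerLeft_add, sub_add_cancel]
    rw [hab] at h6
    exact add_eq_right.1 h6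
  refine ⟨⟨f, f', ?_, ?_⟩, hf⟩
  · apply h0
    rw [MonoidalCategory.whiskerLeft_comp, hf, hf', Iso.hom_inv_id,
      MonoidalCategory.whiskerLeft_id]
  · apply h0
    rw [MonoidalCategory.whiskerLeft_comp, hf, hf', Iso.inv_hom_id,
      MonoidalCategory.whiskerLeft_id]

end Full

end Pool.Agent.W868h60
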