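import Pool.Agent.W_868bb7_h60.TaA

set_option autoImplicit false

/-!
# TaC: contraction with a class, the predicate

`Con k n Y Φ`: `Φ : L k ⊗ M^{⊗ n} ⟶ Y` is `L k ⊗ Ψ` for a tautological `Ψ`.
-/

namespace Pool.Agent.W868h60

open CategoryTheory MonoidalCategory Equiv
open Pool.Agent.W_MP_868bb7_ag Pool.Agent.W_868bb7_h64

universe v u w

variable (K : Type w) [Field K] {C : Type u} [Category.{v} C] [MonoidalCategory C]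
  [Preadditive C] [Linear K C] [MonoidalPreadditive C] [MonoidalLinear K C]
  [SymmetricCategory C]

/-- the canonical isomorphism `N ⊗ (N' ⊗ Y) ≅ Y` -/
def cun {N N' : C} (e : N ⊗ N' ≅ 𝟙_ C) (Y : C) : N ⊗ (N' ⊗ Y) ≅ Y :=
  (α_ N N' Y).symm ≪≫ whiskerRightIso e Y ≪≫ λ_ Y

/-- `Φ` is the product of `N` and a tautological form -/
def Con {M T : C} (q : M ⊗ M ⟶ T) {G : Type} [Group G] (ρ : G →* End M) {ι : Type}
    {L : ι → C} (l : ∀ k, M ⟶ L k) {N N' : C} (e : N ⊗ N' ≅ 𝟙_ C) (n : ℕ) (Y : C)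
    (Φ : N ⊗ pow M n ⟶ Y) : Prop :=
  ∃ Ψ : pow M n ⟶ N' ⊗ Y, Taut K q ρ l n (N' ⊗ Y) Ψ ∧ Φ = N ◁ Ψ ≫ (cun e Y).hom

/-- `full_iso`, `taut_iso` -/
theorem con_mk {M T : C} (q : M ⊗ M ⟶ T) {G : Type} [Group G] (ρ : G →* End M) {ι : Type}
    {L : ι → C} (l : ∀ k, M ⟶ L k) {N N' : C} (e : N ⊗ N' ≅ 𝟙_ C) {n : ℕ} {Y Y' : C}
    (F : pow M n ⟶ Y') (hF : Taut K q ρ l n Y' F) (θ : N ⊗ Y' ≅ Y) :
    Con K q ρ l e n Y (N ◁ F ≫ θ.hom) := by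
  obtain ⟨ψ, hψ⟩ := full_iso ((β_ N' N) ≪≫ e) e (θ.trans (cun e Y).symm)
  refine ⟨F ≫ ψ.hom, taut_iso K q ρ l hF ψ, ?_⟩
  rw [MonoidalCategory.whiskerLeft_comp, hψ]
  simp

theorem con_zero {M T : C} (q : M ⊗ M ⟶ T) {G : Type} [Group G] (ρ : G →* End M) {ι : Type}
    {L : ι → C} (l : ∀ k, M ⟶ L k) {N N' : C} (e : N ⊗ N' ≅ 𝟙_ C) (n : ℕ) (Y : C) :
    Con K q ρ l e n Y 0 := by
  refine ⟨0, Taut.zero n _, ?_⟩
  rw [MonoidalPreadditive.whiskerLeft_zero, Limits.zero_comp]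

theorem con_add {M T : C} (q : M ⊗ M ⟶ T) {G : Type} [Group G] (ρ : G →* End M) {ι : Type}
    {L : ι → C} (l : ∀ k, M ⟶ L k) {N N' : C} (e : N ⊗ N' ≅ 𝟙_ C) {n : ℕ} {Y : C}
    (Φ Φ' : N ⊗ pow M n ⟶ Y) (h : Con K q ρ l e n Y Φ) (h' : Con K q ρ l e n Y Φ') :
    Con K q ρ l e n Y (Φ + Φ') := by
  obtain ⟨Ψ, h1, rfl⟩ := h
  obtain ⟨Ψ', h1', rfl⟩ := h'
  refine ⟨Ψ + Ψ', Taut.add _ _ h1 h1', ?_⟩
  rw [MonoidalPreadditive.whiskerLeft_add, Preadditive.add_comp]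

theorem con_sum {M T : C} (q : M ⊗ M ⟶ T) {G : Type} [Group G] (ρ : G →* End M) {ι : Type}
    {L : ι → C} (l : ∀ k, M ⟶ L k) {N N' : C} (e : N ⊗ N' ≅ 𝟙_ C) {n : ℕ} {Y : C}
    {κ : Type*} (s : Finset κ) (Φ : κ → (N ⊗ pow M n ⟶ Y))
    (h : ∀ i ∈ s, Con K q ρ l e n Y (Φ i)) : Con K q ρ l e n Y (∑ i ∈ s, Φ i) := by
  classical
  induction s using Finset.induction_on with
  | empty =>
    rw [Finset.sum_empty]
    exact con_zero K q ρ l e n Y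
  | insert a s ha ih =>
    rw [Finset.sum_insert ha]
    exact con_add K q ρ l e _ _ (h a (Finset.mem_insert_self a s))
      (ih fun i hi => h i (Finset.mem_insert_of_mem hi))

theorem con_smul {M T : C} (q : M ⊗ M ⟶ T) {G : Type} [Group G] (ρ : G →* End M) {ι : Type}
    {L : ι → C} (l : ∀ k, M ⟶ L k) {N N' : C} (e : N ⊗ N' ≅ 𝟙_ C) {n : ℕ} {Y : C} (a : K)
    (Φ : N ⊗ pow M n ⟶ Y) (h : Con K q ρ l e n Y Φ) : Con K q ρ l e n Y (a • Φ) := by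
  obtain ⟨Ψ, h1, rfl⟩ := h
  refine ⟨a • Ψ, Taut.smul a _ h1, ?_⟩
  rw [MonoidalLinear.whiskerLeft_smul, Linear.smul_comp]

theorem con_perm {M T : C} (q : M ⊗ M ⟶ T) {G : Type} [Group G] (ρ : G →* End M) {ι : Type}
    {L : ι → C} (l : ∀ k, M ⟶ L k) {N N' : C} (e : N ⊗ N' ≅ 𝟙_ C) {n : ℕ} {Y : C}
    (σ : Equiv.Perm (Fin n)) (Φ : N ⊗ pow M n ⟶ Y) (h : Con K q ρ l e n Y Φ) :
    Con K q ρ l e n Y (N ◁ act M n σ ≫ Φ) := by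
  obtain ⟨Ψ, h1, rfl⟩ := h
  refine ⟨act M n σ ≫ Ψ, Taut.perm σ _ h1, ?_⟩
  rw [MonoidalCategory.whiskerLeft_comp, Category.assoc]

theorem con_grp {M T : C} (q : M ⊗ M ⟶ T) {G : Type} [Group G] (ρ : G →* End M) {ι : Type}
    {L : ι → C} (l : ∀ k, M ⟶ L k) {N N' : C} (e : N ⊗ N' ≅ 𝟙_ C) {n : ℕ} {Y : C}
    (g : Fin n → G) (Φ : N ⊗ pow M n ⟶ Y) (h : Con K q ρ l e n Y Φ) :
    Con K q ρ l e n Y (N ◁ pmv M n (fun i => ρ (g i)) ≫ Φ) := by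
  obtain ⟨Ψ, h1, rfl⟩ := h
  refine ⟨pmv M n (fun i => ρ (g i)) ≫ Ψ, Taut.grp g _ h1, ?_⟩
  rw [MonoidalCategory.whiskerLeft_comp, Category.assoc]

/-- change of the invertible object: for `s` an isomorphism use `con_mk` with the isomorphism
`(s ▷ _) ≫ cun e Y` -/
theorem con_change {M T : C} (q : M ⊗ M ⟶ T) {G : Type} [Group G] (ρ : G →* End M) {ι : Type}
    {L : ι → C} (l : ∀ k, M ⟶ L k) {N N' : C} (e : N ⊗ N' ≅ 𝟙_ C) {N₁ N₁' : C}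
    (e₁ : N₁ ⊗ N₁' ≅ 𝟙_ C) {n : ℕ} {Y : C} (s : N₁ ⟶ N) (hs : s = 0 ∨ IsIso s)
    (Φ : N ⊗ pow M n ⟶ Y) (h : Con K q ρ l e n Y Φ) :
    Con K q ρ l e₁ n Y (s ▷ pow M n ≫ Φ) := by
  obtain ⟨Ψ, h1, rfl⟩ := h
  rcases hs with rfl | hs
  · rw [MonoidalPreadditive.zero_whiskerRight, Limits.zero_comp]
    exact con_zero K q ρ l e₁ n Y
  · rw [← Category.assoc, ← whisker_exchange, Category.assoc]
    exact con_mk K q ρ l e₁ Ψ h1 ((whiskerRightIso (asIso s) (N' ⊗ Y)).trans (cun e Y))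

end Pool.Agent.W868h60
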