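import Pool.Agent.W_868bb7_h60.TaC

set_option autoImplicit false

/-!
# TaD1: contraction with a class, legs and decorations

The contraction of `F : M^{⊗ (m + 1)} ⟶ Y` with `w k` at the leg `σ 0` is
`(w k ▷ pow M m) ≫ act σ ≫ F : L k ⊗ pow M m ⟶ Y`.
-/

namespace Pool.Agent.W868h60

open CategoryTheory MonoidalCategory Equiv
open Pool.Agent.W_MP_868bb7_ag Pool.Agent.W_868bb7_h64

universe v u w

variable (K : Type w) [Field K] {C : Type u} [Category.{v} C] [MonoidalCategory C]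
  [Preadditive C] [Linear K C] [MonoidalPreadditive C] [MonoidalLinear K C]
  [SymmetricCategory C]

variable {M T : C} (q : M ⊗ M ⟶ T) {G : Type} [Group G] (ρ : G →* End M) {ι : Type}
  [Fintype ι] {L : ι → C} (l : ∀ k, M ⟶ L k) (w : ∀ k, L k ⟶ M) {L' : ι → C}
  (e : ∀ k, L k ⊗ L' k ≅ 𝟙_ C)

omit [Linear K C] [MonoidalPreadditive C] [MonoidalLinear K C] [Preadditive C] in
theorem TaD1_exch {A B P : C} (f : A ⟶ B) (a : P ⟶ P) {Z : C} (g : B ⊗ P ⟶ Z) :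
    f ▷ P ≫ B ◁ a ≫ g = A ◁ a ≫ f ▷ P ≫ g := by
  rw [← Category.assoc, ← Category.assoc, ← whisker_exchange]

omit [Linear K C] [MonoidalPreadditive C] [MonoidalLinear K C] [Preadditive C] in
theorem TaD1_leg {N : C} (f : N ⟶ M) {m : ℕ} {Y : C} (F : pow M (m + 1) ⟶ Y)
    (σ : Equiv.Perm (Fin (m + 1))) (τ : Equiv.Perm (Fin m)) :
    (f ▷ pow M m : N ⊗ pow M m ⟶ pow M (m + 1)) ≫ act M (m + 1) (σ * shift τ) ≫ F =
      N ◁ act M m τ ≫ (f ▷ pow M m : N ⊗ pow M m ⟶ pow M (m + 1)) ≫ act M (m + 1) σ ≫ F := by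
  have h1 : act M (m + 1) (σ * shift τ) ≫ F =
      act M (m + 1) (shift τ) ≫ act M (m + 1) σ ≫ F := by
    rw [act_mul, Category.assoc]
  have h2 : act M (m + 1) (shift τ) ≫ act M (m + 1) σ ≫ F =
      (M ◁ act M m τ : M ⊗ pow M m ⟶ M ⊗ pow M m) ≫
        (show M ⊗ pow M m ⟶ Y from act M (m + 1) σ ≫ F) :=
    congrArg (fun x => x ≫ act M (m + 1) σ ≫ F) (act_shift M m τ)
  exact (congrArg (fun x : M ⊗ pow M m ⟶ Y =>
    (f ▷ pow M m : N ⊗ pow M m ⟶ M ⊗ pow M m) ≫ x) (h1.trans h2)).trans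
      (TaD1_exch f (act M m τ) (act M (m + 1) σ ≫ F))

/-- only the leg `σ 0` matters: `σ' = σ * shift τ` (`exists_shE`, `shE_perm`), `act_mul`,
`act_shift`, `con_perm` -/
theorem con_leg {m : ℕ} {Y : C} (k : ι) (F : pow M (m + 1) ⟶ Y)
    (σ σ' : Equiv.Perm (Fin (m + 1))) (h0 : σ 0 = σ' 0)
    (h : Con K q ρ l (e k) m Y ((w k ▷ pow M m : L k ⊗ pow M m ⟶ pow M (m + 1)) ≫
      act M (m + 1) σ ≫ F)) :
    Con K q ρ l (e k) m Y ((w k ▷ pow M m : L k ⊗ pow M m ⟶ pow M (m + 1)) ≫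
      act M (m + 1) σ' ≫ F) := by
  obtain ⟨τ, hτ⟩ := exists_shE (σ⁻¹ * σ') (by
    rw [Equiv.Perm.mul_apply, ← h0]
    exact Equiv.symm_apply_apply σ 0)
  rw [shE_perm] at hτ
  have h1 : σ' = σ * shift τ := by
    rw [← hτ, mul_inv_cancel_left]
  rw [h1, TaD1_leg]
  exact con_perm K q ρ l (e k) τ _ h

omit [Linear K C] [MonoidalLinear K C] [SymmetricCategory C] in
theorem TaD1_zero {A B P Q : C} (F : P ⟶ Q) : (0 : A ⟶ B) ⊗ₘ F = 0 := by
  rw [MonoidalCategory.tensorHom_def, MonoidalPreadditive.zero_whiskerRight, Limits.zero_comp]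

/-- leg `0` of `l j ⊗ F`: `w k ≫ l j` is `𝟙` or `0` -/
theorem con_cls0 (hD : TD q ρ l w) {n : ℕ} {Y Y' : C} (k j : ι) (F : pow M n ⟶ Y)
    (hF : Taut K q ρ l n Y F) (θ : L j ⊗ Y ≅ Y') :
    Con K q ρ l (e k) n Y' ((w k ▷ pow M n : L k ⊗ pow M n ⟶ pow M (n + 1)) ≫
      (l j ⊗ₘ F) ≫ θ.hom) := by
  have h1 : (w k ▷ pow M n : L k ⊗ pow M n ⟶ pow M (n + 1)) ≫ (l j ⊗ₘ F) ≫ θ.hom =
      ((w k ≫ l j) ⊗ₘ F) ≫ θ.hom := by
    have h2 : (w k ▷ pow M n : L k ⊗ pow M n ⟶ M ⊗ pow M n) ≫ (l j ⊗ₘ F) =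
        (w k ≫ l j) ⊗ₘ F := by
      rw [← tensorHom_id, tensorHom_comp_tensorHom, Category.id_comp]
    rw [← h2, Category.assoc]
  rw [h1]
  by_cases hk : k = j
  · subst hk
    rw [hD.h1, id_tensorHom]
    exact con_mk K q ρ l (e k) F hF θ
  · rw [hD.h2 k j hk, TaD1_zero, Limits.zero_comp]
    exact con_zero K q ρ l (e k) n Y'

omit [Linear K C] [MonoidalPreadditive C] [MonoidalLinear K C] in
/-- the classes `w k` are permuted by the group up to the maps between the `L j` -/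
theorem TaD1_w (hD : TD q ρ l w) (g : G) (k : ι) :
    w k ≫ (show M ⟶ M from ρ g) = ∑ j, (w k ≫ (show M ⟶ M from ρ g) ≫ l j) ≫ w j := by
  have h1 : w k ≫ (∑ j, l j ≫ w j) = w k := by
    rw [Preadditive.comp_sum, Finset.sum_eq_single k]
    · rw [← Category.assoc, hD.h1, Category.id_comp]
    · intro j _ hj
      rw [← Category.assoc, hD.h2 k j (Ne.symm hj), Limits.zero_comp]
    · intro h
      exact absurd (Finset.mem_univ k) h
  have h2 := hD.hcomm g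
  calc w k ≫ (show M ⟶ M from ρ g) = (w k ≫ ∑ j, l j ≫ w j) ≫ (show M ⟶ M from ρ g) := by
        rw [h1]
    _ = w k ≫ (show M ⟶ M from ρ g) ≫ ∑ j, l j ≫ w j := by
        rw [Category.assoc, ← h2]
    _ = _ := by
        rw [Preadditive.comp_sum, Preadditive.comp_sum]
        refine Finset.sum_congr rfl fun j _ => ?_
        simp only [Category.assoc]

omit [Linear K C] [MonoidalLinear K C] in
theorem TaD1_dec (hD : TD q ρ l w) {m : ℕ} {Y : C} (F : pow M (m + 1) ⟶ Y)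
    (g : Fin (m + 1) → G) (k : ι) :
    (w k ▷ pow M m : L k ⊗ pow M m ⟶ pow M (m + 1)) ≫ pmv M (m + 1) (fun i => ρ (g i)) ≫ F =
      ∑ j, (w k ≫ (show M ⟶ M from ρ (g 0)) ≫ l j) ▷ pow M m ≫
        L j ◁ pmv M m (fun i => ρ (g i.succ)) ≫
          (w j ▷ pow M m : L j ⊗ pow M m ⟶ pow M (m + 1)) ≫ F := by
  have h0 : pmv M (m + 1) (fun i => ρ (g i)) =
      (show M ⟶ M from ρ (g 0)) ⊗ₘ pmv M m (fun i => ρ (g i.succ)) := rfl
  rw [h0]
  generalize pmv M m (fun i => ρ (g i.succ)) = a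
  have h1 : (w k ▷ pow M m : L k ⊗ pow M m ⟶ M ⊗ pow M m) ≫
      ((show M ⟶ M from ρ (g 0)) ⊗ₘ a) =
      (w k ≫ (show M ⟶ M from ρ (g 0))) ▷ pow M m ≫ M ◁ a := by
    rw [MonoidalCategory.tensorHom_def, ← Category.assoc, ← comp_whiskerRight]
  have h2 : ∀ j, (w k ≫ (show M ⟶ M from ρ (g 0)) ≫ l j) ▷ pow M m ≫
        L j ◁ a ≫ (w j ▷ pow M m : L j ⊗ pow M m ⟶ M ⊗ pow M m) =
      (((w k ≫ (show M ⟶ M from ρ (g 0)) ≫ l j) ≫ w j) ▷ pow M m) ≫ M ◁ a := by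
    intro j
    rw [whisker_exchange, comp_whiskerRight _ (w j), Category.assoc]
  have h3 : (w k ▷ pow M m : L k ⊗ pow M m ⟶ M ⊗ pow M m) ≫
      ((show M ⟶ M from ρ (g 0)) ⊗ₘ a) =
      ∑ j, (w k ≫ (show M ⟶ M from ρ (g 0)) ≫ l j) ▷ pow M m ≫
        L j ◁ a ≫ (w j ▷ pow M m : L j ⊗ pow M m ⟶ M ⊗ pow M m) := by
    rw [h1, TaD1_w q ρ l w hD, sum_whiskerRight, Preadditive.sum_comp]
    exact Finset.sum_congr rfl fun j _ => (h2 j).symm
  have h4 := congrArg (fun x => x ≫ (show M ⊗ pow M m ⟶ Y from F)) h3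
  simp only [Preadditive.sum_comp, Category.assoc] at h4
  exact h4

/-- decorations: `act σ ≫ pmv g = pmv g' ≫ act σ`; `w k ≫ ρ g = ∑ s_j ≫ w j`, `s_j = w k ≫ ρ g ≫ l j` is `0` or
an isomorphism; `con_change`, `con_sum`, `con_grp`. -/
theorem con_dec (hD : TD q ρ l w) {m : ℕ} {Y : C} (F : pow M (m + 1) ⟶ Y)
    (σ : Equiv.Perm (Fin (m + 1)))
    (hF : ∀ k, Con K q ρ l (e k) m Y ((w k ▷ pow M m : L k ⊗ pow M m ⟶ pow M (m + 1)) ≫
      act M (m + 1) σ ≫ F)) (g : Fin (m + 1) → G) (k : ι) :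
    Con K q ρ l (e k) m Y ((w k ▷ pow M m : L k ⊗ pow M m ⟶ pow M (m + 1)) ≫
      act M (m + 1) σ ≫ pmv M (m + 1) (fun i => ρ (g i)) ≫ F) := by
  have h1 : act M (m + 1) σ ≫ pmv M (m + 1) (fun i => ρ (g i)) ≫ F =
      pmv M (m + 1) (fun i => ρ (g (σ i))) ≫ act M (m + 1) σ ≫ F := by
    have h2 := pmv_act M σ (fun i => ρ (g (σ i)))
    simp only [Equiv.apply_symm_apply] at h2
    rw [← Category.assoc, ← h2, Category.assoc]
  have h3 := TaD1_dec q ρ l w hD (act M (m + 1) σ ≫ F) (fun i => g (σ i)) k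
  have h4 := (congrArg (fun x : M ⊗ pow M m ⟶ Y =>
    (w k ▷ pow M m : L k ⊗ pow M m ⟶ M ⊗ pow M m) ≫ x) h1).trans h3
  refine Eq.mpr (congrArg (Con K q ρ l (e k) m Y) h4) ?_
  refine con_sum K q ρ l (e k) _ _ fun j _ => ?_
  exact con_change K q ρ l (e j) (e k) _ (hD.hL k j _) _
    (con_grp K q ρ l (e j) (fun i : Fin m => g (σ i.succ)) _ (hF j))

end Pool.Agent.W868h60
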