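import Pool.Agent.W_868bb7_h60.TaC

set_option autoImplicit false

/-!
# TaD2: contraction with a class, other legs of l j ⊗ F

See the docstrings.
-/

namespace Pool.Agent.W868h60

open CategoryTheory MonoidalCategory Equiv
open Pool.Agent.W_MP_868bb7_ag Pool.Agent.W_868bb7_h64

universe v u w

variable (K : Type w) [Field K] {C : Type u} [Category.{v} C] [MonoidalCategory C]
  [Preadditive C] [Linear K C] [MonoidalPreadditive C] [MonoidalLinear K C]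
  [SymmetricCategory C]

variable {M T : C} (q : M ⊗ M ⟶ T) {G : Type} [Group G] (ρ : G →* End M) {ι : Type}
  [Fintype ι] {L : ι → C} (l : ∀ k, M ⟶ L k) (w : ∀ k, L k ⟶ M) {L' : ι → C}
  (e : ∀ k, L k ⊗ L' k ≅ 𝟙_ C)

/-- moving a factor over another one: `(a ▷ (M ⊗ R)) ≫ sw` -/
theorem move1 {N R : C} (a : N ⟶ M) :
    a ▷ (M ⊗ R) ≫ sw M R = (α_ N M R).inv ≫ (β_ N M).hom ▷ R ≫ (α_ M N R).hom ≫
      M ◁ (a ▷ R) := by
  unfold sw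
  rw [associator_inv_naturality_left_assoc, ← comp_whiskerRight_assoc,
    BraidedCategory.braiding_naturality_left, comp_whiskerRight_assoc,
    associator_naturality_middle]

theorem TaD2_aux {N N' Lj Y Y' R : C} (a : N ⟶ M) (b : M ⟶ Lj) (A : M ⊗ R ⟶ M ⊗ R)
    (F : M ⊗ R ⟶ Y) (Ψ : R ⟶ N' ⊗ Y) (c : N ⊗ (N' ⊗ Y) ⟶ Y) (t : Lj ⊗ Y ⟶ Y')
    (h : a ▷ R ≫ A ≫ F = N ◁ Ψ ≫ c) :
    a ▷ (M ⊗ R) ≫ (sw M R ≫ M ◁ A) ≫ (b ⊗ₘ F) ≫ t =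
      N ◁ (b ⊗ₘ Ψ) ≫ (α_ N Lj (N' ⊗ Y)).inv ≫ (β_ N Lj).hom ▷ (N' ⊗ Y) ≫
        (α_ Lj N (N' ⊗ Y)).hom ≫ Lj ◁ c ≫ t := by
  have h1 : M ◁ (a ▷ R) ≫ M ◁ A ≫ (b ⊗ₘ F) = M ◁ (N ◁ Ψ) ≫ M ◁ c ≫ b ▷ Y := by
    rw [tensorHom_def', ← MonoidalCategory.whiskerLeft_comp_assoc,
      ← MonoidalCategory.whiskerLeft_comp_assoc, Category.assoc, h,
      MonoidalCategory.whiskerLeft_comp_assoc]
  rw [Category.assoc, ← Category.assoc (a ▷ (M ⊗ R)), move1]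
  simp only [Category.assoc]
  rw [reassoc_of% h1, tensorHom_def', MonoidalCategory.whiskerLeft_comp_assoc,
    ← associator_naturality_right_assoc, ← whisker_exchange_assoc,
    ← associator_inv_naturality_right_assoc, whisker_exchange_assoc,
    ← associator_naturality_left_assoc, ← comp_whiskerRight_assoc,
    ← BraidedCategory.braiding_naturality_right, comp_whiskerRight_assoc,
    ← associator_inv_naturality_middle_assoc]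

/-- leg `x.succ` of `l j ⊗ F`: with `σ = shift s * swap 0 1`, `s 0 = x`, the contraction is `l j` times
the contraction of `F`.  `move1`, the hypothesis on `F` gives `Ψ`, naturality of the braiding,
`con_mk` for `(l j ⊗ₘ Ψ)` (`Taut.cls` with the identity). -/
theorem con_cls1 {n : ℕ} {Y Y' : C} (k j : ι) (F : pow M (n + 1) ⟶ Y)
    (s : Equiv.Perm (Fin (n + 1)))
    (hF : Con K q ρ l (e k) n Y ((w k ▷ pow M n : L k ⊗ pow M n ⟶ pow M (n + 1)) ≫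
      act M (n + 1) s ≫ F)) (θ : L j ⊗ Y ≅ Y') :
    Con K q ρ l (e k) (n + 1) Y'
      ((w k ▷ pow M (n + 1) : L k ⊗ pow M (n + 1) ⟶ pow M (n + 2)) ≫
      act M (n + 2) (shift s * Equiv.swap 0 1) ≫ (l j ⊗ₘ F) ≫ θ.hom) := by
  obtain ⟨Ψ, hΨ, h1⟩ := hF
  have h2 : act M (n + 2) (shift s * Equiv.swap 0 1) =
      (sw M (pow M n) ≫ M ◁ act M (n + 1) s : M ⊗ (M ⊗ pow M n) ⟶ M ⊗ (M ⊗ pow M n)) := by
    rw [act_mul, act_swap, act_shift]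
    rfl
  let Θ : L k ⊗ (L j ⊗ (L' k ⊗ Y)) ≅ Y' :=
    (α_ (L k) (L j) (L' k ⊗ Y)).symm ≪≫ whiskerRightIso (β_ (L k) (L j)) (L' k ⊗ Y) ≪≫
      α_ (L j) (L k) (L' k ⊗ Y) ≪≫ whiskerLeftIso (L j) (cun (e k) Y) ≪≫ θ
  let F' : pow M (n + 1) ⟶ L j ⊗ (L' k ⊗ Y) :=
    (l j ⊗ₘ Ψ) ≫ (Iso.refl (L j ⊗ (L' k ⊗ Y))).hom
  have hF' : Taut K q ρ l (n + 1) (L j ⊗ (L' k ⊗ Y)) F' :=
    Taut.cls j Ψ (Iso.refl (L j ⊗ (L' k ⊗ Y))) hΨ
  have h3 : Con K q ρ l (e k) (n + 1) Y' (L k ◁ F' ≫ Θ.hom) :=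
    con_mk K q ρ l (e k) F' hF' Θ
  have h4 := TaD2_aux (w k) (l j) (act M (n + 1) s : M ⊗ pow M n ⟶ M ⊗ pow M n) F Ψ
    (cun (e k) Y).hom θ.hom h1
  have h5 : ((w k ▷ pow M (n + 1) : L k ⊗ pow M (n + 1) ⟶ pow M (n + 2)) ≫
      act M (n + 2) (shift s * Equiv.swap 0 1) ≫ (l j ⊗ₘ F) ≫ θ.hom) =
      L k ◁ F' ≫ Θ.hom := by
    have h6 : F' = (l j ⊗ₘ Ψ) := Category.comp_id _
    rw [h2, h6]
    refine h4.trans ?_
    simp only [Θ, Iso.trans_hom, Iso.symm_hom, whiskerRightIso_hom, whiskerLeftIso_hom]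
    rfl
  rw [h5]
  exact h3

end Pool.Agent.W868h60
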