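import Pool.Agent.W_868bb7_h60.TaC
import Pool.Agent.W_868bb7_h60.PairQ

set_option autoImplicit false

/-!
# TaD3: contraction with a class, first two legs of q ⊗ F

See the docstrings.  `sw_q` is in `PairQ`.
-/

namespace Pool.Agent.W868h60

open CategoryTheory MonoidalCategory Equiv
open Pool.Agent.W_MP_868bb7_ag Pool.Agent.W_868bb7_h64

universe v u w

variable (K : Type w) [Field K] {C : Type u} [Category.{v} C] [MonoidalCategory C]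
  [Preadditive C] [Linear K C] [MonoidalPreadditive C] [MonoidalLinear K C]
  [SymmetricCategory C]

variable {M T : C} (q : M ⊗ M ⟶ T) {G : Type} [Group G] (ρ : G →* End M) {ι : Type}
  [Fintype ι] {L : ι → C} (l : ∀ k, M ⟶ L k) (w : ∀ k, L k ⟶ M) {L' : ι → C}
  (e : ∀ k, L k ⊗ L' k ≅ 𝟙_ C)

/-- the class `w k` is fixed by the projector -/
theorem TaD3_proj (hD : TD q ρ l w) (k : ι) : w k ≫ (∑ j, l j ≫ w j) = w k := by
  rw [Preadditive.comp_sum]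
  rw [Finset.sum_eq_single k]
  · rw [← Category.assoc, hD.h1, Category.id_comp]
  · intro j _ hj
    rw [← Category.assoc, hD.h2 k j (Ne.symm hj), Limits.zero_comp]
  · intro h
    exact absurd (Finset.mem_univ k) h

theorem TaD3_wq (hD : TD q ρ l w) (k : ι) :
    (w k ▷ M) ≫ q = ∑ j, (L k ◁ l j) ≫ ((w k ⊗ₘ w j) ≫ q) := by
  have h1 : (w k ▷ M) ≫ q = (w k ▷ M) ≫ (M ◁ (∑ j, l j ≫ w j) ≫ q) := by
    rw [← hD.hself]
    conv_lhs => rw [← TaD3_proj q ρ l w hD k]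
    rw [MonoidalCategory.comp_whiskerRight, Category.assoc]
  rw [h1, whiskerLeft_sum, Preadditive.sum_comp, Preadditive.comp_sum]
  refine Finset.sum_congr rfl fun j _ => ?_
  have h2 : (w k ⊗ₘ w j) = (L k ◁ w j) ≫ (w k ▷ M) := MonoidalCategory.tensorHom_def' _ _
  rw [h2, MonoidalCategory.whiskerLeft_comp]
  simp only [Category.assoc]
  rw [MonoidalCategory.whisker_exchange_assoc, MonoidalCategory.whisker_exchange_assoc]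

theorem TaD3_term {n : ℕ} {Y Y' : C} (k j : ι) (F : pow M n ⟶ Y) (θ : T ⊗ Y ≅ Y')
    (c : L k ⊗ L j ⟶ T) :
    (α_ (L k) M (pow M n)).inv ≫ (((L k ◁ l j) ≫ c) ⊗ₘ F) ≫ θ.hom =
      L k ◁ (l j ⊗ₘ F) ≫ (α_ (L k) (L j) Y).inv ≫ c ▷ Y ≫ θ.hom := by
  have h : (((L k ◁ l j) ≫ c) ⊗ₘ F) = ((L k ◁ l j) ⊗ₘ F) ≫ c ▷ Y := by
    rw [← MonoidalCategory.tensorHom_id, MonoidalCategory.tensorHom_comp_tensorHom,
      Category.comp_id]
  rw [h, Category.assoc, ← MonoidalCategory.id_tensorHom (L k) (l j),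
    ← MonoidalCategory.associator_inv_naturality_assoc, MonoidalCategory.id_tensorHom]

/-- leg `0` of `q ⊗ F`: `w k = w k ≫ π`, `π = ∑ l j ≫ w j` self-adjoint, so
`(w k ▷ M) ≫ q = ∑ (L k ◁ l j) ≫ ((w k ⊗ w j) ≫ q)`, and `(w k ⊗ w j) ≫ q : L k ⊗ L j ⟶ T` is `0` or an
isomorphism. -/
theorem con_pair0 (hD : TD q ρ l w) {n : ℕ} {Y Y' : C} (k : ι) (F : pow M n ⟶ Y)
    (hF : Taut K q ρ l n Y F) (θ : T ⊗ Y ≅ Y') :
    Con K q ρ l (e k) (n + 1) Y'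
      ((w k ▷ pow M (n + 1) : L k ⊗ pow M (n + 1) ⟶ pow M (n + 2)) ≫
      (α_ M M (pow M n)).inv ≫ (q ⊗ₘ F) ≫ θ.hom) := by
  have h0 : ((w k ▷ pow M (n + 1) : L k ⊗ pow M (n + 1) ⟶ pow M (n + 2)) ≫
      (α_ M M (pow M n)).inv ≫ (q ⊗ₘ F) ≫ θ.hom) =
      ∑ j, L k ◁ (l j ⊗ₘ F) ≫ (α_ (L k) (L j) Y).inv ≫ ((w k ⊗ₘ w j) ≫ q) ▷ Y ≫ θ.hom := by
    have e1 : ((w k ▷ pow M (n + 1) : L k ⊗ pow M (n + 1) ⟶ pow M (n + 2)) ≫
        (α_ M M (pow M n)).inv ≫ (q ⊗ₘ F) ≫ θ.hom) =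
        (α_ (L k) M (pow M n)).inv ≫ (((w k ▷ M) ≫ q) ⊗ₘ F) ≫ θ.hom := by
      change w k ▷ (M ⊗ pow M n) ≫ (α_ M M (pow M n)).inv ≫ (q ⊗ₘ F) ≫ θ.hom = _
      rw [MonoidalCategory.whiskerRight_tensor]
      simp only [Category.assoc, Iso.hom_inv_id_assoc]
      rw [← MonoidalCategory.tensorHom_id, MonoidalCategory.tensorHom_comp_tensorHom_assoc,
        Category.id_comp]
    rw [e1, TaD3_wq q ρ l w hD k, sum_tensor, Preadditive.sum_comp, Preadditive.comp_sum]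
    exact Finset.sum_congr rfl fun j _ => TaD3_term l k j F θ _
  rw [h0]
  refine con_sum K q ρ l (e k) Finset.univ _ fun j _ => ?_
  rcases hD.hLT k j ((w k ⊗ₘ w j) ≫ q) with h | h
  · have h2 : L k ◁ (l j ⊗ₘ F) ≫ (α_ (L k) (L j) Y).inv ≫ ((w k ⊗ₘ w j) ≫ q) ▷ Y ≫ θ.hom =
        0 := by
      rw [h]
      simp
    rw [h2]
    exact con_zero K q ρ l (e k) (n + 1) Y'
  · have h2 : Taut K q ρ l (n + 1) (L j ⊗ Y) ((l j ⊗ₘ F) ≫ (Iso.refl (L j ⊗ Y)).hom) :=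
      Taut.cls j F (Iso.refl _) hF
    have h3 := con_mk K q ρ l (e k) _ h2
      ((α_ (L k) (L j) Y).symm ≪≫ whiskerRightIso (asIso ((w k ⊗ₘ w j) ≫ q)) Y ≪≫ θ)
    have h4 : L k ◁ ((l j ⊗ₘ F) ≫ (Iso.refl (L j ⊗ Y)).hom) ≫
        ((α_ (L k) (L j) Y).symm ≪≫ whiskerRightIso (asIso ((w k ⊗ₘ w j) ≫ q)) Y ≪≫ θ).hom =
        L k ◁ (l j ⊗ₘ F) ≫ (α_ (L k) (L j) Y).inv ≫ ((w k ⊗ₘ w j) ≫ q) ▷ Y ≫ θ.hom := by
      simp
    exact (congrArg (fun t => Con K q ρ l (e k) (n + 1) Y' t) h4).mp h3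

/-- leg `1` of `q ⊗ F`: `sw_q` -/
theorem con_pair1 (hq : (β_ M M).hom ≫ q = q) (hD : TD q ρ l w) {n : ℕ} {Y Y' : C} (k : ι)
    (F : pow M n ⟶ Y) (hF : Taut K q ρ l n Y F) (θ : T ⊗ Y ≅ Y') :
    Con K q ρ l (e k) (n + 1) Y'
      ((w k ▷ pow M (n + 1) : L k ⊗ pow M (n + 1) ⟶ pow M (n + 2)) ≫
      act M (n + 2) (Equiv.swap 0 1) ≫ (α_ M M (pow M n)).inv ≫ (q ⊗ₘ F) ≫ θ.hom) := by
  have h1 : act M (n + 2) (Equiv.swap 0 1) ≫ (α_ M M (pow M n)).inv ≫ (q ⊗ₘ F) ≫ θ.hom =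
      (α_ M M (pow M n)).inv ≫ (q ⊗ₘ F) ≫ θ.hom := by
    have h2 := sw_q q hq F
    rw [act_swap]
    have h3 := congrArg (fun t => t ≫ θ.hom) h2
    simp only [Category.assoc] at h3
    exact h3
  have h := con_pair0 K q ρ l w e hD k F hF θ
  exact (congrArg (fun t => Con K q ρ l (e k) (n + 1) Y'
    ((w k ▷ pow M (n + 1) : L k ⊗ pow M (n + 1) ⟶ pow M (n + 2)) ≫ t)) h1).mpr h

end Pool.Agent.W868h60
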