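import Pool.Agent.W_868bb7_h60.TaD2

/-!
# TaD4: contraction with a class, other legs of q ⊗ F

See the docstring.
-/

set_option autoImplicit false

namespace Pool.Agent.W868h60

open CategoryTheory MonoidalCategory Equiv
open Pool.Agent.W_MP_868bb7_ag Pool.Agent.W_868bb7_h64

universe v u w

variable (K : Type w) [Field K] {C : Type u} [Category.{v} C] [MonoidalCategory C]
  [Preadditive C] [Linear K C] [MonoidalPreadditive C] [MonoidalLinear K C]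
  [SymmetricCategory C]

variable {M T : C} (q : M ⊗ M ⟶ T) {G : Type} [Group G] (ρ : G →* End M) {ι : Type}
  [Fintype ι] {L : ι → C} (l : ∀ k, M ⟶ L k) (w : ∀ k, L k ⟶ M) {L' : ι → C}
  (e : ∀ k, L k ⊗ L' k ≅ 𝟙_ C)

theorem TaD4_hex (N A B R : C) :
    (α_ N A (B ⊗ R)).inv ≫ (β_ N A).hom ▷ (B ⊗ R) ≫ (α_ A N (B ⊗ R)).hom ≫
      A ◁ (α_ N B R).inv ≫ A ◁ ((β_ N B).hom ▷ R) ≫ A ◁ (α_ B N R).hom ≫ (α_ A B (N ⊗ R)).inv =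
    N ◁ (α_ A B R).inv ≫ (α_ N (A ⊗ B) R).inv ≫ (β_ N (A ⊗ B)).hom ▷ R ≫
      (α_ (A ⊗ B) N R).hom := by
  rw [BraidedCategory.braiding_tensor_right_hom]
  monoidal

/-- two factors pass `N` -/
theorem TaD4_nat {N D R Z : C} (p : D ⟶ T) (Ψ : R ⟶ Z) :
    (α_ N D R).inv ≫ (β_ N D).hom ▷ R ≫ (α_ D N R).hom ≫ D ◁ (N ◁ Ψ) ≫ p ▷ (N ⊗ Z) =
    N ◁ (p ⊗ₘ Ψ) ≫ (α_ N T Z).inv ≫ (β_ N T).hom ▷ Z ≫ (α_ T N Z).hom := by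
  rw [tensorHom_def', MonoidalCategory.whiskerLeft_comp_assoc,
    associator_inv_naturality_middle_assoc, ← comp_whiskerRight_assoc (N ◁ p),
    BraidedCategory.braiding_naturality_right, comp_whiskerRight_assoc,
    associator_naturality_left, associator_inv_naturality_right_assoc,
    whisker_exchange_assoc, associator_naturality_right_assoc]

theorem TaD4_aux {N N' Y Y' R : C} (a : N ⟶ M) (A : M ⊗ R ⟶ M ⊗ R)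
    (F : M ⊗ R ⟶ Y) (Ψ : R ⟶ N' ⊗ Y) (c : N ⊗ (N' ⊗ Y) ⟶ Y) (t : T ⊗ Y ⟶ Y')
    (h : a ▷ R ≫ A ≫ F = N ◁ Ψ ≫ c) :
    a ▷ (M ⊗ (M ⊗ R)) ≫ (sw M (M ⊗ R) ≫ M ◁ sw M R ≫ M ◁ (M ◁ A)) ≫
        (α_ M M (M ⊗ R)).inv ≫ (q ⊗ₘ F) ≫ t =
      N ◁ ((α_ M M R).inv ≫ (q ⊗ₘ Ψ)) ≫ (α_ N T (N' ⊗ Y)).inv ≫ (β_ N T).hom ▷ (N' ⊗ Y) ≫
        (α_ T N (N' ⊗ Y)).hom ≫ T ◁ c ≫ t := by
  have h1 : M ◁ (M ◁ (a ▷ R)) ≫ M ◁ (M ◁ A) ≫ (α_ M M (M ⊗ R)).inv ≫ (q ⊗ₘ F) =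
      (α_ M M (N ⊗ R)).inv ≫ (M ⊗ M) ◁ (N ◁ Ψ) ≫ q ▷ (N ⊗ (N' ⊗ Y)) ≫ T ◁ c := by
    rw [tensorHom_def', associator_inv_naturality_right_assoc,
      associator_inv_naturality_right_assoc, ← MonoidalCategory.whiskerLeft_comp_assoc,
      ← MonoidalCategory.whiskerLeft_comp_assoc, Category.assoc, h,
      MonoidalCategory.whiskerLeft_comp_assoc, whisker_exchange]
  have h2 : a ▷ (M ⊗ (M ⊗ R)) ≫ sw M (M ⊗ R) ≫ M ◁ sw M R =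
      (α_ N M (M ⊗ R)).inv ≫ (β_ N M).hom ▷ (M ⊗ R) ≫ (α_ M N (M ⊗ R)).hom ≫
      M ◁ (α_ N M R).inv ≫ M ◁ ((β_ N M).hom ▷ R) ≫ M ◁ (α_ M N R).hom ≫
        M ◁ (M ◁ (a ▷ R)) := by
    rw [← Category.assoc, move1]
    simp only [Category.assoc]
    rw [← MonoidalCategory.whiskerLeft_comp M (a ▷ (M ⊗ R)), move1]
    simp only [MonoidalCategory.whiskerLeft_comp]
  have h3 := TaD4_hex N M M R
  have h4 := TaD4_nat (N := N) q Ψ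
  simp only [Category.assoc, MonoidalCategory.whiskerLeft_comp]
  rw [reassoc_of% h2, reassoc_of% h1, reassoc_of% h3, reassoc_of% h4]

/-- leg `x.succ.succ` of `q ⊗ F`: with `σ = shift (shift s) * (shift (swap 0 1) * swap 0 1)`, `s 0 = x`,
`act σ = sw ≫ M ◁ sw ≫ M ◁ (M ◁ act s)`; `move1` twice; the hypothesis on `F` gives `Ψ`, naturality of the
braiding, `con_mk` for `(α⁻¹ ≫ (q ⊗ₘ Ψ))` (`Taut.pair` with the identity). -/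
theorem con_pair2 {n : ℕ} {Y Y' : C} (k : ι) (F : pow M (n + 1) ⟶ Y)
    (s : Equiv.Perm (Fin (n + 1)))
    (hF : Con K q ρ l (e k) n Y ((w k ▷ pow M n : L k ⊗ pow M n ⟶ pow M (n + 1)) ≫
      act M (n + 1) s ≫ F)) (θ : T ⊗ Y ≅ Y') :
    Con K q ρ l (e k) (n + 2) Y'
      ((w k ▷ pow M (n + 2) : L k ⊗ pow M (n + 2) ⟶ pow M (n + 3)) ≫
      act M (n + 3) (shift (shift s) * (shift (Equiv.swap 0 1) * Equiv.swap 0 1)) ≫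
      (α_ M M (pow M (n + 1))).inv ≫ (q ⊗ₘ F) ≫ θ.hom) := by
  obtain ⟨Ψ, hΨ, h1⟩ := hF
  have h2 : act M (n + 3) (shift (shift s) * (shift (Equiv.swap 0 1) * Equiv.swap 0 1)) =
      (sw M (M ⊗ pow M n) ≫ M ◁ sw M (pow M n) ≫ M ◁ (M ◁ act M (n + 1) s) :
        M ⊗ (M ⊗ (M ⊗ pow M n)) ⟶ M ⊗ (M ⊗ (M ⊗ pow M n))) := by
    rw [act_mul, act_mul, act_swap, act_shift, act_shift, act_shift, act_swap]
    exact Category.assoc _ _ _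
  let Θ : L k ⊗ (T ⊗ (L' k ⊗ Y)) ≅ Y' :=
    (α_ (L k) T (L' k ⊗ Y)).symm ≪≫ whiskerRightIso (β_ (L k) T) (L' k ⊗ Y) ≪≫
      α_ T (L k) (L' k ⊗ Y) ≪≫ whiskerLeftIso T (cun (e k) Y) ≪≫ θ
  let F' : pow M (n + 2) ⟶ T ⊗ (L' k ⊗ Y) :=
    (α_ M M (pow M n)).inv ≫ (q ⊗ₘ Ψ) ≫ (Iso.refl (T ⊗ (L' k ⊗ Y))).hom
  have hF' : Taut K q ρ l (n + 2) (T ⊗ (L' k ⊗ Y)) F' :=
    Taut.pair Ψ (Iso.refl (T ⊗ (L' k ⊗ Y))) hΨ
  have h3 : Con K q ρ l (e k) (n + 2) Y' (L k ◁ F' ≫ Θ.hom) :=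
    con_mk K q ρ l (e k) F' hF' Θ
  have h4 := TaD4_aux q (w k) (act M (n + 1) s : M ⊗ pow M n ⟶ M ⊗ pow M n) F Ψ
    (cun (e k) Y).hom θ.hom h1
  have h5 : ((w k ▷ pow M (n + 2) : L k ⊗ pow M (n + 2) ⟶ pow M (n + 3)) ≫
      act M (n + 3) (shift (shift s) * (shift (Equiv.swap 0 1) * Equiv.swap 0 1)) ≫
      (α_ M M (pow M (n + 1))).inv ≫ (q ⊗ₘ F) ≫ θ.hom) = L k ◁ F' ≫ Θ.hom := by
    have h6 : F' = (α_ M M (pow M n)).inv ≫ (q ⊗ₘ Ψ) :=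
      congrArg ((α_ M M (pow M n)).inv ≫ ·) (Category.comp_id _)
    rw [h2, h6]
    refine h4.trans ?_
    simp only [Θ, Iso.trans_hom, Iso.symm_hom, whiskerRightIso_hom, whiskerLeftIso_hom]
    rfl
  rw [h5]
  exact h3

end Pool.Agent.W868h60
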