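import Pool.Agent.W_868bb7_h60.TaD1
import Pool.Agent.W_868bb7_h60.TaD3
import Pool.Agent.W_868bb7_h60.TaD4

set_option autoImplicit false

/-!
# TaE: the contraction of a tautological form with a class is tautological

Induction on `Taut`, for all `m` with `n = m + 1`, all `k` and all `σ`; in the cases `cls` and `pair`
distinguish `σ 0 = 0`, `σ 0 = x.succ` (`con_cls0`, `con_cls1`), `σ 0 = 0, 1, x.succ.succ`
(`con_pair0`, `con_pair1`, `con_pair2`), after replacing `σ` by `con_leg` (take `s = swap 0 x`).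
-/

namespace Pool.Agent.W868h60

open CategoryTheory MonoidalCategory Equiv
open Pool.Agent.W_MP_868bb7_ag Pool.Agent.W_868bb7_h64

universe v u w

variable (K : Type w) [Field K] {C : Type u} [Category.{v} C] [MonoidalCategory C]
  [Preadditive C] [Linear K C] [MonoidalPreadditive C] [MonoidalLinear K C]
  [SymmetricCategory C]

variable {M T : C} (q : M ⊗ M ⟶ T) {G : Type} [Group G] (ρ : G →* End M) {ι : Type}
  [Fintype ι] {L : ι → C} (l : ∀ k, M ⟶ L k) (w : ∀ k, L k ⟶ M) {L' : ι → C}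
  (e : ∀ k, L k ⊗ L' k ≅ 𝟙_ C)

omit [MonoidalPreadditive C] [MonoidalLinear K C] [Linear K C] [Preadditive C] [Fintype ι] in
theorem TaE_one {n : ℕ} {A Y : C} (a : A ⟶ pow M n) (F : pow M n ⟶ Y) :
    a ≫ act M n 1 ≫ F = a ≫ F := by
  rw [act_one, Category.id_comp]

theorem TaE_mul {n : ℕ} {A Y : C} (a : A ⟶ pow M n) (F : pow M n ⟶ Y)
    (σ τ : Equiv.Perm (Fin n)) :
    a ≫ act M n σ ≫ act M n τ ≫ F = a ≫ act M n (τ * σ) ≫ F := by
  rw [act_mul, Category.assoc]

theorem TaE_s1 {n : ℕ} (x : Fin (n + 1)) :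
    (shift (Equiv.swap 0 x) * Equiv.swap 0 1 : Equiv.Perm (Fin (n + 2))) 0 = x.succ := by
  rw [Equiv.Perm.mul_apply, Equiv.swap_apply_left]
  have h1 : (1 : Fin (n + 2)) = (0 : Fin (n + 1)).succ := rfl
  rw [h1, ← shE_perm, shE_succ, Equiv.swap_apply_left]

theorem TaE_s2 {n : ℕ} (y : Fin (n + 1)) :
    (shift (shift (Equiv.swap 0 y)) * (shift (Equiv.swap 0 1) * Equiv.swap 0 1) :
      Equiv.Perm (Fin (n + 3))) 0 = y.succ.succ := by
  have h0 : (shift (Equiv.swap 0 1) * Equiv.swap 0 1 : Equiv.Perm (Fin (n + 3))) 0 =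
      (1 : Fin (n + 2)).succ := TaE_s1 1
  rw [Equiv.Perm.mul_apply, h0, ← shE_perm (shift (Equiv.swap 0 y)), shE_succ]
  have h2 : (1 : Fin (n + 2)) = (0 : Fin (n + 1)).succ := rfl
  rw [h2, ← shE_perm, shE_succ, Equiv.swap_apply_left]

theorem TaE_aux (hq : (β_ M M).hom ≫ q = q) (hD : TD q ρ l w) {n : ℕ} {Y : C}
    (F : pow M n ⟶ Y) (hF : Taut K q ρ l n Y F) : ∀ (m : ℕ) (hm : m + 1 = n) (k : ι)
    (σ : Equiv.Perm (Fin (m + 1))),
    Con K q ρ l (e k) m Y ((w k ▷ pow M m : L k ⊗ pow M m ⟶ pow M (m + 1)) ≫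
      act M (m + 1) σ ≫ eqToHom (congrArg (pow M) hm) ≫ F) := by
  induction hF with
  | one θ =>
    intro m hm
    omega
  | @cls n Y Y' j F θ hF ih =>
    intro m hm k σ
    obtain rfl : m = n := by omega
    rw [eqToHom_refl, Category.id_comp]
    rcases Fin.eq_zero_or_eq_succ (σ 0) with h | ⟨x, h⟩
    · refine con_leg K q ρ l w e k _ 1 σ ?_ ?_
      · rw [h]
        rfl
      · exact (congrArg (Con K q ρ l (e k) m Y') (TaE_one (M := M) (n := m + 1)
          (w k ▷ pow M m : L k ⊗ pow M m ⟶ pow M (m + 1))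
          ((l j ⊗ₘ F) ≫ θ.hom : pow M (m + 1) ⟶ Y'))).mpr
          (con_cls0 K q ρ l w e hD k j F hF θ)
    · obtain ⟨m, rfl⟩ : ∃ m', m = m' + 1 := by
        cases m with
        | zero => exact x.elim0
        | succ m => exact ⟨m, rfl⟩
      refine con_leg K q ρ l w e k _ (shift (Equiv.swap 0 x) * Equiv.swap 0 1) σ ?_ ?_
      · exact (TaE_s1 x).trans h.symm
      · refine con_cls1 K q ρ l w e k j F (Equiv.swap 0 x) ?_ θ
        have h2 := ih m rfl k (Equiv.swap 0 x)
        rwa [eqToHom_refl, Category.id_comp] at h2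
  | @pair n Y Y' F θ hF ih =>
    intro m hm k σ
    obtain rfl : m = n + 1 := by omega
    rw [eqToHom_refl, Category.id_comp]
    rcases Fin.eq_zero_or_eq_succ (σ 0) with h | ⟨x, h⟩
    · refine con_leg K q ρ l w e k _ 1 σ ?_ ?_
      · rw [h]
        rfl
      · exact (congrArg (Con K q ρ l (e k) (n + 1) Y') (TaE_one (M := M) (n := n + 2)
          (w k ▷ pow M (n + 1) : L k ⊗ pow M (n + 1) ⟶ pow M (n + 2))
          ((α_ M M (pow M n)).inv ≫ (q ⊗ₘ F) ≫ θ.hom : pow M (n + 2) ⟶ Y'))).mpr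
          (con_pair0 K q ρ l w e hD k F hF θ)
    · rcases Fin.eq_zero_or_eq_succ x with hx | ⟨y, hx⟩
      · refine con_leg K q ρ l w e k _ (Equiv.swap 0 1) σ ?_ ?_
        · rw [h, hx, Equiv.swap_apply_left]
          rfl
        · exact con_pair1 K q ρ l w e hq hD k F hF θ
      · obtain ⟨n, rfl⟩ : ∃ m', n = m' + 1 := by
          cases n with
          | zero => exact y.elim0
          | succ m => exact ⟨m, rfl⟩
        refine con_leg K q ρ l w e k _ (shift (shift (Equiv.swap 0 y)) *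
          (shift (Equiv.swap 0 1) * Equiv.swap 0 1)) σ ?_ ?_
        · rw [h, hx]
          exact TaE_s2 y
        · refine con_pair2 K q ρ l w e k F (Equiv.swap 0 y) ?_ θ
          have h2 := ih n rfl k (Equiv.swap 0 y)
          rwa [eqToHom_refl, Category.id_comp] at h2
  | @perm n Y τ F hF ih =>
    intro m hm k σ
    subst hm
    rw [eqToHom_refl, Category.id_comp]
    have h2 := ih m rfl k (τ * σ)
    rw [eqToHom_refl, Category.id_comp] at h2
    exact (congrArg (Con K q ρ l (e k) m Y) (TaE_mul (M := M) (n := m + 1)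
      (w k ▷ pow M m : L k ⊗ pow M m ⟶ pow M (m + 1)) F σ τ)).mpr h2
  | @grp n Y g F hF ih =>
    intro m hm k σ
    subst hm
    rw [eqToHom_refl, Category.id_comp]
    refine con_dec K q ρ l w e hD F σ (fun k => ?_) g k
    have h2 := ih m rfl k σ
    rwa [eqToHom_refl, Category.id_comp] at h2
  | zero n Y =>
    intro m hm k σ
    rw [Limits.comp_zero, Limits.comp_zero, Limits.comp_zero]
    exact con_zero K q ρ l (e k) m Y
  | add F F' hF hF' ih ih' =>
    intro m hm k σ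
    rw [Preadditive.comp_add, Preadditive.comp_add, Preadditive.comp_add]
    exact con_add K q ρ l (e k) _ _ (ih m hm k σ) (ih' m hm k σ)
  | smul a F hF ih =>
    intro m hm k σ
    rw [Linear.comp_smul, Linear.comp_smul, Linear.comp_smul]
    exact con_smul K q ρ l (e k) a _ (ih m hm k σ)

theorem con_taut (hq : (β_ M M).hom ≫ q = q) (hD : TD q ρ l w) {m : ℕ} {Y : C}
    (F : pow M (m + 1) ⟶ Y) (hF : Taut K q ρ l (m + 1) Y F) (k : ι)
    (σ : Equiv.Perm (Fin (m + 1))) :
    Con K q ρ l (e k) m Y ((w k ▷ pow M m : L k ⊗ pow M m ⟶ pow M (m + 1)) ≫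
      act M (m + 1) σ ≫ F) := by
  have h2 := TaE_aux K q ρ l w e hq hD F hF m rfl k σ
  rwa [eqToHom_refl, Category.id_comp] at h2

end Pool.Agent.W868h60
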