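import Pool.Agent.W_868bb7_h60.TaA

set_option autoImplicit false

/-!
# TaG: the group `G × {1, -1}`

`(g, -1)` acts as `ρ g` composed with the reflection `1 - 2 π`.
-/

namespace Pool.Agent.W868h60

open CategoryTheory MonoidalCategory Equiv
open Pool.Agent.W_MP_868bb7_ag Pool.Agent.W_868bb7_h64

universe v u w

variable {C : Type u} [Category.{v} C] [MonoidalCategory C]
  [Preadditive C] [MonoidalPreadditive C] [SymmetricCategory C]

/-- `1 ↦ 1`, `-1 ↦ 1 - 2 π` -/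
def refl2 {M : C} (π : End M) (hπ : π * π = π) : ℤˣ →* End M where
  toFun ε := if ε = 1 then 1 else 1 - (2 : ℤ) • π
  map_one' := by
    simp
  map_mul' a b := by
    have h0 : (1 - (2 : ℤ) • π) * (1 - (2 : ℤ) • π) = 1 := by
      rw [sub_mul, one_mul, mul_sub, mul_one, smul_mul_smul_comm, hπ]
      rw [show ((2 : ℤ) * 2) • π = (2 : ℤ) • π + (2 : ℤ) • π by rw [← add_smul]; norm_num]
      abel
    have h1 : (-1 : ℤˣ) ≠ 1 := by decide
    rcases Int.units_eq_one_or a with rfl | rfl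
    · simp
    · rcases Int.units_eq_one_or b with rfl | rfl
      · simp
      · simp only [mul_neg, mul_one, neg_neg, if_true, if_neg h1]
        exact h0.symm

omit [MonoidalCategory C] [MonoidalPreadditive C] [SymmetricCategory C] in
theorem TaG_neg {M : C} (π : End M) (hπ : π * π = π) :
    refl2 π hπ (-1) = 1 - (2 : ℤ) • π := by
  have h1 : (-1 : ℤˣ) ≠ 1 := by decide
  change (if (-1 : ℤˣ) = 1 then (1 : End M) else 1 - (2 : ℤ) • π) = _
  rw [if_neg h1]

omit [MonoidalCategory C] [MonoidalPreadditive C] [SymmetricCategory C] in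
theorem TaG_comm {M : C} {G : Type} [Group G] (ρ : G →* End M) (π : End M) (hπ : π * π = π)
    (hc : ∀ g, ρ g * π = π * ρ g) (g : G) (ε : ℤˣ) :
    ρ g * refl2 π hπ ε = refl2 π hπ ε * ρ g := by
  rcases Int.units_eq_one_or ε with rfl | rfl
  · rw [map_one, mul_one, one_mul]
  · rw [TaG_neg, mul_sub, sub_mul, mul_one, one_mul, mul_smul_comm, smul_mul_assoc, hc]

/-- the action of `G × {1, -1}` -/
def ρ2 {M : C} {G : Type} [Group G] (ρ : G →* End M) (π : End M) (hπ : π * π = π)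
    (hc : ∀ g, ρ g * π = π * ρ g) : G × ℤˣ →* End M where
  toFun x := ρ x.1 * refl2 π hπ x.2
  map_one' := by
    simp
  map_mul' x y := by
    simp only [Prod.fst_mul, Prod.snd_mul, map_mul]
    rw [mul_assoc, mul_assoc, ← mul_assoc (ρ y.1), TaG_comm ρ π hπ hc y.1 x.2, mul_assoc]

theorem ρ2_one {M : C} {G : Type} [Group G] (ρ : G →* End M) (π : End M) (hπ : π * π = π)
    (hc : ∀ g, ρ g * π = π * ρ g) (g : G) : ρ2 ρ π hπ hc (g, 1) = ρ g := by
  change ρ g * refl2 π hπ 1 = ρ g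
  rw [map_one, mul_one]

/-- `1 - π = (1/2) (ρ2 (1, 1) + ρ2 (1, -1))` -/
theorem ρ2_proj {M : C} {G : Type} [Group G] (ρ : G →* End M) (π : End M) (hπ : π * π = π)
    (hc : ∀ g, ρ g * π = π * ρ g) :
    (2 : ℤ) • (1 - π) = ρ2 ρ π hπ hc (1, 1) + ρ2 ρ π hπ hc (1, -1) := by
  change (2 : ℤ) • (1 - π) = ρ 1 * refl2 π hπ 1 + ρ 1 * refl2 π hπ (-1)
  rw [map_one, map_one, one_mul, one_mul, TaG_neg, smul_sub, two_zsmul (1 : End M)]
  abel

omit [SymmetricCategory C] in
theorem TaG_refl {M T : C} (q : M ⊗ M ⟶ T) (π : End M) (hπ : π * π = π)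
    (hs : (show M ⟶ M from π) ▷ M ≫ q = M ◁ (show M ⟶ M from π) ≫ q) (ε : ℤˣ) :
    (show M ⟶ M from refl2 π hπ ε) ▷ M ≫ q = M ◁ (show M ⟶ M from refl2 π hπ ε) ≫ q := by
  rcases Int.units_eq_one_or ε with rfl | rfl
  · have h1 : (show M ⟶ M from refl2 π hπ 1) = 𝟙 M := by
      rw [map_one]
      rfl
    rw [h1, id_whiskerRight, whiskerLeft_id]
  · have h1 : (show M ⟶ M from refl2 π hπ (-1)) = 𝟙 M - (2 : ℤ) • (show M ⟶ M from π) := by
      rw [TaG_neg]
      rfl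
    have h2 : (𝟙 M - (2 : ℤ) • (show M ⟶ M from π)) ▷ M =
        𝟙 (M ⊗ M) - (2 : ℤ) • ((show M ⟶ M from π) ▷ M) := by
      have h3 := (tensorRight M).map_sub (f := 𝟙 M) (g := (2 : ℤ) • (show M ⟶ M from π))
      have h4 := (tensorRight M).map_zsmul (f := (show M ⟶ M from π)) (r := (2 : ℤ))
      rw [h4, (tensorRight M).map_id] at h3
      exact h3
    have h5 : M ◁ (𝟙 M - (2 : ℤ) • (show M ⟶ M from π)) =
        𝟙 (M ⊗ M) - (2 : ℤ) • (M ◁ (show M ⟶ M from π)) := by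
      have h3 := (tensorLeft M).map_sub (f := 𝟙 M) (g := (2 : ℤ) • (show M ⟶ M from π))
      have h4 := (tensorLeft M).map_zsmul (f := (show M ⟶ M from π)) (r := (2 : ℤ))
      rw [h4, (tensorLeft M).map_id] at h3
      exact h3
    rw [h1, h2, h5, Preadditive.sub_comp, Preadditive.sub_comp, Preadditive.zsmul_comp,
      Preadditive.zsmul_comp, hs]

theorem ρ2_adj {M T : C} (q : M ⊗ M ⟶ T) {G : Type} [Group G] [StarMul G] (ρ : G →* End M)
    (hρ : AdjG q ρ) (π : End M) (hπ : π * π = π) (hc : ∀ g, ρ g * π = π * ρ g)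
    (hs : (show M ⟶ M from π) ▷ M ≫ q = M ◁ (show M ⟶ M from π) ≫ q) :
    AdjG q (ρ2 ρ π hπ hc) := by
  intro x
  obtain ⟨g, ε⟩ := x
  have hε : star ε = ε := by
    apply Units.ext
    rfl
  have h1 : (show M ⟶ M from ρ2 ρ π hπ hc (g, ε)) =
      (show M ⟶ M from refl2 π hπ ε) ≫ (show M ⟶ M from ρ g) := rfl
  have h2 : (show M ⟶ M from ρ2 ρ π hπ hc (star (g, ε))) =
      (show M ⟶ M from ρ (star g)) ≫ (show M ⟶ M from refl2 π hπ ε) := by
    change (show M ⟶ M from ρ (star g) * refl2 π hπ (star ε)) = _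
    rw [hε, TaG_comm ρ π hπ hc]
    rfl
  rw [h1, h2, comp_whiskerRight, Category.assoc, hρ g, whiskerLeft_comp, Category.assoc,
    ← whisker_exchange_assoc, TaG_refl q π hπ hs ε]

end Pool.Agent.W868h60
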