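import Pool.Agent.W_868bb7_h60.TaA

set_option autoImplicit false

/-!
# TaM2: support

See the docstring.
-/

namespace Pool.Agent.W868h60

open CategoryTheory MonoidalCategory Equiv
open Pool.Agent.W_MP_868bb7_ag Pool.Agent.W_868bb7_h64

universe v u w

variable (K : Type w) [Field K] [CharZero K] {C : Type u} [Category.{v} C] [MonoidalCategory C]
  [Preadditive C] [Linear K C] [MonoidalPreadditive C] [MonoidalLinear K C]
  [SymmetricCategory C]

theorem TaM2_sum {A B : C} {ι : Type} [Fintype ι] {L : ι → C} (f : ∀ k, A ⟶ L k)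
    (g : ∀ k, L k ⟶ B) (s : A ⟶ B) (hs : s = ∑ k, f k ≫ g k) {Y : C} (F : B ⟶ Y)
    (h : ∀ k, g k ≫ F = 0) : s ≫ F = 0 := by
  rw [hs, Preadditive.sum_comp]
  refine Finset.sum_eq_zero fun k _ => ?_
  rw [Category.assoc, h k, Limits.comp_zero]

theorem TaM2_leg {M : C} {ι : Type} [Fintype ι] {L : ι → C} (l : ∀ k, M ⟶ L k)
    (w : ∀ k, L k ⟶ M) (π : End M) (hπw : (show M ⟶ M from π) = ∑ k, l k ≫ w k)
    {m : ℕ} {Y : C} (F : pow M (m + 1) ⟶ Y)
    (h : ∀ (k : ι) (σ : Equiv.Perm (Fin (m + 1))),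
      (w k ▷ pow M m : L k ⊗ pow M m ⟶ pow M (m + 1)) ≫ act M (m + 1) σ ≫ F = 0)
    (x : Fin (m + 1)) :
    (show pow M (m + 1) ⟶ pow M (m + 1) from st π x) ≫ F = 0 := by
  have h1 : ((show M ⟶ M from π) ▷ pow M m : M ⊗ pow M m ⟶ M ⊗ pow M m) =
      ∑ k, l k ▷ pow M m ≫ w k ▷ pow M m := by
    rw [hπw]
    have h2 := (tensorRight (pow M m)).map_sum (f := fun k => l k ≫ w k) (s := Finset.univ)
    have h3 : (∑ k, l k ≫ w k) ▷ pow M m = ∑ k, (l k ≫ w k) ▷ pow M m := h2
    rw [h3]
    exact Finset.sum_congr rfl (fun k _ => comp_whiskerRight _ _ _)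
  set σ : Equiv.Perm (Fin (m + 1)) := Equiv.swap 0 x with hσ
  have h4 : (show pow M (m + 1) ⟶ pow M (m + 1) from st π (0 : Fin (m + 1))) ≫
      act M (m + 1) σ ≫ F = 0 := by
    have h5 : (show pow M (m + 1) ⟶ pow M (m + 1) from st π (0 : Fin (m + 1))) =
        ∑ k, (l k ▷ pow M m ≫ w k ▷ pow M m : M ⊗ pow M m ⟶ M ⊗ pow M m) :=
      (st_zero π).trans h1
    exact TaM2_sum (A := M ⊗ pow M m) (B := M ⊗ pow M m) (fun k => l k ▷ pow M m)
      (fun k => w k ▷ pow M m) _ h5 (act M (m + 1) σ ≫ F) (fun k => h k σ)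
  have h7 : (show pow M (m + 1) ⟶ pow M (m + 1) from st π (0 : Fin (m + 1))) ≫
      act M (m + 1) σ =
      act M (m + 1) σ ≫ (show pow M (m + 1) ⟶ pow M (m + 1) from st π x) := by
    have h8 := rho_st σ π (0 : Fin (m + 1))
    rw [hσ, Equiv.swap_apply_left, ← hσ] at h8
    exact h8
  have h9 : act M (m + 1) σ ≫ (show pow M (m + 1) ⟶ pow M (m + 1) from st π x) ≫ F = 0 := by
    rw [← Category.assoc, ← h7, Category.assoc]
    exact h4
  have h10 : act M (m + 1) σ ≫ act M (m + 1) σ = 𝟙 _ := by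
    rw [← act_mul, hσ, Equiv.swap_mul_self, act_one]
  calc (show pow M (m + 1) ⟶ pow M (m + 1) from st π x) ≫ F =
      (act M (m + 1) σ ≫ act M (m + 1) σ) ≫
        (show pow M (m + 1) ⟶ pow M (m + 1) from st π x) ≫ F := by
          rw [h10, Category.id_comp]
    _ = 0 := by rw [Category.assoc, h9, Limits.comp_zero]

/-- if all contractions with the classes vanish then `F` is supported on the complement:
`(π ▷ _) ≫ act σ ≫ F = 0` for all `σ`, so `st (1 - π) x ≫ F = F` for all legs `x` (`pmv_act` with `σ = swap 0 x`),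
then all legs (finset induction as in `ZS_pm`). -/
theorem supp_of_con {M : C} {ι : Type} [Fintype ι] {L : ι → C} (l : ∀ k, M ⟶ L k)
    (w : ∀ k, L k ⟶ M) (π : End M) (hπw : (show M ⟶ M from π) = ∑ k, l k ≫ w k)
    {n : ℕ} {Y : C} (F : pow M n ⟶ Y)
    (h : ∀ (m : ℕ) (hm : m + 1 = n) (k : ι) (σ : Equiv.Perm (Fin (m + 1))),
      (w k ▷ pow M m : L k ⊗ pow M m ⟶ pow M (m + 1)) ≫ act M (m + 1) σ ≫
        eqToHom (congrArg (pow M) hm) ≫ F = 0) :
    pmv M n (fun _ => 1 - π) ≫ F = F := by
  classical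
  cases n with
  | zero => exact Category.id_comp F
  | succ m =>
    have h0 : ∀ (k : ι) (σ : Equiv.Perm (Fin (m + 1))),
        (w k ▷ pow M m : L k ⊗ pow M m ⟶ pow M (m + 1)) ≫ act M (m + 1) σ ≫ F = 0 := by
      intro k σ
      have h1 := h m rfl k σ
      rwa [eqToHom_refl, Category.id_comp] at h1
    have hleg : ∀ x : Fin (m + 1),
        (show pow M (m + 1) ⟶ pow M (m + 1) from st (1 - π) x) ≫ F = F := by
      intro x
      have h1 := TaM2_leg l w π hπw F h0 x
      have h2 : st (1 - π) x + st π x = (1 : End (pow M (m + 1))) := by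
        rw [← st_add, sub_add_cancel, st_one]
      have h3 : (show pow M (m + 1) ⟶ pow M (m + 1) from st (1 - π) x) +
          (show pow M (m + 1) ⟶ pow M (m + 1) from st π x) = 𝟙 _ := h2
      have h4 := congrArg (fun φ => φ ≫ F) h3
      simp only [Preadditive.add_comp, h1, add_zero, Category.id_comp] at h4
      exact h4
    have key : ∀ s : Finset (Fin (m + 1)),
        pmv M (m + 1) (fun i => if i ∈ s then 1 - π else 1) ≫ F = F := by
      intro s
      induction s using Finset.induction_on with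
      | empty =>
        have h1 : (fun i : Fin (m + 1) => if i ∈ (∅ : Finset (Fin (m + 1))) then 1 - π
            else (1 : End M)) = 1 := by
          funext i
          simp
        rw [h1, pmv_one, Category.id_comp]
      | insert j s hj ih =>
        have h1 : (fun i : Fin (m + 1) => if i ∈ insert j s then 1 - π else (1 : End M)) =
            Pi.mulSingle j (1 - π) * (fun i => if i ∈ s then 1 - π else 1) := by
          funext i
          rw [Pi.mul_apply]
          by_cases hi : i = j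
          · subst hi
            rw [Pi.mulSingle_eq_same]
            simp [hj]
          · rw [Pi.mulSingle_eq_of_ne hi, one_mul]
            simp [hi]
        rw [h1, pmv_mul, Category.assoc]
        have h2 : pmv M (m + 1) (Pi.mulSingle j (1 - π)) ≫ F = F := hleg j
        rw [h2, ih]
    have h2 := key Finset.univ
    have h3 : (fun i : Fin (m + 1) => if i ∈ (Finset.univ : Finset (Fin (m + 1))) then 1 - π
        else (1 : End M)) = fun _ => 1 - π := by
      funext i
      simp
    rw [h3] at h2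
    exact h2

end Pool.Agent.W868h60
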