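import Pool.Agent.W_868bb7_h60.TaM1
import Pool.Agent.W_868bb7_h60.TaM2

set_option autoImplicit false

/-!
# TaM: smash-nilpotent tautological forms vanish
-/

namespace Pool.Agent.W868h60

open CategoryTheory MonoidalCategory Equiv
open Pool.Agent.W_MP_868bb7_ag Pool.Agent.W_868bb7_h64

universe v u w

variable (K : Type w) [Field K] [CharZero K] {C : Type u} [Category.{v} C] [MonoidalCategory C]
  [Preadditive C] [Linear K C] [MonoidalPreadditive C] [MonoidalLinear K C]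
  [SymmetricCategory C]

omit [CharZero K] [MonoidalPreadditive C] [MonoidalLinear K C] [Linear K C] in
theorem TaM_idem {M T : C} (q : M ⊗ M ⟶ T) {G : Type} [Group G] (ρ : G →* End M)
    {ι : Type} [Fintype ι] {L : ι → C} (l : ∀ k, M ⟶ L k) (w : ∀ k, L k ⟶ M)
    (hD : TD q ρ l w) : (∑ k, l k ≫ w k) ≫ (∑ k, l k ≫ w k) = ∑ k, l k ≫ w k := by
  rw [Preadditive.sum_comp]
  refine Finset.sum_congr rfl (fun j _ => ?_)
  rw [Preadditive.comp_sum, Finset.sum_eq_single j]
  · rw [Category.assoc, ← Category.assoc (w j), hD.h1, Category.id_comp]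
  · intro k _ hk
    rw [Category.assoc, ← Category.assoc (w j), hD.h2 j k (Ne.symm hk), Limits.zero_comp,
      Limits.comp_zero]
  · intro h
    exact absurd (Finset.mem_univ j) h

variable [RightRigidCategory C] [UnitK K C]

/-- Strong induction on `n`.  The contractions (`con_taut`) are smash-nilpotent (`sm_comp`,
`sm_of_whisker`), so zero by induction; `supp_of_con`, `zs_of_taut`, `ZS_normal`, `main_all` for `ρ2`. -/
theorem taut_zero {M T T' : C} (e₀ : T ⊗ T' ≅ 𝟙_ C) (hT : (β_ T T).hom = 𝟙 _) (d : SD M T)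
    {G : Type} [Group G] [Finite G] [StarMul G] (ρ : G →* End M) (hρ : AdjG d.q ρ)
    {ι : Type} [Fintype ι] {L : ι → C} (l : ∀ k, M ⟶ L k) (w : ∀ k, L k ⟶ M) {L' : ι → C}
    (e : ∀ k, L k ⊗ L' k ≅ 𝟙_ C) (hD : TD d.q ρ l w)
    (n : ℕ) (Y : C) (F : pow M n ⟶ Y) (hF : Taut K d.q ρ l n Y F) (hs : Sm F) : F = 0 := by
  have hFL : ∀ k, Faith (L k) := fun k => faith_of_inv ((β_ (L' k) (L k)) ≪≫ e k)
  let π : End M := ∑ k, l k ≫ w k
  have hπw : (show M ⟶ M from π) = ∑ k, l k ≫ w k := rfl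
  have hπ : π * π = π := TaM_idem d.q ρ l w hD
  have hc : ∀ g, ρ g * π = π * ρ g := fun g => (hD.hcomm g).symm
  induction n using Nat.strong_induction_on generalizing Y with
  | _ n ih =>
    have h1 : ∀ (m : ℕ) (hm : m + 1 = n) (k : ι) (σ : Equiv.Perm (Fin (m + 1))),
        (w k ▷ pow M m : L k ⊗ pow M m ⟶ pow M (m + 1)) ≫ act M (m + 1) σ ≫
          eqToHom (congrArg (pow M) hm) ≫ F = 0 := by
      intro m hm k σ
      subst hm
      rw [eqToHom_refl, Category.id_comp]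
      obtain ⟨Ψ, hΨ, hΦ⟩ := con_taut K d.q ρ l w e d.qs hD F hF k σ
      have h2 : Sm ((w k ▷ pow M m : L k ⊗ pow M m ⟶ pow M (m + 1)) ≫
          act M (m + 1) σ ≫ F) := by
        have := sm_comp ((w k ▷ pow M m : L k ⊗ pow M m ⟶ pow M (m + 1)) ≫
          act M (m + 1) σ) F (𝟙 _) hs
        rwa [Category.comp_id, Category.assoc] at this
      have h3 : Sm (L k ◁ Ψ) := by
        have h4 : L k ◁ Ψ = 𝟙 _ ≫ ((w k ▷ pow M m : L k ⊗ pow M m ⟶ pow M (m + 1)) ≫
          act M (m + 1) σ ≫ F) ≫ (cun (e k) Y).inv := by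
          rw [hΦ, Category.id_comp, Category.assoc, Iso.hom_inv_id, Category.comp_id]
        rw [h4]
        exact sm_comp _ _ _ h2
      have h5 : Ψ = 0 := ih m (by omega) _ Ψ hΨ (sm_of_whisker (hFL k) Ψ h3)
      rw [hΦ, h5, MonoidalPreadditive.whiskerLeft_zero, Limits.zero_comp]
    have h6 := supp_of_con l w π hπw F h1
    have h7 := zs_of_taut K d.q ρ l w hD π hπ hc hπw hF
    rw [h6] at h7
    rcases ZS_normal K e₀ d.q (ρ2 ρ π hπ hc) F h7 with h8 | ⟨r, θ, F', hF', h8⟩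
    · exact h8
    · have h9 : Sm F' := by
        have h10 : F' = 𝟙 _ ≫ F ≫ θ.inv := by
          rw [h8, Category.id_comp, Category.assoc, Iso.hom_inv_id, Category.comp_id]
        rw [h10]
        exact sm_comp _ _ _ hs
      have h11 := main_all K e₀ hT d (ρ2 ρ π hπ hc) (ρ2_adj d.q ρ hρ π hπ hc hD.hself) r n F'
        hF' h9
      rw [h8, h11, Limits.zero_comp]

end Pool.Agent.W868h60
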