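import Pool.Agent.W_868bb7_h60.TaZ0

set_option autoImplicit false

/-!
# TaZ1: operators on legs

See the docstrings.
-/

namespace Pool.Agent.W868h60

open CategoryTheory MonoidalCategory Equiv
open Pool.Agent.W_MP_868bb7_ag Pool.Agent.W_868bb7_h64

universe v u w

variable (K : Type w) [Field K] {C : Type u} [Category.{v} C] [MonoidalCategory C]
  [Preadditive C] [Linear K C] [MonoidalPreadditive C] [MonoidalLinear K C]
  [SymmetricCategory C]

/-- one leg: `st f x ≫ _` is linear in `f` (`st_add`, `st_smul`), and `st (ρ h) x` is a decoration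
(`st f x = pm (Pi.mulSingle x f)`, `Pi.mulSingle` and `ρ 1 = 1`) -/
theorem ZS_st {M T : C} (q : M ⊗ M ⟶ T) {H : Type} [Group H] (ρ : H →* End M) {n : ℕ} {Y : C}
    (f : End M) (hf : f ∈ Submodule.span K (Set.range ρ)) (x : Fin n) (Φ : pow M n ⟶ Y)
    (h : Φ ∈ ZS K q ρ n Y) : (show pow M n ⟶ pow M n from st f x) ≫ Φ ∈ ZS K q ρ n Y := by
  induction hf using Submodule.span_induction with
  | mem y hy =>
    obtain ⟨g, rfl⟩ := hy
    have h1 : (Pi.mulSingle x (ρ g) : Fin n → End M) =
        fun i => ρ ((Pi.mulSingle x g : Fin n → H) i) := by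
      funext i
      by_cases hi : i = x
      · subst hi
        rw [Pi.mulSingle_eq_same, Pi.mulSingle_eq_same]
      · rw [Pi.mulSingle_eq_of_ne hi, Pi.mulSingle_eq_of_ne hi, map_one]
    have h2 : (show pow M n ⟶ pow M n from st (ρ g) x) =
        pmv M n (fun i => ρ ((Pi.mulSingle x g : Fin n → H) i)) := by
      rw [← h1]
      rfl
    rw [h2]
    exact ZS_grp K q ρ _ Φ h
  | zero =>
    have h1 : (show pow M n ⟶ pow M n from st (0 : End M) x) = 0 := by
      have h2 := st_smul K (0 : K) (0 : End M) x
      rw [zero_smul, zero_smul] at h2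
      exact h2
    rw [h1, Limits.zero_comp]
    exact Submodule.zero_mem _
  | add y z _ _ hy hz =>
    have h1 : (show pow M n ⟶ pow M n from st (y + z) x) =
        (show pow M n ⟶ pow M n from st y x) + (show pow M n ⟶ pow M n from st z x) :=
      st_add y z x
    rw [h1, Preadditive.add_comp]
    exact Submodule.add_mem _ hy hz
  | smul a y _ hy =>
    have h1 : (show pow M n ⟶ pow M n from st (a • y) x) =
        a • (show pow M n ⟶ pow M n from st y x) := st_smul K a y x
    rw [h1, Linear.smul_comp]
    exact Submodule.smul_mem _ _ hy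

/-- all legs: `pmv f` is a product of `st (f x) x` (induction on a finset of legs, with
`Pi.mulSingle`) -/
theorem ZS_pm {M T : C} (q : M ⊗ M ⟶ T) {H : Type} [Group H] (ρ : H →* End M) {n : ℕ} {Y : C}
    (f : Fin n → End M) (hf : ∀ i, f i ∈ Submodule.span K (Set.range ρ)) (Φ : pow M n ⟶ Y)
    (h : Φ ∈ ZS K q ρ n Y) : pmv M n f ≫ Φ ∈ ZS K q ρ n Y := by
  classical
  have key : ∀ s : Finset (Fin n),
      pmv M n (fun i => if i ∈ s then f i else 1) ≫ Φ ∈ ZS K q ρ n Y := by
    intro s
    induction s using Finset.induction_on with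
    | empty =>
      have h1 : (fun i : Fin n => if i ∈ (∅ : Finset (Fin n)) then f i else (1 : End M)) = 1 := by
        funext i
        simp
      rw [h1, pmv_one, Category.id_comp]
      exact h
    | insert j s hj ih =>
      have h1 : (fun i : Fin n => if i ∈ insert j s then f i else (1 : End M)) =
          (fun i => if i ∈ s then f i else 1) * Pi.mulSingle j (f j) := by
        funext i
        rw [Pi.mul_apply]
        by_cases hi : i = j
        · subst hi
          rw [Pi.mulSingle_eq_same]
          simp [hj]
        · rw [Pi.mulSingle_eq_of_ne hi, mul_one]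
          simp [hi]
      rw [h1, pmv_mul, Category.assoc]
      exact ZS_st K q ρ (f j) (hf j) j _ ih
  have h2 := key Finset.univ
  have h3 : (fun i : Fin n => if i ∈ (Finset.univ : Finset (Fin n)) then f i else (1 : End M)) =
      f := by
    funext i
    simp
  rw [h3] at h2
  exact h2

end Pool.Agent.W868h60
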