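import Pool.Agent.W_868bb7_h60.TaZ0

set_option autoImplicit false

/-!
# TaZ2: normal form

See the docstring.
-/

namespace Pool.Agent.W868h60

open CategoryTheory MonoidalCategory Equiv
open Pool.Agent.W_MP_868bb7_ag Pool.Agent.W_868bb7_h64

universe v u w

variable (K : Type w) [Field K] {C : Type u} [Category.{v} C] [MonoidalCategory C]
  [Preadditive C] [Linear K C] [MonoidalPreadditive C] [MonoidalLinear K C]
  [SymmetricCategory C]

omit [Preadditive C] [Linear K C] [MonoidalPreadditive C] [MonoidalLinear K C] in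
theorem TaZ2_inv {T T' : C} (e : T ⊗ T' ≅ 𝟙_ C) (r : ℕ) :
    Nonempty (pow T r ⊗ pow T' r ≅ 𝟙_ C) := by
  induction r with
  | zero => exact ⟨λ_ (𝟙_ C)⟩
  | succ r ih =>
    obtain ⟨i⟩ := ih
    exact ⟨(⟨tensorμ T (pow T r) T' (pow T' r), tensorδ T (pow T r) T' (pow T' r),
      tensorμ_tensorδ _ _ _ _, tensorδ_tensorμ _ _ _ _⟩ :
        (T ⊗ pow T r) ⊗ (T' ⊗ pow T' r) ≅ (T ⊗ T') ⊗ (pow T r ⊗ pow T' r)) ≪≫
      (e ⊗ᵢ i) ≪≫ λ_ (𝟙_ C)⟩

/-- Elements of `ZS` are zero or a combination of decorated matchings with one isomorphism: `r` is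
determined by `n`, and two isomorphisms `pow T r ≅ Y` differ by a scalar (`end_scalar` for `pow T r`). -/
theorem ZS_normal [UnitK K C] {M T T' : C} (e₀ : T ⊗ T' ≅ 𝟙_ C) (q : M ⊗ M ⟶ T) {H : Type}
    [Group H] (ρ : H →* End M) {n : ℕ} {Y : C} (Φ : pow M n ⟶ Y) (h : Φ ∈ ZS K q ρ n Y) :
    Φ = 0 ∨ ∃ (r : ℕ) (θ : pow T r ≅ Y) (F : pow M n ⟶ pow T r), F ∈ LS K q ρ n r ∧
      Φ = F ≫ θ.hom := by
  have key : Φ = 0 ∨ ∃ (r : ℕ) (θ : pow T r ≅ Y) (F : pow M n ⟶ pow T r), n = 2 * r ∧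
      F ∈ LS K q ρ n r ∧ Φ = F ≫ θ.hom := by
    unfold ZS at h
    induction h using Submodule.span_induction with
    | mem x hx =>
      obtain ⟨r, e, g, θ, rfl⟩ := hx
      exact Or.inr ⟨r, θ, dm q ρ n r e g, Fin.equiv_iff_eq.1 ⟨e⟩,
        Submodule.subset_span ⟨e, g, rfl⟩, rfl⟩
    | zero => exact Or.inl rfl
    | add x y _ _ hx hy =>
      rcases hx with rfl | ⟨r, θ, F, hn, hF, rfl⟩
      · rw [zero_add]
        exact hy
      · rcases hy with rfl | ⟨r', θ', F', hn', hF', rfl⟩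
        · rw [add_zero]
          exact Or.inr ⟨r, θ, F, hn, hF, rfl⟩
        · obtain rfl : r = r' := by omega
          obtain ⟨i⟩ := TaZ2_inv e₀ r
          obtain ⟨a, ha⟩ := end_scalar K i (θ'.hom ≫ θ.inv)
          have h1 : θ'.hom = a • θ.hom := by
            have h2 := congrArg (fun φ => φ ≫ θ.hom) ha
            simpa using h2
          refine Or.inr ⟨r, θ, F + a • F', hn, Submodule.add_mem _ hF (Submodule.smul_mem _ _ hF'), ?_⟩
          rw [h1, Preadditive.add_comp, Linear.comp_smul, Linear.smul_comp]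
    | smul a x _ hx =>
      rcases hx with rfl | ⟨r, θ, F, hn, hF, rfl⟩
      · exact Or.inl (smul_zero a)
      · exact Or.inr ⟨r, θ, a • F, hn, Submodule.smul_mem _ _ hF, by rw [Linear.smul_comp]⟩
  rcases key with h0 | ⟨r, θ, F, _, hF, h1⟩
  · exact Or.inl h0
  · exact Or.inr ⟨r, θ, F, hF, h1⟩

end Pool.Agent.W868h60
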