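import Pool.Agent.W_868bb7_h60.TaE
import Pool.Agent.W_868bb7_h60.TaZ1
import Pool.Agent.W_868bb7_h60.TaZ2

set_option autoImplicit false

/-!
# TaM1: tautological forms restricted to the complement of the classes

See the docstring.
-/

namespace Pool.Agent.W868h60

open CategoryTheory MonoidalCategory Equiv
open Pool.Agent.W_MP_868bb7_ag Pool.Agent.W_868bb7_h64

universe v u w

variable (K : Type w) [Field K] [CharZero K] {C : Type u} [Category.{v} C] [MonoidalCategory C]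
  [Preadditive C] [Linear K C] [MonoidalPreadditive C] [MonoidalLinear K C]
  [SymmetricCategory C]

omit [CharZero K] in
theorem TaM1_cls {M T : C} (q : M ⊗ M ⟶ T) {G : Type} [Group G] (ρ : G →* End M) {ι : Type}
    [Fintype ι] {L : ι → C} (l : ∀ k, M ⟶ L k) (w : ∀ k, L k ⟶ M) (hD : TD q ρ l w)
    (π : End M) (hπw : (show M ⟶ M from π) = ∑ k, l k ≫ w k) (k : ι) :
    (show M ⟶ M from (1 - π : End M)) ≫ l k = 0 := by
  have h1 : (show M ⟶ M from (1 - π : End M)) = 𝟙 M - (show M ⟶ M from π) := rfl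
  rw [h1, hπw, Preadditive.sub_comp, Category.id_comp, Preadditive.sum_comp,
    Finset.sum_eq_single k, Category.assoc, hD.h1, Category.comp_id, sub_self]
  · intro j _ hj
    rw [Category.assoc, hD.h2 j k hj, Limits.comp_zero]
  · intro h
    exact absurd (Finset.mem_univ k) h

theorem TaM1_mem {M : C} {G : Type} [Group G] (ρ : G →* End M) (π : End M) (hπ : π * π = π)
    (hc : ∀ g, ρ g * π = π * ρ g) :
    (1 - π : End M) ∈ Submodule.span K (Set.range (ρ2 ρ π hπ hc)) := by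
  have h1 := ρ2_proj ρ π hπ hc
  have h2 : (1 - π : End M) = (2 : K)⁻¹ • (ρ2 ρ π hπ hc (1, 1) + ρ2 ρ π hπ hc (1, -1)) := by
    rw [← h1, two_zsmul, ← two_smul K (1 - π), smul_smul, inv_mul_cancel₀ two_ne_zero, one_smul]
  rw [h2]
  exact Submodule.smul_mem _ _ (Submodule.add_mem _ (Submodule.subset_span ⟨_, rfl⟩)
    (Submodule.subset_span ⟨_, rfl⟩))

omit [CharZero K] [Preadditive C] [Linear K C] [MonoidalPreadditive C] [MonoidalLinear K C]
  [SymmetricCategory C] in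
/-- two trivial legs in front -/
theorem TaM1_two {M : C} (n : ℕ) (f : Fin n → End M) :
    (pmv M (n + 2) (Fin.cons 1 (Fin.cons 1 f) : Fin (n + 2) → End M) :
      M ⊗ (M ⊗ pow M n) ⟶ M ⊗ (M ⊗ pow M n)) = M ◁ (M ◁ pmv M n f) := by
  change (show M ⟶ M from (Fin.cons 1 (Fin.cons 1 f) : Fin (n + 2) → End M) 0) ⊗ₘ
    ((show M ⟶ M from (Fin.cons 1 (Fin.cons 1 f) : Fin (n + 2) → End M) (0 : Fin (n + 1)).succ) ⊗ₘ
      pmv M n (fun i => (Fin.cons 1 (Fin.cons 1 f) : Fin (n + 2) → End M) i.succ.succ)) = _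
  simp only [Fin.cons_zero, Fin.cons_succ]
  change 𝟙 M ⊗ₘ (𝟙 M ⊗ₘ pmv M n f) = _
  rw [id_tensorHom, id_tensorHom]

omit [CharZero K] [Linear K C] [MonoidalPreadditive C] [MonoidalLinear K C]
  [SymmetricCategory C] in
/-- `(⊗ (1 - π)) ≫ (α⁻¹ ≫ (q ⊗ F) ≫ θ)` -/
theorem TaM1_pair {M T : C} (q : M ⊗ M ⟶ T) (p : End M)
    {n : ℕ} {Y Y' : C} (F : pow M n ⟶ Y) (θ : T ⊗ Y ≅ Y') :
    pmv M (n + 2) (fun _ => p) ≫ ((α_ M M (pow M n)).inv ≫ (q ⊗ₘ F) ≫ θ.hom :
      pow M (n + 2) ⟶ Y') =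
    pmv M (n + 2) (Fin.cons p (Fin.cons p 1)) ≫
      ((α_ M M (pow M n)).inv ≫ (q ⊗ₘ (pmv M n (fun _ => p) ≫ F)) ≫ θ.hom :
        pow M (n + 2) ⟶ Y') := by
  have h1 : (fun _ => p : Fin (n + 2) → End M) =
      (Fin.cons 1 (Fin.cons 1 (fun _ => p)) : Fin (n + 2) → End M) *
        (Fin.cons p (Fin.cons p 1) : Fin (n + 2) → End M) := by
    funext i
    refine Fin.cases ?_ (fun i => ?_) i
    · simp
    · refine Fin.cases ?_ (fun i => ?_) i
      · simp
      · simp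
  rw [h1, pmv_mul, Category.assoc]
  congr 1
  have h2 : (M ◁ (M ◁ pmv M n (fun _ => p)) ≫ (α_ M M (pow M n)).inv ≫ (q ⊗ₘ F)) =
      (α_ M M (pow M n)).inv ≫ (q ⊗ₘ (pmv M n (fun _ => p) ≫ F)) := by
    rw [associator_inv_naturality_right_assoc, ← id_tensorHom, tensorHom_comp_tensorHom,
      Category.id_comp]
  have h3 := congrArg (fun φ => φ ≫ θ.hom) h2
  simp only [Category.assoc] at h3
  rw [← TaM1_two] at h3
  exact h3

/-- Induction on `Taut`: `(⊗ (1 - π)) ≫ F ∈ ZS (ρ2 ..)`.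
`one`: `ZS_one`.  `cls`: `(1 - π) ≫ l k = 0`.  `pair`: `ZS_pair`, then `ZS_pm` (for the first two legs; or:
`(⊗ (1 - π)) ≫ (α⁻¹ ≫ (q ⊗ F) ≫ θ) = pmv (1 - π, 1 - π, 1, ..) ≫ α⁻¹ ≫ (q ⊗ ((⊗ (1 - π)) ≫ F)) ≫ θ`), `ρ2_proj`.
`perm`: `pmv_act` (constant decoration), `ZS_act`.  `grp`: `1 - π` commutes with `ρ g`, `ρ2_one`, `ZS_grp`. -/
theorem zs_of_taut {M T : C} (q : M ⊗ M ⟶ T) {G : Type} [Group G] (ρ : G →* End M) {ι : Type}
    [Fintype ι] {L : ι → C} (l : ∀ k, M ⟶ L k) (w : ∀ k, L k ⟶ M) (hD : TD q ρ l w)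
    (π : End M) (hπ : π * π = π) (hc : ∀ g, ρ g * π = π * ρ g)
    (hπw : (show M ⟶ M from π) = ∑ k, l k ≫ w k)
    {n : ℕ} {Y : C} {F : pow M n ⟶ Y} (hF : Taut K q ρ l n Y F) :
    pmv M n (fun _ => 1 - π) ≫ F ∈ ZS K q (ρ2 ρ π hπ hc) n Y := by
  induction hF with
  | one θ =>
    have h1 : pmv M 0 (fun _ => 1 - π) ≫ θ.hom = θ.hom := Category.id_comp _
    rw [h1]
    exact ZS_one K q _ θ
  | @cls n Y Y' k F θ _ _ =>
    have h1 : pmv M (n + 1) (fun _ => 1 - π) ≫ ((l k ⊗ₘ F) ≫ θ.hom) = 0 := by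
      have h2 : ((show M ⟶ M from (1 - π : End M)) ⊗ₘ pmv M n (fun _ => 1 - π)) ≫ (l k ⊗ₘ F) = 0 := by
        rw [tensorHom_comp_tensorHom, TaM1_cls q ρ l w hD π hπw k, MonoidalCategory.tensorHom_def,
          MonoidalPreadditive.zero_whiskerRight, Limits.zero_comp]
      have h3 := congrArg (fun φ => φ ≫ θ.hom) h2
      simp only [Category.assoc, Limits.zero_comp] at h3
      exact h3
    rw [h1]
    exact Submodule.zero_mem _
  | pair F θ _ ih =>
    rw [TaM1_pair]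
    refine ZS_pm K q _ _ (fun i => ?_) _ (ZS_pair K q _ θ _ ih)
    have hp := TaM1_mem K ρ π hπ hc
    have h1 : (1 : End M) ∈ Submodule.span K (Set.range (ρ2 ρ π hπ hc)) :=
      Submodule.subset_span ⟨1, map_one _⟩
    refine Fin.cases ?_ (fun i => ?_) i
    · rw [Fin.cons_zero]
      exact hp
    · refine Fin.cases ?_ (fun i => ?_) i
      · rw [Fin.cons_succ, Fin.cons_zero]
        exact hp
      · rw [Fin.cons_succ, Fin.cons_succ, Pi.one_apply]
        exact h1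
  | perm σ F _ ih =>
    rw [← Category.assoc, pmv_act, Category.assoc]
    exact ZS_act K q _ σ _ ih
  | @grp n Y g F _ ih =>
    have h1 : pmv M n (fun _ => 1 - π) ≫ pmv M n (fun i => ρ (g i)) =
        pmv M n (fun i => ρ2 ρ π hπ hc (g i, 1)) ≫ pmv M n (fun _ => 1 - π) := by
      rw [← pmv_mul, ← pmv_mul]
      congr 1
      funext i
      rw [Pi.mul_apply, Pi.mul_apply, ρ2_one, mul_sub, sub_mul, mul_one, one_mul, hc]
    rw [← Category.assoc, h1, Category.assoc]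
    exact ZS_grp K q _ (fun i => (g i, 1)) _ ih
  | zero n Y =>
    rw [Limits.comp_zero]
    exact Submodule.zero_mem _
  | add F F' _ _ ih ih' =>
    rw [Preadditive.comp_add]
    exact Submodule.add_mem _ ih ih'
  | smul a F _ ih =>
    rw [Linear.comp_smul]
    exact Submodule.smul_mem _ _ ih

end Pool.Agent.W868h60
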