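import Pool.Agent.W_868bb7_h60.TaG

set_option autoImplicit false

/-!
# TaZ0: span of the decorated matchings with any target

`act_dm`, `pmv_dm`; `ZS_pair`: `r + 1`, `shE (shE e)`, decorations `Fin.cons 1 (Fin.cons 1 g)`, isomorphism
`whiskerLeftIso T θ₀ ≪≫ θ` (`pow T (r + 1) = T ⊗ pow T r`), `actE_shE`, `qa_succ`.
-/

namespace Pool.Agent.W868h60

open CategoryTheory MonoidalCategory Equiv
open Pool.Agent.W_MP_868bb7_ag Pool.Agent.W_868bb7_h64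

universe v u w

variable (K : Type w) [Field K] {C : Type u} [Category.{v} C] [MonoidalCategory C]
  [Preadditive C] [Linear K C] [MonoidalPreadditive C] [MonoidalLinear K C]
  [SymmetricCategory C]

/-- span of the decorated matchings composed with isomorphisms -/
def ZS {M T : C} (q : M ⊗ M ⟶ T) {H : Type} [Group H] (ρ : H →* End M) (n : ℕ) (Y : C) :
    Submodule K (pow M n ⟶ Y) :=
  Submodule.span K {Φ | ∃ (r : ℕ) (e : Fin n ≃ Fin (2 * r)) (g : Fin n → H) (θ : pow T r ≅ Y),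
    Φ = dm q ρ n r e g ≫ θ.hom}

theorem ZS_act {M T : C} (q : M ⊗ M ⟶ T) {H : Type} [Group H] (ρ : H →* End M) {n : ℕ} {Y : C}
    (σ : Equiv.Perm (Fin n)) (Φ : pow M n ⟶ Y) (h : Φ ∈ ZS K q ρ n Y) :
    act M n σ ≫ Φ ∈ ZS K q ρ n Y := by
  unfold ZS at h ⊢
  induction h using Submodule.span_induction with
  | mem x hx =>
    obtain ⟨r, e, g, θ, rfl⟩ := hx
    have h1 : act M n σ ≫ dm q ρ n r e g = dm q ρ n r (σ.trans e) (fun i => g (σ i)) := by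
      rw [← actE_perm]
      exact act_dm q ρ n n r e g σ
    rw [← Category.assoc, h1]
    exact Submodule.subset_span ⟨r, _, _, θ, rfl⟩
  | zero =>
    rw [Limits.comp_zero]
    exact Submodule.zero_mem _
  | add x y _ _ hx hy =>
    rw [Preadditive.comp_add]
    exact Submodule.add_mem _ hx hy
  | smul a x _ hx =>
    rw [Linear.comp_smul]
    exact Submodule.smul_mem _ _ hx

theorem ZS_grp {M T : C} (q : M ⊗ M ⟶ T) {H : Type} [Group H] (ρ : H →* End M) {n : ℕ} {Y : C}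
    (g : Fin n → H) (Φ : pow M n ⟶ Y) (h : Φ ∈ ZS K q ρ n Y) :
    pmv M n (fun i => ρ (g i)) ≫ Φ ∈ ZS K q ρ n Y := by
  unfold ZS at h ⊢
  induction h using Submodule.span_induction with
  | mem x hx =>
    obtain ⟨r, e, g', θ, rfl⟩ := hx
    rw [← Category.assoc, pmv_dm]
    exact Submodule.subset_span ⟨r, _, _, θ, rfl⟩
  | zero =>
    rw [Limits.comp_zero]
    exact Submodule.zero_mem _
  | add x y _ _ hx hy =>
    rw [Preadditive.comp_add]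
    exact Submodule.add_mem _ hx hy
  | smul a x _ hx =>
    rw [Linear.comp_smul]
    exact Submodule.smul_mem _ _ hx

omit [MonoidalPreadditive C] [MonoidalLinear K C] in
theorem TaZ0_zero [MonoidalPreadditive C] {Z A B T Y Y' : C} (a : Z ⟶ A ⊗ B) (q : A ⟶ T)
    (t : T ⊗ Y ⟶ Y') : a ≫ (q ⊗ₘ (0 : B ⟶ Y)) ≫ t = 0 := by
  rw [MonoidalCategory.tensorHom_def, MonoidalPreadditive.whiskerLeft_zero, Limits.comp_zero,
    Limits.zero_comp, Limits.comp_zero]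

omit [MonoidalPreadditive C] [MonoidalLinear K C] in
theorem TaZ0_add [MonoidalPreadditive C] {Z A B T Y Y' : C} (a : Z ⟶ A ⊗ B) (q : A ⟶ T)
    (x y : B ⟶ Y) (t : T ⊗ Y ⟶ Y') :
    a ≫ (q ⊗ₘ (x + y)) ≫ t = a ≫ (q ⊗ₘ x) ≫ t + a ≫ (q ⊗ₘ y) ≫ t := by
  rw [MonoidalCategory.tensorHom_def, MonoidalCategory.tensorHom_def,
    MonoidalCategory.tensorHom_def, MonoidalPreadditive.whiskerLeft_add,
    Preadditive.comp_add, Preadditive.add_comp, Preadditive.comp_add]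

theorem TaZ0_smul {Z A B T Y Y' : C} (a : Z ⟶ A ⊗ B) (q : A ⟶ T)
    (c : K) (x : B ⟶ Y) (t : T ⊗ Y ⟶ Y') :
    a ≫ (q ⊗ₘ (c • x)) ≫ t = c • (a ≫ (q ⊗ₘ x) ≫ t) := by
  rw [MonoidalCategory.tensorHom_def, MonoidalCategory.tensorHom_def,
    MonoidalLinear.whiskerLeft_smul, Linear.comp_smul, Linear.smul_comp, Linear.comp_smul]

/-- one more chord in front -/
theorem TaZ0_dm {M T : C} (q : M ⊗ M ⟶ T) {H : Type} [Group H] (ρ : H →* End M) (n r : ℕ)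
    (e : Fin n ≃ Fin (2 * r)) (g : Fin n → H) :
    ((α_ M M (pow M n)).inv ≫ (q ⊗ₘ dm q ρ n r e g) : pow M (n + 2) ⟶ T ⊗ pow T r) =
      dm q ρ (n + 2) (r + 1) (shE (shE e)) (Fin.cons 1 (Fin.cons 1 g)) := by
  have h1 : (pmv M (n + 2) (fun i => ρ ((Fin.cons 1 (Fin.cons 1 g) : Fin (n + 2) → H) i)) :
      M ⊗ (M ⊗ pow M n) ⟶ M ⊗ (M ⊗ pow M n)) = M ◁ (M ◁ pmv M n (fun i => ρ (g i))) := by
    change (show M ⟶ M from ρ ((Fin.cons 1 (Fin.cons 1 g) : Fin (n + 2) → H) 0)) ⊗ₘ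
      ((show M ⟶ M from ρ ((Fin.cons 1 (Fin.cons 1 g) : Fin (n + 2) → H) (0 : Fin (n + 1)).succ)) ⊗ₘ
        pmv M n (fun i => ρ ((Fin.cons 1 (Fin.cons 1 g) : Fin (n + 2) → H) i.succ.succ))) = _
    simp only [Fin.cons_zero, Fin.cons_succ, map_one]
    change 𝟙 M ⊗ₘ (𝟙 M ⊗ₘ pmv M n (fun i => ρ (g i))) = _
    rw [id_tensorHom, id_tensorHom]
  have h2 : (actE M (shE (shE e)) : M ⊗ (M ⊗ pow M n) ⟶ M ⊗ (M ⊗ pow M (2 * r))) =
      M ◁ (M ◁ actE M e) := by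
    have h3 := actE_shE M (shE e)
    have h4 := actE_shE M e
    rw [h4] at h3
    exact h3
  unfold dm
  have h5 : (pmv M (n + 2) (fun i => ρ ((Fin.cons 1 (Fin.cons 1 g) : Fin (n + 2) → H) i)) ≫
      actE M (shE (shE e)) ≫ qa q (r + 1) : pow M (n + 2) ⟶ pow T (r + 1)) =
      M ◁ (M ◁ pmv M n (fun i => ρ (g i))) ≫ M ◁ (M ◁ actE M e) ≫
        (α_ M M (pow M (2 * r))).inv ≫ (q ⊗ₘ qa q r) := by
    rw [← h1, ← h2, ← qa_succ]
    rfl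
  rw [h5]
  have h6 : (M ◁ (M ◁ actE M e) ≫ (α_ M M (pow M (2 * r))).inv ≫ (q ⊗ₘ qa q r)) =
      (α_ M M (pow M n)).inv ≫ (q ⊗ₘ (actE M e ≫ qa q r)) := by
    rw [associator_inv_naturality_right_assoc, ← id_tensorHom, tensorHom_comp_tensorHom,
      Category.id_comp]
  rw [h6, associator_inv_naturality_right_assoc, ← id_tensorHom (M ⊗ M), tensorHom_comp_tensorHom,
    Category.id_comp]
  rfl

theorem ZS_pair {M T : C} (q : M ⊗ M ⟶ T) {H : Type} [Group H] (ρ : H →* End M) {n : ℕ}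
    {Y Y' : C} (θ : T ⊗ Y ≅ Y') (Φ : pow M n ⟶ Y) (h : Φ ∈ ZS K q ρ n Y) :
    ((α_ M M (pow M n)).inv ≫ (q ⊗ₘ Φ) ≫ θ.hom : pow M (n + 2) ⟶ Y') ∈ ZS K q ρ (n + 2) Y' := by
  unfold ZS at h ⊢
  induction h using Submodule.span_induction with
  | mem x hx =>
    obtain ⟨r, e, g, θ₀, rfl⟩ := hx
    have h1 : (q ⊗ₘ (dm q ρ n r e g ≫ θ₀.hom)) = (q ⊗ₘ dm q ρ n r e g) ≫ T ◁ θ₀.hom := by
      rw [← id_tensorHom, tensorHom_comp_tensorHom, Category.comp_id]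
    have h2 : ((α_ M M (pow M n)).inv ≫ (q ⊗ₘ (dm q ρ n r e g ≫ θ₀.hom)) ≫ θ.hom :
        pow M (n + 2) ⟶ Y') =
        dm q ρ (n + 2) (r + 1) (shE (shE e)) (Fin.cons 1 (Fin.cons 1 g)) ≫
          (whiskerLeftIso T θ₀ ≪≫ θ).hom := by
      rw [← TaZ0_dm, h1]
      simp only [Iso.trans_hom, whiskerLeftIso_hom, Category.assoc]
      exact (Category.assoc _ _ _).symm
    rw [h2]
    exact Submodule.subset_span ⟨r + 1, _, _, whiskerLeftIso T θ₀ ≪≫ θ, rfl⟩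
  | zero =>
    have h1 : ((α_ M M (pow M n)).inv ≫ (q ⊗ₘ (0 : pow M n ⟶ Y)) ≫ θ.hom :
        pow M (n + 2) ⟶ Y') = 0 := TaZ0_zero _ _ _
    rw [h1]
    exact Submodule.zero_mem _
  | add x y _ _ hx hy =>
    have h1 : ((α_ M M (pow M n)).inv ≫ (q ⊗ₘ (x + y)) ≫ θ.hom : pow M (n + 2) ⟶ Y') =
        ((α_ M M (pow M n)).inv ≫ (q ⊗ₘ x) ≫ θ.hom : pow M (n + 2) ⟶ Y') +
          ((α_ M M (pow M n)).inv ≫ (q ⊗ₘ y) ≫ θ.hom : pow M (n + 2) ⟶ Y') :=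
      TaZ0_add _ _ _ _ _
    rw [h1]
    exact Submodule.add_mem _ hx hy
  | smul a x _ hx =>
    have h1 : ((α_ M M (pow M n)).inv ≫ (q ⊗ₘ (a • x)) ≫ θ.hom : pow M (n + 2) ⟶ Y') =
        a • ((α_ M M (pow M n)).inv ≫ (q ⊗ₘ x) ≫ θ.hom : pow M (n + 2) ⟶ Y') :=
      TaZ0_smul K _ _ _ _ _
    rw [h1]
    exact Submodule.smul_mem _ _ hx

theorem ZS_one {M T : C} (q : M ⊗ M ⟶ T) {H : Type} [Group H] (ρ : H →* End M) {Y : C}
    (θ : 𝟙_ C ≅ Y) : (θ.hom : pow M 0 ⟶ Y) ∈ ZS K q ρ 0 Y := by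
  unfold ZS
  refine Submodule.subset_span ⟨0, Equiv.refl (Fin 0), fun _ => 1, θ, ?_⟩
  have h1 : dm q ρ 0 0 (Equiv.refl (Fin 0)) (fun _ => 1) = 𝟙 (𝟙_ C) := by
    unfold dm
    have h2 : (actE M (Equiv.refl (Fin 0)) : pow M 0 ⟶ pow M 0) = 𝟙 _ := actE_refl M 0
    have h3 : (actE M (Equiv.refl (Fin 0)) : pow M 0 ⟶ pow M (2 * 0)) = 𝟙 (𝟙_ C) := h2
    erw [h3]
    exact (Category.id_comp _).trans (Category.id_comp _)
  rw [h1]
  exact (Category.id_comp _).symm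

end Pool.Agent.W868h60
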